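import Pool.Agent.X44.GR.V2

/-!
# Weights of the end point in the full plane
-/

set_option autoImplicit false
set_option linter.unusedVariables false

namespace Pool.Agent.X44.GR.W

open Finset Pool.Agent.H976R2 Pool.Agent.H739K Pool.Agent.X44.GR
open scoped Classical
open Pool.Agent.H976R2.Lip (PP dv)

lemma l1_le (u : List Dir) : |wX u| + |wY u| ≤ (u.length : ℤ) := by
  induction u with
  | nil => simp
  | cons a u ih =>
    rw [wX_cons, wY_cons, List.length_cons]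
    have h3 : |dx a| + |dy a| = 1 := by cases a <;> simp [dx, dy]
    have h4 := abs_add_le (dx a) (wX u)
    have h5 := abs_add_le (dy a) (wY u)
    push_cast
    linarith

lemma end_ne {m : ℕ} (hm : 1 ≤ m) {w : List Dir} (hw : w ∈ SW m) : (wX w, wY w) ≠ 0 := by
  intro h0
  obtain ⟨hlen, hsaw⟩ := mem_SW.mp hw
  rw [Prod.mk_eq_zero] at h0
  refine hsaw [] w [] (by simp) ?_ h0
  intro hnil
  rw [hnil] at hlen
  simp at hlen
  omega

/-- the sum of the weights of the end points -/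
noncomputable def S (ψ : ℤ × ℤ → ℝ) (m : ℕ) : ℝ := ∑ w ∈ SW m, ψ (wX w, wY w)

lemma S_eq (ψ : ℤ × ℤ → ℝ) (m : ℕ) :
    mom (fw ({()} : Finset Unit) (fun _ => Set.univ) (fun _ w => ψ (wX w, wY w))) m = S ψ m := by
  unfold mom fw S
  refine sum_congr rfl (fun w hw => ?_)
  rw [sum_singleton]
  exact if_pos (fun k _ => Set.mem_univ _)

theorem weight_full (A : ℝ) : ∃ K : ℝ, 0 ≤ K ∧
    ∀ (ψ : ℤ × ℤ → ℝ) (n : ℕ), 3 ≤ n → (∀ x, 0 ≤ ψ x) →
    (∀ m : ℕ, n ≤ 2 * m → m ≤ 2 * n + 2 → m % 2 = n % 2 → ∀ x : ℤ × ℤ, |x.1| + |x.2| ≤ m → x ≠ 0 →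
      ψ x ≤ Real.exp (A * Real.log m ^ 2)) →
    (∀ m : ℕ, n ≤ 2 * m → m ≤ 2 * n → m % 2 = n % 2 →
      H981.mu ^ m * Real.exp (-(A * Real.log m ^ 2)) ≤ S ψ m) →
    |S ψ (n + 2) / (H981.mu ^ 2 * S ψ n) - 1| ≤ K * (Real.log n / √n) := by
  have hA : 0 ≤ |A| := abs_nonneg A
  obtain ⟨K, hK, h⟩ := main_full |A| 0 hA le_rfl
  have hmu := H981.mu_pos
  refine ⟨K, hK, fun ψ n hn hψ hle hlow => ?_⟩
  have hFam : Fam |A| 0 2 ({()} : Finset Unit) (fun _ => Set.univ) (fun _ w => ψ (wX w, wY w)) n := by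
    refine ⟨fun θ _ w => hψ _, fun m g1 g2 g3 => ⟨fun _ => Real.exp (|A| * Real.log m ^ 2),
      fun θ _ w hw => ?_, by rw [sum_singleton]⟩, fun m g1 g2 g3 θ _ w hw => ?_, fun m g1 g2 g3 => ?_⟩
    · have hl0 : 0 ≤ Real.log (m : ℝ) ^ 2 := sq_nonneg _
      refine (hle m g1 g2 g3 (wX w, wY w) ?_ ?_).trans (Real.exp_le_exp.2 ?_)
      · have := l1_le w
        rw [(mem_SW.mp hw).1] at this
        exact this
      · exact end_ne (by omega) hw
      · exact mul_le_mul_of_nonneg_right (le_abs_self A) hl0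
    · refine le_of_eq ?_
      rw [zero_mul]
      refine sum_eq_zero (fun p hp => ?_)
      have hp' : (p.1, p.2) ∈ adm w := hp
      have hi := (H976R2.mem_adm.mp hp').1
      rw [wX_ins p.2 hi, wY_ins p.2 hi, sub_self, abs_zero]
    · rw [S_eq]
      refine le_trans ?_ (hlow m g1 g2 g3)
      apply mul_le_mul_of_nonneg_left _ (by positivity)
      apply Real.exp_le_exp.2
      have hl0 : 0 ≤ Real.log (m : ℝ) ^ 2 := sq_nonneg _
      nlinarith [le_abs_self A]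
  have h1 := h Unit {()} _ n hn hFam
  rw [S_eq, S_eq] at h1
  exact h1

lemma S_one (m : ℕ) : S (fun _ => 1) m = ((SW m).card : ℝ) := by
  unfold S
  rw [sum_const, nsmul_eq_mul, mul_one]

lemma mu_pow_le_card (m : ℕ) : H981.mu ^ m ≤ ((SW m).card : ℝ) := by
  rw [SWR.card_eq_cr']; exact H981.mu_pow_le m

lemma quot {K1 K2 : ℝ} (hK1 : 0 ≤ K1) (hK2 : 0 ≤ K2) : ∃ K : ℝ, 0 ≤ K ∧ ∀ n : ℕ, 3 ≤ n →
    ∀ x y : ℝ, 0 ≤ x → |x - 1| ≤ K1 * (Real.log n / √n) → |y - 1| ≤ K1 * (Real.log n / √n) →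
    Real.exp (-(K2 * Real.log n ^ 2)) ≤ y → |x / y - 1| ≤ K * (Real.log n / √n) := by
  obtain ⟨n0, hn0⟩ := exists_big (2 * K1 ^ 2) (by positivity) 0 2
  obtain ⟨M, hM⟩ : ∃ M : ℝ, M = (1 + K1 * n0) * Real.exp (K2 * Real.log n0 ^ 2) + 1 := ⟨_, rfl⟩
  have hM0 : 0 ≤ M := by rw [hM]; positivity
  refine ⟨4 * K1 + M * √n0, by positivity, fun n hn x y hx0 hx hy hlow => ?_⟩
  have hn' : (3 : ℝ) ≤ n := by exact_mod_cast hn
  have hnp : (0 : ℝ) < n := by linarith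
  have hl1 : 1 ≤ Real.log n := RATE.one_le_log hn
  have hsq : 0 < √(n : ℝ) := Real.sqrt_pos.2 hnp
  obtain ⟨ε, hε⟩ : ∃ ε : ℝ, ε = Real.log n / √n := ⟨_, rfl⟩
  have hε0 : 0 < ε := by rw [hε]; positivity
  rw [← hε] at hx hy ⊢
  have hyp : 0 < y := lt_of_lt_of_le (Real.exp_pos _) hlow
  by_cases hbig : n0 ≤ n
  · have h1 := hn0 n hbig
    have h2 : K1 * ε ≤ 1 / 2 := by
      rw [hε, mul_div_assoc', div_le_iff₀ hsq]
      have h3 : (2 * (K1 * Real.log n)) ^ 2 ≤ √(n : ℝ) ^ 2 := by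
        rw [Real.sq_sqrt hnp.le]
        nlinarith
      have h4 := abs_le_of_sq_le_sq' h3 hsq.le
      linarith [h4.2]
    have h5 : 1 / 2 ≤ y := by
      have := (abs_le.1 hy).1
      linarith
    have e : x / y - 1 = ((x - 1) - (y - 1)) / y := by field_simp; ring
    rw [e, abs_div, abs_of_pos hyp, div_le_iff₀ hyp]
    have h6 : |(x - 1) - (y - 1)| ≤ 2 * (K1 * ε) := by
      refine (abs_sub _ _).trans ?_
      linarith
    have h7 : 0 ≤ M * √n0 := by positivity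
    calc |(x - 1) - (y - 1)| ≤ 2 * (K1 * ε) := h6
      _ = (4 * K1) * ε * (1 / 2) := by ring
      _ ≤ (4 * K1 + M * √n0) * ε * y := by
          apply mul_le_mul _ h5 (by norm_num) (by positivity)
          apply mul_le_mul_of_nonneg_right _ hε0.le
          linarith
  · push Not at hbig
    have hnn0 : (n : ℝ) ≤ n0 := by exact_mod_cast hbig.le
    have hlog : Real.log n ≤ Real.log n0 := Real.log_le_log hnp hnn0
    have h1 : ε ≤ n0 := by
      rw [hε, div_le_iff₀ hsq]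
      have h2 : Real.log n ≤ n := (Real.log_le_sub_one_of_pos hnp).trans (by linarith)
      have h3 : 1 ≤ √(n : ℝ) := by
        rw [← Real.sqrt_one]; exact Real.sqrt_le_sqrt (by linarith)
      nlinarith
    have h2 : x ≤ 1 + K1 * n0 := by
      have := (abs_le.1 hx).2
      have h3 : K1 * ε ≤ K1 * n0 := mul_le_mul_of_nonneg_left h1 hK1
      linarith
    have h3 : 1 / y ≤ Real.exp (K2 * Real.log n0 ^ 2) := by
      rw [div_le_iff₀ hyp]
      calc (1 : ℝ) = Real.exp (K2 * Real.log n0 ^ 2) * Real.exp (-(K2 * Real.log n0 ^ 2)) := by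
            rw [← Real.exp_add, add_neg_cancel, Real.exp_zero]
        _ ≤ Real.exp (K2 * Real.log n0 ^ 2) * Real.exp (-(K2 * Real.log n ^ 2)) := by
            gcongr
        _ ≤ _ := by gcongr
    have h4 : |x / y - 1| ≤ M := by
      have h5 : 0 ≤ x / y := by positivity
      have h6 : x / y ≤ (1 + K1 * n0) * Real.exp (K2 * Real.log n0 ^ 2) := by
        rw [div_eq_mul_one_div]
        exact mul_le_mul h2 h3 (by positivity) (by positivity)
      rw [abs_le, hM]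
      constructor <;> linarith [Real.exp_pos (K2 * Real.log (n0 : ℝ) ^ 2)]
    have h5 : 1 ≤ √(n0 : ℝ) * ε := by
      rw [hε, mul_div_assoc', le_div_iff₀ hsq, one_mul]
      calc √(n : ℝ) ≤ √(n0 : ℝ) * 1 := by rw [mul_one]; exact Real.sqrt_le_sqrt hnn0
        _ ≤ _ := by gcongr
    have h6 : 0 ≤ 4 * K1 * ε := by positivity
    nlinarith

/-- the mean of the weight of the end point -/
noncomputable def M (ψ : ℤ × ℤ → ℝ) (m : ℕ) : ℝ := S ψ m / ((SW m).card : ℝ)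

theorem count_full : ∃ K : ℝ, 0 ≤ K ∧ ∀ n : ℕ, 3 ≤ n →
    |((SW (n + 2)).card : ℝ) / (H981.mu ^ 2 * ((SW n).card : ℝ)) - 1| ≤ K * (Real.log n / √n) := by
  obtain ⟨K, hK, h⟩ := weight_full 0
  refine ⟨K, hK, fun n hn => ?_⟩
  have h1 := h (fun _ => 1) n hn (fun _ => by norm_num) (fun m _ _ _ x _ _ => by simp)
    (fun m _ _ _ => by
      rw [S_one, zero_mul, neg_zero, Real.exp_zero, mul_one]
      exact mu_pow_le_card m)
  rw [S_one, S_one] at h1
  exact h1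

/-- **ratios of means of weights** -/
theorem mean_full (A : ℝ) : ∃ K : ℝ, 0 ≤ K ∧
    ∀ (ψ : ℤ × ℤ → ℝ) (n : ℕ), 3 ≤ n → (∀ x, 0 ≤ ψ x) →
    (∀ m : ℕ, n ≤ 2 * m → m ≤ 2 * n + 2 → m % 2 = n % 2 → ∀ x : ℤ × ℤ, |x.1| + |x.2| ≤ m → x ≠ 0 →
      ψ x ≤ Real.exp (A * Real.log m ^ 2)) →
    (∀ m : ℕ, n ≤ 2 * m → m ≤ 2 * n → m % 2 = n % 2 →
      Real.exp (-(A * Real.log m ^ 2)) ≤ M ψ m) →
    |S ψ (n + 2) / S ψ n - H981.mu ^ 2| ≤ K * (Real.log n / √n) ∧
    |M ψ (n + 2) / M ψ n - 1| ≤ K * (Real.log n / √n) := by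
  obtain ⟨K1, hK1, h1⟩ := weight_full A
  obtain ⟨K2, hK2, h2⟩ := count_full
  obtain ⟨K3, hK3, h3⟩ := card_upper (s := 2) le_rfl
  obtain ⟨K4, hK4, h4⟩ := quot (K1 := K1 + K2) (K2 := K3) (by positivity) hK3
  have hmu := H981.mu_pos
  refine ⟨H981.mu ^ 2 * K1 + K4, by positivity, fun ψ n hn hψ hle hlow => ?_⟩
  have hn' : (3 : ℝ) ≤ n := by exact_mod_cast hn
  have hnp : (0 : ℝ) < n := by linarith
  have hl1 : 1 ≤ Real.log n := RATE.one_le_log hn
  have hε0 : 0 ≤ Real.log n / √n := by positivity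
  have hcp : ∀ m, 0 < ((SW m).card : ℝ) := fun m => lt_of_lt_of_le (by positivity) (mu_pow_le_card m)
  have hlow' : ∀ m : ℕ, n ≤ 2 * m → m ≤ 2 * n → m % 2 = n % 2 →
      H981.mu ^ m * Real.exp (-(A * Real.log m ^ 2)) ≤ S ψ m := by
    intro m g1 g2 g3
    have h5 := hlow m g1 g2 g3
    unfold M at h5
    rw [le_div_iff₀ (hcp m)] at h5
    refine le_trans ?_ h5
    rw [mul_comm]
    exact mul_le_mul_of_nonneg_left (mu_pow_le_card m) (Real.exp_pos _).le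
  have a1 := h1 ψ n hn hψ hle hlow'
  have a2 := h2 n hn
  have hSp : 0 < S ψ n := lt_of_lt_of_le (by positivity) (hlow' n (by omega) (by omega) rfl)
  have hSp' : 0 ≤ S ψ (n + 2) := sum_nonneg (fun w _ => hψ _)
  constructor
  · have e : S ψ (n + 2) / S ψ n - H981.mu ^ 2 =
        H981.mu ^ 2 * (S ψ (n + 2) / (H981.mu ^ 2 * S ψ n) - 1) := by field_simp
    rw [e, abs_mul, abs_of_pos (show 0 < H981.mu ^ 2 by positivity)]
    calc _ ≤ H981.mu ^ 2 * (K1 * (Real.log n / √n)) := by gcongr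
      _ = H981.mu ^ 2 * K1 * (Real.log n / √n) := by ring
      _ ≤ _ := by
          apply mul_le_mul_of_nonneg_right _ hε0
          linarith
  · have a3 := h4 n hn (S ψ (n + 2) / (H981.mu ^ 2 * S ψ n))
      (((SW (n + 2)).card : ℝ) / (H981.mu ^ 2 * ((SW n).card : ℝ))) (by positivity)
      (a1.trans (mul_le_mul_of_nonneg_right (by linarith) hε0))
      (a2.trans (mul_le_mul_of_nonneg_right (by linarith) hε0)) (by
        rw [le_div_iff₀ (mul_pos (by positivity) (hcp n))]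
        have h5 := h3 n (by omega)
        calc Real.exp (-(K3 * Real.log n ^ 2)) * (H981.mu ^ 2 * ((SW n).card : ℝ))
            ≤ Real.exp (-(K3 * Real.log n ^ 2)) * (H981.mu ^ 2 *
              (H981.mu ^ n * Real.exp (K3 * Real.log n ^ 2))) := by gcongr
          _ = H981.mu ^ (n + 2) * (Real.exp (-(K3 * Real.log n ^ 2)) * Real.exp (K3 * Real.log n ^ 2)) := by
              ring
          _ = H981.mu ^ (n + 2) := by rw [← Real.exp_add, neg_add_cancel, Real.exp_zero, mul_one]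
          _ ≤ _ := mu_pow_le_card (n + 2))
    have e : M ψ (n + 2) / M ψ n = S ψ (n + 2) / (H981.mu ^ 2 * S ψ n) /
        (((SW (n + 2)).card : ℝ) / (H981.mu ^ 2 * ((SW n).card : ℝ))) := by
      unfold M
      have c1 := hcp n
      have c2 := hcp (n + 2)
      field_simp
    rw [e]
    refine a3.trans ?_
    apply mul_le_mul_of_nonneg_right _ hε0
    have : 0 ≤ H981.mu ^ 2 * K1 := by positivity
    linarith

/-- two-sided bounds for the powers of the Euclidean norm -/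
lemma pow_bounds (P p : ℝ) (hp : |p| ≤ P) (m : ℕ) (hm : 2 ≤ m) (x : ℤ × ℤ) (hx : |x.1| + |x.2| ≤ m)
    (hx0 : x ≠ 0) :
    Real.exp (-(2 * |P| / Real.log 2 * Real.log m ^ 2)) ≤ (√((x.1 : ℝ) ^ 2 + (x.2 : ℝ) ^ 2)) ^ p ∧
    (√((x.1 : ℝ) ^ 2 + (x.2 : ℝ) ^ 2)) ^ p ≤ Real.exp (2 * |P| / Real.log 2 * Real.log m ^ 2) := by
  have hl2 : 0 < Real.log 2 := Real.log_pos (by norm_num)
  have hP : |p| ≤ |P| := hp.trans (le_abs_self P)
  have hm2 : (2 : ℝ) ≤ m := by exact_mod_cast hm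
  have hlm : Real.log 2 ≤ Real.log m := Real.log_le_log (by norm_num) hm2
  obtain ⟨r, hr⟩ : ∃ r, r = √((x.1 : ℝ) ^ 2 + (x.2 : ℝ) ^ 2) := ⟨_, rfl⟩
  have hr1 : 1 ≤ r := by
    rw [hr, ← Real.sqrt_one]
    apply Real.sqrt_le_sqrt
    have : 1 ≤ x.1 ^ 2 + x.2 ^ 2 := by
      by_contra hc
      push Not at hc
      have h1 : x.1 ^ 2 = 0 := by nlinarith [sq_nonneg x.1, sq_nonneg x.2]
      have h2 : x.2 ^ 2 = 0 := by nlinarith [sq_nonneg x.1, sq_nonneg x.2]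
      exact hx0 (Prod.ext (by simpa using h1) (by simpa using h2))
    exact_mod_cast this
  have hrm : r ≤ m := by
    rw [hr]
    apply Real.sqrt_le_iff.2
    refine ⟨by positivity, ?_⟩
    have h1 : (|x.1| + |x.2|) ^ 2 ≤ (m : ℤ) ^ 2 :=
      pow_le_pow_left₀ (by positivity) hx 2
    have h2 : x.1 ^ 2 + x.2 ^ 2 ≤ (|x.1| + |x.2|) ^ 2 := by
      rw [← sq_abs x.1, ← sq_abs x.2]
      nlinarith [abs_nonneg x.1, abs_nonneg x.2]
    exact_mod_cast h2.trans h1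
  have hlr0 : 0 ≤ Real.log r := Real.log_nonneg hr1
  have hlr : Real.log r ≤ Real.log m := Real.log_le_log (by linarith) hrm
  rw [← hr, Real.rpow_def_of_pos (by linarith)]
  have h5 : |Real.log r * p| ≤ 2 * |P| / Real.log 2 * Real.log m ^ 2 := by
    rw [abs_mul, abs_of_nonneg hlr0, div_mul_eq_mul_div, le_div_iff₀ hl2]
    calc Real.log r * |p| * Real.log 2 ≤ Real.log m * |P| * Real.log m := by
          gcongr
      _ ≤ 2 * |P| * Real.log m ^ 2 := by nlinarith [mul_nonneg (abs_nonneg P) (sq_nonneg (Real.log m))]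
  obtain ⟨h6, h7⟩ := abs_le.1 h5
  exact ⟨Real.exp_le_exp.2 (by linarith), Real.exp_le_exp.2 h7⟩

theorem moments_full (P : ℝ) : ∃ K : ℝ, 0 ≤ K ∧ ∀ p : ℝ, |p| ≤ P → ∀ n : ℕ, 3 ≤ n →
    |M (fun x => (√((x.1 : ℝ) ^ 2 + (x.2 : ℝ) ^ 2)) ^ p) (n + 2) /
      M (fun x => (√((x.1 : ℝ) ^ 2 + (x.2 : ℝ) ^ 2)) ^ p) n - 1| ≤ K * (Real.log n / √n) := by
  obtain ⟨K, hK, h⟩ := mean_full (2 * |P| / Real.log 2)
  refine ⟨K, hK, fun p hp n hn => (h _ n hn (fun x => by positivity) ?_ ?_).2⟩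
  · intro m g1 g2 g3 x hx hx0
    exact (pow_bounds P p hp m (by omega) x hx hx0).2
  · intro m g1 g2 g3
    have hcp : 0 < ((SW m).card : ℝ) :=
      lt_of_lt_of_le (by have := H981.mu_pos; positivity) (mu_pow_le_card m)
    unfold M S
    rw [le_div_iff₀ hcp, mul_comm, ← nsmul_eq_mul, ← sum_const]
    refine sum_le_sum (fun w hw => ?_)
    refine (pow_bounds P p hp m (by omega) (wX w, wY w) ?_ (end_ne (by omega) hw)).1
    have := l1_le w
    rw [(mem_SW.mp hw).1] at this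
    exact this

end Pool.Agent.X44.GR.W
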