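import Pool.Agent.H739K.AV2
import Pool.Agent.H739K.BND
import Pool.Agent.TH508.LT.Fin2

/-!
# The ratio theorem for nonnegative weights on self-avoiding walks

The weights need not be bounded from below; only their total mass is.
-/

set_option autoImplicit false
set_option linter.unusedVariables false

namespace Pool.Agent.X44.GR

open Finset Pool.Agent.H976R2 Pool.Agent.H739K
open scoped Classical

/-- quasi-polynomial factors are beaten by geometric ones -/
lemma bounded (s : ℕ) (K : ℝ) (hK : 0 ≤ K) (r : ℝ) (hr0 : 0 < r) (hr1 : r < 1) :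
    ∃ B : ℝ, 0 < B ∧ ∀ n : ℕ, (n : ℝ) * r ^ n * Real.exp (K * (Real.log n) ^ s) ≤ B := by
  obtain ⟨t, ht, ht1⟩ : ∃ t : ℝ, 0 < t ∧ r * Real.exp t < 1 := by
    refine ⟨-(Real.log r) / 2, ?_, ?_⟩
    · have := Real.log_neg hr0 hr1; linarith
    · have h1 : r * Real.exp (-(Real.log r) / 2) = Real.exp (Real.log r / 2) := by
        nth_rewrite 1 [← Real.exp_log hr0]
        rw [← Real.exp_add]; congr 1; ring
      rw [h1, Real.exp_lt_one_iff]
      have := Real.log_neg hr0 hr1; linarith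
  have hlo : (fun x : ℝ => Real.log x ^ s) =o[Filter.atTop] id := Real.isLittleO_pow_log_id_atTop
  have hev : ∀ᶠ n : ℕ in Filter.atTop, K * (Real.log (n : ℝ)) ^ s ≤ t * n := by
    have h1 := (hlo.bound (show 0 < t / (K + 1) by positivity))
    have h2 := tendsto_natCast_atTop_atTop (R := ℝ) |>.eventually h1
    filter_upwards [h2] with n hn
    simp only [id, Real.norm_eq_abs, Nat.abs_cast] at hn
    have h3 := (le_abs_self _).trans hn
    calc K * (Real.log (n : ℝ)) ^ s ≤ K * (t / (K + 1) * n) := by gcongr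
      _ = (K / (K + 1)) * (t * n) := by field_simp
      _ ≤ 1 * (t * n) := by
          gcongr
          rw [div_le_one (by positivity)]; linarith
      _ = _ := one_mul _
  have hlim : Filter.Tendsto (fun n : ℕ => (n : ℝ) ^ 1 * (r * Real.exp t) ^ n) Filter.atTop
      (nhds 0) := tendsto_pow_const_mul_const_pow_of_lt_one 1 (by positivity) ht1
  have hlim2 := hlim.eventually_le_const (show (0 : ℝ) < 1 by norm_num)
  obtain ⟨N, hN⟩ := Filter.eventually_atTop.mp (hev.and hlim2)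
  refine ⟨1 + ∑ n ∈ Finset.range N, (n : ℝ) * r ^ n * Real.exp (K * (Real.log n) ^ s), ?_, ?_⟩
  · have : 0 ≤ ∑ n ∈ Finset.range N, (n : ℝ) * r ^ n * Real.exp (K * (Real.log n) ^ s) :=
      Finset.sum_nonneg (fun n _ => by positivity)
    linarith
  · intro n
    by_cases hn : n < N
    · have := Finset.single_le_sum
        (f := fun n : ℕ => (n : ℝ) * r ^ n * Real.exp (K * (Real.log n) ^ s))
        (fun n _ => by positivity) (Finset.mem_range.mpr hn)
      linarith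
    · obtain ⟨h1, h2⟩ := hN n (by omega)
      have h0 : 0 ≤ ∑ n ∈ Finset.range N, (n : ℝ) * r ^ n * Real.exp (K * (Real.log n) ^ s) :=
        Finset.sum_nonneg (fun n _ => by positivity)
      have h3 : (n : ℝ) * r ^ n * Real.exp (K * (Real.log n) ^ s) ≤
          (n : ℝ) ^ 1 * (r * Real.exp t) ^ n := by
        rw [mul_pow, ← Real.exp_nat_mul, pow_one, mul_assoc]
        have h4 : Real.exp (K * (Real.log n) ^ s) ≤ Real.exp ((n : ℝ) * t) :=
          Real.exp_le_exp.mpr (by rw [mul_comm (n : ℝ) t]; exact h1)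
        gcongr
      linarith

/-- words with few bumps are negligible, even against quasi-polynomial factors -/
theorem few_small (A : ℝ) (hA : 0 ≤ A) (s : ℕ) : ∃ D : ℝ, 0 < D ∧ ∀ m : ℕ, 1 ≤ m →
    Real.exp (A * Real.log m ^ s) * ((few (m + 2)).card : ℝ) ≤
      D / m * (H981.mu ^ m * Real.exp (-(A * Real.log m ^ s))) := by
  obtain ⟨C, hC, h1⟩ := Few.few_card
  have hmu : 2.43 ≤ H981.mu := BNDx.mu_ge
  have hr0 : (0 : ℝ) < 2.428 / 2.43 := by norm_num
  have hr1 : (2.428 / 2.43 : ℝ) < 1 := by norm_num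
  obtain ⟨B, hB0, hB⟩ := bounded s (2 * A) (by positivity) (2.428 / 2.43) hr0 hr1
  refine ⟨C * 2.428 ^ 2 * B, by positivity, fun m hm => ?_⟩
  have hm0 : (0 : ℝ) < m := by exact_mod_cast hm
  have h3 := h1 (m + 2)
  have h5 := hB m
  have h7 : (2.43 : ℝ) ^ m ≤ H981.mu ^ m := pow_le_pow_left₀ (by norm_num) hmu m
  obtain ⟨x, hx⟩ : ∃ x, x = A * Real.log m ^ s := ⟨_, rfl⟩
  rw [show 2 * A * Real.log m ^ s = x + x by rw [hx]; ring] at h5
  rw [← hx]
  have h8 : (m : ℝ) * 2.428 ^ m * Real.exp x ≤ B * (H981.mu ^ m * Real.exp (-x)) := by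
    rw [div_pow] at h5
    have e : (m : ℝ) * (2.428 ^ m / 2.43 ^ m) * Real.exp (x + x) =
        (m : ℝ) * 2.428 ^ m * Real.exp x / (2.43 ^ m * Real.exp (-x)) := by
      rw [Real.exp_neg, Real.exp_add]; field_simp
    rw [e, div_le_iff₀ (by positivity)] at h5
    refine h5.trans ?_
    gcongr
  rw [div_mul_eq_mul_div, le_div_iff₀ hm0]
  calc Real.exp x * ((few (m + 2)).card : ℝ) * m
      ≤ Real.exp x * (C * 2.428 ^ (m + 2)) * m := by gcongr
    _ = C * 2.428 ^ 2 * ((m : ℝ) * 2.428 ^ m * Real.exp x) := by ring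
    _ ≤ C * 2.428 ^ 2 * (B * (H981.mu ^ m * Real.exp (-x))) := by gcongr
    _ = _ := by ring

/-- nonnegative weights of quasi-polynomial growth, whose mass is not too small and which are nearly
invariant under insertions on average, at the length `m` -/
structure Wt (A : ℝ) (s : ℕ) (L : ℝ) (m : ℕ) (φ : List Dir → ℝ) : Prop where
  nonneg : ∀ w : List Dir, 0 ≤ φ w
  le : ∀ w ∈ SW m, φ w ≤ Real.exp (A * Real.log m ^ s)
  le2 : ∀ w ∈ SW (m + 2), φ w ≤ Real.exp (A * Real.log m ^ s)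
  low : H981.mu ^ m * Real.exp (-(A * Real.log m ^ s)) ≤ mom φ m
  lip : chg φ m ≤ L * mom φ m

section

variable {A : ℝ} {s : ℕ}

/-- first step: the total weight -/
theorem step1 (hA : 0 ≤ A) : ∃ a : ℝ, 0 < a ∧ ∀ (L : ℝ), 0 ≤ L →
    ∀ (φ : List Dir → ℝ) (m : ℕ), 2 ≤ m → Wt A s L m φ →
    |mom φ (m + 2) - ∑ w ∈ SW m, φ w * RR w| ≤ (a + 2000 * L) / m * mom φ m := by
  obtain ⟨D, hD, hfew⟩ := few_small A hA s
  refine ⟨D + 50000000, by positivity, fun L hL φ m hm3 hφ => ?_⟩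
  have hm' : (2 : ℝ) ≤ m := by exact_mod_cast hm3
  have h := RATIO.transfer' m (by omega) φ φ (fun w => ∑ p ∈ adm w, |φ (ins w p.1 p.2) - φ w|)
    (fun w hw => le_rfl)
  have hchg := hφ.lip
  have hmom : ∀ k, ∑ w ∈ SW k, φ w = mom φ k := fun k => rfl
  rw [hmom] at h
  refine h.trans ?_
  have h1 : ∑ w ∈ SW m, (2000 / (m : ℝ) * (∑ p ∈ adm w, |φ (ins w p.1 p.2) - φ w|) +
      50000000 / (m : ℝ) * |φ w|) ≤ (2000 * L + 50000000) / m * mom φ m := by
    rw [Finset.sum_add_distrib, ← Finset.mul_sum, ← Finset.mul_sum]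
    have e : ∑ w ∈ SW m, |φ w| = mom φ m := by
      rw [← hmom m]
      exact Finset.sum_congr rfl (fun w hw => abs_of_nonneg (hφ.nonneg w))
    rw [e]
    have hchg' : ∑ w ∈ SW m, ∑ p ∈ adm w, |φ (ins w p.1 p.2) - φ w| ≤ L * mom φ m := hchg
    calc 2000 / (m : ℝ) * (∑ w ∈ SW m, ∑ p ∈ adm w, |φ (ins w p.1 p.2) - φ w|) +
          50000000 / (m : ℝ) * mom φ m
        ≤ 2000 / (m : ℝ) * (L * mom φ m) + 50000000 / (m : ℝ) * mom φ m := by gcongr
      _ = _ := by ring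
  have h2 : ∑ w' ∈ few (m + 2), |φ w'| ≤ D / m * mom φ m := by
    calc ∑ w' ∈ few (m + 2), |φ w'| ≤ ∑ w' ∈ few (m + 2), Real.exp (A * Real.log m ^ s) := by
          refine Finset.sum_le_sum (fun w' hw' => ?_)
          have hw'' : w' ∈ SW (m + 2) := (Finset.mem_filter.mp hw').1
          rw [abs_of_nonneg (hφ.nonneg w')]
          exact hφ.le2 w' hw''
      _ = Real.exp (A * Real.log m ^ s) * ((few (m + 2)).card : ℝ) := by
          rw [Finset.sum_const, nsmul_eq_mul]; ring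
      _ ≤ D / m * (H981.mu ^ m * Real.exp (-(A * Real.log m ^ s))) := hfew m (by omega)
      _ ≤ D / m * mom φ m := by gcongr; exact hφ.low
  calc _ ≤ (2000 * L + 50000000) / m * mom φ m + D / m * mom φ m := add_le_add h1 h2
    _ = (D + 50000000 + 2000 * L) / m * mom φ m := by ring

/-- second step -/
theorem step2 (hA : 0 ≤ A) : ∃ b : ℝ, 0 < b ∧ ∀ (L : ℝ), 0 ≤ L →
    ∀ (φ : List Dir → ℝ) (n : ℕ), 2 ≤ n → Wt A s L n φ →
    |∑ w ∈ SW (n + 2), φ w * RR w - ∑ w ∈ SW n, φ w * RR w ^ 2| ≤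
      (b + 8000000 * L) / n * mom φ n := by
  obtain ⟨D, hD, hfew⟩ := few_small A hA s
  refine ⟨4000 * D + 4000 * 50000000 + 2000 * 100000000, by positivity,
    fun L hL φ n hn hφ => ?_⟩
  have hn' : (2 : ℝ) ≤ n := by exact_mod_cast hn
  have hPn := hφ.nonneg
  have hmom : ∀ k, ∑ w ∈ SW k, φ w = mom φ k := fun k => rfl
  have h := RATIO.transfer' n (by omega) (fun w => φ w * RR w) (fun w => φ w * RR w)
    (fun w => 4000 * (∑ p ∈ adm w, |φ (ins w p.1 p.2) - φ w|) + 100000000 * φ w) (by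
    intro w hw
    obtain ⟨hl, hs⟩ := mem_SW.mp hw
    have hP0 := hPn w
    have h1 : ∑ p ∈ adm w, |φ (ins w p.1 p.2) * RR (ins w p.1 p.2) - φ w * RR w| ≤
        ∑ p ∈ adm w, (4000 * |φ (ins w p.1 p.2) - φ w| + φ w * (50000000 / (n : ℝ))) := by
      refine Finset.sum_le_sum (fun p hp => ?_)
      have hp' : (p.1, p.2) ∈ adm w := hp
      have hi := (mem_adm.mp hp').1
      have hR := RR_ins hs hp'
      rw [hl] at hR
      have hR2 := RR_le (w := ins w p.1 p.2) (by rw [length_ins p.2 hi]; omega)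
      have hR0 := RR_nonneg (ins w p.1 p.2)
      have e : φ (ins w p.1 p.2) * RR (ins w p.1 p.2) - φ w * RR w =
          RR (ins w p.1 p.2) * (φ (ins w p.1 p.2) - φ w) + φ w * (RR (ins w p.1 p.2) - RR w) := by
        ring
      rw [e]
      refine (abs_add_le _ _).trans ?_
      rw [abs_mul, abs_mul, abs_of_nonneg hR0, abs_of_nonneg hP0]
      gcongr
    refine h1.trans ?_
    rw [Finset.sum_add_distrib, ← Finset.mul_sum, Finset.sum_const, nsmul_eq_mul]
    have h6 : ((adm w).card : ℝ) ≤ 2 * n := by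
      have : (AA w : ℝ) ≤ 2 * w.length := by exact_mod_cast AA_le w
      rw [hl] at this
      exact this
    calc 4000 * ∑ p ∈ adm w, |φ (ins w p.1 p.2) - φ w| +
          ((adm w).card : ℝ) * (φ w * (50000000 / (n : ℝ)))
        ≤ 4000 * ∑ p ∈ adm w, |φ (ins w p.1 p.2) - φ w| +
          (2 * n) * (φ w * (50000000 / (n : ℝ))) := by gcongr
      _ = 4000 * (∑ p ∈ adm w, |φ (ins w p.1 p.2) - φ w|) + 100000000 * φ w := by
          field_simp; ring)
  have e0 : ∑ w ∈ SW n, φ w * RR w * RR w = ∑ w ∈ SW n, φ w * RR w ^ 2 :=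
    Finset.sum_congr rfl (fun w _ => by ring)
  rw [e0] at h
  refine h.trans ?_
  have hchg : ∑ w ∈ SW n, ∑ p ∈ adm w, |φ (ins w p.1 p.2) - φ w| ≤ L * mom φ n := hφ.lip
  have h1 : ∑ w ∈ SW n, (2000 / (n : ℝ) * (4000 * (∑ p ∈ adm w, |φ (ins w p.1 p.2) - φ w|) +
      100000000 * φ w) + 50000000 / (n : ℝ) * |φ w * RR w|) ≤
      (4000 * 50000000 + 2000 * (4000 * L + 100000000)) / (n : ℝ) * mom φ n := by
    have i1 : ∑ w ∈ SW n, |φ w * RR w| ≤ 4000 * mom φ n := by
      rw [← hmom n, Finset.mul_sum]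
      refine Finset.sum_le_sum (fun w hw => ?_)
      have h0 := hPn w
      rw [abs_mul, abs_of_nonneg h0, abs_of_nonneg (RR_nonneg w)]
      have hR := RR_le (w := w) (by rw [(mem_SW.mp hw).1]; omega)
      nlinarith
    have i2 : ∑ w ∈ SW n, (4000 * (∑ p ∈ adm w, |φ (ins w p.1 p.2) - φ w|) + 100000000 * φ w) ≤
        4000 * (L * mom φ n) + 100000000 * mom φ n := by
      rw [Finset.sum_add_distrib, ← Finset.mul_sum, ← Finset.mul_sum, hmom n]
      gcongr
    rw [Finset.sum_add_distrib, ← Finset.mul_sum, ← Finset.mul_sum]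
    calc _ ≤ 2000 / (n : ℝ) * (4000 * (L * mom φ n) + 100000000 * mom φ n) +
          50000000 / (n : ℝ) * (4000 * mom φ n) := by gcongr
      _ = _ := by ring
  have h2 : ∑ w' ∈ few (n + 2), |φ w' * RR w'| ≤ 4000 * (D / n) * mom φ n := by
    calc ∑ w' ∈ few (n + 2), |φ w' * RR w'| ≤
          ∑ w' ∈ few (n + 2), 4000 * Real.exp (A * Real.log n ^ s) := by
          refine Finset.sum_le_sum (fun w' hw' => ?_)
          have hw'' : w' ∈ SW (n + 2) := (Finset.mem_filter.mp hw').1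
          obtain ⟨hl, hs⟩ := mem_SW.mp hw''
          have h0 := hPn w'
          rw [abs_mul, abs_of_nonneg h0, abs_of_nonneg (RR_nonneg w')]
          have hR := RR_le (w := w') (by rw [hl]; omega)
          have h3 : φ w' ≤ Real.exp (A * Real.log n ^ s) := hφ.le2 w' hw''
          calc φ w' * RR w' ≤ Real.exp (A * Real.log n ^ s) * 4000 := by
                gcongr
                exact RR_nonneg w'
            _ = 4000 * Real.exp (A * Real.log n ^ s) := by ring
      _ = 4000 * (Real.exp (A * Real.log n ^ s) * ((few (n + 2)).card : ℝ)) := by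
          rw [Finset.sum_const, nsmul_eq_mul]; ring
      _ ≤ 4000 * (D / n * (H981.mu ^ n * Real.exp (-(A * Real.log n ^ s)))) := by
          gcongr 4000 * ?_; exact hfew n (by omega)
      _ ≤ 4000 * (D / n * mom φ n) := by gcongr; exact hφ.low
      _ = _ := by ring
  calc _ ≤ (4000 * 50000000 + 2000 * (4000 * L + 100000000)) / (n : ℝ) * mom φ n +
          4000 * (D / n) * mom φ n := by gcongr
    _ = _ := by ring

lemma mom_pos' {L : ℝ} {m : ℕ} {φ : List Dir → ℝ} (h : Wt A s L m φ) : 0 < mom φ m :=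
  lt_of_lt_of_le (by have := H981.mu_pos; positivity) h.low

/-- approximate logarithmic convexity -/
theorem ratio (hA : 0 ≤ A) : ∃ E : ℝ, 0 ≤ E ∧ ∀ (L : ℝ), 0 ≤ L → ∀ (n : ℕ) (φ : List Dir → ℝ), 2 ≤ n →
    L ≤ n → Wt A s L n φ → Wt A s L (n + 2) φ →
    mom φ (n + 2) ≤ E * mom φ n ∧
    mom φ (n + 2) ^ 2 ≤ mom φ n * mom φ (n + 4) + E * (1 + L) / n * mom φ n ^ 2 := by
  obtain ⟨a, ha, h1⟩ := step1 (s := s) hA
  obtain ⟨b, hb, h2⟩ := step2 (s := s) hA
  obtain ⟨c, hc⟩ : ∃ c, c = a + 2000 := ⟨_, rfl⟩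
  have hc0 : 0 < c := by rw [hc]; positivity
  obtain ⟨e, he⟩ : ∃ e, e = c + b + 8000000 := ⟨_, rfl⟩
  have he0 : 0 < e := by rw [he]; positivity
  refine ⟨c * (4000 + c) + e + 8000 * c + c * c + 4000, by positivity,
    fun L hL n φ hn hLn hφ hφ2 => ?_⟩
  obtain ⟨D1, hD1e⟩ : ∃ D1, D1 = a + 2000 * L := ⟨_, rfl⟩
  obtain ⟨D2, hD2e⟩ : ∃ D2, D2 = b + 8000000 * L := ⟨_, rfl⟩
  have hD1 : 0 < D1 := by rw [hD1e]; positivity
  have hD2 : 0 < D2 := by rw [hD2e]; positivity
  have hn' : (2 : ℝ) ≤ n := by exact_mod_cast hn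
  have hn0 : (0 : ℝ) < n := by linarith
  have hD1c : D1 ≤ c * (1 + L) := by
    rw [hD1e, hc]; nlinarith
  have hD2c : D2 ≤ e * (1 + L) := by
    rw [hD2e, he]; nlinarith
  have hD1n : D1 / n ≤ c := by
    rw [div_le_iff₀ hn0, hD1e, hc]; nlinarith
  have hPn := hφ.nonneg
  have hM0 : 0 ≤ mom φ n := Finset.sum_nonneg (fun w _ => hPn w)
  have hM2 : 0 ≤ mom φ (n + 2) := Finset.sum_nonneg (fun w _ => hPn w)
  have hM4 : 0 ≤ mom φ (n + 4) := Finset.sum_nonneg (fun w _ => hPn w)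
  set S1 := ∑ w ∈ SW n, φ w * RR w with hS1
  set S2 := ∑ w ∈ SW n, φ w * RR w ^ 2 with hS2
  have hS1le : S1 ≤ 4000 * mom φ n := by
    unfold mom
    rw [Finset.mul_sum]
    refine Finset.sum_le_sum (fun w hw => ?_)
    have h0 := hPn w
    have hR := RR_le (w := w) (by rw [(mem_SW.mp hw).1]; omega)
    nlinarith
  have hS10 : 0 ≤ S1 := Finset.sum_nonneg (fun w hw => mul_nonneg (hPn w) (RR_nonneg w))
  have g1 := h1 L hL φ n hn hφ
  have g3 := h1 L hL φ (n + 2) (by omega) hφ2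
  have g2 := h2 L hL φ n hn hφ
  rw [← hD1e] at g1 g3
  rw [← hD2e] at g2
  have e24 : n + 2 + 2 = n + 4 := by ring
  rw [e24] at g3
  have hdn : 0 ≤ D1 / n := by positivity
  have k1 : mom φ (n + 2) ≤ S1 + D1 / n * mom φ n := by
    have := (abs_le.mp g1).2; linarith
  have k1' : mom φ (n + 2) ≤ (4000 + c) * mom φ n := by
    have : D1 / n * mom φ n ≤ c * mom φ n := by gcongr
    linarith
  have k4' : |mom φ (n + 4) - S2| ≤ (D1 * (4000 + c) + D2) / n * mom φ n := by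
    have g4 : D1 / ((n + 2 : ℕ) : ℝ) * mom φ (n + 2) ≤ D1 / n * ((4000 + c) * mom φ n) := by
      gcongr
      push_cast; linarith
    calc |mom φ (n + 4) - S2|
        ≤ |mom φ (n + 4) - ∑ w ∈ SW (n + 2), φ w * RR w| +
          |∑ w ∈ SW (n + 2), φ w * RR w - S2| := abs_sub_le _ _ _
      _ ≤ D1 / n * ((4000 + c) * mom φ n) + D2 / n * mom φ n := by linarith
      _ = _ := by ring
  have hcs : S1 ^ 2 ≤ mom φ n * S2 := by
    have := Finset.sum_mul_sq_le_sq_mul_sq (SW n) (fun w => Real.sqrt (φ w))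
      (fun w => Real.sqrt (φ w) * RR w)
    have e1 : ∑ w ∈ SW n, Real.sqrt (φ w) * (Real.sqrt (φ w) * RR w) = S1 := by
      refine Finset.sum_congr rfl (fun w hw => ?_)
      rw [← mul_assoc, Real.mul_self_sqrt (hPn w)]
    have e2 : ∑ w ∈ SW n, Real.sqrt (φ w) ^ 2 = mom φ n := by
      refine Finset.sum_congr rfl (fun w hw => ?_)
      rw [Real.sq_sqrt (hPn w)]
    have e3 : ∑ w ∈ SW n, (Real.sqrt (φ w) * RR w) ^ 2 = S2 := by
      refine Finset.sum_congr rfl (fun w hw => ?_)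
      rw [mul_pow, Real.sq_sqrt (hPn w)]
    rw [e1, e2, e3] at this
    exact this
  have k2 : mom φ (n + 2) ^ 2 ≤ (S1 + D1 / n * mom φ n) ^ 2 := by
    gcongr
  have k3 : (S1 + D1 / n * mom φ n) ^ 2 ≤ mom φ n * S2 + (8000 * D1 + c * D1) / n * mom φ n ^ 2 := by
    have e : (S1 + D1 / n * mom φ n) ^ 2 = S1 ^ 2 + 2 * S1 * (D1 / n * mom φ n) +
        (D1 / n) * (D1 / n) * mom φ n ^ 2 := by ring
    have i1 : 2 * S1 * (D1 / n * mom φ n) ≤ 2 * (4000 * mom φ n) * (D1 / n * mom φ n) := by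
      gcongr
    have i2 : (D1 / n) * (D1 / n) * mom φ n ^ 2 ≤ (D1 / n) * c * mom φ n ^ 2 := by gcongr
    have e2 : (8000 * D1 + c * D1) / n * mom φ n ^ 2 =
        2 * (4000 * mom φ n) * (D1 / n * mom φ n) + (D1 / n) * c * mom φ n ^ 2 := by ring
    rw [e, e2]
    linarith
  have k4 : mom φ n * S2 ≤ mom φ n * mom φ (n + 4) +
      (D1 * (4000 + c) + D2) / n * mom φ n ^ 2 := by
    have : S2 ≤ mom φ (n + 4) + (D1 * (4000 + c) + D2) / n * mom φ n := by
      have := (abs_le.mp k4').1; linarith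
    calc mom φ n * S2 ≤ mom φ n * (mom φ (n + 4) + (D1 * (4000 + c) + D2) / n * mom φ n) := by
          gcongr
      _ = _ := by ring
  have e5 : (D1 * (4000 + c) + D2 + 8000 * D1 + c * D1) / n * mom φ n ^ 2 =
      (D1 * (4000 + c) + D2) / n * mom φ n ^ 2 + (8000 * D1 + c * D1) / n * mom φ n ^ 2 := by ring
  have e6 : D1 * (4000 + c) + D2 + 8000 * D1 + c * D1 ≤
      (c * (4000 + c) + e + 8000 * c + c * c + 4000) * (1 + L) := by
    have i1 : D1 * (4000 + c) ≤ c * (1 + L) * (4000 + c) := by gcongr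
    have i2 : c * D1 ≤ c * (c * (1 + L)) := by gcongr
    nlinarith
  have e7 : (D1 * (4000 + c) + D2 + 8000 * D1 + c * D1) / n * mom φ n ^ 2 ≤
      (c * (4000 + c) + e + 8000 * c + c * c + 4000) * (1 + L) / n * mom φ n ^ 2 := by gcongr
  refine ⟨k1'.trans (mul_le_mul_of_nonneg_right ?_ hM0), by linarith⟩
  nlinarith

end

end Pool.Agent.X44.GR
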