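import Pool.Agent.X44.GR.A

/-!
# The rate in the ratio theorem for nonnegative weights
-/

set_option autoImplicit false
set_option linter.unusedVariables false

namespace Pool.Agent.X44.GR

open Finset Pool.Agent.H976R2 Pool.Agent.H739K
open scoped Classical

lemma log_two_le {m : ℕ} (hm : 2 ≤ m) : Real.log 2 ≤ Real.log m :=
  Real.log_le_log (by norm_num) (by exact_mod_cast hm)

/-- comparison of powers of the logarithm -/
lemma log_sq_le {s : ℕ} (hs : 2 ≤ s) {m : ℕ} (hm : 2 ≤ m) :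
    Real.log m ^ 2 ≤ (1 / Real.log 2 ^ (s - 2)) * Real.log m ^ s := by
  have hl2 : 0 < Real.log 2 := Real.log_pos (by norm_num)
  have h := log_two_le hm
  have h0 : 0 < Real.log (m : ℝ) := by linarith
  obtain ⟨t, rfl⟩ : ∃ t, s = 2 + t := ⟨s - 2, by omega⟩
  rw [show 2 + t - 2 = t by omega, one_div, inv_mul_eq_div, le_div_iff₀ (by positivity), pow_add]
  apply mul_le_mul_of_nonneg_left _ (by positivity)
  exact pow_le_pow_left₀ hl2.le h t

/-- the number of walks -/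
lemma card_upper {s : ℕ} (hs : 2 ≤ s) : ∃ K : ℝ, 0 ≤ K ∧ ∀ m : ℕ, 2 ≤ m →
    ((SW m).card : ℝ) ≤ H981.mu ^ m * Real.exp (K * Real.log m ^ s) := by
  obtain ⟨K, hK, h⟩ := Pool.Agent.TH508.LT.sq_upper2
  have hl2 : 0 < Real.log 2 := Real.log_pos (by norm_num)
  refine ⟨K * (1 / Real.log 2 ^ (s - 2)), by positivity, fun m hm => ?_⟩
  rw [SWR.card_eq_cr']
  refine (h m hm).trans ?_
  have hmu := H981.mu_pos
  apply mul_le_mul_of_nonneg_left _ (by positivity)
  apply Real.exp_le_exp.2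
  rw [mul_assoc]
  exact mul_le_mul_of_nonneg_left (log_sq_le hs hm) hK

lemma log_window' {n m : ℕ} (hn : 3 ≤ n) (h1 : n ≤ 2 * m) (h2 : m ≤ 2 * n) :
    0 ≤ Real.log (m : ℝ) ∧ Real.log (m : ℝ) ≤ 2 * Real.log n := by
  have hm : 2 ≤ m := by omega
  have hm0 : (0 : ℝ) < m := by exact_mod_cast (by omega : 0 < m)
  have hn0 : (0 : ℝ) < n := by exact_mod_cast (by omega : 0 < n)
  refine ⟨Real.log_natCast_nonneg m, ?_⟩
  have h3 : (m : ℝ) ≤ n * n := by
    have : m ≤ n * n := by nlinarith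
    exact_mod_cast this
  calc Real.log (m : ℝ) ≤ Real.log (n * n) := Real.log_le_log hm0 h3
    _ = 2 * Real.log n := by rw [Real.log_mul hn0.ne' hn0.ne']; ring

/-- the rate, with explicit dependence on the influence `L` -/
theorem rate (A : ℝ) (hA : 0 ≤ A) (s : ℕ) (hs : 2 ≤ s) : ∃ C : ℝ, 0 < C ∧
    ∀ (L : ℝ), 0 ≤ L → ∀ (n : ℕ) (φ : List Dir → ℝ), 3 ≤ n → 2 * L ≤ n →
    (∀ m : ℕ, n ≤ 2 * m → m ≤ 2 * n → m % 2 = n % 2 → Wt A s L m φ) →
    (mom φ (n + 2) / (H981.mu ^ 2 * mom φ n) - 1) ^ 2 * n ≤ C * (1 + L) * Real.log n ^ s := by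
  obtain ⟨E, hE, hr⟩ := ratio (s := s) hA
  obtain ⟨K, hK, hup⟩ := card_upper hs
  have hmu1 : 1 ≤ H981.mu := H981.one_le_mu
  have hmu0 : 0 < H981.mu := H981.mu_pos
  obtain ⟨M, hM⟩ : ∃ M : ℝ, M = 8 * ((A + K) * 2 ^ s) + 1 := ⟨_, rfl⟩
  have hM0 : 0 < M := by rw [hM]; positivity
  refine ⟨64 * (E + 1) ^ 2 * (E + 1) * M, by positivity, fun L hL n φ hn hLn hW => ?_⟩
  have hn' : (3 : ℝ) ≤ n := by exact_mod_cast hn
  have hn0 : (0 : ℝ) < n := by linarith
  have hl1 : 1 ≤ Real.log n := RATE.one_le_log hn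
  have hls : 1 ≤ Real.log n ^ s := one_le_pow₀ hl1
  obtain ⟨D, hD⟩ : ∃ D : ℝ, D = (E + 1) * (1 + L) := ⟨_, rfl⟩
  have hD1 : 1 ≤ D := by rw [hD]; nlinarith
  obtain ⟨A', hA'⟩ : ∃ A' : ℝ, A' = (A + K) * 2 ^ s * Real.log n ^ s := ⟨_, rfl⟩
  have hAK : 8 * A' + 1 ≤ M * Real.log n ^ s := by
    rw [hA', hM]; nlinarith
  have hA'0 : 0 ≤ A' := by rw [hA']; positivity
  obtain ⟨b, hb⟩ : ∃ b : ℕ → ℝ, b = fun m => mom φ m / H981.mu ^ m := ⟨_, rfl⟩
  have hbb : ∀ m : ℕ, n ≤ 2 * m → m ≤ 2 * n → m % 2 = n % 2 →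
      Real.exp (-A') ≤ b m ∧ b m ≤ Real.exp A' := by
    intro m h1 h2 h3
    have hw := hW m h1 h2 h3
    have hm2 : 2 ≤ m := by omega
    obtain ⟨l0, l1⟩ := log_window' hn h1 h2
    have hp : (0 : ℝ) < H981.mu ^ m := by positivity
    have hpow : Real.log (m : ℝ) ^ s ≤ 2 ^ s * Real.log n ^ s := by
      rw [← mul_pow]; exact pow_le_pow_left₀ l0 l1 s
    have hAm : (A + K) * Real.log (m : ℝ) ^ s ≤ A' := by
      rw [hA', mul_assoc]; exact mul_le_mul_of_nonneg_left hpow (by positivity)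
    have hKm : 0 ≤ K * Real.log (m : ℝ) ^ s := by positivity
    rw [hb]
    constructor
    · rw [le_div_iff₀ hp]
      refine le_trans ?_ hw.low
      rw [mul_comm]
      apply mul_le_mul_of_nonneg_left _ hp.le
      apply Real.exp_le_exp.2
      nlinarith
    · rw [div_le_iff₀ hp]
      have h4 : mom φ m ≤ Real.exp (A * Real.log m ^ s) * ((SW m).card : ℝ) := by
        unfold mom
        rw [mul_comm, ← nsmul_eq_mul, ← Finset.sum_const]
        exact Finset.sum_le_sum hw.le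
      calc mom φ m ≤ Real.exp (A * Real.log m ^ s) * ((SW m).card : ℝ) := h4
        _ ≤ Real.exp (A * Real.log m ^ s) * (H981.mu ^ m * Real.exp (K * Real.log m ^ s)) := by
            gcongr; exact hup m hm2
        _ = Real.exp ((A + K) * Real.log m ^ s) * H981.mu ^ m := by
            rw [add_mul, Real.exp_add]; ring
        _ ≤ _ := by gcongr
  have hstep : ∀ m : ℕ, n ≤ 2 * m → m + 4 ≤ 2 * n → m % 2 = n % 2 →
      b (m + 2) ^ 2 ≤ b m * b (m + 4) + D / m * b m ^ 2 := by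
    intro m h1 h2 h3
    have hw := hW m h1 (by omega) h3
    have hw2 := hW (m + 2) (by omega) (by omega) (by omega)
    have hm2 : 2 ≤ m := by omega
    have hm0 : (0 : ℝ) < m := by exact_mod_cast (by omega : 0 < m)
    have hLm : L ≤ m := by
      have : (n : ℝ) ≤ 2 * m := by exact_mod_cast h1
      linarith
    have h := (hr L hL m φ hm2 hLm hw hw2).2
    have hp : (0 : ℝ) < H981.mu ^ m := by positivity
    rw [hb]
    simp only
    rw [div_pow, ← pow_mul]
    have e1 : H981.mu ^ ((m + 2) * 2) = H981.mu ^ m * H981.mu ^ (m + 4) := by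
      rw [← pow_add]; congr 1; ring
    have e2 : H981.mu ^ ((m + 2) * 2) = H981.mu ^ 4 * (H981.mu ^ m) ^ 2 := by
      rw [← pow_mul, ← pow_add]; congr 1; ring
    have hED : E * (1 + L) ≤ D := by rw [hD]; nlinarith
    have h4 : (E * (1 + L) / H981.mu ^ 4) / m * (mom φ m / H981.mu ^ m) ^ 2 ≤
        D / m * (mom φ m / H981.mu ^ m) ^ 2 := by
      apply mul_le_mul_of_nonneg_right _ (by positivity)
      apply div_le_div_of_nonneg_right _ hm0.le
      exact (div_le_self (by positivity) (one_le_pow₀ hmu1)).trans hED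
    have h3 : mom φ m / H981.mu ^ m * (mom φ (m + 4) / H981.mu ^ (m + 4)) +
        (E * (1 + L) / H981.mu ^ 4) / m * (mom φ m / H981.mu ^ m) ^ 2 =
        (mom φ m * mom φ (m + 4) + E * (1 + L) / m * mom φ m ^ 2) / H981.mu ^ ((m + 2) * 2) := by
      rw [add_div]
      congr 1
      · rw [e1]; field_simp
      · rw [e2]; field_simp
    calc mom φ (m + 2) ^ 2 / H981.mu ^ ((m + 2) * 2)
        ≤ (mom φ m * mom φ (m + 4) + E * (1 + L) / m * mom φ m ^ 2) / H981.mu ^ ((m + 2) * 2) :=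
          div_le_div_of_nonneg_right h (by positivity)
      _ = _ := h3.symm
      _ ≤ _ := by linarith
  have hwn := hW n (by omega) (by omega) rfl
  have hwn2 := hW (n + 2) (by omega) (by omega) (by omega)
  have hmn := mom_pos' hwn
  have e1 : mom φ (n + 2) / (H981.mu ^ 2 * mom φ n) - 1 = b (n + 2) / b n - 1 := by
    have hp : (0 : ℝ) < H981.mu ^ n := by positivity
    rw [hb]
    simp only
    rw [pow_add]
    field_simp
  rw [e1]
  obtain ⟨ρ, hρ⟩ : ∃ ρ, ρ = b (n + 2) / b n := ⟨_, rfl⟩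
  rw [← hρ]
  -- the general bound
  have hLn1 : L ≤ n := by linarith
  have hρ0 : 0 ≤ ρ := by
    have hp : (0 : ℝ) < H981.mu ^ n := by positivity
    have hm2 := mom_pos' hwn2
    rw [hρ, hb]
    positivity
  have hρE : ρ ≤ E := by
    have h5 := (hr L hL n φ (by omega) hLn1 hwn hwn2).1
    have e2 : ρ = mom φ (n + 2) / (H981.mu ^ 2 * mom φ n) := by
      have := e1
      linarith
    rw [e2, div_le_iff₀ (by positivity)]
    have : mom φ n ≤ H981.mu ^ 2 * mom φ n := by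
      have := one_le_pow₀ hmu1 (n := 2)
      nlinarith
    calc _ ≤ E * mom φ n := h5
      _ ≤ _ := mul_le_mul_of_nonneg_left this hE
  have key : ∀ δ : ℝ, 0 < δ → δ ≤ 1 / 2 → δ ≤ |ρ - 1| → δ ^ 2 * n ≤ 16 * D * (8 * A' + 1) := by
    intro δ h0 h1 h2
    rcases le_total 0 (ρ - 1) with h3 | h3
    · rw [abs_of_nonneg h3] at h2
      have h4 := RATE.upper hD1 hn hbb hstep h0 (by linarith) (by rw [← hρ]; linarith)
      refine h4.trans ?_
      gcongr
      norm_num
    · rw [abs_of_nonpos h3] at h2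
      have h4 := RATE.lower hD1 hn hbb hstep h0 h1 (by rw [← hρ]; linarith)
      refine h4.trans ?_
      gcongr
      norm_num
  have hfin : 16 * D * (8 * A' + 1) ≤ 16 * (E + 1) * M * ((1 + L) * Real.log n ^ s) := by
    calc 16 * D * (8 * A' + 1) ≤ 16 * D * (M * Real.log n ^ s) := by gcongr
      _ = _ := by rw [hD]; ring
  have hE1 : 1 ≤ (E + 1) ^ 2 := one_le_pow₀ (by linarith)
  have hpos : 0 ≤ (1 + L) * Real.log n ^ s := by positivity
  have hgoal : 64 * (E + 1) ^ 2 * (E + 1) * M * (1 + L) * Real.log n ^ s =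
      (E + 1) ^ 2 * (4 * (16 * (E + 1) * M * ((1 + L) * Real.log n ^ s))) := by ring
  rw [hgoal]
  have hX : 0 ≤ 16 * (E + 1) * M * ((1 + L) * Real.log n ^ s) := by positivity
  rcases lt_or_ge (1 / 2) |ρ - 1| with hbig | hsmall
  · have h6 := key (1 / 2) (by norm_num) le_rfl hbig.le
    have h7 : (ρ - 1) ^ 2 ≤ (E + 1) ^ 2 := by
      apply sq_le_sq'
      · linarith
      · linarith
    have h8 : (n : ℝ) ≤ 4 * (16 * (E + 1) * M * ((1 + L) * Real.log n ^ s)) := by linarith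
    exact mul_le_mul h7 h8 hn0.le (by positivity)
  · rcases (abs_nonneg (ρ - 1)).eq_or_lt with h0 | h0
    · have : ρ - 1 = 0 := abs_eq_zero.1 h0.symm
      rw [this]
      simp only [ne_eq, OfNat.ofNat_ne_zero, not_false_eq_true, zero_pow, zero_mul]
      positivity
    · have h6 := key |ρ - 1| h0 hsmall le_rfl
      rw [sq_abs] at h6
      calc (ρ - 1) ^ 2 * n ≤ _ := h6
        _ ≤ _ := hfin
        _ ≤ 1 * (4 * (16 * (E + 1) * M * ((1 + L) * Real.log n ^ s))) := by linarith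
        _ ≤ _ := mul_le_mul_of_nonneg_right hE1 (by positivity)

end Pool.Agent.X44.GR
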