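import Pool.Agent.X44.GR.V
import Pool.Agent.TH303.SX2

/-!
# Functionals of the walk and domains
-/

set_option autoImplicit false
set_option linter.unusedVariables false

namespace Pool.Agent.X44.GR.V

open Finset Pool.Agent.H976R2 Pool.Agent.H739K Pool.Agent.X44.GR
open scoped Classical
open Pool.Agent.H976R2.Lip (PP dv)

lemma path_lip {m : ℕ} {R : ℝ} (hR : 0 < R) {F : (ℝ → ℝ × ℝ) → ℝ}
    (hF : ∀ (x y : ℝ → ℝ × ℝ) (δ : ℝ), (∀ t, 0 ≤ t → t ≤ 1 → ‖x t - y t‖ ≤ δ) → |F x - F y| ≤ δ)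
    {w : List Dir} (hw : w ∈ SW m) :
    ∑ p ∈ adm w, |F (path R (pth (m + 2) (ins w p.1 p.2))) - F (path R (pth m w))| ≤ 4 * m / R := by
  have hl := (mem_SW.mp hw).1
  calc ∑ p ∈ adm w, |F (path R (pth (m + 2) (ins w p.1 p.2))) - F (path R (pth m w))|
      ≤ ∑ p ∈ adm w, 2 / R := by
        refine sum_le_sum (fun p hp => ?_)
        have hp' : (p.1, p.2) ∈ adm w := hp
        have hi := (H976R2.mem_adm.mp hp').1
        exact hF _ _ _ (fun t h0 h1 => path_close hw hi hR h0 h1)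
    _ = (AA w : ℝ) * (2 / R) := by rw [sum_const, nsmul_eq_mul]; rfl
    _ ≤ (2 * (m : ℝ)) * (2 / R) := by
        apply mul_le_mul_of_nonneg_right _ (by positivity)
        have h := AA_le w
        rw [hl] at h
        exact_mod_cast h
    _ = _ := by ring

lemma bad_card (m k : ℕ) (w : List Dir) (hl : w.length = m) :
    ((adm w).filter (fun p => ¬ (k ≤ p.1 ∧ p.1 + k + 1 ≤ m))).card ≤ 8 * k := by
  have hsub : (adm w).filter (fun p => ¬ (k ≤ p.1 ∧ p.1 + k + 1 ≤ m)) ⊆
      (range k ∪ (range k).image (fun j => m - 1 - j)) ×ˢ (univ : Finset Dir) := by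
    intro p hp
    rw [mem_filter] at hp
    obtain ⟨hp, h2⟩ := hp
    have hp' : (p.1, p.2) ∈ adm w := hp
    have hi := (H976R2.mem_adm.mp hp').1
    rw [mem_product, mem_union, mem_range, mem_image]
    refine ⟨?_, mem_univ _⟩
    by_cases h : p.1 < k
    · exact Or.inl h
    · exact Or.inr ⟨m - 1 - p.1, by rw [mem_range]; omega, by omega⟩
  refine (card_le_card hsub).trans ?_
  rw [card_product]
  have h4 : (univ : Finset Dir).card = 4 := rfl
  rw [h4]
  have h5 : (range k ∪ (range k).image (fun j => m - 1 - j)).card ≤ k + k := by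
    refine (card_union_le _ _).trans ?_
    refine add_le_add (by rw [card_range]) (card_image_le.trans (by rw [card_range]))
  omega

lemma ends_lip {m k : ℕ} {G : (Fin (k + 1) → ℤ × ℤ) → (Fin (k + 1) → ℤ × ℤ) → ℝ}
    (hG : ∀ a b, 0 ≤ G a b ∧ G a b ≤ 1) {w : List Dir} (hw : w ∈ SW m) :
    ∑ p ∈ adm w, |G (fun i => site (pth (m + 2) (ins w p.1 p.2)) i)
        (fun i => site (pth (m + 2) (ins w p.1 p.2)) (m + 2 - i)) -
      G (fun i => site (pth m w) i) (fun i => site (pth m w) (m - i))| ≤ 8 * k := by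
  have hl := (mem_SW.mp hw).1
  calc ∑ p ∈ adm w, |G (fun i => site (pth (m + 2) (ins w p.1 p.2)) i)
        (fun i => site (pth (m + 2) (ins w p.1 p.2)) (m + 2 - i)) -
      G (fun i => site (pth m w) i) (fun i => site (pth m w) (m - i))|
      ≤ ∑ p ∈ adm w, (if ¬ (k ≤ p.1 ∧ p.1 + k + 1 ≤ m) then (1 : ℝ) else 0) := by
        refine sum_le_sum (fun p hp => ?_)
        have hp' : (p.1, p.2) ∈ adm w := hp
        have hi := (H976R2.mem_adm.mp hp').1
        by_cases h : k ≤ p.1 ∧ p.1 + k + 1 ≤ m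
        · rw [if_neg (not_not.2 h)]
          have e1 : (fun i : Fin (k + 1) => site (pth (m + 2) (ins w p.1 p.2)) i) =
              (fun i : Fin (k + 1) => site (pth m w) i) := by
            funext i
            have hik := i.2
            rw [site_pth, site_pth, min_eq_left (by omega), min_eq_left (by omega)]
            exact Lip.PP_ins_le w p.1 i p.2 hi (by omega)
          have e2 : (fun i : Fin (k + 1) => site (pth (m + 2) (ins w p.1 p.2)) (m + 2 - i)) =
              (fun i : Fin (k + 1) => site (pth m w) (m - i)) := by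
            funext i
            have hik := i.2
            rw [site_pth, site_pth, min_eq_left (by omega), min_eq_left (by omega),
              show m + 2 - (i : ℕ) = (m - i) + 2 by omega]
            exact Lip.PP_ins_gt w p.1 (m - i) p.2 hi (by omega)
          rw [e1, e2, sub_self, abs_zero]
        · rw [if_pos h]
          have h1 := hG (fun i => site (pth (m + 2) (ins w p.1 p.2)) i)
            (fun i => site (pth (m + 2) (ins w p.1 p.2)) (m + 2 - i))
          have h2 := hG (fun i => site (pth m w) i) (fun i => site (pth m w) (m - i))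
          rw [abs_le]
          constructor <;> linarith [h1.1, h1.2, h2.1, h2.2]
    _ = (((adm w).filter (fun p => ¬ (k ≤ p.1 ∧ p.1 + k + 1 ≤ m))).card : ℝ) := by
        rw [← sum_filter, sum_const, nsmul_eq_mul, mul_one]
    _ ≤ _ := by exact_mod_cast bad_card m k w hl

/-- the merging statement for the walks in the domain `D` at the length `n` -/
structure Merging (K : ℝ) (s : ℕ) (μ : ℝ) (D : Set (ℤ × ℤ)) (n : ℕ) : Prop where
  ratio : |((walks D (n + 2)).ncard : ℝ) / ((walks D n).ncard : ℝ) - μ ^ 2| ≤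
    K * (Real.log n ^ s / √n)
  ends : ∀ (k : ℕ) (G : (Fin (k + 1) → ℤ × ℤ) → (Fin (k + 1) → ℤ × ℤ) → ℝ),
    (∀ a b, 0 ≤ G a b ∧ G a b ≤ 1) →
    |mean D (n + 2) (fun w => G (fun i => site w i) (fun i => site w (n + 2 - i))) -
      mean D n (fun w => G (fun i => site w i) (fun i => site w (n - i)))| ≤
      K * √((Real.log n ^ s + k) * Real.log n ^ s / n)
  path : ∀ (R : ℝ) (F : (ℝ → ℝ × ℝ) → ℝ), 0 < R → (∀ x, 0 ≤ F x ∧ F x ≤ 1) →
    (∀ (x y : ℝ → ℝ × ℝ) (δ : ℝ), (∀ t, 0 ≤ t → t ≤ 1 → ‖x t - y t‖ ≤ δ) → |F x - F y| ≤ δ) →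
    |mean D (n + 2) (fun w => F (path R w)) - mean D n (fun w => F (path R w))| ≤
      K * (Real.log n ^ s / √n + √(Real.log n ^ s / R))

theorem merging (A : ℝ) (s : ℕ) (hs : 2 ≤ s) : ∃ K : ℝ, 0 ≤ K ∧
    ∀ (D : Set (ℤ × ℤ)) (n : ℕ), 3 ≤ n → Low A s H981.mu D n → Merging K s H981.mu D n := by
  have hA : 0 ≤ |A| := abs_nonneg A
  obtain ⟨K1, hK1, h1⟩ := ratio_dom |A| hA s hs
  obtain ⟨K2, hK2, h2⟩ := merge_dom |A| hA s hs
  have hmu := H981.mu_pos
  refine ⟨K1 + 3 * K2, by positivity, fun D n hn hlow' => ?_⟩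
  have hlow : Low |A| s H981.mu D n := hlow'.mono (le_abs_self A) hmu (le_refl D)
  have hn' : (3 : ℝ) ≤ n := by exact_mod_cast hn
  have hnp : (0 : ℝ) < n := by linarith
  have hl1 : 1 ≤ Real.log n := RATE.one_le_log hn
  obtain ⟨l, hl⟩ : ∃ l : ℝ, l = Real.log n ^ s := ⟨_, rfl⟩
  have hls : 1 ≤ l := by rw [hl]; exact one_le_pow₀ hl1
  refine ⟨?_, fun k G hG => ?_, fun R F hR hF hFl => ?_⟩
  · refine (h1 D n hn hlow).trans ?_
    apply mul_le_mul_of_nonneg_right _ (by positivity)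
    linarith
  · have h3 := h2 (8 * k) (by positivity) D n hn hlow
      (fun m w => G (fun i => site w i) (fun i => site w (m - i))) (fun m w => hG _ _)
      (fun m g1 g2 g3 w hw => ends_lip hG hw)
    refine h3.trans ?_
    rw [← hl]
    have h4 : √((l + 8 * k) * l / n) ≤ 3 * √((l + k) * l / n) := by
      have e : (3 : ℝ) = √9 := by
        rw [show (9 : ℝ) = 3 ^ 2 by norm_num, Real.sqrt_sq (by norm_num)]
      rw [e, ← Real.sqrt_mul (by norm_num)]
      apply Real.sqrt_le_sqrt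
      rw [mul_div_assoc', div_le_div_iff_of_pos_right hnp]
      have hk : (0 : ℝ) ≤ k := Nat.cast_nonneg k
      have : (l + 8 * k) * l ≤ (9 * (l + k)) * l := by
        apply mul_le_mul_of_nonneg_right _ (by linarith)
        linarith
      linarith
    calc K2 * √((l + 8 * k) * l / n) ≤ K2 * (3 * √((l + k) * l / n)) := by gcongr
      _ = 3 * K2 * √((l + k) * l / n) := by ring
      _ ≤ _ := by
          apply mul_le_mul_of_nonneg_right _ (Real.sqrt_nonneg _)
          linarith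
  · have h3 := h2 (8 * n / R) (by positivity) D n hn hlow (fun m w => F (path R w))
      (fun m w => hF _) (fun m g1 g2 g3 w hw => by
        refine (path_lip hR hFl hw).trans ?_
        apply div_le_div_of_nonneg_right _ hR.le
        have : (m : ℝ) ≤ 2 * n := by exact_mod_cast g2
        linarith)
    refine h3.trans ?_
    rw [← hl]
    have h4 : √((l + 8 * n / R) * l / n) ≤ 3 * (l / √n + √(l / R)) := by
      have e : (l + 8 * n / R) * l / n = l ^ 2 / n + 8 * (l / R) := by field_simp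
      rw [e]
      have h5 : 0 ≤ l / √n := by positivity
      have h6 : (l / √n) ^ 2 = l ^ 2 / n := by rw [div_pow, Real.sq_sqrt hnp.le]
      have h7 : √(l / R) ^ 2 = l / R := Real.sq_sqrt (by positivity)
      have h8 : 0 ≤ √(l / R) := Real.sqrt_nonneg _
      apply Real.sqrt_le_iff.2
      constructor
      · positivity
      · nlinarith
    calc K2 * √((l + 8 * n / R) * l / n) ≤ K2 * (3 * (l / √n + √(l / R))) := by gcongr
      _ = 3 * K2 * (l / √n + √(l / R)) := by ring
      _ ≤ _ := by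
          apply mul_le_mul_of_nonneg_right _ (by positivity)
          linarith

/-- the closed half plane, with half of its boundary line -/
theorem low_half : ∃ A : ℝ, 0 ≤ A ∧ ∀ D : Set (ℤ × ℤ), P.Hp ⊆ D → ∀ n : ℕ, 3 ≤ n →
    Low A 2 H981.mu D n := by
  obtain ⟨K, hK, h⟩ := P.half_low
  refine ⟨K, hK, fun D hD n hn => ?_⟩
  refine Low.mono (le_refl K) H981.mu_pos hD ?_
  intro m g1 g2 g3
  rw [card_walks']
  exact h m (by omega)

theorem low_wedge : ∃ A : ℝ, 0 ≤ A ∧ ∀ η : ℝ, 0 < η → η ≤ 1 → ∀ D : Set (ℤ × ℤ),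
    {p : ℤ × ℤ | |(p.1 : ℝ)| ≤ η * p.2} ⊆ D → ∀ n : ℕ, 3 ≤ n →
    Low (A / η) 3 H981.mu D n := by
  obtain ⟨K, hK⟩ := Pool.Agent.TH303.SX2.wedge_final
  refine ⟨|K|, abs_nonneg K, fun η hη hη1 D hD n hn => ?_⟩
  refine Low.mono (le_refl _) H981.mu_pos hD ?_
  intro m g1 g2 g3
  have h1 := hK η hη hη1 m (by omega)
  have hl0 : 0 ≤ Real.log (m : ℝ) ^ 3 := pow_nonneg (Real.log_natCast_nonneg m) 3
  have hC : ((Pool.Agent.H122R3.SX.walks m).ncard : ℝ) = ((SW m).card : ℝ) := by
    rw [← ncard_saw m]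
    congr 2
    ext w
    constructor
    · rintro ⟨a1, a2, a3⟩
      refine ⟨a1, fun i => ?_, a2⟩
      have := a3 i
      unfold Pool.Agent.H122R3.SX.Adj at this
      rw [abs_sub_comm, abs_sub_comm (w i.succ).2]
      exact this
    · rintro ⟨a1, a2, a3⟩
      refine ⟨a1, a3, fun i => ?_⟩
      unfold Pool.Agent.H122R3.SX.Adj
      have := a2 i
      rw [abs_sub_comm, abs_sub_comm (w i.succ).2] at this
      exact this
  have hW : {f | f ∈ Pool.Agent.H122R3.SX.walks m ∧ ∀ i, |((f i).1 : ℝ)| ≤ η * (f i).2} =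
      walks {p : ℤ × ℤ | |(p.1 : ℝ)| ≤ η * p.2} m := by
    ext w
    constructor
    · rintro ⟨⟨a1, a2, a3⟩, a4⟩
      refine ⟨a1, a2, fun i => ?_, a4⟩
      have := a3 i
      unfold Pool.Agent.H122R3.SX.Adj at this
      rw [abs_sub_comm, abs_sub_comm (w i.succ).2]
      exact this
    · rintro ⟨a1, a2, a3, a4⟩
      refine ⟨⟨a1, a2, fun i => ?_⟩, a4⟩
      unfold Pool.Agent.H122R3.SX.Adj
      have := a3 i
      rw [abs_sub_comm, abs_sub_comm (w i.succ).2] at this
      exact this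
  rw [hW, hC] at h1
  have hmu := H981.mu_pos
  have hc : H981.mu ^ m ≤ ((SW m).card : ℝ) := by
    rw [SWR.card_eq_cr']; exact H981.mu_pow_le m
  have hcp : 0 < ((SW m).card : ℝ) := lt_of_lt_of_le (by positivity) hc
  rw [le_div_iff₀ hcp] at h1
  refine le_trans ?_ h1
  rw [mul_comm]
  apply mul_le_mul _ hc (by positivity) (Real.exp_pos _).le
  apply Real.exp_le_exp.2
  have : K / η * Real.log m ^ 3 ≤ |K| / η * Real.log m ^ 3 := by
    apply mul_le_mul_of_nonneg_right _ hl0
    exact div_le_div_of_nonneg_right (le_abs_self K) hη.le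
  linarith

theorem tendsto_mu : Filter.Tendsto (fun n : ℕ => ((walks Set.univ n).ncard : ℝ) ^ (1 / (n : ℝ)))
    Filter.atTop (nhds H981.mu) := by
  have h := H981.tendsto_root
  have hC : ∀ n, ((walks Set.univ n).ncard : ℝ) = H981.cr' n := by
    intro n
    rw [← SWR.card_eq_cr', card_walks']
    congr 2
    exact filter_true_of_mem (fun w _ k _ => Set.mem_univ _)
  simpa only [hC] using h

/-- weights of the end point -/
theorem weight_dom (A : ℝ) (s : ℕ) (hs : 2 ≤ s) : ∃ K : ℝ, 0 ≤ K ∧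
    ∀ (D : Set (ℤ × ℤ)) (ψ : ℤ × ℤ → ℝ) (n : ℕ), 3 ≤ n → (∀ x, 0 ≤ ψ x) →
    (∀ m : ℕ, n ≤ 2 * m → m ≤ 2 * n + 2 → m % 2 = n % 2 → ∀ x : ℤ × ℤ, |x.1| + |x.2| ≤ m → x ≠ 0 →
      ψ x ≤ Real.exp (A * Real.log m ^ s)) →
    (∀ m : ℕ, n ≤ 2 * m → m ≤ 2 * n → m % 2 = n % 2 →
      H981.mu ^ m * Real.exp (-(A * Real.log m ^ s)) ≤ ∑ᶠ w ∈ walks D m, ψ (w (Fin.last m))) →
    |(∑ᶠ w ∈ walks D (n + 2), ψ (w (Fin.last (n + 2)))) / (∑ᶠ w ∈ walks D n, ψ (w (Fin.last n))) -
      H981.mu ^ 2| ≤ K * (Real.log n ^ s / √n) := by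
  have hA : 0 ≤ |A| := abs_nonneg A
  obtain ⟨K, hK, h⟩ := main_fam |A| 0 hA le_rfl s hs
  have hmu := H981.mu_pos
  refine ⟨H981.mu ^ 2 * K, by positivity, fun D ψ n hn hψ hle hlow => ?_⟩
  have e : ∀ m, ∑ᶠ w ∈ walks D m, ψ (w (Fin.last m)) =
      mom (fw ({()} : Finset Unit) (fun _ => D) (fun _ w => ψ (wX w, wY w))) m := by
    intro m
    exact sum_walks D m (fun w => ψ (w (Fin.last m))) _ (fun w hw => by rw [pth_last hw])
  have hFam : Fam |A| 0 s ({()} : Finset Unit) (fun _ => D) (fun _ w => ψ (wX w, wY w)) n := by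
    refine ⟨fun θ _ w => hψ _, fun m g1 g2 g3 => ⟨fun _ => Real.exp (|A| * Real.log m ^ s),
      fun θ _ w hw => ?_, by rw [sum_singleton]⟩, fun m g1 g2 g3 θ _ w hw => ?_, fun m g1 g2 g3 => ?_⟩
    · have hl0 : 0 ≤ Real.log (m : ℝ) ^ s := pow_nonneg (Real.log_natCast_nonneg m) s
      refine (hle m g1 g2 g3 (wX w, wY w) ?_ ?_).trans (Real.exp_le_exp.2 ?_)
      · have h1 := (mem_SW.mp hw).1
        have h2 : ∀ u : List Dir, |wX u| + |wY u| ≤ (u.length : ℤ) := by
          intro u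
          induction u with
          | nil => simp
          | cons a u ih =>
            rw [wX_cons, wY_cons, List.length_cons]
            have h3 : |dx a| + |dy a| = 1 := by cases a <;> simp [dx, dy]
            have h4 := abs_add_le (dx a) (wX u)
            have h5 := abs_add_le (dy a) (wY u)
            push_cast
            linarith
        have := h2 w
        rw [h1] at this
        exact this
      · intro h0
        obtain ⟨hlen, hsaw⟩ := mem_SW.mp hw
        rw [Prod.mk_eq_zero] at h0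
        refine hsaw [] w [] (by simp) ?_ h0
        intro hnil
        rw [hnil] at hlen
        simp at hlen
        omega
      · exact mul_le_mul_of_nonneg_right (le_abs_self A) hl0
    · refine le_of_eq ?_
      rw [zero_mul]
      refine sum_eq_zero (fun p hp => ?_)
      have hp' : (p.1, p.2) ∈ adm w := hp
      have hi := (H976R2.mem_adm.mp hp').1
      rw [wX_ins p.2 hi, wY_ins p.2 hi, sub_self, abs_zero]
    · rw [← e]
      refine le_trans ?_ (hlow m g1 g2 g3)
      apply mul_le_mul_of_nonneg_left _ (by positivity)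
      apply Real.exp_le_exp.2
      have hl0 : 0 ≤ Real.log (m : ℝ) ^ s := pow_nonneg (Real.log_natCast_nonneg m) s
      nlinarith [le_abs_self A]
  have h1 := h Unit {()} (fun _ => D) _ n hn hFam
  rw [← e, ← e] at h1
  obtain ⟨x, hx⟩ : ∃ x, x = ∑ᶠ w ∈ walks D n, ψ (w (Fin.last n)) := ⟨_, rfl⟩
  obtain ⟨y, hy⟩ : ∃ y, y = ∑ᶠ w ∈ walks D (n + 2), ψ (w (Fin.last (n + 2))) := ⟨_, rfl⟩
  have hp : 0 < x := by
    rw [hx]; exact lt_of_lt_of_le (by positivity) (hlow n (by omega) (by omega) rfl)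
  rw [← hx, ← hy] at h1 ⊢
  have e : y / x - H981.mu ^ 2 = H981.mu ^ 2 * (y / (H981.mu ^ 2 * x) - 1) := by
    field_simp
  rw [e, abs_mul, abs_of_pos (show 0 < H981.mu ^ 2 by positivity), mul_assoc]
  exact mul_le_mul_of_nonneg_left h1 (by positivity)

end Pool.Agent.X44.GR.V
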