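import Pool.Agent.X44.GR.B
import Pool.Agent.H976R2.KLip

/-!
# Walks in a domain: the number of insertions which leave the domain
-/

set_option autoImplicit false
set_option linter.unusedVariables false

namespace Pool.Agent.X44.GR

open Finset Pool.Agent.H976R2 Pool.Agent.H739K
open scoped Classical
open Pool.Agent.H976R2.Lip (PP dv PP_succ PP_inj PP_ins_le PP_ins_gt sh sh_inj mem_adm_sh card_pos_le)

/-- all sites of the walk are in `D` -/
def inD (D : Set (ℤ × ℤ)) (w : List Dir) : Prop := ∀ k ≤ w.length, PP w k ∈ D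

/-- the admissible insertions with a new site outside `D` -/
noncomputable def exD (D : Set (ℤ × ℤ)) (w : List Dir) : Finset (ℕ × Dir) :=
  (adm w).filter (fun p => ¬ (PP w p.1 + dv p.2 ∈ D ∧ PP w p.1 + dv p.2 + dv (lt w p.1) ∈ D))

/-- the times at which the walk is outside `D` -/
noncomputable def outD (D : Set (ℤ × ℤ)) (w : List Dir) : Finset ℕ :=
  (range (w.length + 1)).filter (fun k => PP w k ∉ D)

/-- the times `i` such that the site number `i + 1` or `i + 2` is outside `D` -/
noncomputable def bo (D : Set (ℤ × ℤ)) (w : List Dir) : Finset ℕ :=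
  (range (w.length - 2)).filter (fun i => PP w (i + 1) ∉ D ∨ PP w (i + 2) ∉ D)

variable {D : Set (ℤ × ℤ)} {w : List Dir} {i : ℕ} {e : Dir}

lemma PP_new1 (hi : i < w.length) : PP (ins w i e) (i + 1) = PP w i + dv e := by
  rw [PP_succ _ _ (by rw [Lip.ins_length w i e hi]; omega), PP_ins_le w i i e hi le_rfl,
    Lip.lt_ins_0 w i e hi]

lemma PP_new2 (hi : i < w.length) : PP (ins w i e) (i + 2) = PP w i + dv e + dv (lt w i) := by
  rw [show i + 2 = i + 1 + 1 by ring, PP_succ _ _ (by rw [Lip.ins_length w i e hi]; omega),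
    PP_new1 hi, Lip.lt_ins_1 w i e hi]

/-- the sites of the walk with an inserted bump -/
lemma PP_ins_cases (hi : i < w.length) (k : ℕ) (hk : k ≤ w.length + 2) :
    (k ≤ i ∧ PP (ins w i e) k = PP w k) ∨ (k = i + 1) ∨ (k = i + 2) ∨
      (i + 3 ≤ k ∧ PP (ins w i e) k = PP w (k - 2)) := by
  rcases lt_trichotomy k (i + 1) with h | h | h
  · exact Or.inl ⟨by omega, PP_ins_le w i k e hi (by omega)⟩
  · exact Or.inr (Or.inl h)
  · rcases eq_or_ne k (i + 2) with h2 | h2
    · exact Or.inr (Or.inr (Or.inl h2))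
    · refine Or.inr (Or.inr (Or.inr ⟨by omega, ?_⟩))
      obtain ⟨j, rfl⟩ : ∃ j, k = j + 2 := ⟨k - 2, by omega⟩
      rw [PP_ins_gt w i j e hi (by omega)]
      rfl

lemma inD_ins_iff (hi : i < w.length) (hw : inD D w) :
    inD D (ins w i e) ↔ (PP w i + dv e ∈ D ∧ PP w i + dv e + dv (lt w i) ∈ D) := by
  constructor
  · intro h
    have hl := Lip.ins_length w i e hi
    exact ⟨by rw [← PP_new1 hi]; exact h _ (by omega), by rw [← PP_new2 hi]; exact h _ (by omega)⟩
  · rintro ⟨h1, h2⟩ k hk
    rw [Lip.ins_length w i e hi] at hk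
    rcases PP_ins_cases (e := e) hi k hk with ⟨h, h'⟩ | h | h | ⟨h, h'⟩
    · rw [h']; exact hw k (by omega)
    · rw [h, PP_new1 hi]; exact h1
    · rw [h, PP_new2 hi]; exact h2
    · rw [h']; exact hw (k - 2) (by omega)

lemma inD_of_ins (hi : i < w.length) (h : inD D (ins w i e)) : inD D w := by
  have hl := Lip.ins_length w i e hi
  intro k hk
  by_cases hki : k ≤ i
  · rw [← PP_ins_le w i k e hi hki]; exact h k (by omega)
  · rw [← PP_ins_gt w i k e hi (by omega)]; exact h (k + 2) (by omega)

lemma out_ins (hi : i < w.length) :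
    (outD D (ins w i e)).card ≤ (outD D w).card + 2 := by
  have hl := Lip.ins_length w i e hi
  rw [← card_filter_add_card_filter_not (s := outD D (ins w i e)) (fun k => k ∈ ({i + 1, i + 2} : Finset ℕ))]
  have a1 : ((outD D (ins w i e)).filter (fun k => k ∈ ({i + 1, i + 2} : Finset ℕ))).card ≤ 2 :=
    (card_le_card (fun k hk => (mem_filter.mp hk).2)).trans Finset.card_le_two
  have a2 : ((outD D (ins w i e)).filter (fun k => ¬ k ∈ ({i + 1, i + 2} : Finset ℕ))).card ≤
      (outD D w).card := by
    apply card_le_card_of_injOn (fun k => if k ≤ i then k else k - 2)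
    · intro k hk
      rw [mem_coe, mem_filter] at hk
      obtain ⟨h1, h2⟩ := hk
      unfold outD at h1
      rw [mem_filter, mem_range, hl] at h1
      simp only [mem_insert, mem_singleton, not_or] at h2
      rw [mem_coe]
      unfold outD
      rw [mem_filter, mem_range]
      simp only
      rcases PP_ins_cases (e := e) hi k (by omega) with ⟨h, h'⟩ | h | h | ⟨h, h'⟩
      · rw [if_pos h]
        rw [h'] at h1
        exact ⟨by omega, h1.2⟩
      · exact absurd h h2.1
      · exact absurd h h2.2
      · rw [if_neg (by omega)]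
        rw [h'] at h1
        exact ⟨by omega, h1.2⟩
    · intro k hk k' hk' hkk
      rw [mem_coe, mem_filter] at hk hk'
      simp only [mem_insert, mem_singleton, not_or] at hk hk'
      simp only at hkk
      split_ifs at hkk <;> omega
  omega

theorem ex_ins (hw : Saw w) (h : (i, e) ∈ adm w) :
    (exD D w).card ≤ (exD D (ins w i e)).card + 20 := by
  have h0 := h
  unfold adm at h0
  rw [mem_filter, mem_product, mem_range] at h0
  have hi : i < w.length := h0.1.1
  have hw' : Saw (ins w i e) := h0.2.2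
  have h4 : (univ : Finset Dir).card = 4 := rfl
  set v1 := PP w i + dv e with hv1
  set v2 := PP w i + dv e + dv (lt w i) with hv2
  have hsubadm : ∀ p ∈ exD D w, p ∈ adm w := fun p hp => (mem_filter.mp hp).1
  have hlt : ∀ p ∈ exD D w, p.1 < w.length := by
    rintro ⟨j, f⟩ hp
    have := hsubadm _ hp
    rw [Lip.mem_adm hw] at this
    exact this.1
  have hsub : exD D w ⊆ (((exD D w).filter (fun p => p.1 = i)) ∪
      ((exD D w).filter (fun p => PP w (p.1 + 0) + dv p.2 = v1)) ∪
      ((exD D w).filter (fun p => PP w (p.1 + 0) + dv p.2 = v2)) ∪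
      ((exD D w).filter (fun p => PP w (p.1 + 1) + dv p.2 = v1)) ∪
      ((exD D w).filter (fun p => PP w (p.1 + 1) + dv p.2 = v2))) ∪
      ((exD D w).filter (fun p => (sh i p.1, p.2) ∈ exD D (ins w i e))) := by
    rintro ⟨j, f⟩ hp
    have hjl : j < w.length := hlt _ hp
    by_contra hcon
    simp only [mem_union, mem_filter, not_or, hp, true_and, add_zero] at hcon
    obtain ⟨⟨⟨⟨⟨c1, c2⟩, c3⟩, c4⟩, c5⟩, c6⟩ := hcon
    rw [PP_succ w j hjl] at c4 c5
    apply c6
    unfold exD
    rw [mem_filter]
    refine ⟨?_, ?_⟩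
    · rw [mem_adm_sh hw i e hi hw' j c1 f]
      refine ⟨hsubadm _ hp, ⟨c2, c3⟩, ?_, ?_⟩
      · intro h'; apply c4; rw [hv1, ← h']; abel
      · intro h'; apply c5; rw [hv2, ← h']; abel
    · have h5 := (mem_filter.mp hp).2
      have e1 : lt (ins w i e) (sh i j) = lt w j := by
        unfold sh
        split_ifs with h
        · exact Lip.lt_ins_lt w i j e hi h
        · exact Lip.lt_ins_gt w i j e hi (by omega)
      have e2 : PP (ins w i e) (sh i j) = PP w j := by
        unfold sh
        split_ifs with h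
        · exact PP_ins_le w i j e hi (by omega)
        · exact PP_ins_gt w i j e hi (by omega)
      simp only
      rw [e1, e2]
      exact h5
  have b1 : ((exD D w).filter (fun p => p.1 = i)).card ≤ 4 := by
    rw [← h4]
    apply card_le_card_of_injOn (fun p => p.2) (fun p _ => mem_univ _)
    rintro ⟨j, f⟩ hp ⟨k, g⟩ hq hpq
    rw [mem_coe, mem_filter] at hp hq
    simp only at hp hq hpq
    rw [hp.2, hq.2, hpq]
  have b2 : ((exD D w).filter (fun p => PP w (p.1 + 0) + dv p.2 = v1)).card ≤ 4 :=
    card_pos_le hw v1 (fun _ _ => v1) _ 0 (by omega)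
      (fun p hp => ⟨hlt p (mem_filter.mp hp).1, (mem_filter.mp hp).2⟩)
  have b3 : ((exD D w).filter (fun p => PP w (p.1 + 0) + dv p.2 = v2)).card ≤ 4 :=
    card_pos_le hw v2 (fun _ _ => v2) _ 0 (by omega)
      (fun p hp => ⟨hlt p (mem_filter.mp hp).1, (mem_filter.mp hp).2⟩)
  have b4 : ((exD D w).filter (fun p => PP w (p.1 + 1) + dv p.2 = v1)).card ≤ 4 :=
    card_pos_le hw v1 (fun _ _ => v1) _ 1 (by omega)
      (fun p hp => ⟨hlt p (mem_filter.mp hp).1, (mem_filter.mp hp).2⟩)
  have b5 : ((exD D w).filter (fun p => PP w (p.1 + 1) + dv p.2 = v2)).card ≤ 4 :=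
    card_pos_le hw v2 (fun _ _ => v2) _ 1 (by omega)
      (fun p hp => ⟨hlt p (mem_filter.mp hp).1, (mem_filter.mp hp).2⟩)
  have b6 : ((exD D w).filter (fun p => (sh i p.1, p.2) ∈ exD D (ins w i e))).card ≤
      (exD D (ins w i e)).card := by
    apply card_le_card_of_injOn (fun p => (sh i p.1, p.2))
    · intro p hp
      rw [mem_coe, mem_filter] at hp
      exact hp.2
    · rintro ⟨j, f⟩ hp ⟨k, g⟩ hq hpq
      simp only [Prod.mk.injEq] at hpq ⊢
      exact ⟨sh_inj i hpq.1, hpq.2⟩
  have hc := card_le_card hsub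
  have c1 := card_union_le (((exD D w).filter (fun p => p.1 = i)) ∪
      ((exD D w).filter (fun p => PP w (p.1 + 0) + dv p.2 = v1)) ∪
      ((exD D w).filter (fun p => PP w (p.1 + 0) + dv p.2 = v2)) ∪
      ((exD D w).filter (fun p => PP w (p.1 + 1) + dv p.2 = v1)) ∪
      ((exD D w).filter (fun p => PP w (p.1 + 1) + dv p.2 = v2)))
      ((exD D w).filter (fun p => (sh i p.1, p.2) ∈ exD D (ins w i e)))
  have c2 := card_union_le (((exD D w).filter (fun p => p.1 = i)) ∪
      ((exD D w).filter (fun p => PP w (p.1 + 0) + dv p.2 = v1)) ∪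
      ((exD D w).filter (fun p => PP w (p.1 + 0) + dv p.2 = v2)) ∪
      ((exD D w).filter (fun p => PP w (p.1 + 1) + dv p.2 = v1)))
      ((exD D w).filter (fun p => PP w (p.1 + 1) + dv p.2 = v2))
  have c3 := card_union_le (((exD D w).filter (fun p => p.1 = i)) ∪
      ((exD D w).filter (fun p => PP w (p.1 + 0) + dv p.2 = v1)) ∪
      ((exD D w).filter (fun p => PP w (p.1 + 0) + dv p.2 = v2)))
      ((exD D w).filter (fun p => PP w (p.1 + 1) + dv p.2 = v1))
  have c4 := card_union_le (((exD D w).filter (fun p => p.1 = i)) ∪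
      ((exD D w).filter (fun p => PP w (p.1 + 0) + dv p.2 = v1)))
      ((exD D w).filter (fun p => PP w (p.1 + 0) + dv p.2 = v2))
  have c5 := card_union_le ((exD D w).filter (fun p => p.1 = i))
      ((exD D w).filter (fun p => PP w (p.1 + 0) + dv p.2 = v1))
  omega

lemma bo_card (D : Set (ℤ × ℤ)) (w : List Dir) : (bo D w).card ≤ 2 * (outD D w).card := by
  have h1 : bo D w ⊆ (outD D w).image (fun k => k - 1) ∪ (outD D w).image (fun k => k - 2) := by
    intro i hi
    unfold bo at hi
    rw [mem_filter, mem_range] at hi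
    obtain ⟨h1, h2⟩ := hi
    rw [mem_union, mem_image, mem_image]
    unfold outD
    simp only [mem_filter, mem_range]
    rcases h2 with h2 | h2
    · exact Or.inl ⟨i + 1, ⟨by omega, h2⟩, rfl⟩
    · exact Or.inr ⟨i + 2, ⟨by omega, h2⟩, rfl⟩
  have h2 := card_le_card h1
  have h3 := card_union_le ((outD D w).image (fun k => k - 1)) ((outD D w).image (fun k => k - 2))
  have h4 := card_image_le (s := outD D w) (f := fun k => k - 1)
  have h5 := card_image_le (s := outD D w) (f := fun k => k - 2)
  omega

/-- the walks with many exits left after `j` insertions -/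
noncomputable def Sj (D : Set (ℤ × ℤ)) (n b j : ℕ) : Finset (List Dir) :=
  (SW (n + 2 * j)).filter (fun w => (outD D w).card ≤ 2 * j ∧ b ≤ (exD D w).card + 20 * j)

theorem Sj_step (D : Set (ℤ × ℤ)) (n b j : ℕ) :
    (Sj D n b j).card * (b - 20 * j) ≤ (Sj D n b (j + 1)).card * (4 * (j + 1)) := by
  have h1 : ((Sj D n b j).sigma (exD D)).card ≤ ((Sj D n b (j + 1)).sigma (bo D)).card := by
    refine Finset.card_le_card_of_injOn (fun x => ⟨ins x.1 x.2.1 x.2.2, x.2.1⟩) ?_ ?_
    · rintro ⟨w, i, e⟩ hx
      rw [mem_coe, mem_sigma] at hx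
      obtain ⟨hw, hp⟩ := hx
      simp only at hw hp
      unfold Sj at hw
      rw [mem_filter, mem_SW] at hw
      obtain ⟨⟨hl, hs⟩, ho, hb⟩ := hw
      have hp' := hp
      unfold exD at hp'
      rw [mem_filter] at hp'
      obtain ⟨ha, hne⟩ := hp'
      simp only at hne
      obtain ⟨hi, hperp, hs'⟩ := H976R2.mem_adm.mp ha
      have hl' := Lip.ins_length w i e hi
      rw [mem_coe, mem_sigma]
      simp only
      refine ⟨?_, ?_⟩
      · unfold Sj
        rw [mem_filter, mem_SW]
        have h2 := out_ins (D := D) (e := e) hi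
        have h3 := ex_ins (D := D) hs ha
        refine ⟨⟨by omega, hs'⟩, by omega, by omega⟩
      · unfold bo
        rw [mem_filter, mem_range, PP_new1 hi, PP_new2 hi]
        refine ⟨by omega, ?_⟩
        by_contra hcon
        push Not at hcon
        exact hne hcon
    · rintro ⟨w, i, e⟩ hx ⟨w', i', e'⟩ hx' heq
      rw [mem_coe, mem_sigma] at hx hx'
      simp only [Sigma.mk.injEq, heq_eq_eq] at heq
      obtain ⟨h2, h3⟩ := heq
      subst h3
      have hi : i < w.length := (H976R2.mem_adm.mp (mem_filter.mp hx.2).1).1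
      have hi' : i < w'.length := (H976R2.mem_adm.mp (mem_filter.mp hx'.2).1).1
      have h4 : w = w' := by
        rw [← del_ins (e := e) hi, ← del_ins (e := e') hi', h2]
      have h5 : e = e' := by
        rw [← lt_ins_0 (e := e) hi, ← lt_ins_0 (e := e') hi', h2]
      rw [h4, h5]
  rw [card_sigma, card_sigma] at h1
  calc (Sj D n b j).card * (b - 20 * j) = ∑ w ∈ Sj D n b j, (b - 20 * j) := by
        rw [sum_const, smul_eq_mul]
    _ ≤ ∑ w ∈ Sj D n b j, (exD D w).card := by
        refine sum_le_sum (fun w hw => ?_)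
        have := (mem_filter.mp hw).2.2
        omega
    _ ≤ ∑ w ∈ Sj D n b (j + 1), (bo D w).card := h1
    _ ≤ ∑ w ∈ Sj D n b (j + 1), 4 * (j + 1) := by
        refine sum_le_sum (fun w hw => ?_)
        have := (mem_filter.mp hw).2.1
        have := bo_card D w
        omega
    _ = _ := by rw [sum_const, smul_eq_mul]

/-- **few walks in a domain have many insertions which leave the domain** -/
theorem tail (D : Set (ℤ × ℤ)) (n j : ℕ) :
    ((SW n).filter (fun w => inD D w ∧ 216 * j ≤ (exD D w).card)).card * 44 ^ j ≤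
      (SW (n + 2 * j)).card := by
  have key : ∀ i : ℕ, i ≤ j →
      ((SW n).filter (fun w => inD D w ∧ 216 * j ≤ (exD D w).card)).card * 44 ^ i ≤
        (Sj D n (216 * j) i).card := by
    intro i
    induction i with
    | zero =>
      intro _
      rw [pow_zero, mul_one]
      apply card_le_card
      intro w hw
      rw [mem_filter] at hw
      unfold Sj
      rw [mem_filter]
      refine ⟨hw.1, ?_, by have := hw.2.2; omega⟩
      have : outD D w = ∅ := by
        unfold outD
        rw [filter_eq_empty_iff]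
        intro k hk
        rw [mem_range] at hk
        rw [not_not]
        exact hw.2.1 k (by omega)
      rw [this]
      simp
    | succ i ih =>
      intro hi
      have h1 := ih (by omega)
      have h2 := Sj_step D n (216 * j) i
      have h3 : 44 * (4 * (i + 1)) ≤ 216 * j - 20 * i := by omega
      have h4 : (Sj D n (216 * j) i).card * (44 * (4 * (i + 1))) ≤
          (Sj D n (216 * j) (i + 1)).card * (4 * (i + 1)) :=
        (Nat.mul_le_mul_left _ h3).trans h2
      have h5 : (Sj D n (216 * j) i).card * 44 ≤ (Sj D n (216 * j) (i + 1)).card := by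
        have h6 : (Sj D n (216 * j) i).card * 44 * (4 * (i + 1)) ≤
            (Sj D n (216 * j) (i + 1)).card * (4 * (i + 1)) := by
          rw [mul_assoc]; exact h4
        exact Nat.le_of_mul_le_mul_right h6 (by omega)
      calc _ = ((SW n).filter (fun w => inD D w ∧ 216 * j ≤ (exD D w).card)).card * 44 ^ i * 44 := by
            rw [pow_succ]; ring
        _ ≤ (Sj D n (216 * j) i).card * 44 := Nat.mul_le_mul_right _ h1
        _ ≤ _ := h5
  exact (key j le_rfl).trans (card_le_card (filter_subset _ _))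

end Pool.Agent.X44.GR
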