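import Pool.Agent.X44.GR.Q2

/-!
# The ratio theorem under energy hypotheses

The change of the weight under insertions is compared with the mass at the lengths `m` and `m + 2`
(double counting of bumps), which allows functionals such as the side lengths of the bounding box.
-/

set_option autoImplicit false
set_option linter.unusedVariables false

namespace Pool.Agent.X44.GR

open Finset Pool.Agent.H976R2 Pool.Agent.H739K
open scoped Classical
open Pool.Agent.H976R2.Lip (PP dv)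

/-- the energy of `f` on the pairs (walk, walk with an inserted bump) in `D` -/
noncomputable def en (D : Set (ℤ × ℤ)) (f : List Dir → ℝ) (m : ℕ) : ℝ :=
  ∑ w ∈ SW m, ∑ p ∈ adm w, if inD D (ins w p.1 p.2) then |f (ins w p.1 p.2) - f w| else 0

/-- the mass -/
noncomputable def ms (D : Set (ℤ × ℤ)) (f : List Dir → ℝ) (m : ℕ) : ℝ :=
  ∑ w ∈ SW m, if inD D w then f w else 0

lemma en_nonneg (D : Set (ℤ × ℤ)) (f : List Dir → ℝ) (m : ℕ) : 0 ≤ en D f m := by
  refine sum_nonneg (fun w _ => sum_nonneg (fun p _ => ?_))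
  split_ifs
  · exact abs_nonneg _
  · exact le_rfl

lemma mom_fw {ι : Type} (T : Finset ι) (D : ι → Set (ℤ × ℤ)) (ψ : ι → List Dir → ℝ) (m : ℕ) :
    mom (fw T D ψ) m = ∑ θ ∈ T, ms (D θ) (ψ θ) m := by
  unfold mom fw ms
  exact sum_comm

/-- energy estimate from insertions and from deletions -/
theorem en_mix {D : Set (ℤ × ℤ)} {f φ : List Dir → ℝ} {m : ℕ} {L : ℝ}
    (a : List Dir → ℕ × Dir → ℝ) (b : List Dir → List Dir → ℝ)
    (ha0 : ∀ w p, 0 ≤ a w p)
    (h : ∀ w ∈ SW m, inD D w → ∀ p ∈ adm w, inD D (ins w p.1 p.2) →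
      |f (ins w p.1 p.2) - f w| ≤ a w p + b w (ins w p.1 p.2))
    (ha : ∀ w ∈ SW m, inD D w → ∑ p ∈ adm w, a w p ≤ L * φ w)
    (hb : ∀ w ∈ SW (m + 2), inD D w → ∑ i ∈ bumps w, b (del w i) w ≤ L * φ w) :
    en D f m ≤ L * (ms D φ m + ms D φ (m + 2)) := by
  have h1 : en D f m ≤ ∑ w ∈ SW m, ∑ p ∈ adm w, (if inD D w then a w p else 0) +
      ∑ w ∈ SW m, ∑ p ∈ adm w, (if inD D (ins w p.1 p.2) then b w (ins w p.1 p.2) else 0) := by
    rw [← sum_add_distrib]
    refine sum_le_sum (fun w hw => ?_)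
    rw [← sum_add_distrib]
    refine sum_le_sum (fun p hp => ?_)
    have hp' : (p.1, p.2) ∈ adm w := hp
    have hi := (H976R2.mem_adm.mp hp').1
    by_cases h2 : inD D (ins w p.1 p.2)
    · have h3 := inD_of_ins hi h2
      rw [if_pos h2, if_pos h2, if_pos h3]
      exact h w hw h3 p hp h2
    · rw [if_neg h2, if_neg h2, add_zero]
      split_ifs
      · exact ha0 w p
      · exact le_rfl
  have h2 : ∑ w ∈ SW m, ∑ p ∈ adm w, (if inD D w then a w p else 0) ≤ L * ms D φ m := by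
    unfold ms
    rw [mul_sum]
    refine sum_le_sum (fun w hw => ?_)
    split_ifs with h3
    · exact ha w hw h3
    · simp
  have h3 : ∑ w ∈ SW m, ∑ p ∈ adm w, (if inD D (ins w p.1 p.2) then b w (ins w p.1 p.2) else 0) ≤
      L * ms D φ (m + 2) := by
    rw [sum_ins m (fun w w' => if inD D w' then b w w' else 0)]
    unfold ms
    rw [mul_sum]
    refine sum_le_sum (fun w hw => ?_)
    split_ifs with h3
    · exact hb w hw h3
    · simp
  linarith

/-- the weights of the exits -/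
noncomputable def xt {ι : Type} (T : Finset ι) (D : ι → Set (ℤ × ℤ)) (ψ : ι → List Dir → ℝ) (m : ℕ) :
    ℝ := ∑ θ ∈ T, ∑ w ∈ SW m, (if inD (D θ) w then ψ θ w else 0) * ((exD (D θ) w).card : ℝ)

/-- change under insertions = energy + exits -/
lemma chg_le {ι : Type} {T : Finset ι} {D : ι → Set (ℤ × ℤ)} {ψ : ι → List Dir → ℝ} {m : ℕ}
    (hψ : ∀ θ ∈ T, ∀ w, 0 ≤ ψ θ w) :
    chg (fw T D ψ) m ≤ ∑ θ ∈ T, en (D θ) (ψ θ) m + xt T D ψ m := by
  have key : ∀ θ ∈ T, ∀ w, ∑ p ∈ adm w, |(if inD (D θ) (ins w p.1 p.2) then ψ θ (ins w p.1 p.2) else 0) -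
      (if inD (D θ) w then ψ θ w else 0)| ≤
      ∑ p ∈ adm w, (if inD (D θ) (ins w p.1 p.2) then |ψ θ (ins w p.1 p.2) - ψ θ w| else 0) +
      (if inD (D θ) w then ψ θ w else 0) * ((exD (D θ) w).card : ℝ) := by
    intro θ hθ w
    by_cases hw : inD (D θ) w
    · have h1 : ∀ p ∈ adm w, |(if inD (D θ) (ins w p.1 p.2) then ψ θ (ins w p.1 p.2) else 0) -
          (if inD (D θ) w then ψ θ w else 0)| ≤
          (if inD (D θ) (ins w p.1 p.2) then |ψ θ (ins w p.1 p.2) - ψ θ w| else 0) +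
          (if p ∈ exD (D θ) w then ψ θ w else 0) := by
        intro p hp
        have hp' : (p.1, p.2) ∈ adm w := hp
        have hi := (H976R2.mem_adm.mp hp').1
        have h2 := inD_ins_iff (e := p.2) hi hw
        rw [if_pos hw]
        by_cases h3 : inD (D θ) (ins w p.1 p.2)
        · rw [if_pos h3, if_pos h3]
          have : 0 ≤ (if p ∈ exD (D θ) w then ψ θ w else 0) := by
            split_ifs
            · exact hψ θ hθ w
            · exact le_rfl
          linarith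
        · rw [if_neg h3, if_neg h3, if_pos]
          · rw [zero_sub, abs_neg, abs_of_nonneg (hψ θ hθ w)]
            linarith
          · unfold exD
            rw [mem_filter]
            exact ⟨hp, fun h4 => h3 (h2.mpr h4)⟩
      refine (sum_le_sum h1).trans ?_
      rw [sum_add_distrib, if_pos hw]
      refine add_le_add le_rfl ?_
      rw [← sum_filter, sum_const, nsmul_eq_mul, mul_comm]
      apply mul_le_mul_of_nonneg_left _ (hψ θ hθ w)
      exact_mod_cast card_le_card (fun p hp => (mem_filter.mp hp).2)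
    · have h1 : ∀ p ∈ adm w, |(if inD (D θ) (ins w p.1 p.2) then ψ θ (ins w p.1 p.2) else 0) -
          (if inD (D θ) w then ψ θ w else 0)| = 0 := by
        intro p hp
        have hp' : (p.1, p.2) ∈ adm w := hp
        have hi := (H976R2.mem_adm.mp hp').1
        rw [if_neg hw, if_neg (fun h => hw (inD_of_ins hi h))]
        simp
      rw [sum_eq_zero h1, if_neg hw, zero_mul, add_zero]
      refine sum_nonneg (fun p _ => ?_)
      split_ifs
      · exact abs_nonneg _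
      · exact le_rfl
  have h1 : chg (fw T D ψ) m ≤ ∑ w ∈ SW m, ∑ θ ∈ T,
      (∑ p ∈ adm w, (if inD (D θ) (ins w p.1 p.2) then |ψ θ (ins w p.1 p.2) - ψ θ w| else 0) +
      (if inD (D θ) w then ψ θ w else 0) * ((exD (D θ) w).card : ℝ)) := by
    unfold chg
    refine sum_le_sum (fun w hw => ?_)
    calc ∑ p ∈ adm w, |fw T D ψ (ins w p.1 p.2) - fw T D ψ w|
        ≤ ∑ p ∈ adm w, ∑ θ ∈ T, |(if inD (D θ) (ins w p.1 p.2) then ψ θ (ins w p.1 p.2) else 0) -
          (if inD (D θ) w then ψ θ w else 0)| := by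
          refine sum_le_sum (fun p _ => ?_)
          unfold fw
          rw [← sum_sub_distrib]
          exact abs_sum_le_sum_abs _ _
      _ = ∑ θ ∈ T, ∑ p ∈ adm w, |(if inD (D θ) (ins w p.1 p.2) then ψ θ (ins w p.1 p.2) else 0) -
          (if inD (D θ) w then ψ θ w else 0)| := sum_comm
      _ ≤ _ := sum_le_sum (fun θ hθ => key θ hθ w)
  refine h1.trans (le_of_eq ?_)
  rw [sum_comm]
  unfold xt en
  rw [← sum_add_distrib]
  exact sum_congr rfl (fun θ _ => sum_add_distrib)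

/-- the exits have small weight -/
theorem xt_le (A : ℝ) (hA : 0 ≤ A) {s : ℕ} (hs : 2 ≤ s) : ∃ L : ℝ, 0 ≤ L ∧
    ∀ (ι : Type) (T : Finset ι) (D : ι → Set (ℤ × ℤ)) (ψ : ι → List Dir → ℝ) (q : ι → ℝ)
      (m : ℕ), 2 ≤ m → (∀ θ ∈ T, ∀ w, 0 ≤ ψ θ w) →
    (∀ θ ∈ T, ∀ w ∈ SW m, ψ θ w ≤ q θ) →
    (∑ θ ∈ T, q θ ≤ Real.exp (A * Real.log m ^ s)) →
    H981.mu ^ m * Real.exp (-(A * Real.log m ^ s)) ≤ mom (fw T D ψ) m →
    xt T D ψ m ≤ L * Real.log m ^ s * mom (fw T D ψ) m := by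
  obtain ⟨K, hK, ht⟩ := tail_exp hs
  have hmu := H981.mu_pos
  have hl2 : 0 < Real.log 2 := Real.log_pos (by norm_num)
  obtain ⟨B0, hB0⟩ : ∃ B0 : ℝ, B0 = 2 / Real.log 2 ^ (s - 1) := ⟨_, rfl⟩
  have hB00 : 0 ≤ B0 := by rw [hB0]; positivity
  obtain ⟨B, hB⟩ : ∃ B : ℝ, B = 2 * A + K + B0 := ⟨_, rfl⟩
  have hBn : 0 ≤ B := by rw [hB]; positivity
  refine ⟨216 * B + 217 / Real.log 2 ^ s, by positivity,
    fun ι T D ψ q m hm hψ hle hq hlow => ?_⟩
  have hm' : (2 : ℝ) ≤ m := by exact_mod_cast hm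
  have hm0 : (0 : ℝ) < m := by linarith
  have hlm := log_two_le hm
  have hlm0 : 0 < Real.log (m : ℝ) := by linarith
  obtain ⟨l, hl⟩ : ∃ l : ℝ, l = Real.log m ^ s := ⟨_, rfl⟩
  have hl0 : 0 < l := by rw [hl]; positivity
  have hll : Real.log 2 ^ s ≤ l := by rw [hl]; exact pow_le_pow_left₀ hl2.le hlm s
  rw [← hl] at hq hlow ⊢
  obtain ⟨j, hj⟩ : ∃ j : ℕ, j = ⌈B * l⌉₊ := ⟨_, rfl⟩
  have hj1 : B * l ≤ j := by rw [hj]; exact Nat.le_ceil _
  have hj2 : (j : ℝ) ≤ B * l + 1 := by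
    rw [hj]; exact (Nat.ceil_lt_add_one (by positivity)).le
  have h2m : 2 * (m : ℝ) ≤ Real.exp (B0 * l) := by
    have h1 : Real.log (2 * m) ≤ B0 * l := by
      have h2 : Real.log (2 * m) ≤ 2 * Real.log m := by
        rw [Real.log_mul (by norm_num) hm0.ne']; linarith
      refine h2.trans ?_
      rw [hB0, hl, div_mul_eq_mul_div, le_div_iff₀ (by positivity)]
      obtain ⟨t, rfl⟩ : ∃ t, s = t + 1 := ⟨s - 1, by omega⟩
      rw [show t + 1 - 1 = t by omega, pow_succ]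
      have h3 : Real.log 2 ^ t ≤ Real.log (m : ℝ) ^ t := pow_le_pow_left₀ hl2.le hlm t
      nlinarith
    calc 2 * (m : ℝ) = Real.exp (Real.log (2 * m)) := (Real.exp_log (by positivity)).symm
      _ ≤ _ := Real.exp_le_exp.2 h1
  have hmom0 : 0 ≤ mom (fw T D ψ) m := Finset.sum_nonneg (fun w _ => fw_nonneg hψ w)
  -- one domain
  have hone : ∀ θ ∈ T, ∑ w ∈ SW m, (if inD (D θ) w then ψ θ w else 0) *
      ((exD (D θ) w).card : ℝ) ≤
      (216 * j) * ∑ w ∈ SW m, (if inD (D θ) w then ψ θ w else 0) +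
        q θ * (2 * m * (H981.mu ^ m * Real.exp (K * l - j))) := by
    intro θ hθ
    have hN := ht (D θ) m j hm
    rw [← hl] at hN
    have h1 : ∀ w ∈ SW m, (if inD (D θ) w then ψ θ w else 0) * (((exD (D θ) w).card : ℝ)) ≤
        (216 * j) * (if inD (D θ) w then ψ θ w else 0) +
          if (inD (D θ) w ∧ 216 * j ≤ (exD (D θ) w).card) then q θ * (2 * m) else 0 := by
      intro w hw
      obtain ⟨hlen, hsaw⟩ := mem_SW.mp hw
      have hw0 := hψ θ hθ w
      by_cases hin : inD (D θ) w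
      · rw [if_pos hin]
        by_cases hc : 216 * j ≤ (exD (D θ) w).card
        · rw [if_pos ⟨hin, hc⟩]
          have h2 : ((exD (D θ) w).card : ℝ) ≤ 2 * m := by
            have h3 : (exD (D θ) w).card ≤ AA w := card_le_card (filter_subset _ _)
            have h4 := AA_le w
            rw [hlen] at h4
            exact_mod_cast h3.trans h4
          have h3 : ψ θ w * ((exD (D θ) w).card : ℝ) ≤ q θ * (2 * m) :=
            mul_le_mul (hle θ hθ w hw) h2 (Nat.cast_nonneg _) (hw0.trans (hle θ hθ w hw))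
          have h4 : 0 ≤ 216 * (j : ℝ) * ψ θ w := by positivity
          linarith
        · rw [if_neg (fun h => hc h.2), add_zero]
          have h2 : ((exD (D θ) w).card : ℝ) ≤ 216 * j := by
            exact_mod_cast (by omega : (exD (D θ) w).card ≤ 216 * j)
          rw [mul_comm]
          exact mul_le_mul_of_nonneg_right h2 hw0
      · rw [if_neg hin, if_neg (fun h => hin h.1)]
        simp
    refine (sum_le_sum h1).trans ?_
    rw [sum_add_distrib, ← mul_sum]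
    refine add_le_add le_rfl ?_
    rw [← sum_filter, sum_const, nsmul_eq_mul]
    have hq0 : 0 ≤ q θ := by
      by_cases hne : (SW m).Nonempty
      · obtain ⟨w, hw⟩ := hne
        exact (hψ θ hθ w).trans (hle θ hθ w hw)
      · rw [Finset.not_nonempty_iff_eq_empty] at hne
        exfalso
        unfold mom at hlow
        rw [hne, sum_empty] at hlow
        have : 0 < H981.mu ^ m * Real.exp (-(A * l)) := by positivity
        linarith
    calc _ = q θ * (2 * m * (((SW m).filter (fun w => inD (D θ) w ∧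
            216 * j ≤ (exD (D θ) w).card)).card : ℝ)) := by ring
      _ ≤ _ := by gcongr
  have hstep : xt T D ψ m ≤ (216 * j) * mom (fw T D ψ) m +
      (∑ θ ∈ T, q θ) * (2 * m * (H981.mu ^ m * Real.exp (K * l - j))) := by
    unfold xt
    refine (sum_le_sum hone).trans (le_of_eq ?_)
    rw [sum_add_distrib, ← mul_sum, ← sum_mul]
    congr 2
    unfold mom fw
    exact sum_comm
  have h2 : (∑ θ ∈ T, q θ) * (2 * m * (H981.mu ^ m * Real.exp (K * l - j))) ≤ mom (fw T D ψ) m := by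
    calc _ ≤ Real.exp (A * l) * (Real.exp (B0 * l) * (H981.mu ^ m * Real.exp (K * l - j))) := by
          gcongr
      _ = H981.mu ^ m * Real.exp ((A + B0 + K) * l - j) := by
          rw [show (A + B0 + K) * l - j = A * l + B0 * l + (K * l - j) by ring, Real.exp_add,
            Real.exp_add]; ring
      _ ≤ H981.mu ^ m * Real.exp (-(A * l)) := by
          apply mul_le_mul_of_nonneg_left _ (by positivity)
          apply Real.exp_le_exp.2
          rw [hB] at hj1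
          linarith
      _ ≤ _ := hlow
  have h3 : 216 * (j : ℝ) + 1 ≤ (216 * B + 217 / Real.log 2 ^ s) * l := by
    have h4 : 217 ≤ 217 / Real.log 2 ^ s * l := by
      rw [div_mul_eq_mul_div, le_div_iff₀ (by positivity)]
      nlinarith
    nlinarith
  calc xt T D ψ m ≤ (216 * j) * mom (fw T D ψ) m + mom (fw T D ψ) m := by linarith
    _ = ((216 * j + 1)) * mom (fw T D ψ) m := by ring
    _ ≤ _ := by
        apply mul_le_mul_of_nonneg_right _ hmom0
        linarith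

/-- the hypotheses on a family of domains and weights at the length `n` -/
structure FamE {ι : Type} (A L0 E : ℝ) (s : ℕ) (T : Finset ι) (D : ι → Set (ℤ × ℤ))
    (ψ : ι → List Dir → ℝ) (n : ℕ) : Prop where
  nonneg : ∀ θ ∈ T, ∀ w, 0 ≤ ψ θ w
  le : ∀ m : ℕ, n ≤ 2 * m → m ≤ 2 * n + 2 → m % 2 = n % 2 → ∃ q : ι → ℝ,
    (∀ θ ∈ T, ∀ w ∈ SW m, ψ θ w ≤ q θ) ∧ ∑ θ ∈ T, q θ ≤ Real.exp (A * Real.log m ^ s)
  low : ∀ m : ℕ, n ≤ 2 * m → m ≤ 2 * n → m % 2 = n % 2 →
    H981.mu ^ m * Real.exp (-(A * Real.log m ^ s)) ≤ mom (fw T D ψ) m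
  lip : ∀ m : ℕ, n ≤ 2 * m → m ≤ 2 * n → m % 2 = n % 2 →
    ∑ θ ∈ T, en (D θ) (ψ θ) m ≤ L0 * (mom (fw T D ψ) m + mom (fw T D ψ) (m + 2))
  ex : ∀ m : ℕ, n ≤ 2 * m → m ≤ 2 * n → m % 2 = n % 2 → xt T D ψ m ≤ E * mom (fw T D ψ) m

/-- growth of the mass and change under insertions -/
theorem growth (A : ℝ) (hA : 0 ≤ A) (s : ℕ) : ∃ C : ℝ, 1 ≤ C ∧
    ∀ (L0 E : ℝ), 0 ≤ L0 → 0 ≤ E → ∀ (φ : List Dir → ℝ) (m : ℕ), 2 ≤ m → C * (1 + L0 + E) ≤ m →
    (∀ w, 0 ≤ φ w) → (∀ w ∈ SW (m + 2), φ w ≤ Real.exp (A * Real.log m ^ s)) →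
    H981.mu ^ m * Real.exp (-(A * Real.log m ^ s)) ≤ mom φ m →
    chg φ m ≤ L0 * (mom φ m + mom φ (m + 2)) + E * mom φ m →
    mom φ (m + 2) ≤ 8010 * mom φ m ∧ chg φ m ≤ (8011 * L0 + E) * mom φ m := by
  obtain ⟨D, hD, hfew⟩ := few_small A hA s
  refine ⟨50004000 + D, by linarith, fun L0 E hL0 hE φ m hm hC hnn hle2 hlow hlip => ?_⟩
  have hm' : (2 : ℝ) ≤ m := by exact_mod_cast hm
  have hmp : (0 : ℝ) < m := by linarith
  have h := RATIO.transfer' m (by omega) φ φ (fun w => ∑ p ∈ adm w, |φ (ins w p.1 p.2) - φ w|)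
    (fun w hw => le_rfl)
  have hmom : ∀ k, ∑ w ∈ SW k, φ w = mom φ k := fun k => rfl
  rw [hmom] at h
  have hM0 : 0 ≤ mom φ m := Finset.sum_nonneg (fun w _ => hnn w)
  have hM2 : 0 ≤ mom φ (m + 2) := Finset.sum_nonneg (fun w _ => hnn w)
  have hS1 : ∑ w ∈ SW m, φ w * RR w ≤ 4000 * mom φ m := by
    unfold mom
    rw [Finset.mul_sum]
    refine Finset.sum_le_sum (fun w hw => ?_)
    have h0 := hnn w
    have hR := RR_le (w := w) (by rw [(mem_SW.mp hw).1]; omega)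
    nlinarith
  have h1 : ∑ w ∈ SW m, (2000 / (m : ℝ) * (∑ p ∈ adm w, |φ (ins w p.1 p.2) - φ w|) +
      50000000 / (m : ℝ) * |φ w|) = (2000 * chg φ m + 50000000 * mom φ m) / m := by
    rw [Finset.sum_add_distrib, ← Finset.mul_sum, ← Finset.mul_sum]
    have e : ∑ w ∈ SW m, |φ w| = mom φ m := by
      rw [← hmom m]
      exact Finset.sum_congr rfl (fun w hw => abs_of_nonneg (hnn w))
    rw [e]
    unfold chg
    ring
  have h2 : ∑ w' ∈ few (m + 2), |φ w'| ≤ D / m * mom φ m := by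
    calc ∑ w' ∈ few (m + 2), |φ w'| ≤ ∑ w' ∈ few (m + 2), Real.exp (A * Real.log m ^ s) := by
          refine Finset.sum_le_sum (fun w' hw' => ?_)
          have hw'' : w' ∈ SW (m + 2) := (Finset.mem_filter.mp hw').1
          rw [abs_of_nonneg (hnn w')]
          exact hle2 w' hw''
      _ = Real.exp (A * Real.log m ^ s) * ((few (m + 2)).card : ℝ) := by
          rw [Finset.sum_const, nsmul_eq_mul]; ring
      _ ≤ D / m * (H981.mu ^ m * Real.exp (-(A * Real.log m ^ s))) := hfew m (by omega)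
      _ ≤ D / m * mom φ m := by gcongr
  rw [h1] at h
  have h3 := (abs_le.mp h).2
  obtain ⟨X, hX⟩ : ∃ X : ℝ, X = mom φ m := ⟨_, rfl⟩
  obtain ⟨Y, hY⟩ : ∃ Y : ℝ, Y = mom φ (m + 2) := ⟨_, rfl⟩
  obtain ⟨c, hc⟩ : ∃ c : ℝ, c = chg φ m := ⟨_, rfl⟩
  rw [← hX] at h2 h3 hlip hS1 hM0 ⊢
  rw [← hY] at h3 hlip hM2 ⊢
  rw [← hc] at h3 hlip ⊢
  have h4 : Y ≤ 4000 * X + (2000 * c + 50000000 * X) / m + D / m * X := by linarith
  have h5 : Y * m ≤ 4000 * X * m + (2000 * c + 50000000 * X) + D * X := by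
    have := mul_le_mul_of_nonneg_right h4 hmp.le
    have e : (4000 * X + (2000 * c + 50000000 * X) / m + D / m * X) * m =
        4000 * X * m + (2000 * c + 50000000 * X) + D * X := by field_simp
    linarith
  have hgrow : Y ≤ 8010 * X := by
    have hDLE : 0 ≤ D * (L0 + E) := by positivity
    have e : (50004000 + D) * (1 + L0 + E) =
      50004000 + 50004000 * (L0 + E) + D + D * (L0 + E) := by ring
    rw [e] at hC
    have p1 : 20000 * L0 ≤ m := by linarith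
    have p2 : 2000 * (L0 + E) ≤ m := by linarith
    have p3 : 50000000 + D ≤ m := by linarith
    have q1 := mul_le_mul_of_nonneg_right p1 hM2
    have q2 := mul_le_mul_of_nonneg_right p2 hM0
    have q3 := mul_le_mul_of_nonneg_right p3 hM0
    have q4 := mul_nonneg hM0 hmp.le
    have h6 : Y * m ≤ 8010 * X * m := by linarith
    exact le_of_mul_le_mul_right h6 hmp
  refine ⟨hgrow, ?_⟩
  calc c ≤ L0 * (X + Y) + E * X := hlip
    _ ≤ L0 * (X + 8010 * X) + E * X := by gcongr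
    _ = _ := by ring

/-- `2 ≤ 2 ^ s`-type bookkeeping: the window -/
lemma famE_wt {ι : Type} (A : ℝ) (hA : 0 ≤ A) (s : ℕ) : ∃ C : ℝ, 1 ≤ C ∧
    ∀ (L0 E : ℝ), 0 ≤ L0 → 0 ≤ E → ∀ (T : Finset ι) (D : ι → Set (ℤ × ℤ))
    (ψ : ι → List Dir → ℝ) (n : ℕ), 3 ≤ n → C * (1 + L0 + E) ≤ n → FamE A L0 E s T D ψ n →
    ∀ m : ℕ, n ≤ 2 * m → m ≤ 2 * n → m % 2 = n % 2 →
      Wt (A * 2 ^ s) s (8011 * L0 + E) m (fw T D ψ) := by
  have hA' : 0 ≤ A * 2 ^ s := by positivity
  obtain ⟨C, hC1, hgr⟩ := growth (A * 2 ^ s) hA' s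
  refine ⟨2 * C, by linarith, fun L0 E hL0 hE T D ψ n hn hCn h m g1 g2 g3 => ?_⟩
  have hmu := H981.mu_pos
  have h2s : (1 : ℝ) ≤ 2 ^ s := one_le_pow₀ (by norm_num)
  have hAA' : A ≤ A * 2 ^ s := by nlinarith
  have hm2 : 2 ≤ m := by omega
  obtain ⟨l0, l1⟩ := log_window' hn g1 g2
  have hpowm : 0 ≤ Real.log (m : ℝ) ^ s := pow_nonneg l0 s
  obtain ⟨q, hq1, hq2⟩ := h.le m g1 (by omega) g3
  obtain ⟨q', hq1', hq2'⟩ := h.le (m + 2) (by omega) (by omega) (by omega)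
  have hle2 : ∀ w ∈ SW (m + 2), fw T D ψ w ≤ Real.exp (A * 2 ^ s * Real.log m ^ s) := by
    intro w hw
    refine ((fw_le h.nonneg (fun θ hθ => hq1' θ hθ w hw)).trans hq2').trans (Real.exp_le_exp.2 ?_)
    have h5 : Real.log ((m + 2 : ℕ) : ℝ) ^ s ≤ 2 ^ s * Real.log m ^ s := by
      rw [← mul_pow]
      exact pow_le_pow_left₀ (Real.log_natCast_nonneg _) (log_add_two hm2) s
    rw [mul_assoc]
    exact mul_le_mul_of_nonneg_left h5 hA
  have hlow : H981.mu ^ m * Real.exp (-(A * 2 ^ s * Real.log m ^ s)) ≤ mom (fw T D ψ) m := by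
    refine le_trans (mul_le_mul_of_nonneg_left ?_ (by positivity)) (h.low m g1 g2 g3)
    apply Real.exp_le_exp.2
    have := mul_le_mul_of_nonneg_right hAA' hpowm
    linarith
  have hCm : C * (1 + L0 + E) ≤ m := by
    have : (n : ℝ) ≤ 2 * m := by exact_mod_cast g1
    linarith
  have hchg : chg (fw T D ψ) m ≤ L0 * (mom (fw T D ψ) m + mom (fw T D ψ) (m + 2)) +
      E * mom (fw T D ψ) m :=
    (chg_le h.nonneg).trans (add_le_add (h.lip m g1 g2 g3) (h.ex m g1 g2 g3))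
  obtain ⟨h7, h8⟩ := hgr L0 E hL0 hE (fw T D ψ) m hm2 hCm (fun w => fw_nonneg h.nonneg w) hle2 hlow hchg
  refine ⟨fun w => fw_nonneg h.nonneg w, fun w hw => ?_, hle2, hlow, h8⟩
  refine ((fw_le h.nonneg (fun θ hθ => hq1 θ hθ w hw)).trans hq2).trans (Real.exp_le_exp.2 ?_)
  exact mul_le_mul_of_nonneg_right hAA' hpowm

/-- **the ratio theorem under energy hypotheses**, uniform in the constants -/
theorem coreE {ι : Type} (A : ℝ) (hA : 0 ≤ A) (s : ℕ) (hs : 2 ≤ s) : ∃ C : ℝ, 1 ≤ C ∧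
    ∀ (L0 E : ℝ), 0 ≤ L0 → 0 ≤ E → ∀ (T : Finset ι) (D : ι → Set (ℤ × ℤ))
    (ψ : ι → List Dir → ℝ) (n : ℕ), 3 ≤ n → C * (1 + L0 + E) ≤ n → FamE A L0 E s T D ψ n →
    (mom (fw T D ψ) (n + 2) / (H981.mu ^ 2 * mom (fw T D ψ) n) - 1) ^ 2 * n ≤
      C * (1 + L0 + E) * Real.log n ^ s := by
  have hA' : 0 ≤ A * 2 ^ s := by positivity
  obtain ⟨C1, hC1, hwt⟩ := famE_wt (ι := ι) A hA s
  obtain ⟨C2, hC2, hrate⟩ := rate (A * 2 ^ s) hA' s hs
  refine ⟨C1 + 8011 * C2 + 2 * 8011, by linarith, fun L0 E hL0 hE T D ψ n hn hCn h => ?_⟩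
  have hLE : 0 ≤ L0 + E := by linarith
  have h1 : C1 * (1 + L0 + E) ≤ n := by
    refine le_trans ?_ hCn
    apply mul_le_mul_of_nonneg_right _ (by linarith)
    linarith
  have h2 : 2 * (8011 * L0 + E) ≤ n := by
    refine le_trans ?_ hCn
    have : 2 * 8011 * (1 + L0 + E) ≤ (C1 + 8011 * C2 + 2 * 8011) * (1 + L0 + E) := by
      apply mul_le_mul_of_nonneg_right _ (by linarith)
      linarith
    linarith
  have h3 := hrate (8011 * L0 + E) (by positivity) n (fw T D ψ) hn h2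
    (hwt L0 E hL0 hE T D ψ n hn h1 h)
  refine h3.trans ?_
  have hl : 0 ≤ Real.log (n : ℝ) ^ s := pow_nonneg (Real.log_natCast_nonneg n) s
  apply mul_le_mul_of_nonneg_right _ hl
  have h4 : C2 * (1 + (8011 * L0 + E)) ≤ 8011 * C2 * (1 + L0 + E) := by nlinarith
  have h5 : 8011 * C2 * (1 + L0 + E) ≤ (C1 + 8011 * C2 + 2 * 8011) * (1 + L0 + E) := by
    apply mul_le_mul_of_nonneg_right _ (by linarith)
    linarith
  linarith

/-- the trivial bound, for small `n` -/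
lemma trivialE (A : ℝ) (hA : 0 ≤ A) {s : ℕ} (hs : 2 ≤ s) (n0 : ℕ) : ∃ G : ℝ, 0 < G ∧
    ∀ (ι : Type) (T : Finset ι) (D : ι → Set (ℤ × ℤ)) (ψ : ι → List Dir → ℝ) (L0 E : ℝ) (n : ℕ),
    3 ≤ n → n < n0 → FamE A L0 E s T D ψ n →
    |mom (fw T D ψ) (n + 2) / (H981.mu ^ 2 * mom (fw T D ψ) n) - 1| ≤ G := by
  obtain ⟨K0, hK0, hup⟩ := card_upper hs
  have hmu := H981.mu_pos
  obtain ⟨G, hG⟩ : ∃ G : ℕ → ℝ, G = fun n : ℕ => Real.exp (A * Real.log ((n + 2 : ℕ) : ℝ) ^ s) *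
    Real.exp (K0 * Real.log ((n + 2 : ℕ) : ℝ) ^ s) * Real.exp (A * Real.log n ^ s) := ⟨_, rfl⟩
  have hGpos : ∀ n, 0 < G n := by intro n; rw [hG]; positivity
  refine ⟨1 + ∑ k ∈ range n0, G k, ?_, fun ι T D ψ L0 E n hn hnn hok => ?_⟩
  · have : 0 ≤ ∑ k ∈ range n0, G k := sum_nonneg (fun k _ => (hGpos k).le)
    linarith
  have hlow := hok.low n (by omega) (by omega) rfl
  have hm2 : 0 < mom (fw T D ψ) n := lt_of_lt_of_le (by positivity) hlow
  have hup2 : mom (fw T D ψ) (n + 2) ≤ Real.exp (A * Real.log ((n + 2 : ℕ) : ℝ) ^ s) *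
      (H981.mu ^ (n + 2) * Real.exp (K0 * Real.log ((n + 2 : ℕ) : ℝ) ^ s)) := by
    have h4 : mom (fw T D ψ) (n + 2) ≤ Real.exp (A * Real.log ((n + 2 : ℕ) : ℝ) ^ s) *
        ((SW (n + 2)).card : ℝ) := by
      obtain ⟨q, hq1, hq2⟩ := hok.le (n + 2) (by omega) (by omega) (by omega)
      unfold mom
      rw [mul_comm, ← nsmul_eq_mul, ← Finset.sum_const]
      exact Finset.sum_le_sum (fun w hw =>
        (fw_le hok.nonneg (fun θ hθ => hq1 θ hθ w hw)).trans hq2)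
    refine h4.trans ?_
    gcongr
    exact hup (n + 2) (by omega)
  have hq : mom (fw T D ψ) (n + 2) / (H981.mu ^ 2 * mom (fw T D ψ) n) ≤ G n := by
    rw [div_le_iff₀ (by positivity)]
    refine hup2.trans ?_
    rw [hG]
    simp only
    have h5 : H981.mu ^ n ≤ Real.exp (A * Real.log n ^ s) * mom (fw T D ψ) n := by
      have := mul_le_mul_of_nonneg_left hlow (Real.exp_pos (A * Real.log n ^ s)).le
      refine le_trans (le_of_eq ?_) this
      rw [mul_comm (H981.mu ^ n), ← mul_assoc, ← Real.exp_add]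
      simp
    calc Real.exp (A * Real.log ((n + 2 : ℕ) : ℝ) ^ s) *
          (H981.mu ^ (n + 2) * Real.exp (K0 * Real.log ((n + 2 : ℕ) : ℝ) ^ s))
        = Real.exp (A * Real.log ((n + 2 : ℕ) : ℝ) ^ s) *
          Real.exp (K0 * Real.log ((n + 2 : ℕ) : ℝ) ^ s) * H981.mu ^ 2 * H981.mu ^ n := by
          rw [pow_add]; ring
      _ ≤ Real.exp (A * Real.log ((n + 2 : ℕ) : ℝ) ^ s) *
          Real.exp (K0 * Real.log ((n + 2 : ℕ) : ℝ) ^ s) * H981.mu ^ 2 *
          (Real.exp (A * Real.log n ^ s) * mom (fw T D ψ) n) := by gcongr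
      _ = _ := by ring
  have hGn : G n ≤ ∑ k ∈ range n0, G k :=
    single_le_sum (f := G) (fun k _ => (hGpos k).le) (mem_range.2 hnn)
  have hq0 : 0 ≤ mom (fw T D ψ) (n + 2) / (H981.mu ^ 2 * mom (fw T D ψ) n) := by
    have : 0 ≤ mom (fw T D ψ) (n + 2) := Finset.sum_nonneg (fun w _ => fw_nonneg hok.nonneg w)
    positivity
  have hGs : 0 ≤ ∑ k ∈ range n0, G k := sum_nonneg (fun k _ => (hGpos k).le)
  rw [abs_le]
  constructor <;> linarith

/-- **the ratio theorem under energy hypotheses** for all `n`; `r n` bounds the exits -/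
theorem mainE {ι : Type} (A L0 : ℝ) (hA : 0 ≤ A) (hL0 : 0 ≤ L0) (s : ℕ) (hs : 2 ≤ s) (r : ℕ → ℝ)
    (hr : ∀ n, 0 ≤ r n) (hro : ∀ C : ℝ, ∃ n0 : ℕ, ∀ n, n0 ≤ n → C * (1 + L0 + r n) ≤ n) :
    ∃ K : ℝ, 0 ≤ K ∧ ∀ (T : Finset ι) (D : ι → Set (ℤ × ℤ)) (ψ : ι → List Dir → ℝ) (n : ℕ), 3 ≤ n →
    FamE A L0 (r n) s T D ψ n →
    |mom (fw T D ψ) (n + 2) / (H981.mu ^ 2 * mom (fw T D ψ) n) - 1| ≤
      K * √((1 + r n) * Real.log n ^ s / n) := by
  obtain ⟨C, hC, hcore⟩ := coreE (ι := ι) A hA s hs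
  obtain ⟨n0, hn0⟩ := hro C
  obtain ⟨G, hG, htriv⟩ := trivialE A hA hs n0
  refine ⟨√(C * (1 + L0)) + G * √n0, by positivity, fun T D ψ n hn hok => ?_⟩
  have hn' : (3 : ℝ) ≤ n := by exact_mod_cast hn
  have hnp : (0 : ℝ) < n := by linarith
  have hl1 : 1 ≤ Real.log n := RATE.one_le_log hn
  have hls : 1 ≤ Real.log n ^ s := one_le_pow₀ hl1
  have hrn := hr n
  obtain ⟨X, hX⟩ : ∃ X : ℝ, X = (1 + r n) * Real.log n ^ s / n := ⟨_, rfl⟩
  have hX0 : 0 ≤ X := by rw [hX]; positivity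
  rw [← hX]
  by_cases hbig : n0 ≤ n
  · have h2 := hcore L0 (r n) hL0 hrn T D ψ n hn (hn0 n hbig) hok
    obtain ⟨x, hx⟩ : ∃ x, x = mom (fw T D ψ) (n + 2) / (H981.mu ^ 2 * mom (fw T D ψ) n) - 1 :=
      ⟨_, rfl⟩
    rw [← hx] at h2 ⊢
    have h3 : x ^ 2 ≤ C * (1 + L0) * X := by
      have h4 : x ^ 2 * n ≤ C * (1 + L0) * X * n := by
        refine h2.trans ?_
        rw [hX]
        have e : C * (1 + L0) * ((1 + r n) * Real.log n ^ s / n) * n =
            C * ((1 + L0) * (1 + r n)) * Real.log n ^ s := by field_simp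
        rw [e]
        have : 0 ≤ L0 * r n := by positivity
        gcongr
        linarith
      exact le_of_mul_le_mul_right h4 hnp
    have h5 : |x| ≤ √(C * (1 + L0)) * √X := by
      rw [← Real.sqrt_sq_eq_abs, ← Real.sqrt_mul (by positivity)]
      exact Real.sqrt_le_sqrt h3
    refine h5.trans ?_
    apply mul_le_mul_of_nonneg_right _ (Real.sqrt_nonneg _)
    have : 0 ≤ G * √n0 := by positivity
    linarith
  · push Not at hbig
    refine (htriv ι T D ψ L0 (r n) n hn hbig hok).trans ?_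
    have h8 : 1 ≤ √(n0 : ℝ) * √X := by
      rw [← Real.sqrt_mul (by positivity), ← Real.sqrt_one]
      apply Real.sqrt_le_sqrt
      rw [hX, mul_div_assoc', le_div_iff₀ hnp, one_mul]
      have h9 : (n : ℝ) ≤ n0 := by exact_mod_cast hbig.le
      calc (n : ℝ) ≤ n0 * 1 := by linarith
        _ ≤ n0 * ((1 + r n) * Real.log n ^ s) := by
            apply mul_le_mul_of_nonneg_left _ (by positivity)
            nlinarith
    have h9 : 0 ≤ √(C * (1 + L0)) * √X := by positivity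
    nlinarith

end Pool.Agent.X44.GR
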