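import Pool.Agent.X44.GR.Cut

/-!
# Merging under energy hypotheses
-/

set_option autoImplicit false
set_option linter.unusedVariables false

namespace Pool.Agent.X44.GR

open Finset Pool.Agent.H976R2 Pool.Agent.H739K
open scoped Classical
open Pool.Agent.H976R2.Lip (PP dv)

lemma en_add_le (D : Set (ℤ × ℤ)) (f g : List Dir → ℝ) (m : ℕ) :
    en D (fun w => f w + g w) m ≤ en D f m + en D g m := by
  unfold en
  rw [← sum_add_distrib]
  refine sum_le_sum (fun w _ => ?_)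
  rw [← sum_add_distrib]
  refine sum_le_sum (fun p _ => ?_)
  split_ifs
  · have e : f (ins w p.1 p.2) + g (ins w p.1 p.2) - (f w + g w) =
      (f (ins w p.1 p.2) - f w) + (g (ins w p.1 p.2) - g w) := by ring
    rw [e]
    exact abs_add_le _ _
  · simp

/-- **merging** under energy hypotheses -/
theorem mergeE {ι : Type} (A : ℝ) (hA : 0 ≤ A) (s : ℕ) (hs : 2 ≤ s) : ∃ K : ℝ, 0 ≤ K ∧
    ∀ (L0 L1 E : ℝ), 0 ≤ L0 → 0 ≤ L1 → 0 ≤ E → ∀ (T : Finset ι) (D : ι → Set (ℤ × ℤ))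
      (ψ χ : ι → List Dir → ℝ) (n : ℕ), 3 ≤ n →
    FamE A L0 E s T D ψ n → (∀ θ ∈ T, ∀ w, 0 ≤ χ θ w ∧ χ θ w ≤ ψ θ w) →
    (∀ m : ℕ, n ≤ 2 * m → m ≤ 2 * n → m % 2 = n % 2 →
      ∑ θ ∈ T, en (D θ) (χ θ) m ≤ L1 * (mom (fw T D ψ) m + mom (fw T D ψ) (m + 2))) →
    |mom (fw T D χ) (n + 2) / mom (fw T D ψ) (n + 2) - mom (fw T D χ) n / mom (fw T D ψ) n| ≤
      K * √((1 + L0 + L1 + E) * Real.log n ^ s / n) := by
  have hl2 : 0 < Real.log 2 := Real.log_pos (by norm_num)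
  obtain ⟨A', hA'⟩ : ∃ A' : ℝ, A' = A + 1 / Real.log 2 ^ (s - 1) := ⟨_, rfl⟩
  have hA'0 : 0 ≤ A' := by rw [hA']; positivity
  obtain ⟨C, hC, hcore⟩ := coreE (ι := ι) A' hA'0 s hs
  have hmu := H981.mu_pos
  refine ⟨8 * √(2 * C) + √(2 * C), by positivity,
    fun L0 L1 E hL0 hL1 hE T D ψ χ n hn hok hχ hχlip => ?_⟩
  have hn' : (3 : ℝ) ≤ n := by exact_mod_cast hn
  have hnp : (0 : ℝ) < n := by linarith
  have hl1 : 1 ≤ Real.log n := RATE.one_le_log hn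
  obtain ⟨l, hl⟩ : ∃ l : ℝ, l = Real.log n ^ s := ⟨_, rfl⟩
  have hls : 1 ≤ l := by rw [hl]; exact one_le_pow₀ hl1
  rw [← hl]
  -- bounds for exponents
  have hexp2 : ∀ m : ℕ, 2 ≤ m → 2 * Real.exp (A * Real.log m ^ s) ≤ Real.exp (A' * Real.log m ^ s) := by
    intro m hm
    have hlm := log_two_le hm
    have h2 : (2 : ℝ) = Real.exp (Real.log 2) := (Real.exp_log (by norm_num)).symm
    have h3 : Real.log 2 ≤ 1 / Real.log 2 ^ (s - 1) * Real.log m ^ s := by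
      rw [div_mul_eq_mul_div, le_div_iff₀ (by positivity), one_mul]
      calc Real.log 2 * Real.log 2 ^ (s - 1) = Real.log 2 ^ s := by
            rw [← pow_succ']; congr 1; omega
        _ ≤ _ := pow_le_pow_left₀ hl2.le hlm s
    calc 2 * Real.exp (A * Real.log m ^ s) = Real.exp (Real.log 2 + A * Real.log m ^ s) := by
          rw [Real.exp_add, ← h2]
      _ ≤ _ := by
          apply Real.exp_le_exp.2
          rw [hA']; linarith
  have hmψ0 : ∀ m, 0 ≤ mom (fw T D ψ) m := fun m =>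
    sum_nonneg (fun w _ => fw_nonneg hok.nonneg w)
  have hχ0 : ∀ w, 0 ≤ fw T D χ w := fun w => fw_nonneg (fun θ hθ w => (hχ θ hθ w).1) w
  have hχle : ∀ w, fw T D χ w ≤ fw T D ψ w := by
    intro w
    unfold fw
    refine sum_le_sum (fun θ hθ => ?_)
    split_ifs
    · exact (hχ θ hθ w).2
    · exact le_rfl
  have hmb0 : ∀ m, 0 ≤ mom (fw T D χ) m := fun m => sum_nonneg (fun w _ => hχ0 w)
  have hmble : ∀ m, mom (fw T D χ) m ≤ mom (fw T D ψ) m := fun m => sum_le_sum (fun w _ => hχle w)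
  have hsum : ∀ w, fw T D (fun θ w => ψ θ w + χ θ w) w = fw T D ψ w + fw T D χ w := by
    intro w
    unfold fw
    rw [← sum_add_distrib]
    refine sum_congr rfl (fun θ _ => ?_)
    split_ifs <;> ring
  have hmsum : ∀ m, mom (fw T D (fun θ w => ψ θ w + χ θ w)) m =
      mom (fw T D ψ) m + mom (fw T D χ) m := by
    intro m
    unfold mom
    rw [← sum_add_distrib]
    exact sum_congr rfl (fun w _ => hsum w)
  have hF1 : FamE A' (L0 + L1) (2 * E) s T D ψ n := by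
    refine ⟨hok.nonneg, fun m g1 g2 g3 => ?_, fun m g1 g2 g3 => ?_, fun m g1 g2 g3 => ?_,
      fun m g1 g2 g3 => ?_⟩
    · obtain ⟨q, hq1, hq2⟩ := hok.le m g1 g2 g3
      refine ⟨q, hq1, hq2.trans ?_⟩
      have := hexp2 m (by omega)
      linarith [Real.exp_pos (A * Real.log m ^ s)]
    · refine le_trans ?_ (hok.low m g1 g2 g3)
      apply mul_le_mul_of_nonneg_left _ (by positivity)
      apply Real.exp_le_exp.2
      have h1 : 0 ≤ Real.log (m : ℝ) ^ s := pow_nonneg (Real.log_natCast_nonneg m) s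
      have h2 : A ≤ A' := by rw [hA']; have : 0 ≤ 1 / Real.log 2 ^ (s - 1) := by positivity
                             linarith
      nlinarith
    · refine (hok.lip m g1 g2 g3).trans ?_
      apply mul_le_mul_of_nonneg_right _ (add_nonneg (hmψ0 _) (hmψ0 _))
      linarith
    · refine (hok.ex m g1 g2 g3).trans ?_
      apply mul_le_mul_of_nonneg_right _ (hmψ0 _)
      linarith
  have hF2 : FamE A' (L0 + L1) (2 * E) s T D (fun θ w => ψ θ w + χ θ w) n := by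
    refine ⟨fun θ hθ w => add_nonneg (hok.nonneg θ hθ w) (hχ θ hθ w).1, fun m g1 g2 g3 => ?_,
      fun m g1 g2 g3 => ?_, fun m g1 g2 g3 => ?_, fun m g1 g2 g3 => ?_⟩
    · obtain ⟨q, hq1, hq2⟩ := hok.le m g1 g2 g3
      refine ⟨fun θ => 2 * q θ, fun θ hθ w hw => ?_, ?_⟩
      · have h1 := hq1 θ hθ w hw
        have h2 := (hχ θ hθ w).2
        simp only
        linarith
      · rw [← mul_sum]
        have := hexp2 m (by omega)
        linarith
    · refine (hF1.low m g1 g2 g3).trans ?_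
      rw [hmsum m]
      linarith [hmb0 m]
    · have h1 : ∑ θ ∈ T, en (D θ) (fun w => ψ θ w + χ θ w) m ≤
          ∑ θ ∈ T, en (D θ) (ψ θ) m + ∑ θ ∈ T, en (D θ) (χ θ) m := by
        rw [← sum_add_distrib]
        exact sum_le_sum (fun θ _ => en_add_le _ _ _ _)
      have h2 := hok.lip m g1 g2 g3
      have h3 := hχlip m g1 g2 g3
      refine h1.trans ?_
      rw [hmsum, hmsum]
      calc _ ≤ L0 * (mom (fw T D ψ) m + mom (fw T D ψ) (m + 2)) +
            L1 * (mom (fw T D ψ) m + mom (fw T D ψ) (m + 2)) := add_le_add h2 h3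
        _ = (L0 + L1) * (mom (fw T D ψ) m + mom (fw T D ψ) (m + 2)) := by ring
        _ ≤ _ := by
            apply mul_le_mul_of_nonneg_left _ (by positivity)
            linarith [hmb0 m, hmb0 (m + 2)]
    · have h1 : xt T D (fun θ w => ψ θ w + χ θ w) m ≤ 2 * xt T D ψ m := by
        unfold xt
        rw [mul_sum]
        refine sum_le_sum (fun θ hθ => ?_)
        rw [mul_sum]
        refine sum_le_sum (fun w _ => ?_)
        have h2 := (hχ θ hθ w).2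
        split_ifs
        · rw [← mul_assoc]
          apply mul_le_mul_of_nonneg_right _ (Nat.cast_nonneg _)
          linarith
        · simp
      have h2 := hok.ex m g1 g2 g3
      calc _ ≤ 2 * xt T D ψ m := h1
        _ ≤ 2 * (E * mom (fw T D ψ) m) := by linarith
        _ = 2 * E * mom (fw T D ψ) m := by ring
        _ ≤ _ := by
            apply mul_le_mul_of_nonneg_left _ (by positivity)
            rw [hmsum]
            linarith [hmb0 m]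
  have hlown := hok.low n (by omega) (by omega) rfl
  have ha : 0 < mom (fw T D ψ) n := lt_of_lt_of_le (by positivity) hlown
  have ha' : 0 < mom (fw T D ψ) (n + 2) := by
    by_cases hwin : n + 2 ≤ 2 * n
    · exact lt_of_lt_of_le (by positivity) (hok.low (n + 2) (by omega) hwin (by omega))
    · omega
  obtain ⟨X, hX⟩ : ∃ X : ℝ, X = (1 + L0 + L1 + E) * l / n := ⟨_, rfl⟩
  have hX0 : 0 ≤ X := by rw [hX]; positivity
  rw [← hX]
  by_cases hb : C * (1 + (L0 + L1) + 2 * E) ≤ n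
  · have h1 := hcore (L0 + L1) (2 * E) (by positivity) (by positivity) T D ψ n hn hb hF1
    have h2 := hcore (L0 + L1) (2 * E) (by positivity) (by positivity) T D _ n hn hb hF2
    rw [← hl] at h1 h2
    rw [hmsum, hmsum] at h2
    have hCX : C * (1 + (L0 + L1) + 2 * E) * l ≤ (2 * C) * X * n := by
      rw [hX]
      have e : (2 * C) * ((1 + L0 + L1 + E) * l / n) * n = C * (2 * (1 + L0 + L1 + E)) * l := by
        field_simp
      rw [e]
      apply mul_le_mul_of_nonneg_right _ (by linarith)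
      apply mul_le_mul_of_nonneg_left _ (by linarith)
      linarith
    have key : ∀ x : ℝ, x ^ 2 * n ≤ C * (1 + (L0 + L1) + 2 * E) * l → |x| ≤ √(2 * C) * √X := by
      intro x hx
      rw [← Real.sqrt_sq_eq_abs, ← Real.sqrt_mul (by positivity)]
      apply Real.sqrt_le_sqrt
      have := hx.trans hCX
      exact le_of_mul_le_mul_right this hnp
    have h3 := merge_alg (μ2 := H981.mu ^ 2) (by positivity) ha ha' (hmb0 n) (hmble n)
      (hmb0 (n + 2)) (hmble (n + 2)) (key _ h1) (key _ h2)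
    refine h3.trans ?_
    have : 0 ≤ √(2 * C) * √X := by positivity
    nlinarith
  · push Not at hb
    have hx : 0 ≤ mom (fw T D χ) n / mom (fw T D ψ) n ∧
        mom (fw T D χ) n / mom (fw T D ψ) n ≤ 1 :=
      ⟨div_nonneg (hmb0 n) ha.le, (div_le_one ha).2 (hmble n)⟩
    have hx' : 0 ≤ mom (fw T D χ) (n + 2) / mom (fw T D ψ) (n + 2) ∧
        mom (fw T D χ) (n + 2) / mom (fw T D ψ) (n + 2) ≤ 1 :=
      ⟨div_nonneg (hmb0 _) ha'.le, (div_le_one ha').2 (hmble _)⟩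
    have h3 : |mom (fw T D χ) (n + 2) / mom (fw T D ψ) (n + 2) -
        mom (fw T D χ) n / mom (fw T D ψ) n| ≤ 1 := by
      rw [abs_le]; constructor <;> linarith [hx.1, hx.2, hx'.1, hx'.2]
    refine h3.trans ?_
    have h4 : 1 ≤ √(2 * C) * √X := by
      rw [← Real.sqrt_mul (by positivity), ← Real.sqrt_one]
      apply Real.sqrt_le_sqrt
      rw [hX, mul_div_assoc', le_div_iff₀ hnp, one_mul]
      have h5 : (n : ℝ) ≤ 2 * C * (1 + L0 + L1 + E) := by nlinarith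
      have h6 : 0 ≤ 2 * C * (1 + L0 + L1 + E) := by positivity
      nlinarith
    have h7 : 0 ≤ 8 * √(2 * C) * √X := by positivity
    nlinarith

/-- the exits of a family of domains -/
theorem famE_dom {ι : Type} (A : ℝ) (hA : 0 ≤ A) {s : ℕ} (hs : 2 ≤ s) : ∃ L : ℝ, 0 ≤ L ∧
    ∀ (L0 : ℝ) (T : Finset ι) (D : ι → Set (ℤ × ℤ)) (ψ : ι → List Dir → ℝ) (n : ℕ), 3 ≤ n →
    (∀ θ ∈ T, ∀ w, 0 ≤ ψ θ w) →
    (∀ m : ℕ, n ≤ 2 * m → m ≤ 2 * n + 2 → m % 2 = n % 2 → ∃ q : ι → ℝ,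
      (∀ θ ∈ T, ∀ w ∈ SW m, ψ θ w ≤ q θ) ∧ ∑ θ ∈ T, q θ ≤ Real.exp (A * Real.log m ^ s)) →
    (∀ m : ℕ, n ≤ 2 * m → m ≤ 2 * n → m % 2 = n % 2 →
      H981.mu ^ m * Real.exp (-(A * Real.log m ^ s)) ≤ mom (fw T D ψ) m) →
    (∀ m : ℕ, n ≤ 2 * m → m ≤ 2 * n → m % 2 = n % 2 →
      ∑ θ ∈ T, en (D θ) (ψ θ) m ≤ L0 * (mom (fw T D ψ) m + mom (fw T D ψ) (m + 2))) →
    FamE A L0 (L * Real.log n ^ s) s T D ψ n := by
  obtain ⟨L, hL, hxt⟩ := xt_le A hA hs
  refine ⟨L * 2 ^ s, by positivity, fun L0 T D ψ n hn h1 h2 h3 h4 => ?_⟩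
  refine ⟨h1, h2, h3, h4, fun m g1 g2 g3 => ?_⟩
  obtain ⟨q, hq1, hq2⟩ := h2 m g1 (by omega) g3
  refine (hxt ι T D ψ q m (by omega) h1 hq1 hq2 (h3 m g1 g2 g3)).trans ?_
  apply mul_le_mul_of_nonneg_right _ (Finset.sum_nonneg (fun w _ => fw_nonneg h1 w))
  obtain ⟨l0, l1⟩ := log_window' hn g1 g2
  rw [mul_assoc, ← mul_pow]
  exact mul_le_mul_of_nonneg_left (pow_le_pow_left₀ l0 l1 s) hL

lemma xt_univ {ι : Type} (T : Finset ι) (ψ : ι → List Dir → ℝ) (m : ℕ) :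
    xt T (fun _ => Set.univ) ψ m = 0 := by
  unfold xt
  refine sum_eq_zero (fun θ _ => sum_eq_zero (fun w _ => ?_))
  rw [exD_univ]
  simp

lemma hro_log (L0 E0 : ℝ) (hE0 : 0 ≤ E0) (s : ℕ) : ∀ C : ℝ, ∃ n0 : ℕ, ∀ n : ℕ, n0 ≤ n →
    C * (1 + L0 + E0 * Real.log n ^ s) ≤ n := by
  intro C
  obtain ⟨n0, hn0⟩ := exists_big (|C| * E0) (by positivity) (|C| * (1 + |L0|)) s
  refine ⟨n0, fun n hn => ?_⟩
  have h1 := hn0 n hn
  have hl : 0 ≤ Real.log (n : ℝ) ^ s := pow_nonneg (Real.log_natCast_nonneg n) s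
  have h2 : C * (1 + L0 + E0 * Real.log n ^ s) ≤ |C| * (1 + |L0| + E0 * Real.log n ^ s) := by
    calc C * (1 + L0 + E0 * Real.log n ^ s) ≤ |C * (1 + L0 + E0 * Real.log n ^ s)| := le_abs_self _
      _ = |C| * |1 + L0 + E0 * Real.log n ^ s| := abs_mul _ _
      _ ≤ |C| * (1 + |L0| + E0 * Real.log n ^ s) := by
          apply mul_le_mul_of_nonneg_left _ (abs_nonneg _)
          have : 0 ≤ E0 * Real.log n ^ s := by positivity
          calc |1 + L0 + E0 * Real.log n ^ s| ≤ |1 + L0| + |E0 * Real.log n ^ s| := abs_add_le _ _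
            _ ≤ (|1| + |L0|) + |E0 * Real.log n ^ s| := by gcongr; exact abs_add_le _ _
            _ = _ := by rw [abs_one, abs_of_nonneg this]
  have h3 : 0 ≤ |C| * (1 + |L0|) + |C| * E0 * Real.log n ^ s := by positivity
  linarith

/-- the ratio theorem in domains, final form -/
theorem mainE_dom {ι : Type} (A L0 : ℝ) (hA : 0 ≤ A) (hL0 : 0 ≤ L0) (s : ℕ) (hs : 2 ≤ s) :
    ∃ K : ℝ, 0 ≤ K ∧ ∀ (T : Finset ι) (D : ι → Set (ℤ × ℤ)) (ψ : ι → List Dir → ℝ) (n : ℕ), 3 ≤ n →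
    (∀ θ ∈ T, ∀ w, 0 ≤ ψ θ w) →
    (∀ m : ℕ, n ≤ 2 * m → m ≤ 2 * n + 2 → m % 2 = n % 2 → ∃ q : ι → ℝ,
      (∀ θ ∈ T, ∀ w ∈ SW m, ψ θ w ≤ q θ) ∧ ∑ θ ∈ T, q θ ≤ Real.exp (A * Real.log m ^ s)) →
    (∀ m : ℕ, n ≤ 2 * m → m ≤ 2 * n → m % 2 = n % 2 →
      H981.mu ^ m * Real.exp (-(A * Real.log m ^ s)) ≤ mom (fw T D ψ) m) →
    (∀ m : ℕ, n ≤ 2 * m → m ≤ 2 * n → m % 2 = n % 2 →
      ∑ θ ∈ T, en (D θ) (ψ θ) m ≤ L0 * (mom (fw T D ψ) m + mom (fw T D ψ) (m + 2))) →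
    |mom (fw T D ψ) (n + 2) / (H981.mu ^ 2 * mom (fw T D ψ) n) - 1| ≤
      K * (Real.log n ^ s / √n) := by
  obtain ⟨L, hL, hdom⟩ := famE_dom (ι := ι) A hA hs
  obtain ⟨K, hK, hm⟩ := mainE (ι := ι) A L0 hA hL0 s hs (fun n => L * Real.log n ^ s)
    (fun n => mul_nonneg hL (pow_nonneg (Real.log_natCast_nonneg n) s)) (hro_log L0 L hL s)
  refine ⟨K * √(1 + L), by positivity, fun T D ψ n hn h1 h2 h3 h4 => ?_⟩
  have h5 := hm T D ψ n hn (hdom L0 T D ψ n hn h1 h2 h3 h4)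
  refine h5.trans ?_
  rw [mul_assoc]
  apply mul_le_mul_of_nonneg_left _ hK
  have hn' : (3 : ℝ) ≤ n := by exact_mod_cast hn
  have hnp : (0 : ℝ) < n := by linarith
  have hl1 : 1 ≤ Real.log n := RATE.one_le_log hn
  have hls : 1 ≤ Real.log n ^ s := one_le_pow₀ hl1
  rw [← Real.sqrt_sq (show 0 ≤ Real.log n ^ s by linarith), mul_div_assoc', le_div_iff₀
    (Real.sqrt_pos.2 hnp), ← Real.sqrt_mul (by positivity), ← Real.sqrt_mul (by positivity),
    Real.sqrt_sq (show 0 ≤ Real.log n ^ s by linarith)]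
  apply Real.sqrt_le_sqrt
  rw [div_mul_cancel₀ _ hnp.ne']
  nlinarith

/-- the ratio theorem in the plane, final form -/
theorem mainE_full {ι : Type} (A L0 : ℝ) (hA : 0 ≤ A) (hL0 : 0 ≤ L0) :
    ∃ K : ℝ, 0 ≤ K ∧ ∀ (T : Finset ι) (ψ : ι → List Dir → ℝ) (n : ℕ), 3 ≤ n →
    (∀ θ ∈ T, ∀ w, 0 ≤ ψ θ w) →
    (∀ m : ℕ, n ≤ 2 * m → m ≤ 2 * n + 2 → m % 2 = n % 2 → ∃ q : ι → ℝ,
      (∀ θ ∈ T, ∀ w ∈ SW m, ψ θ w ≤ q θ) ∧ ∑ θ ∈ T, q θ ≤ Real.exp (A * Real.log m ^ 2)) →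
    (∀ m : ℕ, n ≤ 2 * m → m ≤ 2 * n → m % 2 = n % 2 →
      H981.mu ^ m * Real.exp (-(A * Real.log m ^ 2)) ≤ mom (fw T (fun _ => Set.univ) ψ) m) →
    (∀ m : ℕ, n ≤ 2 * m → m ≤ 2 * n → m % 2 = n % 2 →
      ∑ θ ∈ T, en Set.univ (ψ θ) m ≤ L0 * (mom (fw T (fun _ => Set.univ) ψ) m +
        mom (fw T (fun _ => Set.univ) ψ) (m + 2))) →
    |mom (fw T (fun _ => Set.univ) ψ) (n + 2) / (H981.mu ^ 2 * mom (fw T (fun _ => Set.univ) ψ) n) - 1| ≤
      K * (Real.log n / √n) := by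
  obtain ⟨K, hK, hm⟩ := mainE (ι := ι) A L0 hA hL0 2 le_rfl (fun n => 0)
    (fun n => le_rfl) (by
      intro C
      obtain ⟨n0, hn0⟩ := exists_nat_ge (C * (1 + L0 + 0))
      exact ⟨n0, fun n hn => hn0.trans (by exact_mod_cast hn)⟩)
  refine ⟨K, hK, fun T ψ n hn h1 h2 h3 h4 => ?_⟩
  have h5 := hm T (fun _ => Set.univ) ψ n hn ⟨h1, h2, h3, h4, fun m _ _ _ => by
    rw [xt_univ, zero_mul]⟩
  refine h5.trans ?_
  apply mul_le_mul_of_nonneg_left _ hK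
  have hn' : (3 : ℝ) ≤ n := by exact_mod_cast hn
  have hnp : (0 : ℝ) < n := by linarith
  have hl1 : 1 ≤ Real.log n := RATE.one_le_log hn
  rw [add_zero, one_mul, Real.sqrt_div' _ hnp.le, Real.sqrt_sq (by linarith)]

end Pool.Agent.X44.GR
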