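import Pool.Agent.X44.GR.C

/-!
# The ratio theorem with a rate for walks in an arbitrary domain
-/

set_option autoImplicit false
set_option linter.unusedVariables false

namespace Pool.Agent.X44.GR

open Finset Pool.Agent.H976R2 Pool.Agent.H739K
open scoped Classical
open Pool.Agent.H976R2.Lip (PP dv)

/-- the weight of a walk: a function of the endpoint if the walk is in `D`, otherwise zero -/
noncomputable def wt (D : Set (ℤ × ℤ)) (ψ : ℤ × ℤ → ℝ) (w : List Dir) : ℝ :=
  if inD D w then ψ (wX w, wY w) else 0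

variable {D : Set (ℤ × ℤ)} {ψ : ℤ × ℤ → ℝ}

lemma wt_nonneg (hψ : ∀ x, 0 ≤ ψ x) (w : List Dir) : 0 ≤ wt D ψ w := by
  unfold wt
  split_ifs
  · exact hψ _
  · exact le_rfl

/-- the change of the weight under insertions -/
lemma chg_wt (hψ : ∀ x, 0 ≤ ψ x) (w : List Dir) :
    ∑ p ∈ adm w, |wt D ψ (ins w p.1 p.2) - wt D ψ w| ≤ wt D ψ w * ((exD D w).card : ℝ) := by
  by_cases hw : inD D w
  · have h1 : ∀ p ∈ adm w, |wt D ψ (ins w p.1 p.2) - wt D ψ w| =
        if p ∈ exD D w then wt D ψ w else 0 := by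
      intro p hp
      have hp' : (p.1, p.2) ∈ adm w := hp
      have hi := (H976R2.mem_adm.mp hp').1
      have h2 := inD_ins_iff (e := p.2) hi hw
      unfold wt
      rw [if_pos hw, wX_ins p.2 hi, wY_ins p.2 hi]
      by_cases h3 : inD D (ins w p.1 p.2)
      · rw [if_pos h3, if_neg]
        · simp
        · unfold exD
          rw [mem_filter, not_and, not_not]
          exact fun _ => h2.mp h3
      · rw [if_neg h3, if_pos]
        · rw [zero_sub, abs_neg, abs_of_nonneg (hψ _)]
        · unfold exD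
          rw [mem_filter]
          exact ⟨hp, fun h4 => h3 (h2.mpr h4)⟩
    rw [sum_congr rfl h1, ← sum_filter, sum_const, nsmul_eq_mul, mul_comm]
    apply mul_le_mul_of_nonneg_left _ (wt_nonneg hψ w)
    exact_mod_cast card_le_card (fun p hp => (mem_filter.mp hp).2)
  · have h1 : ∀ p ∈ adm w, |wt D ψ (ins w p.1 p.2) - wt D ψ w| = 0 := by
      intro p hp
      have hp' : (p.1, p.2) ∈ adm w := hp
      have hi := (H976R2.mem_adm.mp hp').1
      unfold wt
      rw [if_neg hw, if_neg (fun h => hw (inD_of_ins hi h))]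
      simp
    rw [sum_eq_zero h1]
    exact mul_nonneg (wt_nonneg hψ w) (Nat.cast_nonneg _)

lemma mu_le_four : H981.mu ≤ 4 := by
  have h := H981.mu_pow_le 1
  rw [pow_one] at h
  refine h.trans ?_
  rw [← SWR.card_eq_cr']
  have h1 : (SW 1).card ≤ 4 := by
    have h2 : SW 1 ⊆ (univ : Finset Dir).image (fun d => [d]) := by
      intro w hw
      obtain ⟨hl, _⟩ := mem_SW.mp hw
      obtain ⟨d, rfl⟩ := List.length_eq_one_iff.mp hl
      rw [mem_image]
      exact ⟨d, mem_univ _, rfl⟩
    exact (card_le_card h2).trans card_image_le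
  exact_mod_cast h1

/-- few walks in a domain have many insertions which leave it: asymptotic form -/
theorem tail_exp {s : ℕ} (hs : 2 ≤ s) : ∃ K : ℝ, 0 ≤ K ∧ ∀ (D : Set (ℤ × ℤ)) (m j : ℕ), 2 ≤ m →
    (((SW m).filter (fun w => inD D w ∧ 216 * j ≤ (exD D w).card)).card : ℝ) ≤
      H981.mu ^ m * Real.exp (K * Real.log m ^ s - j) := by
  obtain ⟨K, hK, hup⟩ := card_upper hs
  have hmu := H981.mu_pos
  refine ⟨K * 3 ^ s, by positivity, fun D m j hm => ?_⟩
  have hm' : (2 : ℝ) ≤ m := by exact_mod_cast hm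
  have hm0 : (0 : ℝ) < m := by linarith
  have hlm : 0 ≤ Real.log (m : ℝ) := Real.log_natCast_nonneg m
  by_cases hj : j < m
  · have h1 := tail D m j
    have h2 : (((SW m).filter (fun w => inD D w ∧ 216 * j ≤ (exD D w).card)).card : ℝ) * 44 ^ j ≤
        ((SW (m + 2 * j)).card : ℝ) := by exact_mod_cast h1
    have h3 := hup (m + 2 * j) (by omega)
    have h4 : Real.log ((m + 2 * j : ℕ) : ℝ) ≤ 3 * Real.log m := by
      have h5 : ((m + 2 * j : ℕ) : ℝ) ≤ m * m * m := by
        have : m + 2 * j ≤ m * m * m := by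
          have : 4 ≤ m * m := by nlinarith
          nlinarith
        exact_mod_cast this
      calc Real.log ((m + 2 * j : ℕ) : ℝ) ≤ Real.log ((m : ℝ) * m * m) := by
            apply Real.log_le_log _ h5
            exact_mod_cast (by omega : 0 < m + 2 * j)
        _ = 3 * Real.log m := by
            rw [Real.log_mul (by positivity) hm0.ne', Real.log_mul hm0.ne' hm0.ne']; ring
    have h5 : Real.log ((m + 2 * j : ℕ) : ℝ) ^ s ≤ 3 ^ s * Real.log m ^ s := by
      rw [← mul_pow]
      exact pow_le_pow_left₀ (Real.log_natCast_nonneg _) h4 s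
    have h6 : ((SW (m + 2 * j)).card : ℝ) ≤ H981.mu ^ m * 16 ^ j *
        Real.exp (K * 3 ^ s * Real.log m ^ s) := by
      refine h3.trans ?_
      have h7 : H981.mu ^ (m + 2 * j) ≤ H981.mu ^ m * 16 ^ j := by
        rw [pow_add, pow_mul]
        apply mul_le_mul_of_nonneg_left _ (by positivity)
        apply pow_le_pow_left₀ (by positivity)
        have := mu_le_four
        nlinarith
      have h8 : Real.exp (K * Real.log ((m + 2 * j : ℕ) : ℝ) ^ s) ≤
          Real.exp (K * 3 ^ s * Real.log m ^ s) := by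
        apply Real.exp_le_exp.2
        rw [mul_assoc]
        exact mul_le_mul_of_nonneg_left h5 hK
      exact mul_le_mul h7 h8 (Real.exp_pos _).le (by positivity)
    have h9 : (16 : ℝ) ^ j * Real.exp j ≤ 44 ^ j := by
      have : Real.exp (j : ℝ) = (Real.exp 1) ^ j := by rw [← Real.exp_nat_mul]; simp
      rw [this, ← mul_pow]
      apply pow_le_pow_left₀ (by positivity)
      have := Real.exp_one_lt_d9
      linarith
    rw [Real.exp_sub, ← mul_div_assoc, le_div_iff₀ (Real.exp_pos _)]
    have h44 : (0 : ℝ) < 44 ^ j := by positivity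
    have h16 : (0 : ℝ) < 16 ^ j := by positivity
    obtain ⟨N, hN⟩ : ∃ N : ℝ, N = (((SW m).filter (fun w => inD D w ∧
      216 * j ≤ (exD D w).card)).card : ℝ) := ⟨_, rfl⟩
    rw [← hN] at h2 ⊢
    have hN0 : 0 ≤ N := by rw [hN]; positivity
    have h10 : N * (16 ^ j * Real.exp j) ≤ H981.mu ^ m * 16 ^ j *
        Real.exp (K * 3 ^ s * Real.log m ^ s) :=
      (mul_le_mul_of_nonneg_left h9 hN0).trans (h2.trans h6)
    have h11 : 16 ^ j * (N * Real.exp j) ≤ 16 ^ j * (H981.mu ^ m *
        Real.exp (K * 3 ^ s * Real.log m ^ s)) := by linarith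
    exact le_of_mul_le_mul_left h11 h16
  · have h1 : ((SW m).filter (fun w => inD D w ∧ 216 * j ≤ (exD D w).card)) = ∅ := by
      rw [filter_eq_empty_iff]
      intro w hw hcon
      obtain ⟨hl, _⟩ := mem_SW.mp hw
      have h2 := AA_le w
      have h3 : (exD D w).card ≤ AA w := card_le_card (filter_subset _ _)
      have := hcon.2
      omega
    rw [h1, card_empty, Nat.cast_zero]
    positivity

/-- the mean number of insertions which leave the domain -/
theorem chg_dom (A : ℝ) (hA : 0 ≤ A) {s : ℕ} (hs : 2 ≤ s) : ∃ L : ℝ, 0 ≤ L ∧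
    ∀ (D : Set (ℤ × ℤ)) (ψ : ℤ × ℤ → ℝ) (m : ℕ), 2 ≤ m → (∀ x, 0 ≤ ψ x) →
    (∀ w ∈ SW m, ψ (wX w, wY w) ≤ Real.exp (A * Real.log m ^ s)) →
    H981.mu ^ m * Real.exp (-(A * Real.log m ^ s)) ≤ mom (wt D ψ) m →
    chg (wt D ψ) m ≤ L * Real.log m ^ s * mom (wt D ψ) m := by
  obtain ⟨K, hK, ht⟩ := tail_exp hs
  have hmu := H981.mu_pos
  have hl2 : 0 < Real.log 2 := Real.log_pos (by norm_num)
  obtain ⟨B0, hB0⟩ : ∃ B0 : ℝ, B0 = 2 / Real.log 2 ^ (s - 1) := ⟨_, rfl⟩
  have hB00 : 0 ≤ B0 := by rw [hB0]; positivity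
  obtain ⟨B, hB⟩ : ∃ B : ℝ, B = 2 * A + K + B0 := ⟨_, rfl⟩
  have hBn : 0 ≤ B := by rw [hB]; positivity
  refine ⟨216 * B + 217 / Real.log 2 ^ s, by positivity, fun D ψ m hm hψ hle hlow => ?_⟩
  have hm' : (2 : ℝ) ≤ m := by exact_mod_cast hm
  have hm0 : (0 : ℝ) < m := by linarith
  have hlm := log_two_le hm
  have hlm0 : 0 < Real.log (m : ℝ) := by linarith
  obtain ⟨l, hl⟩ : ∃ l : ℝ, l = Real.log m ^ s := ⟨_, rfl⟩
  have hl0 : 0 < l := by rw [hl]; positivity
  have hll : Real.log 2 ^ s ≤ l := by rw [hl]; exact pow_le_pow_left₀ hl2.le hlm s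
  rw [← hl] at hle hlow ⊢
  obtain ⟨j, hj⟩ : ∃ j : ℕ, j = ⌈B * l⌉₊ := ⟨_, rfl⟩
  have hj1 : B * l ≤ j := by rw [hj]; exact Nat.le_ceil _
  have hj2 : (j : ℝ) ≤ B * l + 1 := by
    rw [hj]; exact (Nat.ceil_lt_add_one (by positivity)).le
  have hN := ht D m j hm
  rw [← hl] at hN
  have h2m : 2 * (m : ℝ) ≤ Real.exp (B0 * l) := by
    have h1 : Real.log (2 * m) ≤ B0 * l := by
      have h2 : Real.log (2 * m) ≤ 2 * Real.log m := by
        rw [Real.log_mul (by norm_num) hm0.ne']; linarith
      refine h2.trans ?_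
      rw [hB0, hl, div_mul_eq_mul_div, le_div_iff₀ (by positivity)]
      obtain ⟨t, rfl⟩ : ∃ t, s = t + 1 := ⟨s - 1, by omega⟩
      rw [show t + 1 - 1 = t by omega, pow_succ]
      have h3 : Real.log 2 ^ t ≤ Real.log (m : ℝ) ^ t := pow_le_pow_left₀ hl2.le hlm t
      nlinarith
    calc 2 * (m : ℝ) = Real.exp (Real.log (2 * m)) := (Real.exp_log (by positivity)).symm
      _ ≤ _ := Real.exp_le_exp.2 h1
  have hmom0 : 0 ≤ mom (wt D ψ) m := Finset.sum_nonneg (fun w _ => wt_nonneg hψ w)
  have hstep : chg (wt D ψ) m ≤ 216 * j * mom (wt D ψ) m + Real.exp (A * l) * (2 * m) *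
      (((SW m).filter (fun w => inD D w ∧ 216 * j ≤ (exD D w).card)).card : ℝ) := by
    unfold chg
    calc ∑ w ∈ SW m, ∑ p ∈ adm w, |wt D ψ (ins w p.1 p.2) - wt D ψ w|
        ≤ ∑ w ∈ SW m, (216 * j * wt D ψ w +
          if (inD D w ∧ 216 * j ≤ (exD D w).card) then Real.exp (A * l) * (2 * m) else 0) := by
          refine Finset.sum_le_sum (fun w hw => (chg_wt hψ w).trans ?_)
          obtain ⟨hlen, hsaw⟩ := mem_SW.mp hw
          have hw0 := wt_nonneg (D := D) hψ w
          by_cases hc : inD D w ∧ 216 * j ≤ (exD D w).card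
          · rw [if_pos hc]
            have h1 : wt D ψ w ≤ Real.exp (A * l) := by
              unfold wt
              rw [if_pos hc.1]
              exact hle w hw
            have h2 : ((exD D w).card : ℝ) ≤ 2 * m := by
              have h3 : (exD D w).card ≤ AA w := card_le_card (filter_subset _ _)
              have h4 := AA_le w
              rw [hlen] at h4
              exact_mod_cast h3.trans h4
            have h3 : wt D ψ w * ((exD D w).card : ℝ) ≤ Real.exp (A * l) * (2 * m) :=
              mul_le_mul h1 h2 (Nat.cast_nonneg _) (Real.exp_pos _).le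
            have h4 : 0 ≤ 216 * (j : ℝ) * wt D ψ w := by positivity
            linarith
          · rw [if_neg hc, add_zero]
            by_cases hin : inD D w
            · have h1 : (exD D w).card ≤ 216 * j := by
                by_contra hcon
                exact hc ⟨hin, by omega⟩
              have h2 : ((exD D w).card : ℝ) ≤ 216 * j := by exact_mod_cast h1
              rw [mul_comm]
              exact mul_le_mul_of_nonneg_right h2 hw0
            · have : wt D ψ w = 0 := by unfold wt; rw [if_neg hin]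
              rw [this]; simp
      _ = _ := by
          rw [sum_add_distrib, ← mul_sum, ← sum_filter, sum_const, nsmul_eq_mul]
          unfold mom
          ring
  have h2 : Real.exp (A * l) * (2 * m) *
      (((SW m).filter (fun w => inD D w ∧ 216 * j ≤ (exD D w).card)).card : ℝ) ≤
      mom (wt D ψ) m := by
    calc _ ≤ Real.exp (A * l) * Real.exp (B0 * l) * (H981.mu ^ m * Real.exp (K * l - j)) := by
          gcongr
      _ = H981.mu ^ m * Real.exp ((A + B0 + K) * l - j) := by
          rw [show (A + B0 + K) * l - j = A * l + B0 * l + (K * l - j) by ring, Real.exp_add,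
            Real.exp_add]; ring
      _ ≤ H981.mu ^ m * Real.exp (-(A * l)) := by
          apply mul_le_mul_of_nonneg_left _ (by positivity)
          apply Real.exp_le_exp.2
          rw [hB] at hj1
          linarith
      _ ≤ _ := hlow
  have h3 : 216 * (j : ℝ) + 1 ≤ (216 * B + 217 / Real.log 2 ^ s) * l := by
    have h4 : 217 ≤ 217 / Real.log 2 ^ s * l := by
      rw [div_mul_eq_mul_div, le_div_iff₀ (by positivity)]
      nlinarith
    nlinarith
  calc chg (wt D ψ) m ≤ 216 * j * mom (wt D ψ) m + mom (wt D ψ) m := by linarith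
    _ = (216 * j + 1) * mom (wt D ψ) m := by ring
    _ ≤ _ := mul_le_mul_of_nonneg_right h3 hmom0

end Pool.Agent.X44.GR
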