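import Pool.Agent.X44.GR.D

/-!
# The ratio theorem with a rate for walks in an arbitrary domain: main theorem
-/

set_option autoImplicit false
set_option linter.unusedVariables false

namespace Pool.Agent.X44.GR

open Finset Pool.Agent.H976R2 Pool.Agent.H739K
open scoped Classical
open Pool.Agent.H976R2.Lip (PP dv)

/-- the hypothesis on the weight `ψ` of the endpoint and the domain `D` at the length `n`: the
masses at the lengths of the same parity between `n / 2` and `2 n` are not much smaller than the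
number of all walks -/
structure Ok (A : ℝ) (s : ℕ) (D : Set (ℤ × ℤ)) (ψ : ℤ × ℤ → ℝ) (n : ℕ) : Prop where
  nonneg : ∀ x, 0 ≤ ψ x
  le : ∀ m : ℕ, 2 ≤ m → ∀ w ∈ SW m, ψ (wX w, wY w) ≤ Real.exp (A * Real.log m ^ s)
  low : ∀ m : ℕ, n ≤ 2 * m → m ≤ 2 * n → m % 2 = n % 2 →
    H981.mu ^ m * Real.exp (-(A * Real.log m ^ s)) ≤ mom (wt D ψ) m

lemma log_add_two {m : ℕ} (hm : 2 ≤ m) : Real.log ((m + 2 : ℕ) : ℝ) ≤ 2 * Real.log m := by
  have hm0 : (0 : ℝ) < m := by exact_mod_cast (by omega : 0 < m)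
  have h1 : ((m + 2 : ℕ) : ℝ) ≤ m * m := by
    have : m + 2 ≤ m * m := by nlinarith
    exact_mod_cast this
  calc Real.log ((m + 2 : ℕ) : ℝ) ≤ Real.log ((m : ℝ) * m) := by
        apply Real.log_le_log _ h1
        exact_mod_cast (by omega : 0 < m + 2)
    _ = 2 * Real.log m := by rw [Real.log_mul hm0.ne' hm0.ne']; ring

lemma wt_le {A : ℝ} (hA : 0 ≤ A) {s : ℕ} {D : Set (ℤ × ℤ)} {ψ : ℤ × ℤ → ℝ} {m : ℕ} {w : List Dir}
    (h : ψ (wX w, wY w) ≤ Real.exp (A * Real.log m ^ s)) :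
    wt D ψ w ≤ Real.exp (A * Real.log m ^ s) := by
  unfold wt
  split_ifs
  · exact h
  · exact (Real.exp_pos _).le

theorem main (A : ℝ) (hA : 0 ≤ A) (s : ℕ) (hs : 2 ≤ s) : ∃ K : ℝ, 0 ≤ K ∧
    ∀ (D : Set (ℤ × ℤ)) (ψ : ℤ × ℤ → ℝ) (n : ℕ), 3 ≤ n → Ok A s D ψ n →
    |mom (wt D ψ) (n + 2) / (H981.mu ^ 2 * mom (wt D ψ) n) - 1| ≤ K * (Real.log n ^ s / √n) := by
  obtain ⟨L1, hL1, hchg⟩ := chg_dom A hA hs
  obtain ⟨K0, hK0, hup⟩ := card_upper hs
  obtain ⟨A', hA'⟩ : ∃ A' : ℝ, A' = A * 2 ^ s := ⟨_, rfl⟩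
  have h2s : (1 : ℝ) ≤ 2 ^ s := one_le_pow₀ (by norm_num)
  have hA'0 : 0 ≤ A' := by rw [hA']; positivity
  have hAA' : A ≤ A' := by rw [hA']; nlinarith
  obtain ⟨C, hC, hrate⟩ := rate A' hA'0 s hs
  have hmu := H981.mu_pos
  have hmu1 := H981.one_le_mu
  obtain ⟨L2, hL2⟩ : ∃ L2 : ℝ, L2 = L1 * 2 ^ s := ⟨_, rfl⟩
  have hL20 : 0 ≤ L2 := by rw [hL2]; positivity
  -- large `n`
  obtain ⟨n0, hn0⟩ : ∃ n0 : ℕ, ∀ n : ℕ, n0 ≤ n → 2 * (L2 * Real.log n ^ s) ≤ n := by
    have hlo : (fun x : ℝ => Real.log x ^ s) =o[Filter.atTop] id :=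
      Real.isLittleO_pow_log_id_atTop
    have h1 := hlo.bound (show 0 < 1 / (2 * L2 + 1) by positivity)
    have h2 := tendsto_natCast_atTop_atTop (R := ℝ) |>.eventually h1
    obtain ⟨n0, h3⟩ := Filter.eventually_atTop.mp h2
    refine ⟨n0, fun n hn => ?_⟩
    have h4 := h3 n hn
    simp only [id, Real.norm_eq_abs, Nat.abs_cast] at h4
    have h5 := (le_abs_self _).trans h4
    have h6 : (0 : ℝ) ≤ n := Nat.cast_nonneg n
    have h7 : 0 < 2 * L2 + 1 := by positivity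
    rw [div_mul_eq_mul_div, one_mul, le_div_iff₀ h7] at h5
    have h8 : 0 ≤ Real.log (n : ℝ) ^ s := pow_nonneg (Real.log_natCast_nonneg n) s
    nlinarith
  -- the trivial bound
  obtain ⟨G, hG⟩ : ∃ G : ℕ → ℝ, G = fun n : ℕ => Real.exp (A * Real.log ((n + 2 : ℕ) : ℝ) ^ s) *
    Real.exp (K0 * Real.log ((n + 2 : ℕ) : ℝ) ^ s) * Real.exp (A * Real.log n ^ s) := ⟨_, rfl⟩
  have hGpos : ∀ n, 0 < G n := by intro n; rw [hG]; positivity
  obtain ⟨G0, hG0⟩ : ∃ G0 : ℝ, G0 = 1 + ∑ k ∈ range n0, G k := ⟨_, rfl⟩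
  have hG0p : 0 < G0 := by
    rw [hG0]
    have : 0 ≤ ∑ k ∈ range n0, G k := sum_nonneg (fun k _ => (hGpos k).le)
    linarith
  refine ⟨√(C * (1 + L2)) + G0 * √(n0 + 1), by positivity, fun D ψ n hn hok => ?_⟩
  have hn' : (3 : ℝ) ≤ n := by exact_mod_cast hn
  have hnp : (0 : ℝ) < n := by linarith
  have hl1 : 1 ≤ Real.log n := RATE.one_le_log hn
  have hls : 1 ≤ Real.log n ^ s := one_le_pow₀ hl1
  have hsq : 0 < √(n : ℝ) := Real.sqrt_pos.2 hnp
  by_cases hbig : n0 ≤ n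
  · have h1 := hn0 n hbig
    have hwin : ∀ m : ℕ, n ≤ 2 * m → m ≤ 2 * n → m % 2 = n % 2 →
        Wt A' s (L2 * Real.log n ^ s) m (wt D ψ) := by
      intro m g1 g2 g3
      have hm2 : 2 ≤ m := by omega
      obtain ⟨l0, l1⟩ := log_window' hn g1 g2
      have hlow := hok.low m g1 g2 g3
      have hpowm : 0 ≤ Real.log (m : ℝ) ^ s := pow_nonneg l0 s
      refine ⟨fun w => wt_nonneg hok.nonneg w, fun w hw => ?_, fun w hw => ?_, ?_, ?_⟩
      · refine (wt_le hA (hok.le m hm2 w hw)).trans (Real.exp_le_exp.2 ?_)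
        exact mul_le_mul_of_nonneg_right hAA' hpowm
      · refine (wt_le hA (hok.le (m + 2) (by omega) w hw)).trans (Real.exp_le_exp.2 ?_)
        have h5 : Real.log ((m + 2 : ℕ) : ℝ) ^ s ≤ 2 ^ s * Real.log m ^ s := by
          rw [← mul_pow]
          exact pow_le_pow_left₀ (Real.log_natCast_nonneg _) (log_add_two hm2) s
        rw [hA', mul_assoc]
        exact mul_le_mul_of_nonneg_left h5 hA
      · refine le_trans (mul_le_mul_of_nonneg_left ?_ (by positivity)) hlow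
        apply Real.exp_le_exp.2
        have := mul_le_mul_of_nonneg_right hAA' hpowm
        linarith
      · refine (hchg D ψ m hm2 hok.nonneg (hok.le m hm2) hlow).trans ?_
        have hmom0 : 0 ≤ mom (wt D ψ) m := Finset.sum_nonneg (fun w _ => wt_nonneg hok.nonneg w)
        apply mul_le_mul_of_nonneg_right _ hmom0
        have h5 : Real.log (m : ℝ) ^ s ≤ 2 ^ s * Real.log n ^ s := by
          rw [← mul_pow]; exact pow_le_pow_left₀ l0 l1 s
        rw [hL2, mul_assoc]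
        exact mul_le_mul_of_nonneg_left h5 hL1
    have h2 := hrate (L2 * Real.log n ^ s) (by positivity) n (wt D ψ) hn h1 hwin
    obtain ⟨x, hx⟩ : ∃ x, x = mom (wt D ψ) (n + 2) / (H981.mu ^ 2 * mom (wt D ψ) n) - 1 := ⟨_, rfl⟩
    rw [← hx] at h2 ⊢
    have h3 : x ^ 2 * n ≤ C * (1 + L2) * (Real.log n ^ s) ^ 2 := by
      refine h2.trans ?_
      have h4 : 1 + L2 * Real.log n ^ s ≤ (1 + L2) * Real.log n ^ s := by nlinarith
      calc C * (1 + L2 * Real.log n ^ s) * Real.log n ^ s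
          ≤ C * ((1 + L2) * Real.log n ^ s) * Real.log n ^ s := by gcongr
        _ = _ := by ring
    have h5 : |x| ≤ √(C * (1 + L2)) * (Real.log n ^ s / √n) := by
      rw [← Real.sqrt_sq_eq_abs, mul_div_assoc', le_div_iff₀ hsq, ← Real.sqrt_mul (sq_nonneg x),
        ← Real.sqrt_sq (show 0 ≤ Real.log n ^ s by positivity), ← Real.sqrt_mul (by positivity)]
      exact Real.sqrt_le_sqrt h3
    refine h5.trans ?_
    apply mul_le_mul_of_nonneg_right _ (by positivity)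
    have : 0 ≤ G0 * √(n0 + 1) := by positivity
    linarith
  · push Not at hbig
    have hlow := hok.low n (by omega) (by omega) rfl
    have hm2 : 0 < mom (wt D ψ) n := lt_of_lt_of_le (by positivity) hlow
    have hup2 : mom (wt D ψ) (n + 2) ≤ Real.exp (A * Real.log ((n + 2 : ℕ) : ℝ) ^ s) *
        (H981.mu ^ (n + 2) * Real.exp (K0 * Real.log ((n + 2 : ℕ) : ℝ) ^ s)) := by
      have h4 : mom (wt D ψ) (n + 2) ≤ Real.exp (A * Real.log ((n + 2 : ℕ) : ℝ) ^ s) *
          ((SW (n + 2)).card : ℝ) := by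
        unfold mom
        rw [mul_comm, ← nsmul_eq_mul, ← Finset.sum_const]
        exact Finset.sum_le_sum (fun w hw => wt_le hA (hok.le (n + 2) (by omega) w hw))
      refine h4.trans ?_
      gcongr
      exact hup (n + 2) (by omega)
    have hq : mom (wt D ψ) (n + 2) / (H981.mu ^ 2 * mom (wt D ψ) n) ≤ G n := by
      rw [div_le_iff₀ (by positivity)]
      refine hup2.trans ?_
      rw [hG]
      simp only
      have h5 : H981.mu ^ n ≤ Real.exp (A * Real.log n ^ s) * mom (wt D ψ) n := by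
        have := mul_le_mul_of_nonneg_left hlow (Real.exp_pos (A * Real.log n ^ s)).le
        refine le_trans (le_of_eq ?_) this
        rw [mul_comm (H981.mu ^ n), ← mul_assoc, ← Real.exp_add]
        simp
      calc Real.exp (A * Real.log ((n + 2 : ℕ) : ℝ) ^ s) *
            (H981.mu ^ (n + 2) * Real.exp (K0 * Real.log ((n + 2 : ℕ) : ℝ) ^ s))
          = Real.exp (A * Real.log ((n + 2 : ℕ) : ℝ) ^ s) *
            Real.exp (K0 * Real.log ((n + 2 : ℕ) : ℝ) ^ s) * H981.mu ^ 2 * H981.mu ^ n := by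
            rw [pow_add]; ring
        _ ≤ Real.exp (A * Real.log ((n + 2 : ℕ) : ℝ) ^ s) *
            Real.exp (K0 * Real.log ((n + 2 : ℕ) : ℝ) ^ s) * H981.mu ^ 2 *
            (Real.exp (A * Real.log n ^ s) * mom (wt D ψ) n) := by gcongr
        _ = _ := by ring
    have hGn : G n ≤ ∑ k ∈ range n0, G k :=
      single_le_sum (f := G) (fun k _ => (hGpos k).le) (mem_range.2 hbig)
    have hq0 : 0 ≤ mom (wt D ψ) (n + 2) / (H981.mu ^ 2 * mom (wt D ψ) n) := by
      have : 0 ≤ mom (wt D ψ) (n + 2) := Finset.sum_nonneg (fun w _ => wt_nonneg hok.nonneg w)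
      positivity
    have h6 : |mom (wt D ψ) (n + 2) / (H981.mu ^ 2 * mom (wt D ψ) n) - 1| ≤ G0 := by
      have hGs : 0 ≤ ∑ k ∈ range n0, G k := sum_nonneg (fun k _ => (hGpos k).le)
      rw [abs_le, hG0]
      constructor <;> linarith
    refine h6.trans ?_
    have h7 : √(n : ℝ) ≤ √(n0 + 1) := by
      apply Real.sqrt_le_sqrt
      have : (n : ℝ) ≤ n0 := by exact_mod_cast hbig.le
      linarith
    have h8 : 1 ≤ √((n0 : ℝ) + 1) * (Real.log n ^ s / √n) := by
      rw [mul_div_assoc', le_div_iff₀ hsq, one_mul]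
      calc √(n : ℝ) ≤ √((n0 : ℝ) + 1) * 1 := by rw [mul_one]; exact h7
        _ ≤ _ := by gcongr
    have h9 : 0 ≤ √(C * (1 + L2)) * (Real.log n ^ s / √n) := by positivity
    nlinarith

end Pool.Agent.X44.GR
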