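import Pool.Agent.X44.GR.E

/-!
# The ratio theorem for finite families of domains and general weights
-/

set_option autoImplicit false
set_option linter.unusedVariables false

namespace Pool.Agent.X44.GR

open Finset Pool.Agent.H976R2 Pool.Agent.H739K
open scoped Classical
open Pool.Agent.H976R2.Lip (PP dv)

variable {ι : Type}

/-- sum of the weights `ψ θ` over the `θ` such that the walk is in `D θ` -/
noncomputable def fw (T : Finset ι) (D : ι → Set (ℤ × ℤ)) (ψ : ι → List Dir → ℝ) (w : List Dir) : ℝ :=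
  ∑ θ ∈ T, if inD (D θ) w then ψ θ w else 0

lemma fw_nonneg {T : Finset ι} {D : ι → Set (ℤ × ℤ)} {ψ : ι → List Dir → ℝ}
    (h : ∀ θ ∈ T, ∀ w, 0 ≤ ψ θ w) (w : List Dir) : 0 ≤ fw T D ψ w := by
  refine sum_nonneg (fun θ hθ => ?_)
  split_ifs
  · exact h θ hθ w
  · exact le_rfl

lemma fw_le {T : Finset ι} {D : ι → Set (ℤ × ℤ)} {ψ : ι → List Dir → ℝ} {q : ι → ℝ} {w : List Dir}
    (h0 : ∀ θ ∈ T, ∀ w, 0 ≤ ψ θ w) (h : ∀ θ ∈ T, ψ θ w ≤ q θ) : fw T D ψ w ≤ ∑ θ ∈ T, q θ := by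
  refine sum_le_sum (fun θ hθ => ?_)
  split_ifs
  · exact h θ hθ
  · exact (h0 θ hθ w).trans (h θ hθ)

/-- change under insertions, one domain -/
lemma chg_one {D : Set (ℤ × ℤ)} {ψ : List Dir → ℝ} {L0 : ℝ} (hL0 : 0 ≤ L0) (hψ : ∀ w, 0 ≤ ψ w)
    {w : List Dir} (hlip : ∑ p ∈ adm w, |ψ (ins w p.1 p.2) - ψ w| ≤ L0 * ψ w) :
    ∑ p ∈ adm w, |(if inD D (ins w p.1 p.2) then ψ (ins w p.1 p.2) else 0) -
      (if inD D w then ψ w else 0)| ≤
      (if inD D w then ψ w else 0) * (L0 + ((exD D w).card : ℝ)) := by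
  by_cases hw : inD D w
  · have h1 : ∀ p ∈ adm w, |(if inD D (ins w p.1 p.2) then ψ (ins w p.1 p.2) else 0) -
        (if inD D w then ψ w else 0)| ≤
        |ψ (ins w p.1 p.2) - ψ w| + (if p ∈ exD D w then ψ w else 0) := by
      intro p hp
      have hp' : (p.1, p.2) ∈ adm w := hp
      have hi := (H976R2.mem_adm.mp hp').1
      have h2 := inD_ins_iff (e := p.2) hi hw
      rw [if_pos hw]
      by_cases h3 : inD D (ins w p.1 p.2)
      · rw [if_pos h3]
        have : 0 ≤ (if p ∈ exD D w then ψ w else 0) := by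
          split_ifs
          · exact hψ w
          · exact le_rfl
        linarith
      · rw [if_neg h3, if_pos]
        · rw [zero_sub, abs_neg, abs_of_nonneg (hψ w)]
          linarith [abs_nonneg (ψ (ins w p.1 p.2) - ψ w)]
        · unfold exD
          rw [mem_filter]
          exact ⟨hp, fun h4 => h3 (h2.mpr h4)⟩
    refine (sum_le_sum h1).trans ?_
    rw [sum_add_distrib, ← sum_filter, sum_const, nsmul_eq_mul, if_pos hw, mul_add]
    refine add_le_add (by linarith) ?_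
    rw [mul_comm]
    apply mul_le_mul_of_nonneg_left _ (hψ w)
    exact_mod_cast card_le_card (fun p hp => (mem_filter.mp hp).2)
  · have h1 : ∀ p ∈ adm w, |(if inD D (ins w p.1 p.2) then ψ (ins w p.1 p.2) else 0) -
        (if inD D w then ψ w else 0)| = 0 := by
      intro p hp
      have hp' : (p.1, p.2) ∈ adm w := hp
      have hi := (H976R2.mem_adm.mp hp').1
      rw [if_neg hw, if_neg (fun h => hw (inD_of_ins hi h))]
      simp
    rw [sum_eq_zero h1, if_neg hw, zero_mul]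

/-- change under insertions, a family of domains -/
theorem chg_fam (A : ℝ) (hA : 0 ≤ A) {s : ℕ} (hs : 2 ≤ s) : ∃ L : ℝ, 0 ≤ L ∧
    ∀ (ι : Type) (T : Finset ι) (D : ι → Set (ℤ × ℤ)) (ψ : ι → List Dir → ℝ) (L0 : ℝ) (q : ι → ℝ)
      (m : ℕ), 2 ≤ m → 0 ≤ L0 → (∀ θ ∈ T, ∀ w, 0 ≤ ψ θ w) →
    (∀ θ ∈ T, ∀ w ∈ SW m, ψ θ w ≤ q θ) →
    (∑ θ ∈ T, q θ ≤ Real.exp (A * Real.log m ^ s)) →
    (∀ θ ∈ T, ∀ w ∈ SW m, ∑ p ∈ adm w, |ψ θ (ins w p.1 p.2) - ψ θ w| ≤ L0 * ψ θ w) →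
    H981.mu ^ m * Real.exp (-(A * Real.log m ^ s)) ≤ mom (fw T D ψ) m →
    chg (fw T D ψ) m ≤ (L0 + L * Real.log m ^ s) * mom (fw T D ψ) m := by
  obtain ⟨K, hK, ht⟩ := tail_exp hs
  have hmu := H981.mu_pos
  have hl2 : 0 < Real.log 2 := Real.log_pos (by norm_num)
  obtain ⟨B0, hB0⟩ : ∃ B0 : ℝ, B0 = 2 / Real.log 2 ^ (s - 1) := ⟨_, rfl⟩
  have hB00 : 0 ≤ B0 := by rw [hB0]; positivity
  obtain ⟨B, hB⟩ : ∃ B : ℝ, B = 2 * A + K + B0 := ⟨_, rfl⟩
  have hBn : 0 ≤ B := by rw [hB]; positivity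
  refine ⟨216 * B + 217 / Real.log 2 ^ s, by positivity,
    fun ι T D ψ L0 q m hm hL0 hψ hle hq hlip hlow => ?_⟩
  have hm' : (2 : ℝ) ≤ m := by exact_mod_cast hm
  have hm0 : (0 : ℝ) < m := by linarith
  have hlm := log_two_le hm
  have hlm0 : 0 < Real.log (m : ℝ) := by linarith
  obtain ⟨l, hl⟩ : ∃ l : ℝ, l = Real.log m ^ s := ⟨_, rfl⟩
  have hl0 : 0 < l := by rw [hl]; positivity
  have hll : Real.log 2 ^ s ≤ l := by rw [hl]; exact pow_le_pow_left₀ hl2.le hlm s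
  rw [← hl] at hq hlow ⊢
  obtain ⟨j, hj⟩ : ∃ j : ℕ, j = ⌈B * l⌉₊ := ⟨_, rfl⟩
  have hj1 : B * l ≤ j := by rw [hj]; exact Nat.le_ceil _
  have hj2 : (j : ℝ) ≤ B * l + 1 := by
    rw [hj]; exact (Nat.ceil_lt_add_one (by positivity)).le
  have h2m : 2 * (m : ℝ) ≤ Real.exp (B0 * l) := by
    have h1 : Real.log (2 * m) ≤ B0 * l := by
      have h2 : Real.log (2 * m) ≤ 2 * Real.log m := by
        rw [Real.log_mul (by norm_num) hm0.ne']; linarith
      refine h2.trans ?_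
      rw [hB0, hl, div_mul_eq_mul_div, le_div_iff₀ (by positivity)]
      obtain ⟨t, rfl⟩ : ∃ t, s = t + 1 := ⟨s - 1, by omega⟩
      rw [show t + 1 - 1 = t by omega, pow_succ]
      have h3 : Real.log 2 ^ t ≤ Real.log (m : ℝ) ^ t := pow_le_pow_left₀ hl2.le hlm t
      nlinarith
    calc 2 * (m : ℝ) = Real.exp (Real.log (2 * m)) := (Real.exp_log (by positivity)).symm
      _ ≤ _ := Real.exp_le_exp.2 h1
  have hmom0 : 0 ≤ mom (fw T D ψ) m := Finset.sum_nonneg (fun w _ => fw_nonneg hψ w)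
  -- one domain
  have hone : ∀ θ ∈ T, ∑ w ∈ SW m, (if inD (D θ) w then ψ θ w else 0) *
      (L0 + ((exD (D θ) w).card : ℝ)) ≤
      (L0 + 216 * j) * ∑ w ∈ SW m, (if inD (D θ) w then ψ θ w else 0) +
        q θ * (2 * m * (H981.mu ^ m * Real.exp (K * l - j))) := by
    intro θ hθ
    have hN := ht (D θ) m j hm
    rw [← hl] at hN
    have h1 : ∀ w ∈ SW m, (if inD (D θ) w then ψ θ w else 0) * (L0 + ((exD (D θ) w).card : ℝ)) ≤
        (L0 + 216 * j) * (if inD (D θ) w then ψ θ w else 0) +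
          if (inD (D θ) w ∧ 216 * j ≤ (exD (D θ) w).card) then q θ * (2 * m) else 0 := by
      intro w hw
      obtain ⟨hlen, hsaw⟩ := mem_SW.mp hw
      have hw0 := hψ θ hθ w
      by_cases hin : inD (D θ) w
      · rw [if_pos hin]
        by_cases hc : 216 * j ≤ (exD (D θ) w).card
        · rw [if_pos ⟨hin, hc⟩]
          have h2 : ((exD (D θ) w).card : ℝ) ≤ 2 * m := by
            have h3 : (exD (D θ) w).card ≤ AA w := card_le_card (filter_subset _ _)
            have h4 := AA_le w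
            rw [hlen] at h4
            exact_mod_cast h3.trans h4
          have h3 : ψ θ w * ((exD (D θ) w).card : ℝ) ≤ q θ * (2 * m) :=
            mul_le_mul (hle θ hθ w hw) h2 (Nat.cast_nonneg _) (hw0.trans (hle θ hθ w hw))
          have h4 : 0 ≤ 216 * (j : ℝ) * ψ θ w := by positivity
          linarith
        · rw [if_neg (fun h => hc h.2), add_zero]
          have h2 : ((exD (D θ) w).card : ℝ) ≤ 216 * j := by
            exact_mod_cast (by omega : (exD (D θ) w).card ≤ 216 * j)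
          rw [mul_comm]
          exact mul_le_mul_of_nonneg_right (by linarith) hw0
      · rw [if_neg hin, if_neg (fun h => hin h.1)]
        simp
    refine (sum_le_sum h1).trans ?_
    have hcard : ∑ w ∈ SW m, (if (inD (D θ) w ∧ 216 * j ≤ (exD (D θ) w).card) then
        q θ * (2 * (m : ℝ)) else 0) = (((SW m).filter (fun w => inD (D θ) w ∧
          216 * j ≤ (exD (D θ) w).card)).card : ℝ) * (q θ * (2 * m)) := by
      rw [← sum_filter, sum_const, nsmul_eq_mul]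
    rw [sum_add_distrib, ← mul_sum, hcard]
    refine add_le_add le_rfl ?_
    have hq0 : 0 ≤ q θ := by
      by_cases hne : (SW m).Nonempty
      · obtain ⟨w, hw⟩ := hne
        exact (hψ θ hθ w).trans (hle θ hθ w hw)
      · rw [Finset.not_nonempty_iff_eq_empty] at hne
        exfalso
        unfold mom at hlow
        rw [hne, sum_empty] at hlow
        have : 0 < H981.mu ^ m * Real.exp (-(A * l)) := by positivity
        linarith
    calc _ = q θ * (2 * m * (((SW m).filter (fun w => inD (D θ) w ∧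
            216 * j ≤ (exD (D θ) w).card)).card : ℝ)) := by ring
      _ ≤ _ := by gcongr
  have hstep : chg (fw T D ψ) m ≤ (L0 + 216 * j) * mom (fw T D ψ) m +
      (∑ θ ∈ T, q θ) * (2 * m * (H981.mu ^ m * Real.exp (K * l - j))) := by
    have h1 : chg (fw T D ψ) m ≤ ∑ w ∈ SW m, ∑ θ ∈ T,
        (if inD (D θ) w then ψ θ w else 0) * (L0 + ((exD (D θ) w).card : ℝ)) := by
      unfold chg
      refine sum_le_sum (fun w hw => ?_)
      calc ∑ p ∈ adm w, |fw T D ψ (ins w p.1 p.2) - fw T D ψ w|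
          ≤ ∑ p ∈ adm w, ∑ θ ∈ T, |(if inD (D θ) (ins w p.1 p.2) then ψ θ (ins w p.1 p.2) else 0) -
            (if inD (D θ) w then ψ θ w else 0)| := by
            refine sum_le_sum (fun p _ => ?_)
            unfold fw
            rw [← sum_sub_distrib]
            exact abs_sum_le_sum_abs _ _
        _ = ∑ θ ∈ T, ∑ p ∈ adm w, |(if inD (D θ) (ins w p.1 p.2) then ψ θ (ins w p.1 p.2) else 0) -
            (if inD (D θ) w then ψ θ w else 0)| := sum_comm
        _ ≤ _ := sum_le_sum (fun θ hθ => chg_one hL0 (hψ θ hθ) (hlip θ hθ w hw))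
    refine h1.trans ?_
    rw [sum_comm]
    refine (sum_le_sum hone).trans (le_of_eq ?_)
    rw [sum_add_distrib, ← mul_sum, ← sum_mul]
    congr 2
    unfold mom fw
    exact sum_comm
  have h2 : (∑ θ ∈ T, q θ) * (2 * m * (H981.mu ^ m * Real.exp (K * l - j))) ≤ mom (fw T D ψ) m := by
    calc _ ≤ Real.exp (A * l) * (Real.exp (B0 * l) * (H981.mu ^ m * Real.exp (K * l - j))) := by
          gcongr
      _ = H981.mu ^ m * Real.exp ((A + B0 + K) * l - j) := by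
          rw [show (A + B0 + K) * l - j = A * l + B0 * l + (K * l - j) by ring, Real.exp_add,
            Real.exp_add]; ring
      _ ≤ H981.mu ^ m * Real.exp (-(A * l)) := by
          apply mul_le_mul_of_nonneg_left _ (by positivity)
          apply Real.exp_le_exp.2
          rw [hB] at hj1
          linarith
      _ ≤ _ := hlow
  have h3 : 216 * (j : ℝ) + 1 ≤ (216 * B + 217 / Real.log 2 ^ s) * l := by
    have h4 : 217 ≤ 217 / Real.log 2 ^ s * l := by
      rw [div_mul_eq_mul_div, le_div_iff₀ (by positivity)]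
      nlinarith
    nlinarith
  calc chg (fw T D ψ) m ≤ (L0 + 216 * j) * mom (fw T D ψ) m + mom (fw T D ψ) m := by linarith
    _ = (L0 + (216 * j + 1)) * mom (fw T D ψ) m := by ring
    _ ≤ _ := by
        apply mul_le_mul_of_nonneg_right _ hmom0
        linarith

/-- the hypotheses on a family of domains and weights at the length `n` -/
structure Fam (A L0 : ℝ) (s : ℕ) (T : Finset ι) (D : ι → Set (ℤ × ℤ)) (ψ : ι → List Dir → ℝ)
    (n : ℕ) : Prop where
  nonneg : ∀ θ ∈ T, ∀ w, 0 ≤ ψ θ w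
  le : ∀ m : ℕ, n ≤ 2 * m → m ≤ 2 * n + 2 → m % 2 = n % 2 → ∃ q : ι → ℝ,
    (∀ θ ∈ T, ∀ w ∈ SW m, ψ θ w ≤ q θ) ∧ ∑ θ ∈ T, q θ ≤ Real.exp (A * Real.log m ^ s)
  lip : ∀ m : ℕ, n ≤ 2 * m → m ≤ 2 * n → m % 2 = n % 2 → ∀ θ ∈ T, ∀ w ∈ SW m,
    ∑ p ∈ adm w, |ψ θ (ins w p.1 p.2) - ψ θ w| ≤ L0 * ψ θ w
  low : ∀ m : ℕ, n ≤ 2 * m → m ≤ 2 * n → m % 2 = n % 2 →
    H981.mu ^ m * Real.exp (-(A * Real.log m ^ s)) ≤ mom (fw T D ψ) m

lemma fam_wt {A L0 : ℝ} (hA : 0 ≤ A) {s : ℕ} {T : Finset ι} {D : ι → Set (ℤ × ℤ)}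
    {ψ : ι → List Dir → ℝ} {n : ℕ} (hn : 3 ≤ n) (h : Fam A L0 s T D ψ n) {L : ℝ}
    (hL : ∀ m : ℕ, n ≤ 2 * m → m ≤ 2 * n → m % 2 = n % 2 →
      chg (fw T D ψ) m ≤ L * mom (fw T D ψ) m) :
    ∀ m : ℕ, n ≤ 2 * m → m ≤ 2 * n → m % 2 = n % 2 → Wt (A * 2 ^ s) s L m (fw T D ψ) := by
  intro m g1 g2 g3
  have hmu := H981.mu_pos
  have h2s : (1 : ℝ) ≤ 2 ^ s := one_le_pow₀ (by norm_num)
  have hAA' : A ≤ A * 2 ^ s := by nlinarith
  have hm2 : 2 ≤ m := by omega
  obtain ⟨l0, l1⟩ := log_window' hn g1 g2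
  have hpowm : 0 ≤ Real.log (m : ℝ) ^ s := pow_nonneg l0 s
  obtain ⟨q, hq1, hq2⟩ := h.le m g1 (by omega) g3
  obtain ⟨q', hq1', hq2'⟩ := h.le (m + 2) (by omega) (by omega) (by omega)
  refine ⟨fun w => fw_nonneg h.nonneg w, fun w hw => ?_, fun w hw => ?_, ?_, hL m g1 g2 g3⟩
  · refine ((fw_le h.nonneg (fun θ hθ => hq1 θ hθ w hw)).trans hq2).trans (Real.exp_le_exp.2 ?_)
    exact mul_le_mul_of_nonneg_right hAA' hpowm
  · refine ((fw_le h.nonneg (fun θ hθ => hq1' θ hθ w hw)).trans hq2').trans (Real.exp_le_exp.2 ?_)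
    have h5 : Real.log ((m + 2 : ℕ) : ℝ) ^ s ≤ 2 ^ s * Real.log m ^ s := by
      rw [← mul_pow]
      exact pow_le_pow_left₀ (Real.log_natCast_nonneg _) (log_add_two hm2) s
    rw [mul_assoc]
    exact mul_le_mul_of_nonneg_left h5 hA
  · refine le_trans (mul_le_mul_of_nonneg_left ?_ (by positivity)) (h.low m g1 g2 g3)
    apply Real.exp_le_exp.2
    have := mul_le_mul_of_nonneg_right hAA' hpowm
    linarith

/-- the trivial bound, for small `n` -/
lemma trivial_bound (A : ℝ) (hA : 0 ≤ A) {s : ℕ} (hs : 2 ≤ s) (n0 : ℕ) : ∃ G : ℝ, 0 < G ∧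
    ∀ (ι : Type) (T : Finset ι) (D : ι → Set (ℤ × ℤ)) (ψ : ι → List Dir → ℝ) (L0 : ℝ) (n : ℕ),
    3 ≤ n → n < n0 → Fam A L0 s T D ψ n →
    |mom (fw T D ψ) (n + 2) / (H981.mu ^ 2 * mom (fw T D ψ) n) - 1| ≤ G := by
  obtain ⟨K0, hK0, hup⟩ := card_upper hs
  have hmu := H981.mu_pos
  obtain ⟨G, hG⟩ : ∃ G : ℕ → ℝ, G = fun n : ℕ => Real.exp (A * Real.log ((n + 2 : ℕ) : ℝ) ^ s) *
    Real.exp (K0 * Real.log ((n + 2 : ℕ) : ℝ) ^ s) * Real.exp (A * Real.log n ^ s) := ⟨_, rfl⟩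
  have hGpos : ∀ n, 0 < G n := by intro n; rw [hG]; positivity
  refine ⟨1 + ∑ k ∈ range n0, G k, ?_, fun ι T D ψ L0 n hn hnn hok => ?_⟩
  · have : 0 ≤ ∑ k ∈ range n0, G k := sum_nonneg (fun k _ => (hGpos k).le)
    linarith
  have hlow := hok.low n (by omega) (by omega) rfl
  have hm2 : 0 < mom (fw T D ψ) n := lt_of_lt_of_le (by positivity) hlow
  have hup2 : mom (fw T D ψ) (n + 2) ≤ Real.exp (A * Real.log ((n + 2 : ℕ) : ℝ) ^ s) *
      (H981.mu ^ (n + 2) * Real.exp (K0 * Real.log ((n + 2 : ℕ) : ℝ) ^ s)) := by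
    have h4 : mom (fw T D ψ) (n + 2) ≤ Real.exp (A * Real.log ((n + 2 : ℕ) : ℝ) ^ s) *
        ((SW (n + 2)).card : ℝ) := by
      obtain ⟨q, hq1, hq2⟩ := hok.le (n + 2) (by omega) (by omega) (by omega)
      unfold mom
      rw [mul_comm, ← nsmul_eq_mul, ← Finset.sum_const]
      exact Finset.sum_le_sum (fun w hw =>
        (fw_le hok.nonneg (fun θ hθ => hq1 θ hθ w hw)).trans hq2)
    refine h4.trans ?_
    gcongr
    exact hup (n + 2) (by omega)
  have hq : mom (fw T D ψ) (n + 2) / (H981.mu ^ 2 * mom (fw T D ψ) n) ≤ G n := by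
    rw [div_le_iff₀ (by positivity)]
    refine hup2.trans ?_
    rw [hG]
    simp only
    have h5 : H981.mu ^ n ≤ Real.exp (A * Real.log n ^ s) * mom (fw T D ψ) n := by
      have := mul_le_mul_of_nonneg_left hlow (Real.exp_pos (A * Real.log n ^ s)).le
      refine le_trans (le_of_eq ?_) this
      rw [mul_comm (H981.mu ^ n), ← mul_assoc, ← Real.exp_add]
      simp
    calc Real.exp (A * Real.log ((n + 2 : ℕ) : ℝ) ^ s) *
          (H981.mu ^ (n + 2) * Real.exp (K0 * Real.log ((n + 2 : ℕ) : ℝ) ^ s))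
        = Real.exp (A * Real.log ((n + 2 : ℕ) : ℝ) ^ s) *
          Real.exp (K0 * Real.log ((n + 2 : ℕ) : ℝ) ^ s) * H981.mu ^ 2 * H981.mu ^ n := by
          rw [pow_add]; ring
      _ ≤ Real.exp (A * Real.log ((n + 2 : ℕ) : ℝ) ^ s) *
          Real.exp (K0 * Real.log ((n + 2 : ℕ) : ℝ) ^ s) * H981.mu ^ 2 *
          (Real.exp (A * Real.log n ^ s) * mom (fw T D ψ) n) := by gcongr
      _ = _ := by ring
  have hGn : G n ≤ ∑ k ∈ range n0, G k :=
    single_le_sum (f := G) (fun k _ => (hGpos k).le) (mem_range.2 hnn)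
  have hq0 : 0 ≤ mom (fw T D ψ) (n + 2) / (H981.mu ^ 2 * mom (fw T D ψ) n) := by
    have : 0 ≤ mom (fw T D ψ) (n + 2) := Finset.sum_nonneg (fun w _ => fw_nonneg hok.nonneg w)
    positivity
  have hGs : 0 ≤ ∑ k ∈ range n0, G k := sum_nonneg (fun k _ => (hGpos k).le)
  rw [abs_le]
  constructor <;> linarith

lemma exists_big (a : ℝ) (ha : 0 ≤ a) (b : ℝ) (s : ℕ) : ∃ n0 : ℕ, ∀ n : ℕ, n0 ≤ n →
    2 * (b + a * Real.log n ^ s) ≤ n := by
  have hlo : (fun x : ℝ => Real.log x ^ s) =o[Filter.atTop] id :=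
    Real.isLittleO_pow_log_id_atTop
  have h1 := hlo.bound (show 0 < 1 / (4 * a + 1) by positivity)
  have h2 := tendsto_natCast_atTop_atTop (R := ℝ) |>.eventually h1
  obtain ⟨n0, h3⟩ := Filter.eventually_atTop.mp h2
  obtain ⟨n1, hn1⟩ := exists_nat_ge (4 * b)
  refine ⟨max n0 n1, fun n hn => ?_⟩
  have h4 := h3 n (le_trans (le_max_left _ _) hn)
  have h4b : (n1 : ℝ) ≤ n := by exact_mod_cast le_trans (le_max_right _ _) hn
  simp only [id, Real.norm_eq_abs, Nat.abs_cast] at h4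
  have h5 := (le_abs_self _).trans h4
  have h6 : (0 : ℝ) ≤ n := Nat.cast_nonneg n
  have h7 : 0 < 4 * a + 1 := by positivity
  rw [div_mul_eq_mul_div, one_mul, le_div_iff₀ h7] at h5
  have h8 : 0 ≤ Real.log (n : ℝ) ^ s := pow_nonneg (Real.log_natCast_nonneg n) s
  nlinarith

/-- **the ratio theorem with a rate for families of domains** -/
theorem main_fam (A L0 : ℝ) (hA : 0 ≤ A) (hL0 : 0 ≤ L0) (s : ℕ) (hs : 2 ≤ s) : ∃ K : ℝ, 0 ≤ K ∧
    ∀ (ι : Type) (T : Finset ι) (D : ι → Set (ℤ × ℤ)) (ψ : ι → List Dir → ℝ) (n : ℕ), 3 ≤ n →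
    Fam A L0 s T D ψ n →
    |mom (fw T D ψ) (n + 2) / (H981.mu ^ 2 * mom (fw T D ψ) n) - 1| ≤
      K * (Real.log n ^ s / √n) := by
  obtain ⟨L1, hL1, hchg⟩ := chg_fam A hA hs
  have hA' : 0 ≤ A * 2 ^ s := by positivity
  obtain ⟨C, hC, hrate⟩ := rate (A * 2 ^ s) hA' s hs
  have hmu := H981.mu_pos
  obtain ⟨L2, hL2⟩ : ∃ L2 : ℝ, L2 = L1 * 2 ^ s := ⟨_, rfl⟩
  have hL20 : 0 ≤ L2 := by rw [hL2]; positivity
  obtain ⟨n0, hn0⟩ := exists_big L2 hL20 L0 s
  obtain ⟨G, hG, htriv⟩ := trivial_bound A hA hs n0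
  refine ⟨√(C * (1 + L0 + L2)) + G * √(n0 + 1), by positivity, fun ι T D ψ n hn hok => ?_⟩
  have hn' : (3 : ℝ) ≤ n := by exact_mod_cast hn
  have hnp : (0 : ℝ) < n := by linarith
  have hl1 : 1 ≤ Real.log n := RATE.one_le_log hn
  have hls : 1 ≤ Real.log n ^ s := one_le_pow₀ hl1
  have hsq : 0 < √(n : ℝ) := Real.sqrt_pos.2 hnp
  by_cases hbig : n0 ≤ n
  · have h1 := hn0 n hbig
    have hwin := fam_wt hA hn hok (L := L0 + L2 * Real.log n ^ s) (by
      intro m g1 g2 g3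
      have hm2 : 2 ≤ m := by omega
      obtain ⟨l0, l1⟩ := log_window' hn g1 g2
      obtain ⟨q, hq1, hq2⟩ := hok.le m g1 (by omega) g3
      refine (hchg ι T D ψ L0 q m hm2 hL0 hok.nonneg hq1 hq2 (hok.lip m g1 g2 g3)
        (hok.low m g1 g2 g3)).trans ?_
      have hmom0 : 0 ≤ mom (fw T D ψ) m := Finset.sum_nonneg (fun w _ => fw_nonneg hok.nonneg w)
      apply mul_le_mul_of_nonneg_right _ hmom0
      have h5 : Real.log (m : ℝ) ^ s ≤ 2 ^ s * Real.log n ^ s := by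
        rw [← mul_pow]; exact pow_le_pow_left₀ l0 l1 s
      have h6 : L1 * Real.log (m : ℝ) ^ s ≤ L2 * Real.log n ^ s := by
        rw [hL2, mul_assoc]
        exact mul_le_mul_of_nonneg_left h5 hL1
      linarith)
    have h2 := hrate (L0 + L2 * Real.log n ^ s) (by positivity) n (fw T D ψ) hn h1 hwin
    obtain ⟨x, hx⟩ : ∃ x, x = mom (fw T D ψ) (n + 2) / (H981.mu ^ 2 * mom (fw T D ψ) n) - 1 :=
      ⟨_, rfl⟩
    rw [← hx] at h2 ⊢
    have h3 : x ^ 2 * n ≤ C * (1 + L0 + L2) * (Real.log n ^ s) ^ 2 := by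
      refine h2.trans ?_
      have h4 : 1 + (L0 + L2 * Real.log n ^ s) ≤ (1 + L0 + L2) * Real.log n ^ s := by nlinarith
      calc C * (1 + (L0 + L2 * Real.log n ^ s)) * Real.log n ^ s
          ≤ C * ((1 + L0 + L2) * Real.log n ^ s) * Real.log n ^ s := by gcongr
        _ = _ := by ring
    have h5 : |x| ≤ √(C * (1 + L0 + L2)) * (Real.log n ^ s / √n) := by
      rw [← Real.sqrt_sq_eq_abs, mul_div_assoc', le_div_iff₀ hsq, ← Real.sqrt_mul (sq_nonneg x),
        ← Real.sqrt_sq (show 0 ≤ Real.log n ^ s by positivity), ← Real.sqrt_mul (by positivity)]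
      exact Real.sqrt_le_sqrt h3
    refine h5.trans ?_
    apply mul_le_mul_of_nonneg_right _ (by positivity)
    have : 0 ≤ G * √(n0 + 1) := by positivity
    linarith
  · push Not at hbig
    have h6 := htriv ι T D ψ L0 n hn hbig hok
    refine h6.trans ?_
    have h7 : √(n : ℝ) ≤ √(n0 + 1) := by
      apply Real.sqrt_le_sqrt
      have : (n : ℝ) ≤ n0 := by exact_mod_cast hbig.le
      linarith
    have h8 : 1 ≤ √((n0 : ℝ) + 1) * (Real.log n ^ s / √n) := by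
      rw [mul_div_assoc', le_div_iff₀ hsq, one_mul]
      calc √(n : ℝ) ≤ √((n0 : ℝ) + 1) * 1 := by rw [mul_one]; exact h7
        _ ≤ _ := by gcongr
    have h9 : 0 ≤ √(C * (1 + L0 + L2)) * (Real.log n ^ s / √n) := by positivity
    nlinarith

lemma exD_empty {D : Set (ℤ × ℤ)} (h : ∀ x, x ∈ D) (w : List Dir) : exD D w = ∅ := by
  refine Finset.eq_empty_of_forall_notMem (fun p hp => ?_)
  unfold exD at hp
  exact (mem_filter.mp hp).2 ⟨h _, h _⟩

lemma exD_univ (w : List Dir) : exD Set.univ w = ∅ := exD_empty Set.mem_univ w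

/-- **the ratio theorem in the full plane**: better rate -/
theorem main_full (A L0 : ℝ) (hA : 0 ≤ A) (hL0 : 0 ≤ L0) : ∃ K : ℝ, 0 ≤ K ∧
    ∀ (ι : Type) (T : Finset ι) (ψ : ι → List Dir → ℝ) (n : ℕ), 3 ≤ n →
    Fam A L0 2 T (fun _ => Set.univ) ψ n →
    |mom (fw T (fun _ => Set.univ) ψ) (n + 2) / (H981.mu ^ 2 * mom (fw T (fun _ => Set.univ) ψ) n) - 1| ≤
      K * (Real.log n / √n) := by
  have hA' : 0 ≤ A * 2 ^ 2 := by positivity
  obtain ⟨C, hC, hrate⟩ := rate (A * 2 ^ 2) hA' 2 le_rfl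
  obtain ⟨n0, hn0⟩ := exists_nat_ge (2 * L0)
  obtain ⟨G, hG, htriv⟩ := trivial_bound A hA (s := 2) le_rfl n0
  refine ⟨√(C * (1 + L0)) + G * √(n0 + 1), by positivity, fun ι T ψ n hn hok => ?_⟩
  have hn' : (3 : ℝ) ≤ n := by exact_mod_cast hn
  have hnp : (0 : ℝ) < n := by linarith
  have hl1 : 1 ≤ Real.log n := RATE.one_le_log hn
  have hsq : 0 < √(n : ℝ) := Real.sqrt_pos.2 hnp
  by_cases hbig : n0 ≤ n
  · have h1 : 2 * L0 ≤ n := hn0.trans (by exact_mod_cast hbig)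
    have hwin := fam_wt hA hn hok (L := L0) (by
      intro m g1 g2 g3
      have h1 : chg (fw T (fun _ => Set.univ) ψ) m ≤ ∑ w ∈ SW m, ∑ θ ∈ T,
          (if inD Set.univ w then ψ θ w else 0) * (L0 + ((exD Set.univ w).card : ℝ)) := by
        unfold chg
        refine sum_le_sum (fun w hw => ?_)
        calc ∑ p ∈ adm w, |fw T (fun _ => Set.univ) ψ (ins w p.1 p.2) - fw T (fun _ => Set.univ) ψ w|
            ≤ ∑ p ∈ adm w, ∑ θ ∈ T, |(if inD Set.univ (ins w p.1 p.2) then ψ θ (ins w p.1 p.2) else 0) -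
              (if inD Set.univ w then ψ θ w else 0)| := by
              refine sum_le_sum (fun p _ => ?_)
              unfold fw
              rw [← sum_sub_distrib]
              exact abs_sum_le_sum_abs _ _
          _ = ∑ θ ∈ T, ∑ p ∈ adm w, |(if inD Set.univ (ins w p.1 p.2) then ψ θ (ins w p.1 p.2) else 0) -
              (if inD Set.univ w then ψ θ w else 0)| := sum_comm
          _ ≤ _ := sum_le_sum (fun θ hθ => chg_one hL0 (hok.nonneg θ hθ) (hok.lip m g1 g2 g3 θ hθ w hw))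
      refine h1.trans (le_of_eq ?_)
      unfold mom fw
      rw [mul_sum]
      refine sum_congr rfl (fun w _ => ?_)
      rw [exD_univ, card_empty, Nat.cast_zero, add_zero, ← sum_mul, mul_comm])
    have h2 := hrate L0 hL0 n _ hn h1 hwin
    obtain ⟨x, hx⟩ : ∃ x, x = mom (fw T (fun _ => Set.univ) ψ) (n + 2) /
      (H981.mu ^ 2 * mom (fw T (fun _ => Set.univ) ψ) n) - 1 := ⟨_, rfl⟩
    rw [← hx] at h2 ⊢
    have h5 : |x| ≤ √(C * (1 + L0)) * (Real.log n / √n) := by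
      rw [← Real.sqrt_sq_eq_abs, mul_div_assoc', le_div_iff₀ hsq, ← Real.sqrt_mul (sq_nonneg x),
        ← Real.sqrt_sq (show 0 ≤ Real.log (n : ℝ) by positivity), ← Real.sqrt_mul (by positivity)]
      exact Real.sqrt_le_sqrt h2
    refine h5.trans ?_
    apply mul_le_mul_of_nonneg_right _ (by positivity)
    have : 0 ≤ G * √(n0 + 1) := by positivity
    linarith
  · push Not at hbig
    have h6 := htriv ι T (fun _ => Set.univ) ψ L0 n hn hbig hok
    refine h6.trans ?_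
    have h7 : √(n : ℝ) ≤ √(n0 + 1) := by
      apply Real.sqrt_le_sqrt
      have : (n : ℝ) ≤ n0 := by exact_mod_cast hbig.le
      linarith
    have h8 : 1 ≤ √((n0 : ℝ) + 1) * (Real.log n / √n) := by
      rw [mul_div_assoc', le_div_iff₀ hsq, one_mul]
      calc √(n : ℝ) ≤ √((n0 : ℝ) + 1) * 1 := by rw [mul_one]; exact h7
        _ ≤ _ := by gcongr
    have h9 : 0 ≤ √(C * (1 + L0)) * (Real.log n / √n) := by positivity
    nlinarith

end Pool.Agent.X44.GR
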