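import Pool.Agent.X44.GR.G

/-!
# Lower bounds for walks and polygons in a half plane
-/

set_option autoImplicit false
set_option linter.unusedVariables false

namespace Pool.Agent.X44.GR.P

open Filter Topology Finset

/-- The self-avoiding walks with `n` steps on `ℤ²` which start at the origin. -/
def walks (n : ℕ) : Set (Fin (n + 1) → ℤ × ℤ) :=
  {w | w 0 = 0 ∧ Function.Injective w ∧ ∀ i : Fin n,
    |(w i.succ).1 - (w i.castSucc).1| + |(w i.succ).2 - (w i.castSucc).2| = 1}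

theorem walks_eq (n : ℕ) : walks n = {ω | Pool.Agent.H976R2.IsSAW n ω} := by
  ext w
  constructor
  · rintro ⟨h0, h1, h2⟩
    exact ⟨h0, h2, h1⟩
  · rintro ⟨h0, h2, h1⟩
    exact ⟨h0, h1, h2⟩

theorem walks_finite (n : ℕ) : (walks n).Finite := by
  rw [walks_eq]
  exact Pool.Agent.H976R2.finite_saw n

/-- the number of tuples in a product -/
theorem ncard_pi {k : ℕ} {α : Fin k → Type} (S : ∀ a, Set (α a)) (hS : ∀ a, (S a).Finite) :
    (Set.pi Set.univ S).ncard = ∏ a, (S a).ncard := by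
  have h1 : Nat.card ↥(Set.pi Set.univ S) = Nat.card (∀ a, ↥(S a)) :=
    Nat.card_congr (Equiv.Set.univPi S)
  rw [← Nat.card_coe_set_eq, h1, Nat.card_pi]
  apply Finset.prod_congr rfl
  intro a _
  exact Nat.card_coe_set_eq (S a)

/-! ### polygons rooted at the top -/

/-- the order of the sites: first the height, then the abscissa -/
def lw (p : ℤ × ℤ) : Prop := p.2 < 0 ∨ (p.2 = 0 ∧ p.1 ≤ 0)

theorem lw_neg {p : ℤ × ℤ} (h1 : lw p) (h2 : lw (-p)) : p = 0 := by
  unfold lw at h1 h2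
  simp only [Prod.fst_neg, Prod.snd_neg] at h2
  exact Prod.ext (show p.1 = 0 by omega) (show p.2 = 0 by omega)

/-- the loops, and those whose highest point is the origin -/
def loops (N : ℕ) : Set (ZMod (2 * N) → ℤ × ℤ) := {f | H981.IsLoop (2 * N) f}

/-- the loops whose highest point is the origin -/
def tl (N : ℕ) : Set (ZMod (2 * N) → ℤ × ℤ) := {f | H981.IsLoop (2 * N) f ∧ ∀ i, lw (f i)}

theorem exists_top {N : ℕ} (hN : 1 ≤ N) (f : ZMod (2 * N) → ℤ × ℤ) :
    ∃ t, ∀ i, lw (f i - f t) := by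
  have : NeZero (2 * N) := ⟨by omega⟩
  obtain ⟨t, ht⟩ := Finite.exists_max (fun i => toLex ((f i).2, (f i).1))
  refine ⟨t, fun i => ?_⟩
  have h1 := ht i
  rw [Prod.Lex.le_iff] at h1
  unfold lw
  simp only [Prod.fst_sub, Prod.snd_sub]
  simp only [ofLex_toLex] at h1
  omega

theorem natCast_inj {N : ℕ} {i j : ℕ} (hi : i < 2 * N) (hj : j < 2 * N)
    (h : ((i : ℕ) : ZMod (2 * N)) = (j : ℕ)) : i = j := by
  have h1 := congrArg ZMod.val h
  rwa [ZMod.val_natCast_of_lt hi, ZMod.val_natCast_of_lt hj] at h1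

/-- the first steps of a loop -/
theorem arm_walk {N : ℕ} {g : ZMod (2 * N) → ℤ × ℤ} (hg : H981.IsLoop (2 * N) g) {n : ℕ}
    (hn : n < 2 * N) : (fun i : Fin (n + 1) => g ((i : ℕ) : ZMod (2 * N))) ∈ walks n := by
  obtain ⟨h0, h1, h2⟩ := hg
  refine ⟨?_, ?_, ?_⟩
  · simp only [Fin.val_zero, Nat.cast_zero]
    exact h0
  · intro i j hij
    exact Fin.ext (natCast_inj (by omega) (by omega) (h1 hij))
  · intro i
    have h3 := h2 ((i : ℕ) : ZMod (2 * N))
    have e : (((i.succ : Fin (n + 1)) : ℕ) : ZMod (2 * N)) = ((i : ℕ) : ZMod (2 * N)) + 1 := by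
      rw [Fin.val_succ]
      push_cast
      ring
    simp only [e]
    exact h3

theorem loop_neg {N : ℕ} {g : ZMod (2 * N) → ℤ × ℤ} (hg : H981.IsLoop (2 * N) g) :
    H981.IsLoop (2 * N) (fun i => g (-i)) := by
  obtain ⟨h0, h1, h2⟩ := hg
  refine ⟨by simpa using h0, fun i j hij => neg_injective (h1 hij), fun i => ?_⟩
  have h3 := h2 (-(i + 1))
  have e : -(i + 1) + 1 = -i := by ring
  rw [e] at h3
  rw [abs_sub_comm (g (-(i + 1))).1, abs_sub_comm (g (-(i + 1))).2]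
  exact h3

theorem loop_negv {N : ℕ} {g : ZMod (2 * N) → ℤ × ℤ} (hg : H981.IsLoop (2 * N) g) :
    H981.IsLoop (2 * N) (fun i => -g i) := by
  obtain ⟨h0, h1, h2⟩ := hg
  refine ⟨by simpa using h0, fun i j hij => h1 (neg_injective hij), fun i => ?_⟩
  have h3 := h2 i
  simp only [Prod.fst_neg, Prod.snd_neg]
  have e1 : -(g (i + 1)).1 - -(g i).1 = -((g (i + 1)).1 - (g i).1) := by ring
  have e2 : -(g (i + 1)).2 - -(g i).2 = -((g (i + 1)).2 - (g i).2) := by ring
  rw [e1, e2, abs_neg, abs_neg]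
  exact h3

theorem loops_finite {N : ℕ} (hN : 1 ≤ N) : (loops N).Finite := by
  have : NeZero (2 * N) := ⟨by omega⟩
  refine Set.Finite.of_injOn (f := fun (g : ZMod (2 * N) → ℤ × ℤ) (i : Fin (2 * N - 1 + 1)) =>
    g ((i : ℕ) : ZMod (2 * N))) (t := walks (2 * N - 1)) ?_ ?_ (walks_finite _)
  · intro g hg
    exact arm_walk hg (by omega)
  · intro g _ g' _ h
    funext i
    have h1 := congrFun h ⟨i.val, by have := ZMod.val_lt i; omega⟩
    simpa only [ZMod.natCast_zmod_val] using h1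

theorem tl_finite {N : ℕ} (hN : 1 ≤ N) : (tl N).Finite :=
  (loops_finite hN).subset fun _ h => h.1

theorem card_tl {N : ℕ} (hN : 1 ≤ N) : (2 : ℝ) * H981.PP N ≤ ((tl N).ncard : ℝ) := by
  have : NeZero (2 * N) := ⟨by omega⟩
  have h1 : (loops N).ncard ≤ (tl N).ncard * (2 * N) := by
    have h2 : (loops N).ncard ≤ (tl N ×ˢ (Set.univ : Set (ZMod (2 * N)))).ncard := by
      choose t ht using fun f : ZMod (2 * N) → ℤ × ℤ => exists_top hN f
      refine Set.ncard_le_ncard_of_injOn (fun f => ((fun i => f (i + t f) - f (t f)), t f)) ?_ ?_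
        ((tl_finite hN).prod Set.finite_univ)
      · rintro f ⟨h0, h1, h2⟩
        refine ⟨⟨⟨?_, ?_, ?_⟩, ?_⟩, Set.mem_univ _⟩
        · simp
        · intro i j hij
          have h3 : f (i + t f) = f (j + t f) := by simpa using hij
          exact add_right_cancel (h1 h3)
        · intro i
          have h3 := h2 (i + t f)
          have e : i + 1 + t f = i + t f + 1 := by ring
          simp only [Prod.fst_sub, Prod.snd_sub, e]
          have e1 : (f (i + t f + 1)).1 - (f (t f)).1 - ((f (i + t f)).1 - (f (t f)).1) =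
            (f (i + t f + 1)).1 - (f (i + t f)).1 := by ring
          have e2 : (f (i + t f + 1)).2 - (f (t f)).2 - ((f (i + t f)).2 - (f (t f)).2) =
            (f (i + t f + 1)).2 - (f (i + t f)).2 := by ring
          rw [e1, e2]
          exact h3
        · intro i
          exact ht f (i + t f)
      · intro f hf f' hf' h
        have h3 : t f = t f' := congrArg Prod.snd h
        have h4 := congrArg Prod.fst h
        simp only at h4
        rw [← h3] at h4
        have h5 := congrFun h4 (-t f)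
        simp only [neg_add_cancel, hf.1, hf'.1, zero_sub, neg_inj] at h5
        funext i
        have h6 := congrFun h4 (i - t f)
        simp only [sub_add_cancel, h5] at h6
        exact sub_left_inj.1 h6
    rw [Set.ncard_prod, Set.ncard_univ, Nat.card_zmod] at h2
    exact h2
  have h2 : H981.PP N = ((loops N).ncard : ℝ) / (4 * N) := by
    unfold H981.PP
    rw [← Nat.card_coe_set_eq]
    rfl
  have hN0 : (0 : ℝ) < N := by exact_mod_cast hN
  have h3 : ((loops N).ncard : ℝ) ≤ (tl N).ncard * (2 * N) := by exact_mod_cast h1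
  rw [h2]
  rw [show (2 : ℝ) * (((loops N).ncard : ℝ) / (4 * N)) = ((loops N).ncard : ℝ) / (2 * N) by
    field_simp; ring]
  rw [div_le_iff₀ (by positivity)]
  exact h3

/-! ### the arms -/

/-- the four arms made of two loops -/
def arm {N M : ℕ} (g : ZMod (2 * N) → ℤ × ℤ) (h : ZMod (2 * M) → ℤ × ℤ) (a i : ℕ) : ℤ × ℤ :=
  if a = 0 then g (i : ℕ) else if a = 1 then g (-(i : ℕ)) else if a = 2 then -h (i : ℕ)
  else -h (-(i : ℕ))

/-- the difference of two neighbours -/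
def stp {N : ℕ} (g : ZMod (2 * N) → ℤ × ℤ) (n : ℕ) : Fin 3 → ℤ × ℤ :=
  fun j => g ((n + (j : ℕ) + 1 : ℕ) : ZMod (2 * N)) - g ((n + (j : ℕ) : ℕ) : ZMod (2 * N))

/-- the box of the differences -/
noncomputable def bx : Finset (ℤ × ℤ) := Finset.Icc (-1) 1 ×ˢ Finset.Icc (-1) 1

theorem stp_mem {N : ℕ} {g : ZMod (2 * N) → ℤ × ℤ} (hg : H981.IsLoop (2 * N) g) (n : ℕ) :
    stp g n ∈ Set.pi Set.univ (fun _ : Fin 3 => (bx : Set (ℤ × ℤ))) := by
  intro j _
  have h := hg.2.2 ((n + (j : ℕ) : ℕ) : ZMod (2 * N))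
  have e : (((n + (j : ℕ) : ℕ) : ZMod (2 * N)) + 1) = ((n + (j : ℕ) + 1 : ℕ) : ZMod (2 * N)) := by
    push_cast; ring
  rw [e] at h
  have h1 := abs_nonneg ((g ((n + (j : ℕ) + 1 : ℕ) : ZMod (2 * N))).1 -
    (g ((n + (j : ℕ) : ℕ) : ZMod (2 * N))).1)
  have h2 := abs_nonneg ((g ((n + (j : ℕ) + 1 : ℕ) : ZMod (2 * N))).2 -
    (g ((n + (j : ℕ) : ℕ) : ZMod (2 * N))).2)
  unfold bx stp
  rw [Finset.mem_coe, Finset.mem_product, Finset.mem_Icc, Finset.mem_Icc, ← abs_le, ← abs_le]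
  simp only [Prod.fst_sub, Prod.snd_sub]
  constructor <;> omega

/-- a loop is determined by two arms and three differences -/
theorem loop_det {N n m : ℕ} (hN : 1 ≤ N) (hnm : 2 * N ≤ n + m + 4) {g g' : ZMod (2 * N) → ℤ × ℤ}
    (h1 : ∀ i : ℕ, i ≤ n → g (i : ℕ) = g' (i : ℕ)) (h2 : ∀ i : ℕ, i ≤ m → g (-(i : ℕ)) = g' (-(i : ℕ)))
    (h3 : stp g n = stp g' n) : g = g' := by
  have : NeZero (2 * N) := ⟨by omega⟩
  have k1 : ∀ j : ℕ, j ≤ 3 → g ((n + j : ℕ) : ZMod (2 * N)) = g' ((n + j : ℕ) : ZMod (2 * N)) := by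
    intro j
    induction j with
    | zero => intro _; exact h1 n le_rfl
    | succ j ih =>
      intro hj
      have h4 := ih (by omega)
      have h5 := congrFun h3 ⟨j, by omega⟩
      unfold stp at h5
      simp only at h5
      rw [h4] at h5
      exact sub_left_inj.1 h5
  funext i
  have hi := ZMod.val_lt i
  by_cases c1 : i.val ≤ n
  · have h4 := h1 i.val c1
    rwa [ZMod.natCast_zmod_val] at h4
  by_cases c2 : i.val ≤ n + 3
  · have h4 := k1 (i.val - n) (by omega)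
    rw [show n + (i.val - n) = i.val by omega, ZMod.natCast_zmod_val] at h4
    exact h4
  · have h4 := h2 (2 * N - i.val) (by omega)
    have e : -((2 * N - i.val : ℕ) : ZMod (2 * N)) = i := by
      rw [Nat.cast_sub hi.le, ZMod.natCast_zmod_val, ZMod.natCast_self]
      ring
    rwa [e] at h4


/-! ### the lower bounds -/

/-- the upper half plane without the negative axis -/
def Hp : Set (ℤ × ℤ) := {p | 0 < p.2 ∨ (p.2 = 0 ∧ 0 ≤ p.1)}

theorem neg_mem_Hp {p : ℤ × ℤ} (h : lw p) : -p ∈ Hp := by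
  unfold lw at h
  show 0 < (-p).2 ∨ ((-p).2 = 0 ∧ 0 ≤ (-p).1)
  simp only [Prod.fst_neg, Prod.snd_neg]
  omega

theorem dirs_card : (Set.pi Set.univ (fun _ : Fin 3 => (bx : Set (ℤ × ℤ)))).ncard = 9 ^ 3 := by
  rw [ncard_pi _ (fun _ => Finset.finite_toSet _)]
  simp only [Set.ncard_coe_finset, Finset.prod_const, Finset.card_univ, Fintype.card_fin]
  rfl

/-- walks in the half plane -/
theorem half_card {n N : ℕ} (h1 : n + 1 ≤ 2 * N) (h2 : 2 * N ≤ n + 4) :
    (tl N).ncard ≤ {w | w ∈ walks n ∧ ∀ i, w i ∈ Hp}.ncard * 9 ^ 3 := by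
  have hDf : (Set.pi Set.univ (fun _ : Fin 3 => (bx : Set (ℤ × ℤ)))).Finite :=
    Set.Finite.pi fun _ => Finset.finite_toSet _
  have h3 : (tl N).ncard ≤ ({w | w ∈ walks n ∧ ∀ i, w i ∈ Hp} ×ˢ
      (Set.pi Set.univ (fun _ : Fin 3 => (bx : Set (ℤ × ℤ))))).ncard := by
    refine Set.ncard_le_ncard_of_injOn (fun g => ((fun i : Fin (n + 1) => -g ((i : ℕ) : ZMod (2 * N))),
      stp g n)) ?_ ?_ ?_
    · intro g hg
      exact ⟨⟨arm_walk (loop_negv hg.1) (by omega), fun i => neg_mem_Hp (hg.2 _)⟩, stp_mem hg.1 _⟩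
    · intro g hg g' hg' he
      simp only [Prod.mk.injEq] at he
      obtain ⟨e1, e2⟩ := he
      refine loop_det (m := 0) (by omega) (by omega) (fun i hi => ?_) (fun i hi => ?_) e2
      · have := congrFun e1 ⟨i, by omega⟩
        simpa using this
      · have hi0 : i = 0 := by omega
        rw [hi0, Nat.cast_zero, neg_zero, hg.1.1, hg'.1.1]
    · exact ((walks_finite n).subset fun w hw => hw.1).prod hDf
  rw [Set.ncard_prod, dirs_card] at h3
  exact h3

/-- polygons in the half plane -/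
theorem poly_card {N : ℕ} (hN : 1 ≤ N) :
    (tl N).ncard ≤ {w | w ∈ walks (2 * N - 1) ∧ (∀ i, w i ∈ Hp) ∧
      |(w (Fin.last _)).1| + |(w (Fin.last _)).2| = 1}.ncard := by
  have : NeZero (2 * N) := ⟨by omega⟩
  refine Set.ncard_le_ncard_of_injOn
    (fun g => (fun i : Fin (2 * N - 1 + 1) => -g ((i : ℕ) : ZMod (2 * N)))) ?_ ?_ ?_
  · intro g hg
    refine ⟨arm_walk (loop_negv hg.1) (by omega), fun i => neg_mem_Hp (hg.2 _), ?_⟩
    have h1 := hg.1.2.2 (-1)
    have e : ((2 * N - 1 : ℕ) : ZMod (2 * N)) = -1 := by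
      rw [Nat.cast_sub (by omega), ZMod.natCast_self]
      simp
    simp only [Fin.val_last, e, Prod.fst_neg, Prod.snd_neg, abs_neg]
    simp only [neg_add_cancel, hg.1.1] at h1
    simpa using h1
  · intro g hg g' hg' he
    funext i
    have h1 := congrFun he ⟨i.val, by have := ZMod.val_lt i; omega⟩
    simpa using h1
  · exact (walks_finite _).subset fun w hw => hw.1

open Pool.Agent.H976R2 Pool.Agent.H739K
open scoped Classical

lemma inD_iff {D : Set (ℤ × ℤ)} {n : ℕ} {w : List Dir} (hw : w ∈ SW n) :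
    inD D w ↔ ∀ i, pth n w i ∈ D := by
  obtain ⟨hl, _⟩ := mem_SW.mp hw
  unfold inD
  rw [hl]
  constructor
  · intro h i
    exact h i (by omega)
  · intro h k hk
    exact h ⟨k, by omega⟩

lemma ncard_eq (n : ℕ) (P : (Fin (n + 1) → ℤ × ℤ) → Prop) (Q : List Dir → Prop)
    (h : ∀ w ∈ SW n, (P (pth n w) ↔ Q w)) :
    {ω | Pool.Agent.H976R2.IsSAW n ω ∧ P ω}.ncard = ((SW n).filter Q).card := by
  rw [ncard_saw_filter n P]
  exact congrArg Finset.card (Finset.filter_congr h)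

lemma log_le_of_le_sq {a b : ℕ} (ha : 1 ≤ a) (h : a ≤ b * b) : Real.log (a : ℝ) ≤ 2 * Real.log b := by
  have ha0 : (0 : ℝ) < a := by exact_mod_cast ha
  have hb0 : (0 : ℝ) < b := by
    have : 0 < b := by
      rcases Nat.eq_zero_or_pos b with h0 | h0
      · rw [h0] at h; omega
      · exact h0
    exact_mod_cast this
  have h1 : (a : ℝ) ≤ b * b := by exact_mod_cast h
  calc Real.log (a : ℝ) ≤ Real.log (b * b) := Real.log_le_log ha0 h1
    _ = 2 * Real.log b := by rw [Real.log_mul hb0.ne' hb0.ne']; ring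

/-- **many walks in the half plane** -/
theorem half_low : ∃ K : ℝ, 0 ≤ K ∧ ∀ n : ℕ, 2 ≤ n →
    H981.mu ^ n * Real.exp (-(K * Real.log n ^ 2)) ≤
      (((SW n).filter (fun w => inD Hp w)).card : ℝ) := by
  obtain ⟨K0, hK0, h0⟩ := Pool.Agent.TH508.LT.sq_PP2
  have hmu := H981.mu_pos
  have hmu1 := H981.one_le_mu
  have hl2 : 0 < Real.log 2 := Real.log_pos (by norm_num)
  refine ⟨4 * K0 + 8 / Real.log 2 ^ 2, by positivity, fun n hn => ?_⟩
  obtain ⟨N, hN⟩ : ∃ N, N = (n + 4) / 2 := ⟨_, rfl⟩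
  have h1 := half_card (n := n) (N := N) (by omega) (by omega)
  have h2 : {w | w ∈ walks n ∧ ∀ i, w i ∈ Hp}.ncard =
      ((SW n).filter (fun w => inD Hp w)).card := by
    have e : {w | w ∈ walks n ∧ ∀ i, w i ∈ Hp} = {ω | Pool.Agent.H976R2.IsSAW n ω ∧ ∀ i, ω i ∈ Hp} := by
      ext w
      rw [walks_eq]
      rfl
    rw [e]
    exact ncard_eq n (fun ω => ∀ i, ω i ∈ Hp) (fun w => inD Hp w) (fun w hw => (inD_iff hw).symm)
  rw [h2] at h1
  have h3 : ((tl N).ncard : ℝ) ≤ (((SW n).filter (fun w => inD Hp w)).card : ℝ) * 9 ^ 3 := by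
    exact_mod_cast h1
  have h4 := card_tl (N := N) (by omega)
  have h5 := (h0 N (by omega)).1
  have hlN : Real.log (N : ℝ) ≤ 2 * Real.log n := log_le_of_le_sq (by omega) (by nlinarith [show N ≤ n + 2 by omega])
  have hlN0 : 0 ≤ Real.log (N : ℝ) := Real.log_natCast_nonneg N
  have hln := log_two_le hn
  have hmuN : H981.mu ^ n ≤ H981.mu ^ (2 * N) := pow_le_pow_right₀ hmu1 (by omega)
  have hx : Real.log 2 ^ 2 ≤ Real.log (n : ℝ) ^ 2 := pow_le_pow_left₀ hl2.le hln 2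
  have h6 : (9 : ℝ) ^ 3 * Real.exp (-((4 * K0 + 8 / Real.log 2 ^ 2) * Real.log n ^ 2)) ≤
      Real.exp (-(K0 * Real.log N ^ 2)) := by
    have h7 : (9 : ℝ) ^ 3 ≤ Real.exp 8 := by
      calc (9 : ℝ) ^ 3 ≤ (2.7 : ℝ) ^ 8 := by norm_num
        _ ≤ (Real.exp 1) ^ 8 := by
            apply pow_le_pow_left₀ (by norm_num)
            have := Real.exp_one_gt_d9
            linarith
        _ = Real.exp 8 := by rw [← Real.exp_nat_mul]; norm_num
    calc _ ≤ Real.exp 8 * Real.exp (-((4 * K0 + 8 / Real.log 2 ^ 2) * Real.log n ^ 2)) := by gcongr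
      _ = Real.exp (8 - (4 * K0 + 8 / Real.log 2 ^ 2) * Real.log n ^ 2) := by
          rw [← Real.exp_add]; congr 1
      _ ≤ _ := by
          apply Real.exp_le_exp.2
          have h8 : 8 ≤ 8 / Real.log 2 ^ 2 * Real.log n ^ 2 := by
            rw [div_mul_eq_mul_div, le_div_iff₀ (by positivity)]
            nlinarith
          have h9 : Real.log (N : ℝ) ^ 2 ≤ 4 * Real.log n ^ 2 := by nlinarith
          nlinarith
  have h10 : 9 ^ 3 * (H981.mu ^ n * Real.exp (-((4 * K0 + 8 / Real.log 2 ^ 2) * Real.log n ^ 2))) ≤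
      9 ^ 3 * (((SW n).filter (fun w => inD Hp w)).card : ℝ) := by
    calc _ = H981.mu ^ n * (9 ^ 3 * Real.exp (-((4 * K0 + 8 / Real.log 2 ^ 2) * Real.log n ^ 2))) := by
          ring
      _ ≤ H981.mu ^ (2 * N) * Real.exp (-(K0 * Real.log N ^ 2)) := by gcongr
      _ ≤ H981.PP N := h5
      _ ≤ 2 * H981.PP N := by
          have : 0 ≤ H981.PP N := le_trans (by positivity) h5
          linarith
      _ ≤ _ := h4
      _ ≤ _ := h3
      _ = _ := by ring
  exact le_of_mul_le_mul_left h10 (by norm_num)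

/-- **many polygons in the half plane** -/
theorem poly_low : ∃ K : ℝ, 0 ≤ K ∧ ∀ n : ℕ, 3 ≤ n → n % 2 = 1 →
    H981.mu ^ n * Real.exp (-(K * Real.log n ^ 2)) ≤
      (((SW n).filter (fun w => inD Hp w ∧ |wX w| + |wY w| = 1)).card : ℝ) := by
  obtain ⟨K0, hK0, h0⟩ := Pool.Agent.TH508.LT.sq_PP2
  have hmu := H981.mu_pos
  have hmu1 := H981.one_le_mu
  refine ⟨K0, hK0, fun n hn hodd => ?_⟩
  obtain ⟨N, hN⟩ : ∃ N, n = 2 * N - 1 ∧ 2 ≤ N := ⟨(n + 1) / 2, by omega, by omega⟩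
  obtain ⟨rfl, hN2⟩ := hN
  have h1 := poly_card (N := N) (by omega)
  have h2 : {w | w ∈ walks (2 * N - 1) ∧ (∀ i, w i ∈ Hp) ∧
      |(w (Fin.last _)).1| + |(w (Fin.last _)).2| = 1}.ncard =
      ((SW (2 * N - 1)).filter (fun w => inD Hp w ∧ |wX w| + |wY w| = 1)).card := by
    have e : {w | w ∈ walks (2 * N - 1) ∧ (∀ i, w i ∈ Hp) ∧
        |(w (Fin.last _)).1| + |(w (Fin.last _)).2| = 1} =
        {ω | Pool.Agent.H976R2.IsSAW (2 * N - 1) ω ∧ ((∀ i, ω i ∈ Hp) ∧
          |(ω (Fin.last _)).1| + |(ω (Fin.last _)).2| = 1)} := by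
      ext w
      rw [walks_eq]
      rfl
    rw [e]
    refine (ncard_eq (2 * N - 1) (fun ω => (∀ i, ω i ∈ Hp) ∧
          |(ω (Fin.last _)).1| + |(ω (Fin.last _)).2| = 1)
        (fun w => inD Hp w ∧ |wX w| + |wY w| = 1)
        (fun w hw => by rw [inD_iff hw, pth_last hw])).trans ?_
    congr
  rw [h2] at h1
  have h3 : ((tl N).ncard : ℝ) ≤ (((SW (2 * N - 1)).filter (fun w => inD Hp w ∧
      |wX w| + |wY w| = 1)).card : ℝ) := by exact_mod_cast h1
  have h4 := card_tl (N := N) (by omega)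
  have h5 := (h0 N (by omega)).1
  have hlN : Real.log (N : ℝ) ≤ Real.log ((2 * N - 1 : ℕ) : ℝ) := by
    apply Real.log_le_log
    · exact_mod_cast (by omega : 0 < N)
    · exact_mod_cast (by omega : N ≤ 2 * N - 1)
  have hlN0 : 0 ≤ Real.log (N : ℝ) := Real.log_natCast_nonneg N
  have hmuN : H981.mu ^ (2 * N - 1) ≤ H981.mu ^ (2 * N) := pow_le_pow_right₀ hmu1 (by omega)
  have hsq : Real.log (N : ℝ) ^ 2 ≤ Real.log ((2 * N - 1 : ℕ) : ℝ) ^ 2 := pow_le_pow_left₀ hlN0 hlN 2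
  calc H981.mu ^ (2 * N - 1) * Real.exp (-(K0 * Real.log ((2 * N - 1 : ℕ) : ℝ) ^ 2))
      ≤ H981.mu ^ (2 * N) * Real.exp (-(K0 * Real.log N ^ 2)) := by
        apply mul_le_mul hmuN _ (Real.exp_pos _).le (by positivity)
        apply Real.exp_le_exp.2
        nlinarith
    _ ≤ H981.PP N := h5
    _ ≤ 2 * H981.PP N := by
        have : 0 ≤ H981.PP N := le_trans (by positivity) h5
        linarith
    _ ≤ _ := h4
    _ ≤ _ := h3

end Pool.Agent.X44.GR.P
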