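import Pool.Agent.X44.GR.V2

/-!
# Polygons in a domain
-/

set_option autoImplicit false
set_option linter.unusedVariables false

namespace Pool.Agent.X44.GR.V3

open Finset Pool.Agent.H976R2 Pool.Agent.H739K Pool.Agent.X44.GR
open scoped Classical
open Pool.Agent.H976R2.Lip (PP dv)
open Pool.Agent.X44.GR.V (walks site path walks_finite walks_image inj_filter path_lip ends_lip)

/-- the `n`-step self-avoiding walks in `D` from the origin to one of its neighbours -/
def polys (D : Set (ℤ × ℤ)) (n : ℕ) : Set (Fin (n + 1) → ℤ × ℤ) :=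
  {w | w ∈ walks D n ∧ |(w (Fin.last n)).1| + |(w (Fin.last n)).2| = 1}

/-- the mean of `g` under the uniform law on the polygons -/
noncomputable def mean (D : Set (ℤ × ℤ)) (n : ℕ) (g : (Fin (n + 1) → ℤ × ℤ) → ℝ) : ℝ :=
  (∑ᶠ w ∈ polys D n, g w) / ((polys D n).ncard : ℝ)

/-- the indicator of the words which end at a neighbour of the origin -/
noncomputable def cl (w : List Dir) : ℝ := if |wX w| + |wY w| = 1 then 1 else 0

lemma cl_ins {w : List Dir} {i : ℕ} (e : Dir) (hi : i < w.length) : cl (ins w i e) = cl w := by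
  unfold cl
  rw [wX_ins e hi, wY_ins e hi]

lemma cl_bounds (w : List Dir) : 0 ≤ cl w ∧ cl w ≤ 1 := by
  unfold cl
  split_ifs <;> norm_num

theorem polys_image (D : Set (ℤ × ℤ)) (n : ℕ) :
    polys D n = pth n '' (((SW n).filter (fun w => inD D w ∧ |wX w| + |wY w| = 1) :
      Finset (List Dir)) : Set (List Dir)) := by
  unfold polys
  rw [walks_image]
  ext ω
  constructor
  · rintro ⟨⟨w, hw, rfl⟩, h2⟩
    rw [Finset.mem_coe, Finset.mem_filter] at hw
    refine ⟨w, ?_, rfl⟩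
    rw [Finset.mem_coe, Finset.mem_filter]
    rw [pth_last hw.1] at h2
    exact ⟨hw.1, hw.2, h2⟩
  · rintro ⟨w, hw, rfl⟩
    rw [Finset.mem_coe, Finset.mem_filter] at hw
    refine ⟨⟨w, ?_, rfl⟩, ?_⟩
    · rw [Finset.mem_coe, Finset.mem_filter]
      exact ⟨hw.1, hw.2.1⟩
    · rw [pth_last hw.1]
      exact hw.2.2

theorem inj_filter' (D : Set (ℤ × ℤ)) (n : ℕ) :
    Set.InjOn (pth n) (((SW n).filter (fun w => inD D w ∧ |wX w| + |wY w| = 1) :
      Finset (List Dir)) : Set (List Dir)) :=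
  (pth_injOn n).mono (fun w hw => by
    rw [Finset.mem_coe, Finset.mem_filter] at hw
    exact hw.1)

theorem sum_polys (D : Set (ℤ × ℤ)) (n : ℕ) (g : (Fin (n + 1) → ℤ × ℤ) → ℝ) (f : List Dir → ℝ)
    (h : ∀ w ∈ SW n, f w = g (pth n w)) :
    ∑ᶠ w ∈ polys D n, g w =
      mom (fw ({()} : Finset Unit) (fun _ => D) (fun _ w => cl w * f w)) n := by
  rw [polys_image, finsum_mem_image (inj_filter' D n), finsum_mem_coe_finset, sum_filter]
  unfold mom fw
  refine sum_congr rfl (fun w hw => ?_)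
  rw [sum_singleton]
  simp only [h w hw, cl]
  by_cases h1 : inD D w <;> by_cases h2 : |wX w| + |wY w| = 1 <;> simp [h1, h2]

theorem card_polys (D : Set (ℤ × ℤ)) (n : ℕ) :
    ((polys D n).ncard : ℝ) = mom (fw ({()} : Finset Unit) (fun _ => D) (fun _ w => cl w)) n := by
  rw [polys_image, (inj_filter' D n).ncard_image, Set.ncard_coe_finset]
  unfold mom fw
  simp only [sum_singleton]
  rw [card_filter]
  push_cast
  refine sum_congr rfl (fun w hw => ?_)
  unfold cl
  by_cases h1 : inD D w <;> by_cases h2 : |wX w| + |wY w| = 1 <;> simp [h1, h2]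

/-- the number of polygons is not small at the lengths between `n / 2` and `2 n` -/
def Low (A : ℝ) (s : ℕ) (μ : ℝ) (D : Set (ℤ × ℤ)) (n : ℕ) : Prop :=
  ∀ m : ℕ, n ≤ 2 * m → m ≤ 2 * n → m % 2 = n % 2 →
    μ ^ m * Real.exp (-(A * Real.log m ^ s)) ≤ ((polys D m).ncard : ℝ)

theorem fam_of_low {A : ℝ} (hA : 0 ≤ A) {s : ℕ} {D : Set (ℤ × ℤ)} {n : ℕ}
    (h : Low A s H981.mu D n) :
    Fam A 0 s ({()} : Finset Unit) (fun _ => D) (fun _ w => cl w) n := by
  refine ⟨fun _ _ w => (cl_bounds w).1,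
    fun m g1 g2 g3 => ⟨fun _ => 1, fun _ _ w _ => (cl_bounds w).2, ?_⟩,
    fun m g1 g2 g3 θ hθ w hw => ?_, fun m g1 g2 g3 => ?_⟩
  · rw [sum_singleton]
    apply Real.one_le_exp
    have := Real.log_natCast_nonneg m
    positivity
  · rw [zero_mul]
    refine le_of_eq (sum_eq_zero (fun p hp => ?_))
    have hp' : (p.1, p.2) ∈ adm w := hp
    have hi := (H976R2.mem_adm.mp hp').1
    rw [cl_ins p.2 hi, sub_self, abs_zero]
  · rw [← card_polys]
    exact h m g1 g2 g3

/-- merging for functionals of polygons in a domain -/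
theorem merge_dom (A : ℝ) (hA : 0 ≤ A) (s : ℕ) (hs : 2 ≤ s) : ∃ K : ℝ, 0 ≤ K ∧
    ∀ (L1 : ℝ), 0 ≤ L1 → ∀ (D : Set (ℤ × ℤ)) (n : ℕ), 3 ≤ n → Low A s H981.mu D n →
    ∀ g : (m : ℕ) → (Fin (m + 1) → ℤ × ℤ) → ℝ, (∀ m w, 0 ≤ g m w ∧ g m w ≤ 1) →
    (∀ m : ℕ, n ≤ 2 * m → m ≤ 2 * n → m % 2 = n % 2 → ∀ w ∈ SW m,
      ∑ p ∈ adm w, |g (m + 2) (pth (m + 2) (ins w p.1 p.2)) - g m (pth m w)| ≤ L1) →
    |mean D (n + 2) (g (n + 2)) - mean D n (g n)| ≤
      K * √((Real.log n ^ s + L1) * Real.log n ^ s / n) := by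
  obtain ⟨K, hK, h⟩ := merge_fam A hA s hs
  refine ⟨K, hK, fun L1 hL1 D n hn hlow g hg hlip => ?_⟩
  have h1 := h 0 L1 le_rfl hL1 Unit {()} (fun _ => D) (fun _ w => cl w)
    (fun w => g w.length (pth w.length w)) n hn (fam_of_low hA hlow) (fun w => hg _ _)
    (fun m g1 g2 g3 w hw => by
      refine le_trans (le_of_eq ?_) (hlip m g1 g2 g3 w hw)
      have hl := (mem_SW.mp hw).1
      refine sum_congr rfl (fun p hp => ?_)
      have hp' : (p.1, p.2) ∈ adm w := hp
      have hi := (H976R2.mem_adm.mp hp').1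
      have hl2 := Lip.ins_length w p.1 p.2 hi
      subst hl
      rw [hl2])
  have e : ∀ m, mean D m (g m) =
      mom (fw ({()} : Finset Unit) (fun _ => D) (fun θ w => cl w * g w.length (pth w.length w))) m /
        mom (fw ({()} : Finset Unit) (fun _ => D) (fun _ w => cl w)) m := by
    intro m
    unfold mean
    rw [card_polys]
    congr 1
    exact sum_polys D m (g m) (fun w => g w.length (pth w.length w)) (fun w hw => by
      have hl := (mem_SW.mp hw).1
      subst hl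
      rfl)
  rw [e, e, zero_add] at *
  exact h1

/-- the merging statement for the polygons in the domain `D` at the length `n` -/
structure Merging (K : ℝ) (s : ℕ) (μ : ℝ) (D : Set (ℤ × ℤ)) (n : ℕ) : Prop where
  ratio : |((polys D (n + 2)).ncard : ℝ) / ((polys D n).ncard : ℝ) - μ ^ 2| ≤
    K * (Real.log n ^ s / √n)
  ends : ∀ (k : ℕ) (G : (Fin (k + 1) → ℤ × ℤ) → (Fin (k + 1) → ℤ × ℤ) → ℝ),
    (∀ a b, 0 ≤ G a b ∧ G a b ≤ 1) →
    |mean D (n + 2) (fun w => G (fun i => site w i) (fun i => site w (n + 2 - i))) -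
      mean D n (fun w => G (fun i => site w i) (fun i => site w (n - i)))| ≤
      K * √((Real.log n ^ s + k) * Real.log n ^ s / n)
  path : ∀ (R : ℝ) (F : (ℝ → ℝ × ℝ) → ℝ), 0 < R → (∀ x, 0 ≤ F x ∧ F x ≤ 1) →
    (∀ (x y : ℝ → ℝ × ℝ) (δ : ℝ), (∀ t, 0 ≤ t → t ≤ 1 → ‖x t - y t‖ ≤ δ) → |F x - F y| ≤ δ) →
    |mean D (n + 2) (fun w => F (path R w)) - mean D n (fun w => F (path R w))| ≤
      K * (Real.log n ^ s / √n + √(Real.log n ^ s / R))

theorem merging (A : ℝ) (s : ℕ) (hs : 2 ≤ s) : ∃ K : ℝ, 0 ≤ K ∧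
    ∀ (D : Set (ℤ × ℤ)) (n : ℕ), 3 ≤ n → Low A s H981.mu D n → Merging K s H981.mu D n := by
  have hA : 0 ≤ |A| := abs_nonneg A
  obtain ⟨K1, hK1, h1⟩ := main_fam |A| 0 hA le_rfl s hs
  obtain ⟨K2, hK2, h2⟩ := merge_dom |A| hA s hs
  have hmu := H981.mu_pos
  refine ⟨H981.mu ^ 2 * K1 + 3 * K2, by positivity, fun D n hn hlow' => ?_⟩
  have hlow : Low |A| s H981.mu D n := by
    intro m g1 g2 g3
    refine le_trans ?_ (hlow' m g1 g2 g3)
    apply mul_le_mul_of_nonneg_left _ (by positivity)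
    apply Real.exp_le_exp.2
    have : 0 ≤ Real.log (m : ℝ) ^ s := pow_nonneg (Real.log_natCast_nonneg m) s
    nlinarith [le_abs_self A]
  have hn' : (3 : ℝ) ≤ n := by exact_mod_cast hn
  have hnp : (0 : ℝ) < n := by linarith
  have hl1 : 1 ≤ Real.log n := RATE.one_le_log hn
  obtain ⟨l, hl⟩ : ∃ l : ℝ, l = Real.log n ^ s := ⟨_, rfl⟩
  have hls : 1 ≤ l := by rw [hl]; exact one_le_pow₀ hl1
  have hp : 0 < ((polys D n).ncard : ℝ) :=
    lt_of_lt_of_le (by positivity) (hlow n (by omega) (by omega) rfl)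
  refine ⟨?_, fun k G hG => ?_, fun R F hR hF hFl => ?_⟩
  · have h3 := h1 Unit {()} (fun _ => D) (fun _ w => cl w) n hn (fam_of_low hA hlow)
    rw [← card_polys, ← card_polys] at h3
    have e : ((polys D (n + 2)).ncard : ℝ) / ((polys D n).ncard : ℝ) - H981.mu ^ 2 =
        H981.mu ^ 2 * (((polys D (n + 2)).ncard : ℝ) / (H981.mu ^ 2 * ((polys D n).ncard : ℝ)) - 1) := by
      field_simp
    rw [e, abs_mul, abs_of_pos (show 0 < H981.mu ^ 2 by positivity)]
    calc _ ≤ H981.mu ^ 2 * (K1 * (Real.log n ^ s / √n)) := by gcongr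
      _ = H981.mu ^ 2 * K1 * (Real.log n ^ s / √n) := by ring
      _ ≤ _ := by
          apply mul_le_mul_of_nonneg_right _ (by positivity)
          linarith
  · have h3 := h2 (8 * k) (by positivity) D n hn hlow
      (fun m w => G (fun i => site w i) (fun i => site w (m - i))) (fun m w => hG _ _)
      (fun m g1 g2 g3 w hw => ends_lip hG hw)
    refine h3.trans ?_
    rw [← hl]
    have h4 : √((l + 8 * k) * l / n) ≤ 3 * √((l + k) * l / n) := by
      have e : (3 : ℝ) = √9 := by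
        rw [show (9 : ℝ) = 3 ^ 2 by norm_num, Real.sqrt_sq (by norm_num)]
      rw [e, ← Real.sqrt_mul (by norm_num)]
      apply Real.sqrt_le_sqrt
      rw [mul_div_assoc', div_le_div_iff_of_pos_right hnp]
      have hk : (0 : ℝ) ≤ k := Nat.cast_nonneg k
      have : (l + 8 * k) * l ≤ (9 * (l + k)) * l := by
        apply mul_le_mul_of_nonneg_right _ (by linarith)
        linarith
      linarith
    calc K2 * √((l + 8 * k) * l / n) ≤ K2 * (3 * √((l + k) * l / n)) := by gcongr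
      _ = 3 * K2 * √((l + k) * l / n) := by ring
      _ ≤ _ := by
          apply mul_le_mul_of_nonneg_right _ (Real.sqrt_nonneg _)
          have : 0 ≤ H981.mu ^ 2 * K1 := by positivity
          linarith
  · have h3 := h2 (8 * n / R) (by positivity) D n hn hlow (fun m w => F (path R w))
      (fun m w => hF _) (fun m g1 g2 g3 w hw => by
        refine (path_lip hR hFl hw).trans ?_
        apply div_le_div_of_nonneg_right _ hR.le
        have : (m : ℝ) ≤ 2 * n := by exact_mod_cast g2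
        linarith)
    refine h3.trans ?_
    rw [← hl]
    have h4 : √((l + 8 * n / R) * l / n) ≤ 3 * (l / √n + √(l / R)) := by
      have e : (l + 8 * n / R) * l / n = l ^ 2 / n + 8 * (l / R) := by field_simp
      rw [e]
      have h5 : 0 ≤ l / √n := by positivity
      have h6 : (l / √n) ^ 2 = l ^ 2 / n := by rw [div_pow, Real.sq_sqrt hnp.le]
      have h7 : √(l / R) ^ 2 = l / R := Real.sq_sqrt (by positivity)
      have h8 : 0 ≤ √(l / R) := Real.sqrt_nonneg _
      apply Real.sqrt_le_iff.2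
      constructor
      · positivity
      · nlinarith
    calc K2 * √((l + 8 * n / R) * l / n) ≤ K2 * (3 * (l / √n + √(l / R))) := by gcongr
      _ = 3 * K2 * (l / √n + √(l / R)) := by ring
      _ ≤ _ := by
          apply mul_le_mul_of_nonneg_right _ (by positivity)
          have : 0 ≤ H981.mu ^ 2 * K1 := by positivity
          linarith

/-- the closed half plane, with half of its boundary line -/
theorem low_half : ∃ A : ℝ, 0 ≤ A ∧ ∀ D : Set (ℤ × ℤ), P.Hp ⊆ D → ∀ n : ℕ, 5 ≤ n → n % 2 = 1 →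
    Low A 2 H981.mu D n := by
  obtain ⟨K, hK, h⟩ := P.poly_low
  refine ⟨K, hK, fun D hD n hn hodd => ?_⟩
  intro m g1 g2 g3
  refine (h m (by omega) (by omega)).trans ?_
  rw [polys_image, (inj_filter' D m).ncard_image, Set.ncard_coe_finset]
  have hsub : (SW m).filter (fun w => inD P.Hp w ∧ |wX w| + |wY w| = 1) ⊆
      (SW m).filter (fun w => inD D w ∧ |wX w| + |wY w| = 1) := by
    intro w hw
    rw [mem_filter] at hw ⊢
    exact ⟨hw.1, fun k hk => hD (hw.2.1 k hk), hw.2.2⟩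
  exact_mod_cast card_le_card hsub

end Pool.Agent.X44.GR.V3
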