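import Pool.Agent.X44.GR.S7
import Pool.Agent.X44.GR.V3
import Pool.Agent.H739K.CONV
import Pool.Agent.H739K.AREA
import Pool.Agent.H739K.HOR

/-!
# Polygons in a domain as loops
-/

set_option autoImplicit false
set_option linter.unusedVariables false

namespace Pool.Agent.X44.GR.PL

open Finset Pool.Agent.H976R2 Pool.Agent.H924P Pool.Agent.X44.GR Pool.Agent.X44.GR.S
open Pool.Agent.H739K (KP lp)
open scoped Classical
open Pool.Agent.H976R2.Lip (PP dv PP_inj PP_ins_le PP_ins_gt)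

/-- the indicator of the neighbours of the origin -/
noncomputable def nb (x : ℤ × ℤ) : ℝ := if |x.1| + |x.2| = 1 then 1 else 0

/-- the loops with `m` steps in `D` -/
def loops (D : Set (ℤ × ℤ)) (m : ℕ) : Set (ZMod m → ℤ × ℤ) :=
  {f | f 0 = 0 ∧ Function.Injective f ∧
    (∀ i : ZMod m, |(f (i + 1)).1 - (f i).1| + |(f (i + 1)).2 - (f i).2| = 1) ∧ ∀ i, f i ∈ D}

lemma sq_iff' (w : List Dir) : sq w = 1 ↔ |wX w| + |wY w| = 1 :=
  H739K.CONV.sq_iff _ _

lemma mem_KP {n : ℕ} {w : List Dir} : w ∈ KP n ↔ w ∈ SW n ∧ |wX w| + |wY w| = 1 := by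
  unfold KP
  rw [mem_filter, sq_iff']

lemma nb_KP {n : ℕ} {w : List Dir} (h : w ∈ KP n) : nb (wX w, wY w) = 1 := by
  unfold nb
  rw [if_pos (mem_KP.1 h).2]

lemma inD_iff {D : Set (ℤ × ℤ)} {n : ℕ} {w : List Dir} (hw : w ∈ SW n) :
    inD D w ↔ ∀ i : ZMod (n + 1), lp (n + 1) w i ∈ D := by
  have hl := (mem_SW.mp hw).1
  constructor
  · intro h i
    have hi : i.val < n + 1 := ZMod.val_lt i
    exact h i.val (by omega)
  · intro h k hk
    have h1 := h ((k : ℕ) : ZMod (n + 1))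
    have h2 : ((k : ℕ) : ZMod (n + 1)).val = k := ZMod.val_natCast_of_lt (by omega)
    unfold H739K.lp at h1
    rw [h2] at h1
    exact h1

lemma loops_image (D : Set (ℤ × ℤ)) (n : ℕ) :
    loops D (n + 1) = lp (n + 1) '' (((KP n).filter (fun w => inD D w) : Finset (List Dir)) :
      Set (List Dir)) := by
  have h1 := H739K.CONV.image_eq n
  ext f
  constructor
  · rintro ⟨h2, h3, h4, h5⟩
    have h6 : f ∈ {f | IsLoop (n + 1) f} := ⟨h2, h3, h4⟩
    rw [← h1] at h6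
    obtain ⟨w, hw, rfl⟩ := h6
    refine ⟨w, ?_, rfl⟩
    rw [mem_coe, mem_filter]
    rw [mem_coe] at hw
    exact ⟨hw, (inD_iff (mem_KP.1 hw).1).2 h5⟩
  · rintro ⟨w, hw, rfl⟩
    rw [mem_coe, mem_filter] at hw
    have h6 : lp (n + 1) w ∈ {f | IsLoop (n + 1) f} := by
      rw [← h1]
      exact ⟨w, hw.1, rfl⟩
    exact ⟨h6.1, h6.2.1, h6.2.2, (inD_iff (mem_KP.1 hw.1).1).1 hw.2⟩

lemma injOn' (D : Set (ℤ × ℤ)) (n : ℕ) : Set.InjOn (lp (n + 1))
    (((KP n).filter (fun w => inD D w) : Finset (List Dir)) : Set (List Dir)) := by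
  intro w hw w' hw' h
  rw [mem_coe, mem_filter] at hw hw'
  exact H739K.CONV.injOn n (mem_coe.2 hw.1) (mem_coe.2 hw'.1) h

/-- sums over loops -/
theorem sum_loops' (D : Set (ℤ × ℤ)) (n : ℕ) (F : (ZMod (n + 1) → ℤ × ℤ) → ℝ)
    (f : List Dir → ℝ) (h : ∀ w ∈ KP n, f w = F (lp (n + 1) w)) :
    ∑ᶠ w ∈ loops D (n + 1), F w = S.mm D (fun w => nb (wX w, wY w) * f w) n := by
  rw [loops_image, finsum_mem_image (injOn' D n), finsum_mem_coe_finset, mm_eq, sum_filter]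
  unfold ms KP
  rw [sum_filter]
  refine sum_congr rfl (fun w hw => ?_)
  by_cases h2 : sq w = 1
  · have h3 : w ∈ KP n := mem_filter.2 ⟨hw, h2⟩
    simp only
    rw [if_pos h2, nb_KP h3, one_mul, h w h3]
  · rw [if_neg h2]
    have h3 : ¬ (|wX w| + |wY w| = 1) := fun hh => h2 ((sq_iff' w).2 hh)
    unfold nb
    simp only
    rw [if_neg h3]
    simp

theorem card_loops' (D : Set (ℤ × ℤ)) (n : ℕ) :
    ((loops D (n + 1)).ncard : ℝ) = S.mm D (wgt nb (fun _ => 0)) n := by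
  rw [loops_image, (injOn' D n).ncard_image, Set.ncard_coe_finset, mm_eq, card_filter]
  push_cast
  unfold ms KP wgt
  rw [sum_filter]
  refine sum_congr rfl (fun w hw => ?_)
  by_cases h2 : sq w = 1
  · have h3 : w ∈ KP n := mem_filter.2 ⟨hw, h2⟩
    rw [if_pos h2, nb_KP h3, one_mul, Real.exp_zero]
  · rw [if_neg h2]
    have h3 : ¬ (|wX w| + |wY w| = 1) := fun hh => h2 ((sq_iff' w).2 hh)
    unfold nb
    rw [if_neg h3]
    simp

/-- sums over the loops with `2 N` steps -/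
theorem sum_loops (D : Set (ℤ × ℤ)) {N : ℕ} (hN : 1 ≤ N) (F : (ZMod (2 * N) → ℤ × ℤ) → ℝ)
    (f : List Dir → ℝ) (h : ∀ w ∈ KP (2 * N - 1), f w = F (lp (2 * N) w)) :
    ∑ᶠ w ∈ loops D (2 * N), F w = S.mm D (fun w => nb (wX w, wY w) * f w) (2 * N - 1) := by
  obtain ⟨n, rfl⟩ : ∃ n, N = n + 1 := ⟨N - 1, by omega⟩
  exact sum_loops' D (2 * n + 1) F f h

theorem card_loops (D : Set (ℤ × ℤ)) {N : ℕ} (hN : 1 ≤ N) :
    ((loops D (2 * N)).ncard : ℝ) = S.mm D (wgt nb (fun _ => 0)) (2 * N - 1) := by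
  obtain ⟨n, rfl⟩ : ∃ n, N = n + 1 := ⟨N - 1, by omega⟩
  exact card_loops' D (2 * n + 1)

/-- many polygons with perimeters between `N` and `4 N` -/
def Low (A : ℝ) (s : ℕ) (μ : ℝ) (D : Set (ℤ × ℤ)) (N : ℕ) : Prop :=
  ∀ m : ℕ, N ≤ 2 * m → m ≤ 2 * N →
    μ ^ (2 * m) * Real.exp (-(A * Real.log m ^ s)) ≤ ((loops D (2 * m)).ncard : ℝ)

theorem base_of_low {A : ℝ} (hA : 0 ≤ A) {s : ℕ} {D : Set (ℤ × ℤ)} {N : ℕ} (hN : 2 ≤ N)
    (h : Low A s H981.mu D N) : Base A s D nb (2 * N - 1) := by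
  have hmu := H981.mu_pos
  have hmu1 := H981.one_le_mu
  refine ⟨fun x => ?_, fun m g1 g2 g3 w hw => ?_, fun m g1 g2 g3 => ?_⟩
  · unfold nb; split_ifs <;> norm_num
  · have h1 : nb (wX w, wY w) ≤ 1 := by unfold nb; split_ifs <;> norm_num
    refine h1.trans (Real.one_le_exp ?_)
    have := Real.log_natCast_nonneg m
    positivity
  · obtain ⟨M, hM, hM1⟩ : ∃ M, m = 2 * M - 1 ∧ 1 ≤ M := ⟨(m + 1) / 2, by omega, by omega⟩
    subst hM
    rw [← card_loops D hM1]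
    refine le_trans ?_ (h M (by omega) (by omega))
    have h1 : H981.mu ^ (2 * M - 1) ≤ H981.mu ^ (2 * M) := pow_le_pow_right₀ hmu1 (by omega)
    have h2 : Real.log (M : ℝ) ^ s ≤ Real.log ((2 * M - 1 : ℕ) : ℝ) ^ s := by
      apply pow_le_pow_left₀ (Real.log_natCast_nonneg M)
      apply Real.log_le_log (by exact_mod_cast hM1)
      exact_mod_cast (show M ≤ 2 * M - 1 by omega)
    have h3 : Real.exp (-(A * Real.log ((2 * M - 1 : ℕ) : ℝ) ^ s)) ≤
        Real.exp (-(A * Real.log (M : ℝ) ^ s)) := by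
      apply Real.exp_le_exp.2
      have := mul_le_mul_of_nonneg_left h2 hA
      linarith
    exact mul_le_mul h1 h3 (Real.exp_pos _).le (by positivity)

/-- the rate in terms of half of the perimeter -/
lemma rate_le {s N : ℕ} (hN : 2 ≤ N) :
    Real.log ((2 * N - 1 : ℕ) : ℝ) ^ s / √((2 * N - 1 : ℕ) : ℝ) ≤ 2 ^ s * (Real.log N ^ s / √N) := by
  have hN' : (2 : ℝ) ≤ N := by exact_mod_cast hN
  have h1 : Real.log ((2 * N - 1 : ℕ) : ℝ) ≤ 2 * Real.log N := by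
    have e : 2 * Real.log (N : ℝ) = Real.log ((N : ℝ) ^ 2) := by rw [Real.log_pow]; push_cast; ring
    rw [e]
    apply Real.log_le_log
    · exact_mod_cast (show 0 < 2 * N - 1 by omega)
    · exact_mod_cast (show 2 * N - 1 ≤ N ^ 2 by
        have : 2 * N ≤ N * N := Nat.mul_le_mul_right N hN
        rw [pow_two]; omega)
  have h2 : √(N : ℝ) ≤ √((2 * N - 1 : ℕ) : ℝ) := by
    apply Real.sqrt_le_sqrt
    exact_mod_cast (show N ≤ 2 * N - 1 by omega)
  have h3 : Real.log ((2 * N - 1 : ℕ) : ℝ) ^ s ≤ 2 ^ s * Real.log N ^ s := by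
    rw [← mul_pow]
    exact pow_le_pow_left₀ (Real.log_natCast_nonneg _) h1 s
  have h4 : 0 < √(N : ℝ) := Real.sqrt_pos.2 (by linarith)
  rw [mul_div_assoc']
  have h5 : 0 ≤ Real.log (N : ℝ) := Real.log_natCast_nonneg N
  exact div_le_div₀ (by positivity) h3 h4 h2

lemma rate2_le {s N : ℕ} (hN : 2 ≤ N) {L1 : ℝ} (hL1 : 0 ≤ L1) :
    √((Real.log ((2 * N - 1 : ℕ) : ℝ) ^ s + L1) * Real.log ((2 * N - 1 : ℕ) : ℝ) ^ s /
      ((2 * N - 1 : ℕ) : ℝ)) ≤ 2 ^ s * √((Real.log N ^ s + L1) * Real.log N ^ s / N) := by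
  have hN' : (2 : ℝ) ≤ N := by exact_mod_cast hN
  have h1 : Real.log ((2 * N - 1 : ℕ) : ℝ) ≤ 2 * Real.log N := by
    have e : 2 * Real.log (N : ℝ) = Real.log ((N : ℝ) ^ 2) := by rw [Real.log_pow]; push_cast; ring
    rw [e]
    apply Real.log_le_log
    · exact_mod_cast (show 0 < 2 * N - 1 by omega)
    · exact_mod_cast (show 2 * N - 1 ≤ N ^ 2 by
        have : 2 * N ≤ N * N := Nat.mul_le_mul_right N hN
        rw [pow_two]; omega)
  have h3 : Real.log ((2 * N - 1 : ℕ) : ℝ) ^ s ≤ 2 ^ s * Real.log N ^ s := by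
    rw [← mul_pow]
    exact pow_le_pow_left₀ (Real.log_natCast_nonneg _) h1 s
  have h5 : 0 ≤ Real.log (N : ℝ) ^ s := pow_nonneg (Real.log_natCast_nonneg N) s
  have h6 : 0 ≤ Real.log ((2 * N - 1 : ℕ) : ℝ) ^ s := pow_nonneg (Real.log_natCast_nonneg _) s
  have h7 : (1 : ℝ) ≤ 2 ^ s := one_le_pow₀ (by norm_num)
  have e : (2 : ℝ) ^ s = √((2 ^ s) ^ 2) := (Real.sqrt_sq (by positivity)).symm
  rw [e, ← Real.sqrt_mul (by positivity)]
  apply Real.sqrt_le_sqrt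
  rw [mul_div_assoc']
  have h8 : (Real.log ((2 * N - 1 : ℕ) : ℝ) ^ s + L1) * Real.log ((2 * N - 1 : ℕ) : ℝ) ^ s ≤
      (2 ^ s) ^ 2 * ((Real.log N ^ s + L1) * Real.log N ^ s) := by
    calc _ ≤ (2 ^ s * Real.log N ^ s + 2 ^ s * L1) * (2 ^ s * Real.log N ^ s) := by
          apply mul_le_mul _ h3 h6 (by positivity)
          nlinarith
      _ = _ := by ring
  refine div_le_div₀ (by positivity) h8 (by linarith) ?_
  exact_mod_cast (show N ≤ 2 * N - 1 by omega)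

/-- the closed half plane, with half of its boundary line -/
theorem low_half : ∃ A : ℝ, 0 ≤ A ∧ ∀ D : Set (ℤ × ℤ), P.Hp ⊆ D → ∀ N : ℕ, 3 ≤ N →
    Low A 2 H981.mu D N := by
  obtain ⟨K, hK, h⟩ := P.poly_low
  have hmu := H981.mu_pos
  have hmu1 := H981.one_le_mu
  have hlogmu : 0 ≤ Real.log H981.mu := Real.log_nonneg hmu1
  have hl2 : 0 < Real.log 2 := Real.log_pos (by norm_num)
  refine ⟨4 * K + Real.log H981.mu / Real.log 2 ^ 2, by positivity, fun D hD N hN m g1 g2 => ?_⟩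
  have hm : 2 ≤ m := by omega
  have h1 := h (2 * m - 1) (by omega) (by omega)
  have h2 : (((SW (2 * m - 1)).filter (fun w => inD P.Hp w ∧ |wX w| + |wY w| = 1)).card : ℝ) ≤
      ((loops D (2 * m)).ncard : ℝ) := by
    obtain ⟨M, rfl⟩ : ∃ M, m = M + 1 := ⟨m - 1, by omega⟩
    have h3 : ((loops D (2 * (M + 1))).ncard) =
        ((KP (2 * M + 1)).filter (fun w => inD D w)).card := by
      have h4 := loops_image D (2 * M + 1)
      have h5 : loops D (2 * (M + 1)) = loops D (2 * M + 1 + 1) := rfl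
      rw [h5, h4, (injOn' D (2 * M + 1)).ncard_image, Set.ncard_coe_finset]
    rw [h3]
    have h6 : (SW (2 * (M + 1) - 1)).filter (fun w => inD P.Hp w ∧ |wX w| + |wY w| = 1) ⊆
        (KP (2 * M + 1)).filter (fun w => inD D w) := by
      intro w hw
      rw [mem_filter] at hw ⊢
      exact ⟨mem_KP.2 ⟨hw.1, hw.2.2⟩, fun k hk => hD (hw.2.1 k hk)⟩
    exact_mod_cast card_le_card h6
  refine le_trans ?_ (h1.trans h2)
  have hm' : (2 : ℝ) ≤ m := by exact_mod_cast hm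
  have h3 : Real.log ((2 * m - 1 : ℕ) : ℝ) ≤ 2 * Real.log m := by
    have e : 2 * Real.log (m : ℝ) = Real.log ((m : ℝ) ^ 2) := by rw [Real.log_pow]; push_cast; ring
    rw [e]
    apply Real.log_le_log
    · exact_mod_cast (show 0 < 2 * m - 1 by omega)
    · exact_mod_cast (show 2 * m - 1 ≤ m ^ 2 by
        have : 2 * m ≤ m * m := Nat.mul_le_mul_right m hm
        rw [pow_two]; omega)
  have h4 : Real.log ((2 * m - 1 : ℕ) : ℝ) ^ 2 ≤ 4 * Real.log m ^ 2 := by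
    have := pow_le_pow_left₀ (Real.log_natCast_nonneg _) h3 2
    nlinarith
  have h5 : Real.log 2 ^ 2 ≤ Real.log (m : ℝ) ^ 2 := by
    apply pow_le_pow_left₀ hl2.le
    exact Real.log_le_log (by norm_num) hm'
  have h6 : Real.log H981.mu ≤ Real.log H981.mu / Real.log 2 ^ 2 * Real.log m ^ 2 := by
    rw [div_mul_eq_mul_div, le_div_iff₀ (by positivity)]
    exact mul_le_mul_of_nonneg_left h5 hlogmu
  have e1 : H981.mu ^ (2 * m) = H981.mu ^ (2 * m - 1) * Real.exp (Real.log H981.mu) := by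
    rw [Real.exp_log hmu, ← pow_succ]
    congr 1
    omega
  rw [e1, mul_assoc, ← Real.exp_add]
  apply mul_le_mul_of_nonneg_left _ (by positivity)
  apply Real.exp_le_exp.2
  nlinarith

end Pool.Agent.X44.GR.PL
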