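import Pool.Agent.X44.GR.PL1

/-!
# Sizes of polygons in domains: moments and laws
-/

set_option autoImplicit false
set_option linter.unusedVariables false

namespace Pool.Agent.X44.GR.PL

open Finset Pool.Agent.H976R2 Pool.Agent.H924P Pool.Agent.X44.GR Pool.Agent.X44.GR.S
open Pool.Agent.H739K (KP lp)
open scoped Classical
open Pool.Agent.H976R2.Lip (PP dv PP_inj PP_ins_le PP_ins_gt)

/-- the mean of `g` under the uniform law on the loops with `2 N` steps in `D` -/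
noncomputable def mean (D : Set (ℤ × ℤ)) (N : ℕ) (g : (ZMod (2 * N) → ℤ × ℤ) → ℝ) : ℝ :=
  (∑ᶠ f ∈ loops D (2 * N), g f) / ((loops D (2 * N)).ncard : ℝ)

/-- the functional of the word -/
noncomputable def lift (X : (m : ℕ) → (ZMod m → ℤ × ℤ) → ℝ) (w : List Dir) : ℝ :=
  X (w.length + 1) (lp (w.length + 1) w)

lemma lift_eq {X : (m : ℕ) → (ZMod m → ℤ × ℤ) → ℝ} {m : ℕ} {w : List Dir} (hw : w ∈ SW m) :
    lift X w = X (m + 1) (lp (m + 1) w) := by
  have hl := (mem_SW.mp hw).1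
  subst hl
  rfl

lemma lift_eq' {X : (m : ℕ) → (ZMod m → ℤ × ℤ) → ℝ} {N : ℕ} (hN : 1 ≤ N) {w : List Dir}
    (hw : w ∈ KP (2 * N - 1)) : lift X w = X (2 * N) (lp (2 * N) w) := by
  obtain ⟨n, rfl⟩ : ∃ n, N = n + 1 := ⟨N - 1, by omega⟩
  exact lift_eq (mem_KP.1 hw).1

/-- the product of the powers of the sizes -/
noncomputable def prodX {k : ℕ} (X : Fin k → (m : ℕ) → (ZMod m → ℤ × ℤ) → ℝ) (q : Fin k → ℝ)
    (m : ℕ) (f : ZMod m → ℤ × ℤ) : ℝ := ∏ i, X i m f ^ q i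

/-- the mean of `g` under the law biased by the product of the powers of the sizes -/
noncomputable def bmean {k : ℕ} (D : Set (ℤ × ℤ)) (X : Fin k → (m : ℕ) → (ZMod m → ℤ × ℤ) → ℝ)
    (q : Fin k → ℝ) (N : ℕ) (g : (ZMod (2 * N) → ℤ × ℤ) → ℝ) : ℝ :=
  mean D N (fun w => prodX X q (2 * N) w * g w) / mean D N (prodX X q (2 * N))

/-- the end point of the word of a polygon -/
def Qn (x : ℤ × ℤ) : Prop := nb x ≠ 0

lemma Qn_iff {w : List Dir} : Qn (wX w, wY w) ↔ |wX w| + |wY w| = 1 := by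
  unfold Qn nb
  simp

lemma KP_of {m : ℕ} {w : List Dir} (hw : w ∈ SW m) (hq : Qn (wX w, wY w)) : w ∈ KP m :=
  mem_KP.2 ⟨hw, Qn_iff.1 hq⟩

/-- good sizes of loops -/
structure Good (L A : ℝ) (s n : ℕ) (X : (m : ℕ) → (ZMod m → ℤ × ℤ) → ℝ) : Prop where
  pos : ∀ m : ℕ, n ≤ 2 * m → ∀ w ∈ KP m, 0 < lift X w
  infl : Infl L n Qn (fun w => Real.log (lift X w))
  bd : Bd L n Qn (fun w => Real.log (lift X w))
  sz : Sz A s n Qn (fun w => Real.log (lift X w))

section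

variable {k : ℕ} {X : Fin k → (m : ℕ) → (ZMod m → ℤ × ℤ) → ℝ} {q : Fin k → ℝ}

lemma sum_prod (D : Set (ℤ × ℤ)) {N : ℕ} (hN : 1 ≤ N)
    (hX : ∀ i, ∀ w ∈ KP (2 * N - 1), 0 < lift (X i) w)
    (g : (m : ℕ) → (ZMod m → ℤ × ℤ) → ℝ) :
    ∑ᶠ w ∈ loops D (2 * N), prodX X q (2 * N) w * g (2 * N) w =
      mm D (fun w => wgt nb (fun w => ∑ i, q i * Real.log (lift (X i) w)) w * lift g w)
        (2 * N - 1) := by
  rw [sum_loops D hN (fun w => prodX X q (2 * N) w * g (2 * N) w)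
    (fun w => Real.exp (∑ i, q i * Real.log (lift (X i) w)) * lift g w) (fun w hw => ?_)]
  · congr 1
    funext w
    unfold wgt
    ring
  · unfold prodX
    rw [← prod_exp (fun i => lift (X i) w) (fun i => hX i w hw) q, lift_eq' hN hw]
    congr 1
    refine prod_congr rfl (fun i _ => ?_)
    rw [lift_eq' hN hw]

lemma sum_prod' (D : Set (ℤ × ℤ)) {N : ℕ} (hN : 1 ≤ N)
    (hX : ∀ i, ∀ w ∈ KP (2 * N - 1), 0 < lift (X i) w) :
    ∑ᶠ w ∈ loops D (2 * N), prodX X q (2 * N) w =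
      mm D (wgt nb (fun w => ∑ i, q i * Real.log (lift (X i) w))) (2 * N - 1) := by
  have h := sum_prod (q := q) D hN hX (fun _ _ => 1)
  have e : (fun w => wgt nb (fun w => ∑ i, q i * Real.log (lift (X i) w)) w * lift (fun _ _ => 1) w) =
      wgt nb (fun w => ∑ i, q i * Real.log (lift (X i) w)) := by
    funext w
    unfold lift
    rw [mul_one]
  rw [e] at h
  simp only [mul_one] at h
  exact h

end

/-- **moments and laws of the sizes of polygons in domains** -/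
theorem sizes (A L A1 P : ℝ) (hL : 0 ≤ L) (hP : 0 ≤ P) (s : ℕ) (hs : 2 ≤ s) (k : ℕ) :
    ∃ K : ℝ, 0 ≤ K ∧ ∀ (D : Set (ℤ × ℤ)) (N : ℕ), 2 ≤ N → Low A s H981.mu D N →
    ∀ (X : Fin k → (m : ℕ) → (ZMod m → ℤ × ℤ) → ℝ) (q : Fin k → ℝ),
    (∀ i, Good L A1 s (2 * N - 1) (X i)) → (∀ i, |q i| ≤ P) →
    |mean D (N + 1) (prodX X q (2 * (N + 1))) / mean D N (prodX X q (2 * N)) - 1| ≤
      K * (Real.log N ^ s / √N) ∧
    ∀ (L1 : ℝ) (F : (m : ℕ) → (ZMod m → ℤ × ℤ) → ℝ), 0 ≤ L1 → (∀ m w, 0 ≤ F m w ∧ F m w ≤ 1) →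
      Infl L1 (2 * N - 1) Qn (lift F) →
      |bmean D X q (N + 1) (F (2 * (N + 1))) - bmean D X q N (F (2 * N))| ≤
        K * √((Real.log N ^ s + L1) * Real.log N ^ s / N) := by
  obtain ⟨A', hA'⟩ : ∃ A' : ℝ, A' = |A| + k * P * |A1| := ⟨_, rfl⟩
  have hA'0 : 0 ≤ A' := by rw [hA']; positivity
  obtain ⟨L', hL'⟩ : ∃ L' : ℝ, L' = k * P * L := ⟨_, rfl⟩
  have hL'0 : 0 ≤ L' := by rw [hL']; positivity
  obtain ⟨K1, hK1, h1⟩ := momentS A' L' hA'0 hL'0 s hs
  obtain ⟨K2, hK2, h2⟩ := mergeS A' L' hA'0 hL'0 s hs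
  refine ⟨(K1 + K2) * 2 ^ s, by positivity, fun D N hN hlow X q hX hq => ?_⟩
  have hlow' : Low |A| s H981.mu D N := by
    intro m g1 g2
    refine le_trans ?_ (hlow m g1 g2)
    have hmu := H981.mu_pos
    apply mul_le_mul_of_nonneg_left _ (by positivity)
    apply Real.exp_le_exp.2
    have : 0 ≤ Real.log (m : ℝ) ^ s := pow_nonneg (Real.log_natCast_nonneg m) s
    nlinarith [le_abs_self A]
  have hB : Base A' s D nb (2 * N - 1) := (base_of_low (abs_nonneg A) hN hlow').mono (by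
    rw [hA']
    have : 0 ≤ k * P * |A1| := by positivity
    linarith)
  have hqs := sum_abs_le hq
  have hn3 : 3 ≤ 2 * N - 1 := by omega
  obtain ⟨Y, hY⟩ : ∃ Y : List Dir → ℝ, Y = fun w => ∑ i, q i * Real.log (lift (X i) w) := ⟨_, rfl⟩
  have hI : Infl L' (2 * N - 1) (fun x => nb x ≠ 0) Y := by
    rw [hY]
    refine (Infl.sum q _ (fun i => (hX i).infl)).mono ?_
    rw [hL']
    exact mul_le_mul_of_nonneg_right hqs hL
  have hBd : Bd L' (2 * N - 1) (fun x => nb x ≠ 0) Y := by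
    intro m g1 g2 g3 w hw hqq p hp
    rw [hY]
    refine (Bd.sum q _ (fun i => (hX i).bd) m g1 g2 g3 w hw hqq p hp).trans ?_
    rw [hL']
    exact mul_le_mul_of_nonneg_right hqs hL
  have hS : Sz A' s (2 * N - 1) (fun x => nb x ≠ 0) Y := by
    intro m g1 g2 g3 w hw hqq
    rw [hY]
    have hl0 : 0 ≤ Real.log (m : ℝ) ^ s := pow_nonneg (Real.log_natCast_nonneg m) s
    have hsz : ∀ i, Sz |A1| s (2 * N - 1) Qn (fun w => Real.log (lift (X i) w)) := by
      intro i m g1 g2 g3 w hw hqq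
      refine ((hX i).sz m g1 g2 g3 w hw hqq).trans ?_
      exact mul_le_mul_of_nonneg_right (le_abs_self A1) (pow_nonneg (Real.log_natCast_nonneg m) s)
    refine (Sz.sum q _ hsz m g1 g2 g3 w hw hqq).trans ?_
    apply mul_le_mul_of_nonneg_right _ hl0
    rw [hA']
    have := mul_le_mul_of_nonneg_right hqs (abs_nonneg A1)
    linarith [abs_nonneg A]
  have hpos : ∀ M : ℕ, N ≤ M → ∀ i, ∀ w ∈ KP (2 * M - 1), 0 < lift (X i) w := fun M g i =>
    (hX i).pos _ (by omega)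
  have e1 : ∀ M : ℕ, N ≤ M → ∑ᶠ w ∈ loops D (2 * M), prodX X q (2 * M) w =
      mm D (wgt nb Y) (2 * M - 1) := by
    intro M g
    rw [hY]
    exact sum_prod' D (by omega) (hpos M g)
  have hl : 0 ≤ Real.log (N : ℝ) ^ s := pow_nonneg (Real.log_natCast_nonneg N) s
  have eN : 2 * (N + 1) - 1 = 2 * N - 1 + 2 := by omega
  constructor
  · have h3 := h1 D nb Y (2 * N - 1) hn3 hB hI hBd hS
    have e : mean D (N + 1) (prodX X q (2 * (N + 1))) / mean D N (prodX X q (2 * N)) =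
        (mm D (wgt nb Y) (2 * N - 1 + 2) / mm D (wgt nb (fun _ => 0)) (2 * N - 1 + 2)) /
        (mm D (wgt nb Y) (2 * N - 1) / mm D (wgt nb (fun _ => 0)) (2 * N - 1)) := by
      unfold mean
      rw [e1 N le_rfl, e1 (N + 1) (by omega), card_loops D (by omega), card_loops D (by omega), eN]
    rw [e]
    refine h3.trans ?_
    have h4 := mul_le_mul_of_nonneg_left (rate_le (s := s) hN) hK1
    refine h4.trans ?_
    have h5 : 0 ≤ 2 ^ s * (Real.log (N : ℝ) ^ s / √N) := by positivity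
    calc K1 * (2 ^ s * (Real.log (N : ℝ) ^ s / √N)) ≤ (K1 + K2) * (2 ^ s * (Real.log (N : ℝ) ^ s / √N)) :=
          mul_le_mul_of_nonneg_right (by linarith) h5
      _ = _ := by ring
  · intro L1 F hL1 hF hFi
    have h3 := h2 D nb Y (2 * N - 1) hn3 hB hI hBd hS L1 (lift F) hL1 (fun w => hF _ _) hFi
    have hcard : ∀ M : ℕ, (0 : ℝ) < ((loops D (2 * M)).ncard : ℝ) → bmean D X q M (F (2 * M)) =
        (∑ᶠ w ∈ loops D (2 * M), prodX X q (2 * M) w * F (2 * M) w) /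
          ∑ᶠ w ∈ loops D (2 * M), prodX X q (2 * M) w := by
      intro m hm
      unfold bmean mean
      rw [div_div_div_cancel_right₀ hm.ne']
    obtain ⟨K3, hK3, hmb⟩ := mass_bounds A' hA'0 s hs
    obtain ⟨p1, p2, _⟩ := hmb D nb (2 * N - 1) hn3 hB
    rw [← eN] at p2
    rw [← card_loops D (by omega)] at p1 p2
    rw [hcard N p1, hcard (N + 1) p2, e1 N le_rfl, e1 (N + 1) (by omega),
      sum_prod D (by omega) (hpos N le_rfl) F,
      sum_prod D (by omega) (hpos (N + 1) (by omega)) F, ← hY, eN]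
    refine h3.trans ?_
    have h4 := mul_le_mul_of_nonneg_left (rate2_le (s := s) hN hL1) hK2
    refine h4.trans ?_
    have h5 : 0 ≤ 2 ^ s * √((Real.log (N : ℝ) ^ s + L1) * Real.log N ^ s / N) := by positivity
    calc K2 * (2 ^ s * √((Real.log (N : ℝ) ^ s + L1) * Real.log N ^ s / N)) ≤
          (K1 + K2) * (2 ^ s * √((Real.log (N : ℝ) ^ s + L1) * Real.log N ^ s / N)) :=
          mul_le_mul_of_nonneg_right (by linarith) h5
      _ = _ := by ring

/-! ### the sizes defined by maxima over pairs -/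

/-- the maximum of `h` over the pairs of sites -/
noncomputable def pairmax (h : ℤ × ℤ → ℤ × ℤ → ℝ) {m : ℕ} (f : ZMod m → ℤ × ℤ) : ℝ :=
  ⨆ x : ZMod m × ZMod m, h (f x.1) (f x.2)

/-- the size -/
noncomputable def size (h : ℤ × ℤ → ℤ × ℤ → ℝ) {m : ℕ} (f : ZMod m → ℤ × ℤ) : ℝ :=
  max 1 (pairmax h f)

lemma lift_pairmax (h : ℤ × ℤ → ℤ × ℤ → ℝ) (w : List Dir) :
    pairmax h (lp (w.length + 1) w) = prs h w := rfl

lemma lift_size (h : ℤ × ℤ → ℤ × ℤ → ℝ) : lift (fun m w => size h w) = siz h := by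
  funext w
  rfl

theorem good_size {h : ℤ × ℤ → ℤ × ℤ → ℝ} (hh : Gauge h) {s : ℕ} (hs : 2 ≤ s) {n : ℕ} (hn : 3 ≤ n) :
    Good 8 (Ac s) s n (fun m w => size h w) := by
  refine ⟨fun m _ w _ => ?_, ?_, ?_, ?_⟩
  · rw [lift_size]; linarith [one_le_siz h w]
  · rw [lift_size]; exact infl_siz hh n _
  · rw [lift_size]; exact bd_siz hh n _
  · rw [lift_size]; exact sz_siz hh hs hn _

end Pool.Agent.X44.GR.PL
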