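import Pool.Agent.X44.GR.PL2

/-!
# The width of a polygon is at least one
-/

set_option autoImplicit false
set_option linter.unusedVariables false

namespace Pool.Agent.X44.GR.PL

open Finset Pool.Agent.H976R2 Pool.Agent.H924P Pool.Agent.X44.GR Pool.Agent.X44.GR.S
open Pool.Agent.H739K (KP lp)
open scoped Classical

/-- a polygon has a horizontal edge -/
lemma exists_hor {m : ℕ} (hm : 3 ≤ m) {f : ZMod m → ℤ × ℤ} (hinj : Function.Injective f)
    (hs : ∀ i : ZMod m, |(f (i + 1)).1 - (f i).1| + |(f (i + 1)).2 - (f i).2| = 1) :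
    ∃ i : ZMod m, |(f (i + 1)).1 - (f i).1| = 1 := by
  by_contra hc
  push Not at hc
  have hx : ∀ i : ZMod m, (f (i + 1)).1 = (f i).1 := by
    intro i
    have h1 := hs i
    have h2 := hc i
    have h3 := abs_nonneg ((f (i + 1)).1 - (f i).1)
    have h4 := abs_nonneg ((f (i + 1)).2 - (f i).2)
    have h5 : |(f (i + 1)).1 - (f i).1| = 0 := by omega
    rw [abs_eq_zero] at h5
    omega
  have hy : ∀ i : ZMod m, |(f (i + 1)).2 - (f i).2| = 1 := by
    intro i
    have h1 := hs i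
    rw [hx i, sub_self, abs_zero, zero_add] at h1
    exact h1
  have h2 : (2 : ZMod m) ≠ 0 := by
    intro h
    have h3 : (m : ℕ) ∣ 2 := (ZMod.natCast_eq_zero_iff 2 m).mp (by exact_mod_cast h)
    have := Nat.le_of_dvd (by norm_num) h3
    omega
  have key : ∀ i : ZMod m, (f (i + 1 + 1)).2 - (f (i + 1)).2 = (f (i + 1)).2 - (f i).2 := by
    intro i
    have h3 := hy i
    have h4 := hy (i + 1)
    have h5 : (f (i + 1 + 1)).2 ≠ (f i).2 := by
      intro h
      have h6 : f (i + 1 + 1) = f i := Prod.ext ((hx (i + 1)).trans (hx i)) h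
      have h7 := hinj h6
      apply h2
      have h8 : i + 2 = i + 0 := by
        calc i + 2 = i + 1 + 1 := by ring
          _ = i + 0 := by rw [h7, add_zero]
      exact add_left_cancel h8
    rcases (abs_eq (by norm_num : (0 : ℤ) ≤ 1)).mp h3 with h6 | h6 <;>
      rcases (abs_eq (by norm_num : (0 : ℤ) ≤ 1)).mp h4 with h7 | h7 <;> omega
  obtain ⟨e, he⟩ : ∃ e, e = (f (0 + 1)).2 - (f 0).2 := ⟨_, rfl⟩
  have h3 : ∀ k : ℕ, (f ((k : ZMod m) + 1)).2 - (f (k : ZMod m)).2 = e := by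
    intro k
    induction k with
    | zero => rw [Nat.cast_zero]; exact he.symm
    | succ k ih => rw [Nat.cast_succ, key, ih]
  have h4 : ∀ k : ℕ, (f (k : ZMod m)).2 = (f 0).2 + k * e := by
    intro k
    induction k with
    | zero => simp
    | succ k ih =>
      have := h3 k
      rw [Nat.cast_succ]
      push_cast
      linarith
  have h5 := h4 m
  rw [ZMod.natCast_self] at h5
  have h6 := hy 0
  rw [← he] at h6
  have h7 : (m : ℤ) * e = 0 := by linarith
  have h8 : (m : ℤ) ≠ 0 := by exact_mod_cast (show m ≠ 0 by omega)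
  rcases mul_eq_zero.1 h7 with h9 | h9
  · exact h8 h9
  · rw [h9] at h6
    norm_num at h6

lemma bdd_pairs (h : ℤ × ℤ → ℤ × ℤ → ℝ) {m : ℕ} (hm : 1 ≤ m) (f : ZMod m → ℤ × ℤ) :
    BddAbove (Set.range (fun x : ZMod m × ZMod m => h (f x.1) (f x.2))) := by
  have : NeZero m := ⟨by omega⟩
  exact (Set.finite_range _).bddAbove

/-- the width of a polygon is at least one -/
lemma one_le_width {m : ℕ} (hm : 3 ≤ m) {f : ZMod m → ℤ × ℤ} (hinj : Function.Injective f)
    (hs : ∀ i : ZMod m, |(f (i + 1)).1 - (f i).1| + |(f (i + 1)).2 - (f i).2| = 1) :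
    1 ≤ ⨆ x : ZMod m × ZMod m, (((f x.1).1 : ℝ) - (f x.2).1) := by
  obtain ⟨i, hi⟩ := exists_hor hm hinj hs
  have hb := bdd_pairs (fun x y => (x.1 : ℝ) - y.1) (by omega) f
  rcases (abs_eq (by norm_num : (0 : ℤ) ≤ 1)).mp hi with h | h
  · have h1 := le_ciSup hb (i + 1, i)
    refine le_trans ?_ h1
    simp only
    have : ((f (i + 1)).1 : ℝ) - (f i).1 = 1 := by exact_mod_cast h
    linarith
  · have h1 := le_ciSup hb (i, i + 1)
    refine le_trans ?_ h1
    simp only
    have : ((f i).1 : ℝ) - (f (i + 1)).1 = 1 := by exact_mod_cast (by omega : (f i).1 - (f (i + 1)).1 = 1)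
    linarith

/-- functions of maxima over pairs -/
theorem infl_pairs {k : ℕ} (h : Fin k → ℤ × ℤ → ℤ × ℤ → ℝ) (g : (Fin k → ℝ) → ℝ)
    (hg : ∀ t, 0 ≤ g t ∧ g t ≤ 1) (n : ℕ) :
    Infl (4 * k) n Qn (lift (fun m f => g (fun i => pairmax (h i) f))) :=
  infl_fun h (fun _ t => g t) (fun _ t => hg t) n Qn

end Pool.Agent.X44.GR.PL
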