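import Pool.Agent.X44.GR.PL3
import Pool.Agent.H739K.F2a

/-!
# The area of a polygon is at least a quarter of its perimeter
-/

set_option autoImplicit false
set_option linter.unusedVariables false

namespace Pool.Agent.X44.GR.PL

open Finset Pool.Agent.H976R2 Pool.Agent.H924P Pool.Agent.X44.GR Pool.Agent.X44.GR.S
open Pool.Agent.H739K (KP lp)
open scoped Classical

/-- the edge `k` is the vertical edge between `(a, b)` and `(a, b + 1)` -/
def Ver (m : ℕ) (f : ZMod m → ℤ × ℤ) (a b : ℤ) (k : ZMod m) : Prop :=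
  ((f k).1 = a ∧ (f (k + 1)).1 = a) ∧
    (((f k).2 = b ∧ (f (k + 1)).2 = b + 1) ∨ ((f k).2 = b + 1 ∧ (f (k + 1)).2 = b))

variable {m : ℕ} {f : ZMod m → ℤ × ℤ}

lemma local_even (p q : ℤ × ℤ) (h : |q.1 - p.1| + |q.2 - p.2| = 1) (a b : ℤ) :
    ((if (((p.1 = a ∧ q.1 = a + 1) ∨ (p.1 = a + 1 ∧ q.1 = a)) ∧ b < p.2) then 1 else 0) +
      (if (((p.1 = a - 1 ∧ q.1 = a - 1 + 1) ∨ (p.1 = a - 1 + 1 ∧ q.1 = a - 1)) ∧ b < p.2) then 1 else 0) +
      (if ((p.1 = a ∧ q.1 = a) ∧ ((p.2 = b ∧ q.2 = b + 1) ∨ (p.2 = b + 1 ∧ q.2 = b))) then 1 else 0)) % 2 =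
    ((if (p.1 = a ∧ b < p.2) then 1 else 0) + (if (q.1 = a ∧ b < q.2) then 1 else 0)) % 2 := by
  obtain ⟨x, y⟩ := p
  obtain ⟨x', y'⟩ := q
  simp only at h ⊢
  have h1 : (x' = x + 1 ∧ y' = y) ∨ (x' = x - 1 ∧ y' = y) ∨ (x' = x ∧ y' = y + 1) ∨
      (x' = x ∧ y' = y - 1) := by
    have i1 := abs_nonneg (x' - x)
    have i2 := abs_nonneg (y' - y)
    rcases abs_cases (x' - x) with ⟨h3, h4⟩ | ⟨h3, h4⟩ <;>
      rcases abs_cases (y' - y) with ⟨h5, h6⟩ | ⟨h5, h6⟩ <;> rw [h3, h5] at h <;> omega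
  rcases h1 with ⟨rfl, rfl⟩ | ⟨rfl, rfl⟩ | ⟨rfl, rfl⟩ | ⟨rfl, rfl⟩ <;> split_ifs <;> omega

lemma ver_parity [NeZero m] (hs : ∀ i : ZMod m, |(f (i+1)).1 - (f i).1| + |(f (i+1)).2 - (f i).2| = 1)
    (a b : ℤ) : Even (Nat.card {k : ZMod m // Above m f a b k} +
      Nat.card {k : ZMod m // Above m f (a - 1) b k} + Nat.card {k : ZMod m // Ver m f a b k}) := by
  classical
  rw [Nat.card_eq_fintype_card, Fintype.card_subtype, Nat.card_eq_fintype_card, Fintype.card_subtype,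
    Nat.card_eq_fintype_card, Fintype.card_subtype, ← ZMod.natCast_eq_zero_iff_even,
    Finset.card_filter, Finset.card_filter, Finset.card_filter, ← Finset.sum_add_distrib,
    ← Finset.sum_add_distrib, Nat.cast_sum]
  let φ : ZMod m → ZMod 2 := fun k => ((if ((f k).1 = a ∧ b < (f k).2) then 1 else 0 : ℕ) : ZMod 2)
  have h1 : ∀ k : ZMod m, (((if Above m f a b k then 1 else 0) + (if Above m f (a - 1) b k then 1 else 0) +
      (if Ver m f a b k then 1 else 0) : ℕ) : ZMod 2) = φ k + φ (k + 1) := by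
    intro k
    simp only [φ]
    rw [← Nat.cast_add, ZMod.natCast_eq_natCast_iff']
    have h3 := local_even (f k) (f (k + 1)) (hs k) a b
    unfold Above Ver
    convert h3
  rw [Finset.sum_congr rfl fun k _ => h1 k, Finset.sum_add_distrib]
  have h2 : ∑ k, φ (k + 1) = ∑ k, φ k := Equiv.sum_comp (Equiv.addRight (1 : ZMod m)) φ
  rw [h2]
  exact CharTwo.add_self_eq_zero _

lemma Ver.uniq (hm : 3 ≤ m) (hinj : Function.Injective f) {a b : ℤ} {j k : ZMod m}
    (hj : Ver m f a b j) (hk : Ver m f a b k) : j = k := by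
  have h2 : (2 : ZMod m) ≠ 0 := by
    intro h
    have h3 : (m : ℕ) ∣ 2 := (ZMod.natCast_eq_zero_iff 2 m).mp (by exact_mod_cast h)
    have := Nat.le_of_dvd (by norm_num) h3
    omega
  obtain ⟨⟨a1, a2⟩, a3⟩ := hj
  obtain ⟨⟨b1, b2⟩, b3⟩ := hk
  have key : f j = f (k + 1) → f (j + 1) = f k → False := by
    intro e1 e2
    have e1 := hinj e1
    have e2 := hinj e2
    apply h2
    have : k + 1 + 1 = k := by rw [← e1]; exact e2
    have h7 : k + 2 = k + 0 := by
      calc k + 2 = k + 1 + 1 := by ring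
        _ = k + 0 := by rw [this, add_zero]
    exact add_left_cancel h7
  rcases a3 with ⟨h3, h4⟩ | ⟨h3, h4⟩ <;> rcases b3 with ⟨h5, h6⟩ | ⟨h5, h6⟩
  · exact hinj (Prod.ext (a1.trans b1.symm) (h3.trans h5.symm))
  · exact (key (Prod.ext (a1.trans b2.symm) (h3.trans h6.symm))
      (Prod.ext (a2.trans b1.symm) (h4.trans h5.symm))).elim
  · exact (key (Prod.ext (a1.trans b2.symm) (h3.trans h6.symm))
      (Prod.ext (a2.trans b1.symm) (h4.trans h5.symm))).elim
  · exact hinj (Prod.ext (a1.trans b1.symm) (h3.trans h5.symm))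

lemma ver_card (hm : 3 ≤ m) (hinj : Function.Injective f) {a b : ℤ} {k : ZMod m}
    (hk : Ver m f a b k) : Nat.card {j : ZMod m // Ver m f a b j} = 1 := by
  have : Unique {j : ZMod m // Ver m f a b j} :=
    ⟨⟨⟨k, hk⟩⟩, fun x => Subtype.ext (Ver.uniq hm hinj x.2 hk)⟩
  exact Nat.card_unique

theorem encl_ver [NeZero m] (hm : 3 ≤ m) (hinj : Function.Injective f)
    (hs : ∀ i : ZMod m, |(f (i+1)).1 - (f i).1| + |(f (i+1)).2 - (f i).2| = 1)
    {a b : ℤ} {k : ZMod m} (hk : Ver m f a b k) :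
    Encl m f (a - 1, b) ↔ ¬ Encl m f (a, b) := by
  have h1 := ver_parity hs a b
  rw [ver_card hm hinj hk] at h1
  unfold Encl
  simp only
  rw [Nat.odd_iff, Nat.odd_iff]
  rw [Nat.even_iff] at h1
  omega

/-- the number of vertical edges is at most twice the area -/
theorem ver_le (hm : 4 ≤ m) (hf : IsLoop m f) :
    Nat.card {k : ZMod m // (f (k + 1)).1 = (f k).1} ≤ 2 * area m f := by
  have : NeZero m := ⟨by omega⟩
  obtain ⟨-, hinj, hs⟩ := hf
  have hfe := H739K.HORaux.finite_encl (f := f) hs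
  let b : ZMod m → ℤ := fun k => min (f k).2 (f (k + 1)).2
  have hcr : ∀ k : ZMod m, (f (k + 1)).1 = (f k).1 → Ver m f (f k).1 (b k) k := by
    intro k hk
    have h1 := hs k
    rw [hk, sub_self, abs_zero, zero_add] at h1
    simp only [b]
    refine ⟨⟨rfl, hk⟩, ?_⟩
    rcases abs_eq (by norm_num : (0 : ℤ) ≤ 1) |>.mp h1 with h2 | h2
    · left
      rw [min_eq_left (by omega)]
      exact ⟨rfl, by omega⟩
    · right
      rw [min_eq_right (by omega)]
      exact ⟨by omega, rfl⟩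
  have hA : area m f = Nat.card {c : ℤ × ℤ // Encl m f c} := rfl
  let Φ : {k : ZMod m // (f (k + 1)).1 = (f k).1} → {c : ℤ × ℤ // Encl m f c} × Bool :=
    fun k => if h : Encl m f ((f k.1).1, b k.1) then (⟨((f k.1).1, b k.1), h⟩, true)
      else (⟨((f k.1).1 - 1, b k.1), (encl_ver (by omega) hinj hs (hcr k.1 k.2)).mpr h⟩, false)
  have hΦ : Function.Injective Φ := by
    rintro ⟨k, hk⟩ ⟨j, hj⟩ h
    apply Subtype.ext
    simp only [Φ] at h
    have key : (f k).1 = (f j).1 → b k = b j → k = j := by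
      intro h1 h2
      have h3 := hcr k hk
      rw [h1, h2] at h3
      exact Ver.uniq (by omega) hinj h3 (hcr j hj)
    split_ifs at h with h1 h2 h2
    · have h3 := congrArg (fun p => p.1.1) h
      simp only [Prod.mk.injEq] at h3
      exact key h3.1 h3.2
    · simp at h
    · simp at h
    · have h3 := congrArg (fun p => p.1.1) h
      simp only [Prod.mk.injEq] at h3
      exact key (by omega) h3.2
  have h1 := Nat.card_le_card_of_injective Φ hΦ
  rw [Nat.card_prod, Nat.card_eq_fintype_card (α := Bool), Fintype.card_bool] at h1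
  rw [hA]
  linarith

/-- **the area is at least a quarter of the perimeter** -/
theorem area_lower (hm : 4 ≤ m) (hf : IsLoop m f) : m ≤ 4 * area m f := by
  have : NeZero m := ⟨by omega⟩
  have h1 := H739K.HOR_proof m f hm hf
  have h2 := ver_le hm hf
  have h3 := H739K.hor_add_ver hf
  omega

end Pool.Agent.X44.GR.PL
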