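import Pool.Agent.X44.GR.PL4

/-!
# The area of a polygon as a good size
-/

set_option autoImplicit false
set_option linter.unusedVariables false

namespace Pool.Agent.X44.GR.PL

open Finset Pool.Agent.H976R2 Pool.Agent.H924P Pool.Agent.X44.GR Pool.Agent.X44.GR.S
open Pool.Agent.H739K (KP lp ar AREA_proof)
open scoped Classical
open Pool.Agent.H976R2.Lip (PP dv PP_inj PP_ins_le PP_ins_gt)

lemma parity (w : List Dir) : (wX w + wY w + w.length) % 2 = 0 := by
  induction w with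
  | nil => simp
  | cons a u ih =>
    rw [wX_cons, wY_cons, List.length_cons]
    push_cast
    cases a <;> simp [dx, dy] <;> omega

lemma KP_odd {m : ℕ} {w : List Dir} (h : w ∈ KP m) : m % 2 = 1 := by
  obtain ⟨h1, h2⟩ := mem_KP.1 h
  have h3 := parity w
  have h4 := (mem_SW.mp h1).1
  rw [h4] at h3
  rcases abs_cases (wX w) with ⟨h5, h6⟩ | ⟨h5, h6⟩ <;>
    rcases abs_cases (wY w) with ⟨h7, h8⟩ | ⟨h7, h8⟩ <;> rw [h5, h7] at h2 <;> omega

lemma isLoop_lp {m : ℕ} {w : List Dir} (h : w ∈ KP m) : IsLoop (m + 1) (lp (m + 1) w) := by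
  have h1 := H739K.CONV.image_eq m
  have h2 : lp (m + 1) w ∈ {f | IsLoop (m + 1) f} := by
    rw [← h1]
    exact ⟨w, h, rfl⟩
  exact h2

/-- the area -/
noncomputable def arX (m : ℕ) (f : ZMod m → ℤ × ℤ) : ℝ := (area m f : ℝ)

lemma lift_ar (w : List Dir) : lift arX w = (ar w : ℝ) := rfl

lemma ar_lower {m : ℕ} (hm : 2 ≤ m) {w : List Dir} (h : w ∈ KP m) : (m : ℝ) + 1 ≤ 4 * (ar w : ℝ) := by
  have h0 := KP_odd h
  have h1 := area_lower (m := m + 1) (by omega) (isLoop_lp h)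
  have hl := (mem_SW.mp (mem_KP.1 h).1).1
  subst hl
  have h2 : w.length + 1 ≤ 4 * ar w := h1
  exact_mod_cast h2

lemma ar_upper {m : ℕ} {w : List Dir} (h : w ∈ KP m) : (ar w : ℝ) ≤ 4 * (m : ℝ) ^ 2 := by
  have hl := (mem_SW.mp (mem_KP.1 h).1).1
  have h1 := isLoop_lp h
  subst hl
  have hb : ∀ i : ZMod (w.length + 1), |(lp (w.length + 1) w i).1| + |(lp (w.length + 1) w i).2| ≤
      (w.length : ℤ) := by
    intro i
    have hi : i.val < w.length + 1 := ZMod.val_lt i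
    have h2 := PP_l1 w i.val
    have h3 : (i.val : ℤ) ≤ w.length := by exact_mod_cast (by omega : i.val ≤ w.length)
    exact le_trans h2 h3
  have h2 := area_le (L := w.length) h1.2.2 (fun i => by
    have := hb i
    have := abs_nonneg (lp (w.length + 1) w i).2
    linarith) (fun i => by
    have := hb i
    have := abs_nonneg (lp (w.length + 1) w i).1
    linarith)
  have h3 : ar w ≤ (2 * w.length) ^ 2 := h2
  have h4 : (ar w : ℝ) ≤ (2 * (w.length : ℝ)) ^ 2 := by exact_mod_cast h3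
  nlinarith

lemma ins_KP {m : ℕ} {w : List Dir} (h : w ∈ KP m) {p : ℕ × Dir} (hp : p ∈ adm w) :
    ins w p.1 p.2 ∈ KP (m + 2) := by
  have hp' : (p.1, p.2) ∈ adm w := hp
  obtain ⟨hi, _, hsw⟩ := H976R2.mem_adm.mp hp'
  obtain ⟨h1, h2⟩ := mem_KP.1 h
  have hl := (mem_SW.mp h1).1
  refine mem_KP.2 ⟨mem_SW.mpr ⟨by rw [length_ins p.2 hi, hl], hsw⟩, ?_⟩
  rw [wX_ins p.2 hi, wY_ins p.2 hi]
  exact h2

lemma ar_step {m : ℕ} (hm : 2 ≤ m) {w : List Dir} (h : w ∈ KP m) {p : ℕ × Dir} (hp : p ∈ adm w) :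
    |(ar (ins w p.1 p.2) : ℝ) - ar w| ≤ 1 := by
  have h0 := KP_odd h
  have hl := (mem_SW.mp (mem_KP.1 h).1).1
  have h1 := AREA_proof w p.1 p.2 (by omega) (mem_SW.mp (mem_KP.1 h).1).2
    ((sq_iff' w).2 (mem_KP.1 h).2) hp
  have h2 : (ar (ins w p.1 p.2) : ℝ) ≤ ar w + 1 := by exact_mod_cast h1.1
  have h3 : (ar w : ℝ) ≤ ar (ins w p.1 p.2) + 1 := by exact_mod_cast h1.2
  rw [abs_le]
  constructor <;> linarith

lemma abs_log_sub {x y c : ℝ} (hc : 0 < c) (hx : c ≤ x) (hy : c ≤ y) :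
    |Real.log x - Real.log y| ≤ |x - y| / c := by
  have key : ∀ x y : ℝ, c ≤ x → c ≤ y → Real.log x - Real.log y ≤ |x - y| / c := by
    intro x y hx hy
    have hx0 : 0 < x := by linarith
    have hy0 : 0 < y := by linarith
    rw [← Real.log_div hx0.ne' hy0.ne']
    refine (Real.log_le_sub_one_of_pos (by positivity)).trans ?_
    have e : x / y - 1 = (x - y) / y := by field_simp
    rw [e]
    refine (div_le_div_of_nonneg_right (le_abs_self _) hy0.le).trans ?_
    exact div_le_div_of_nonneg_left (abs_nonneg _) hc hy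
  rw [abs_le]
  constructor
  · have := key y x hy hx
    rw [abs_sub_comm] at this
    linarith
  · exact key x y hx hy

lemma log_ar_step {m : ℕ} (hm : 2 ≤ m) {w : List Dir} (h : w ∈ KP m) {p : ℕ × Dir} (hp : p ∈ adm w) :
    |Real.log (ar (ins w p.1 p.2)) - Real.log (ar w)| ≤ 4 / (m + 1) := by
  have hm' : (2 : ℝ) ≤ m := by exact_mod_cast hm
  have h1 := ar_lower hm h
  have h2 := ar_lower (m := m + 2) (by omega) (ins_KP h hp)
  push_cast at h2
  have h3 := abs_log_sub (c := ((m : ℝ) + 1) / 4) (by positivity) (x := (ar (ins w p.1 p.2) : ℝ))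
    (y := (ar w : ℝ)) (by linarith) (by linarith)
  refine h3.trans ?_
  rw [div_div_eq_mul_div]
  apply div_le_div_of_nonneg_right _ (by positivity)
  have := ar_step hm h hp
  linarith

theorem good_area {s : ℕ} (hs : 2 ≤ s) {n : ℕ} (hn : 3 ≤ n) : Good 8 (2 * Ac s) s n arX := by
  have hb : ∀ m : ℕ, n ≤ 2 * m → m ≤ 2 * n → m % 2 = n % 2 → ∀ w ∈ SW m, Qn (wX w, wY w) →
      ∀ p ∈ adm w, |Real.log (lift arX (ins w p.1 p.2)) - Real.log (lift arX w)| ≤
        4 / ((w.length : ℝ) + 1) := by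
    intro m g1 g2 g3 w hw hq p hp
    have hl := (mem_SW.mp hw).1
    have := log_ar_step (by omega : 2 ≤ m) (KP_of hw hq) hp
    rw [lift_ar, lift_ar, hl]
    exact this
  refine ⟨fun m g w hw => ?_, ?_, ?_, ?_⟩
  · have := ar_lower (by omega : 2 ≤ m) hw
    rw [lift_ar]
    have hm : (0 : ℝ) ≤ m := Nat.cast_nonneg m
    linarith
  · refine ⟨fun w _ => 4 / ((w.length : ℝ) + 1), fun _ _ => 0, fun w _ => by positivity,
      fun _ _ => le_rfl, fun m g1 g2 g3 => ⟨fun w hw hq p hp => ?_, fun w hw hq => ?_,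
      fun w hw hq => by simp⟩⟩
    · rw [add_zero]
      exact hb m g1 g2 g3 w hw hq p hp
    · rw [sum_const, nsmul_eq_mul]
      have h1 : ((adm w).card : ℝ) ≤ 2 * w.length := by exact_mod_cast AA_le w
      have h2 : (0 : ℝ) ≤ w.length := Nat.cast_nonneg _
      rw [mul_div_assoc', div_le_iff₀ (by positivity)]
      linarith
  · intro m g1 g2 g3 w hw hq p hp
    refine (hb m g1 g2 g3 w hw hq p hp).trans ?_
    have h2 : (0 : ℝ) ≤ w.length := Nat.cast_nonneg _
    rw [div_le_iff₀ (by positivity)]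
    linarith
  · intro m g1 g2 g3 w hw hq
    have hm : 2 ≤ m := by omega
    have hm' : (2 : ℝ) ≤ m := by exact_mod_cast hm
    have h1 := ar_lower hm (KP_of hw hq)
    have h2 := ar_upper (KP_of hw hq)
    have h3 := three_log_le hs hm
    simp only
    rw [lift_ar]
    have hpos : (0 : ℝ) < (ar w : ℝ) := by linarith
    have h1' : (1 : ℝ) ≤ (ar w : ℝ) := by
      have : 0 < ar w := by exact_mod_cast hpos
      exact_mod_cast this
    rw [abs_of_nonneg (Real.log_nonneg h1')]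
    have h4 : Real.log (ar w : ℝ) ≤ 4 * Real.log m := by
      have e : 4 * Real.log (m : ℝ) = Real.log ((m : ℝ) ^ 4) := by rw [Real.log_pow]; push_cast; ring
      rw [e]
      apply Real.log_le_log hpos
      nlinarith [sq_nonneg ((m : ℝ)), mul_self_nonneg ((m : ℝ) ^ 2 - 4)]
    have h5 : 0 ≤ Real.log (m : ℝ) := Real.log_natCast_nonneg m
    linarith

lemma Good.mono {L L' A A' : ℝ} {s n : ℕ} {X : (m : ℕ) → (ZMod m → ℤ × ℤ) → ℝ} (h : Good L A s n X)
    (hL : L ≤ L') (hA : A ≤ A') : Good L' A' s n X :=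
  ⟨h.pos, h.infl.mono hL, fun m g1 g2 g3 w hw hq p hp => (h.bd m g1 g2 g3 w hw hq p hp).trans hL,
    fun m g1 g2 g3 w hw hq => (h.sz m g1 g2 g3 w hw hq).trans
      (mul_le_mul_of_nonneg_right hA (pow_nonneg (Real.log_natCast_nonneg m) s))⟩

/-- the area and the sizes -/
noncomputable def fam {k : ℕ} (h : Fin k → ℤ × ℤ → ℤ × ℤ → ℝ) :
    Fin (k + 1) → (m : ℕ) → (ZMod m → ℤ × ℤ) → ℝ :=
  Fin.cons arX (fun i m f => size (h i) f)

lemma good_fam {k : ℕ} {h : Fin k → ℤ × ℤ → ℤ × ℤ → ℝ} (hh : ∀ i, Gauge (h i)) {s : ℕ} (hs : 2 ≤ s)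
    {n : ℕ} (hn : 3 ≤ n) (i : Fin (k + 1)) : Good 8 (2 * Ac s) s n (fam h i) := by
  refine Fin.cases ?_ (fun i => ?_) i
  · exact good_area hs hn
  · exact (good_size (hh i) hs hn).mono le_rfl (by linarith [Ac_nonneg s])

lemma prod_fam {k : ℕ} (h : Fin k → ℤ × ℤ → ℤ × ℤ → ℝ) (a : ℝ) (q : Fin k → ℝ) (m : ℕ)
    (f : ZMod m → ℤ × ℤ) : prodX (fam h) (Fin.cons a q) m f =
      (area m f : ℝ) ^ a * ∏ i, (max 1 (pairmax (h i) f)) ^ q i := by
  unfold prodX
  rw [Fin.prod_univ_succ]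
  rfl

/-- functions of the area and of maxima over pairs -/
theorem infl_area {k : ℕ} (h : Fin k → ℤ × ℤ → ℤ × ℤ → ℝ) (g : ℝ → (Fin k → ℝ) → ℝ)
    (hg : ∀ x t, 0 ≤ g x t ∧ g x t ≤ 1) {N : ℕ} (hN : 2 ≤ N)
    (hgl : ∀ x y t, |g x t - g y t| ≤ |x - y| / N) :
    Infl (8 + 4 * k) (2 * N - 1) Qn (lift (fun m f => g (arX m f) (fun i => pairmax (h i) f))) := by
  have hN' : (2 : ℝ) ≤ N := by exact_mod_cast hN
  have key : ∀ w : List Dir, lift (fun m f => g (arX m f) (fun i => pairmax (h i) f)) w =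
      g (ar w) (fun i => prs (h i) w) := fun w => rfl
  refine ⟨fun _ _ => 1 / N, fun w w' => ∑ i, T.ch (prs (h i)) w w', fun _ _ => by positivity,
    fun w w' => sum_nonneg (fun i _ => T.ch_nonneg _ _ _), fun m g1 g2 g3 =>
      ⟨fun w hw hq p hp => ?_, fun w hw hq => ?_, fun w hw hq => ?_⟩⟩
  · rw [key, key]
    by_cases ht : ∀ i, prs (h i) w = prs (h i) (ins w p.1 p.2)
    · have e : (fun i => prs (h i) (ins w p.1 p.2)) = fun i => prs (h i) w := by
        funext i; rw [ht i]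
      rw [e]
      have h1 := hgl (ar (ins w p.1 p.2)) (ar w) (fun i => prs (h i) w)
      have h2 := ar_step (by omega : 2 ≤ m) (KP_of hw hq) hp
      have h3 : |(ar (ins w p.1 p.2) : ℝ) - ar w| / N ≤ 1 / N :=
        div_le_div_of_nonneg_right h2 (by positivity)
      have h4 : 0 ≤ ∑ i, T.ch (prs (h i)) w (ins w p.1 p.2) :=
        sum_nonneg (fun i _ => T.ch_nonneg _ _ _)
      simp only
      linarith
    · push Not at ht
      obtain ⟨i, hi⟩ := ht
      have h1 := hg (ar (ins w p.1 p.2)) (fun i => prs (h i) (ins w p.1 p.2))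
      have h2 := hg (ar w) (fun i => prs (h i) w)
      have h3 : |g (ar (ins w p.1 p.2)) (fun i => prs (h i) (ins w p.1 p.2)) -
          g (ar w) (fun i => prs (h i) w)| ≤ 1 := by
        rw [abs_le]; constructor <;> linarith [h1.1, h1.2, h2.1, h2.2]
      refine h3.trans ?_
      have h4 : T.ch (prs (h i)) w (ins w p.1 p.2) = 1 := by unfold T.ch; rw [if_neg hi]
      have h5 := single_le_sum (f := fun i => T.ch (prs (h i)) w (ins w p.1 p.2))
        (fun i _ => T.ch_nonneg _ _ _) (mem_univ i)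
      have h6 : (0 : ℝ) ≤ 1 / N := by positivity
      simp only at h5 ⊢
      linarith
  · rw [sum_const, nsmul_eq_mul]
    have h1 : ((adm w).card : ℝ) ≤ 2 * w.length := by exact_mod_cast AA_le w
    have h2 : (w.length : ℝ) ≤ 4 * N := by
      rw [(mem_SW.mp hw).1]
      exact_mod_cast (by omega : m ≤ 4 * N)
    have hk : (0 : ℝ) ≤ k := Nat.cast_nonneg k
    rw [mul_one_div, div_le_iff₀ (by linarith)]
    nlinarith [mul_nonneg hk (by linarith : (0 : ℝ) ≤ N)]
  · rw [sum_comm]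
    have h1 : ∑ j : Fin k, ∑ i ∈ bumps w, T.ch (prs (h j)) (del w i) w ≤ ∑ j : Fin k, (4 : ℝ) := by
      refine sum_le_sum (fun j _ => ?_)
      rw [T.sum_ch]
      exact_mod_cast prs_card (h j) w
    rw [sum_const, card_univ, Fintype.card_fin, nsmul_eq_mul] at h1
    linarith

end Pool.Agent.X44.GR.PL
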