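import Pool.Agent.X44.GR.G

/-!
# Consequences of the ratio theorem: merging of the laws of functionals
-/

set_option autoImplicit false
set_option linter.unusedVariables false

namespace Pool.Agent.X44.GR

open Finset Pool.Agent.H976R2 Pool.Agent.H739K
open scoped Classical
open Pool.Agent.H976R2.Lip (PP dv)

/-- the ratio theorem with an explicit dependence on `L0` -/
theorem main_big (A : ℝ) (hA : 0 ≤ A) (s : ℕ) (hs : 2 ≤ s) : ∃ C L2 : ℝ, 0 < C ∧ 0 ≤ L2 ∧
    ∀ (L0 : ℝ), 0 ≤ L0 → ∀ (ι : Type) (T : Finset ι) (D : ι → Set (ℤ × ℤ))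
      (ψ : ι → List Dir → ℝ) (n : ℕ), 3 ≤ n →
    2 * (L0 + L2 * Real.log n ^ s) ≤ n → Fam A L0 s T D ψ n →
    (mom (fw T D ψ) (n + 2) / (H981.mu ^ 2 * mom (fw T D ψ) n) - 1) ^ 2 * n ≤
      C * (1 + (L0 + L2 * Real.log n ^ s)) * Real.log n ^ s := by
  obtain ⟨L1, hL1, hchg⟩ := chg_fam A hA hs
  have hA' : 0 ≤ A * 2 ^ s := by positivity
  obtain ⟨C, hC, hrate⟩ := rate (A * 2 ^ s) hA' s hs
  have hmu := H981.mu_pos
  obtain ⟨L2, hL2⟩ : ∃ L2 : ℝ, L2 = L1 * 2 ^ s := ⟨_, rfl⟩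
  have hL20 : 0 ≤ L2 := by rw [hL2]; positivity
  refine ⟨C, L2, hC, hL20, fun L0 hL0 ι T D ψ n hn h1 hok => ?_⟩
  have hn' : (3 : ℝ) ≤ n := by exact_mod_cast hn
  have hl1 : 1 ≤ Real.log n := RATE.one_le_log hn
  have hls : 1 ≤ Real.log n ^ s := one_le_pow₀ hl1
  have hwin := fam_wt hA hn hok (L := L0 + L2 * Real.log n ^ s) (by
    intro m g1 g2 g3
    have hm2 : 2 ≤ m := by omega
    obtain ⟨l0, l1⟩ := log_window' hn g1 g2
    obtain ⟨q, hq1, hq2⟩ := hok.le m g1 (by omega) g3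
    refine (hchg ι T D ψ L0 q m hm2 hL0 hok.nonneg hq1 hq2 (hok.lip m g1 g2 g3)
      (hok.low m g1 g2 g3)).trans ?_
    have hmom0 : 0 ≤ mom (fw T D ψ) m := Finset.sum_nonneg (fun w _ => fw_nonneg hok.nonneg w)
    apply mul_le_mul_of_nonneg_right _ hmom0
    have h5 : Real.log (m : ℝ) ^ s ≤ 2 ^ s * Real.log n ^ s := by
      rw [← mul_pow]; exact pow_le_pow_left₀ l0 l1 s
    have h6 : L1 * Real.log (m : ℝ) ^ s ≤ L2 * Real.log n ^ s := by
      rw [hL2, mul_assoc]
      exact mul_le_mul_of_nonneg_left h5 hL1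
    linarith)
  exact hrate (L0 + L2 * Real.log n ^ s) (by positivity) n (fw T D ψ) hn h1 hwin

lemma merge_alg {μ2 a a' b b' ε : ℝ} (hμ : 0 < μ2) (ha : 0 < a) (ha' : 0 < a') (hb0 : 0 ≤ b)
    (hb : b ≤ a) (hb0' : 0 ≤ b') (hb' : b' ≤ a')
    (h1 : |a' / (μ2 * a) - 1| ≤ ε) (h2 : |(a' + b') / (μ2 * (a + b)) - 1| ≤ ε) :
    |b' / a' - b / a| ≤ 8 * ε := by
  have hε : 0 ≤ ε := (abs_nonneg _).trans h1
  have hx : 0 ≤ b / a ∧ b / a ≤ 1 := ⟨by positivity, (div_le_one ha).2 hb⟩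
  have hx' : 0 ≤ b' / a' ∧ b' / a' ≤ 1 := ⟨by positivity, (div_le_one ha').2 hb'⟩
  by_cases he : ε ≤ 1 / 2
  · have h3 : |a' - μ2 * a| ≤ ε * (μ2 * a) := by
      have e : a' - μ2 * a = (a' / (μ2 * a) - 1) * (μ2 * a) := by field_simp
      rw [e, abs_mul, abs_of_pos (show 0 < μ2 * a by positivity)]
      exact mul_le_mul_of_nonneg_right h1 (by positivity)
    have h4 : |a' + b' - μ2 * (a + b)| ≤ ε * (μ2 * (a + b)) := by
      have hab : 0 < μ2 * (a + b) := by positivity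
      have e : a' + b' - μ2 * (a + b) = ((a' + b') / (μ2 * (a + b)) - 1) * (μ2 * (a + b)) := by
        field_simp
      rw [e, abs_mul, abs_of_pos hab]
      exact mul_le_mul_of_nonneg_right h2 (by positivity)
    have h5 : ε * (μ2 * (a + b)) ≤ ε * (μ2 * (2 * a)) := by
      apply mul_le_mul_of_nonneg_left _ hε
      apply mul_le_mul_of_nonneg_left _ hμ.le
      linarith
    obtain ⟨k1, k2⟩ := abs_le.1 h3
    obtain ⟨k3, k4⟩ := abs_le.1 (h4.trans h5)
    have k5 : |b' - μ2 * b| ≤ 3 * ε * (μ2 * a) := by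
      rw [abs_le]; constructor <;> nlinarith
    have k6 : μ2 * a / 2 ≤ a' := by nlinarith [mul_pos hμ ha]
    have e : b' / a' - b / a = ((b' - μ2 * b) * a - b * (a' - μ2 * a)) / (a * a') := by
      field_simp; ring
    rw [e, abs_div, abs_of_pos (show 0 < a * a' by positivity), div_le_iff₀ (by positivity)]
    calc |(b' - μ2 * b) * a - b * (a' - μ2 * a)|
        ≤ |(b' - μ2 * b) * a| + |b * (a' - μ2 * a)| := abs_sub _ _
      _ = |b' - μ2 * b| * a + b * |a' - μ2 * a| := by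
          rw [abs_mul, abs_mul, abs_of_pos ha, abs_of_nonneg hb0]
      _ ≤ (3 * ε * (μ2 * a)) * a + a * (ε * (μ2 * a)) := by gcongr
      _ = 8 * ε * (a * (μ2 * a / 2)) := by ring
      _ ≤ _ := by gcongr
  · push Not at he
    have h3 : |b' / a' - b / a| ≤ 1 := by
      rw [abs_le]; constructor <;> linarith [hx.1, hx.2, hx'.1, hx'.2]
    linarith

/-- **merging** of the law of a functional with small change under insertions -/
theorem merge_fam (A : ℝ) (hA : 0 ≤ A) (s : ℕ) (hs : 2 ≤ s) : ∃ K : ℝ, 0 ≤ K ∧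
    ∀ (L0 L1 : ℝ), 0 ≤ L0 → 0 ≤ L1 → ∀ (ι : Type) (T : Finset ι) (D : ι → Set (ℤ × ℤ))
      (ψ : ι → List Dir → ℝ) (f : List Dir → ℝ) (n : ℕ), 3 ≤ n →
    Fam A L0 s T D ψ n → (∀ w, 0 ≤ f w ∧ f w ≤ 1) →
    (∀ m : ℕ, n ≤ 2 * m → m ≤ 2 * n → m % 2 = n % 2 → ∀ w ∈ SW m,
      ∑ p ∈ adm w, |f (ins w p.1 p.2) - f w| ≤ L1) →
    |mom (fw T D (fun θ w => ψ θ w * f w)) (n + 2) / mom (fw T D ψ) (n + 2) -
      mom (fw T D (fun θ w => ψ θ w * f w)) n / mom (fw T D ψ) n| ≤
      K * √((Real.log n ^ s + (L0 + L1)) * Real.log n ^ s / n) := by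
  have hl2 : 0 < Real.log 2 := Real.log_pos (by norm_num)
  obtain ⟨A', hA'⟩ : ∃ A' : ℝ, A' = A + 1 / Real.log 2 ^ (s - 1) := ⟨_, rfl⟩
  have hA'0 : 0 ≤ A' := by rw [hA']; positivity
  have hAA' : A ≤ A' := by rw [hA']; have : 0 ≤ 1 / Real.log 2 ^ (s - 1) := by positivity
                           linarith
  obtain ⟨C, L2, hC, hL2, hbig⟩ := main_big A' hA'0 s hs
  have hmu := H981.mu_pos
  refine ⟨8 * √(C * (3 + L2)) + √(2 * (2 + L2)), by positivity,
    fun L0 L1 hL0 hL1 ι T D ψ f n hn hok hf hflip => ?_⟩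
  have hn' : (3 : ℝ) ≤ n := by exact_mod_cast hn
  have hnp : (0 : ℝ) < n := by linarith
  have hl1 : 1 ≤ Real.log n := RATE.one_le_log hn
  obtain ⟨l, hl⟩ : ∃ l : ℝ, l = Real.log n ^ s := ⟨_, rfl⟩
  have hls : 1 ≤ l := by rw [hl]; exact one_le_pow₀ hl1
  rw [← hl]
  -- bounds for exponents
  have hexp2 : ∀ m : ℕ, 2 ≤ m → 2 * Real.exp (A * Real.log m ^ s) ≤ Real.exp (A' * Real.log m ^ s) := by
    intro m hm
    have hlm := log_two_le hm
    have h2 : (2 : ℝ) = Real.exp (Real.log 2) := (Real.exp_log (by norm_num)).symm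
    have h3 : Real.log 2 ≤ 1 / Real.log 2 ^ (s - 1) * Real.log m ^ s := by
      rw [div_mul_eq_mul_div, le_div_iff₀ (by positivity), one_mul]
      calc Real.log 2 * Real.log 2 ^ (s - 1) = Real.log 2 ^ s := by
            rw [← pow_succ']; congr 1; omega
        _ ≤ _ := pow_le_pow_left₀ hl2.le hlm s
    calc 2 * Real.exp (A * Real.log m ^ s) = Real.exp (Real.log 2 + A * Real.log m ^ s) := by
          rw [Real.exp_add, ← h2]
      _ ≤ _ := by
          apply Real.exp_le_exp.2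
          rw [hA']; linarith
  -- both weights satisfy the hypotheses
  have hF1 : Fam A' (2 * L0 + L1) s T D ψ n := by
    refine ⟨hok.nonneg, fun m g1 g2 g3 => ?_, fun m g1 g2 g3 θ hθ w hw => ?_, fun m g1 g2 g3 => ?_⟩
    · obtain ⟨q, hq1, hq2⟩ := hok.le m g1 g2 g3
      refine ⟨q, hq1, hq2.trans ?_⟩
      have := hexp2 m (by omega)
      linarith [Real.exp_pos (A * Real.log m ^ s)]
    · refine (hok.lip m g1 g2 g3 θ hθ w hw).trans ?_
      apply mul_le_mul_of_nonneg_right _ (hok.nonneg θ hθ w)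
      linarith
    · refine le_trans ?_ (hok.low m g1 g2 g3)
      apply mul_le_mul_of_nonneg_left _ (by positivity)
      apply Real.exp_le_exp.2
      have : 0 ≤ Real.log (m : ℝ) ^ s := pow_nonneg (Real.log_natCast_nonneg m) s
      nlinarith
  have hsum : ∀ w, fw T D (fun θ w => ψ θ w * (1 + f w)) w =
      fw T D ψ w + fw T D (fun θ w => ψ θ w * f w) w := by
    intro w
    unfold fw
    rw [← sum_add_distrib]
    refine sum_congr rfl (fun θ _ => ?_)
    split_ifs <;> ring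
  have hmsum : ∀ m, mom (fw T D (fun θ w => ψ θ w * (1 + f w))) m =
      mom (fw T D ψ) m + mom (fw T D (fun θ w => ψ θ w * f w)) m := by
    intro m
    unfold mom
    rw [← sum_add_distrib]
    exact sum_congr rfl (fun w _ => hsum w)
  have hb0 : ∀ w, 0 ≤ fw T D (fun θ w => ψ θ w * f w) w := fun w =>
    fw_nonneg (fun θ hθ w => mul_nonneg (hok.nonneg θ hθ w) (hf w).1) w
  have hble : ∀ w, fw T D (fun θ w => ψ θ w * f w) w ≤ fw T D ψ w := by
    intro w
    unfold fw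
    refine sum_le_sum (fun θ hθ => ?_)
    split_ifs
    · have := mul_le_mul_of_nonneg_left (hf w).2 (hok.nonneg θ hθ w)
      linarith
    · exact le_rfl
  have hmb0 : ∀ m, 0 ≤ mom (fw T D (fun θ w => ψ θ w * f w)) m := fun m =>
    sum_nonneg (fun w _ => hb0 w)
  have hmble : ∀ m, mom (fw T D (fun θ w => ψ θ w * f w)) m ≤ mom (fw T D ψ) m := fun m =>
    sum_le_sum (fun w _ => hble w)
  have hF2 : Fam A' (2 * L0 + L1) s T D (fun θ w => ψ θ w * (1 + f w)) n := by
    refine ⟨fun θ hθ w => mul_nonneg (hok.nonneg θ hθ w) (by linarith [(hf w).1]),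
      fun m g1 g2 g3 => ?_, fun m g1 g2 g3 θ hθ w hw => ?_, fun m g1 g2 g3 => ?_⟩
    · obtain ⟨q, hq1, hq2⟩ := hok.le m g1 g2 g3
      refine ⟨fun θ => 2 * q θ, fun θ hθ w hw => ?_, ?_⟩
      · have h1 := hq1 θ hθ w hw
        have h2 := hok.nonneg θ hθ w
        have h3 := hf w
        nlinarith [mul_le_mul_of_nonneg_left h3.2 h2]
      · rw [← mul_sum]
        have := hexp2 m (by omega)
        linarith
    · have h1 := hok.lip m g1 g2 g3 θ hθ w hw
      have h2 := hflip m g1 g2 g3 w hw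
      have h3 := hok.nonneg θ hθ w
      calc ∑ p ∈ adm w, |ψ θ (ins w p.1 p.2) * (1 + f (ins w p.1 p.2)) - ψ θ w * (1 + f w)|
          ≤ ∑ p ∈ adm w, (2 * |ψ θ (ins w p.1 p.2) - ψ θ w| +
              ψ θ w * |f (ins w p.1 p.2) - f w|) := by
            refine sum_le_sum (fun p _ => ?_)
            obtain ⟨a, ha⟩ : ∃ a, a = ψ θ (ins w p.1 p.2) := ⟨_, rfl⟩
            obtain ⟨b, hb⟩ : ∃ b, b = f (ins w p.1 p.2) := ⟨_, rfl⟩
            have hfb := hf (ins w p.1 p.2)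
            rw [← ha, ← hb] at *
            have e : a * (1 + b) - ψ θ w * (1 + f w) =
                (a - ψ θ w) * (1 + b) + ψ θ w * (b - f w) := by ring
            rw [e]
            refine (abs_add_le _ _).trans ?_
            rw [abs_mul, abs_mul, abs_of_nonneg h3]
            refine add_le_add ?_ le_rfl
            rw [mul_comm]
            apply mul_le_mul_of_nonneg_right _ (abs_nonneg _)
            rw [abs_of_nonneg (by linarith [hfb.1])]
            linarith [hfb.2]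
        _ = 2 * ∑ p ∈ adm w, |ψ θ (ins w p.1 p.2) - ψ θ w| +
              ψ θ w * ∑ p ∈ adm w, |f (ins w p.1 p.2) - f w| := by
            rw [sum_add_distrib, ← mul_sum, ← mul_sum]
        _ ≤ 2 * (L0 * ψ θ w) + ψ θ w * L1 := by gcongr
        _ = (2 * L0 + L1) * ψ θ w := by ring
        _ ≤ (2 * L0 + L1) * (ψ θ w * (1 + f w)) := by
            apply mul_le_mul_of_nonneg_left _ (by positivity)
            nlinarith [(hf w).1]
    · refine (hF1.low m g1 g2 g3).trans ?_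
      rw [hmsum m]
      linarith [hmb0 m]
  have hlown := hok.low n (by omega) (by omega) rfl
  have ha : 0 < mom (fw T D ψ) n := lt_of_lt_of_le (by positivity) hlown
  by_cases hb : 2 * ((2 * L0 + L1) + L2 * l) ≤ n
  · have h1 := hbig (2 * L0 + L1) (by positivity) ι T D ψ n hn (by rw [← hl]; exact hb) hF1
    have h2 := hbig (2 * L0 + L1) (by positivity) ι T D _ n hn (by rw [← hl]; exact hb) hF2
    rw [← hl] at h1 h2
    rw [hmsum, hmsum] at h2
    obtain ⟨X, hX⟩ : ∃ X : ℝ, X = (l + (L0 + L1)) * l / n := ⟨_, rfl⟩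
    have hX0 : 0 ≤ X := by rw [hX]; positivity
    have hCX : C * (1 + (2 * L0 + L1 + L2 * l)) * l ≤ (C * (3 + L2)) * X * n := by
      rw [hX]
      have e : C * (3 + L2) * ((l + (L0 + L1)) * l / n) * n = C * ((3 + L2) * (l + (L0 + L1))) * l := by
        field_simp
      rw [e]
      apply mul_le_mul_of_nonneg_right _ (by linarith)
      apply mul_le_mul_of_nonneg_left _ hC.le
      nlinarith
    have key : ∀ x : ℝ, x ^ 2 * n ≤ C * (1 + (2 * L0 + L1 + L2 * l)) * l →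
        |x| ≤ √(C * (3 + L2)) * √X := by
      intro x hx
      rw [← Real.sqrt_sq_eq_abs, ← Real.sqrt_mul (by positivity)]
      apply Real.sqrt_le_sqrt
      have := hx.trans hCX
      exact le_of_mul_le_mul_right this hnp
    have ha' : 0 < mom (fw T D ψ) (n + 2) := by
      by_cases hwin : n + 2 ≤ 2 * n
      · exact lt_of_lt_of_le (by positivity) (hok.low (n + 2) (by omega) hwin (by omega))
      · omega
    have h3 := merge_alg (μ2 := H981.mu ^ 2) (by positivity) ha ha' (hmb0 n) (hmble n)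
      (hmb0 (n + 2)) (hmble (n + 2)) (key _ h1) (key _ h2)
    rw [← hX]
    refine h3.trans ?_
    have : 0 ≤ √(2 * (2 + L2)) * √X := by positivity
    nlinarith
  · push Not at hb
    have ha' : 0 < mom (fw T D ψ) (n + 2) := by
      by_cases hwin : n + 2 ≤ 2 * n
      · exact lt_of_lt_of_le (by positivity) (hok.low (n + 2) (by omega) hwin (by omega))
      · omega
    have hx : 0 ≤ mom (fw T D (fun θ w => ψ θ w * f w)) n / mom (fw T D ψ) n ∧
        mom (fw T D (fun θ w => ψ θ w * f w)) n / mom (fw T D ψ) n ≤ 1 :=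
      ⟨div_nonneg (hmb0 n) ha.le, (div_le_one ha).2 (hmble n)⟩
    have hx' : 0 ≤ mom (fw T D (fun θ w => ψ θ w * f w)) (n + 2) / mom (fw T D ψ) (n + 2) ∧
        mom (fw T D (fun θ w => ψ θ w * f w)) (n + 2) / mom (fw T D ψ) (n + 2) ≤ 1 :=
      ⟨div_nonneg (hmb0 _) ha'.le, (div_le_one ha').2 (hmble _)⟩
    have h3 : |mom (fw T D (fun θ w => ψ θ w * f w)) (n + 2) / mom (fw T D ψ) (n + 2) -
        mom (fw T D (fun θ w => ψ θ w * f w)) n / mom (fw T D ψ) n| ≤ 1 := by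
      rw [abs_le]; constructor <;> linarith [hx.1, hx.2, hx'.1, hx'.2]
    refine h3.trans ?_
    have h4 : 1 ≤ √(2 * (2 + L2)) * √((l + (L0 + L1)) * l / n) := by
      rw [← Real.sqrt_mul (by positivity), ← Real.sqrt_one]
      apply Real.sqrt_le_sqrt
      rw [mul_div_assoc', le_div_iff₀ hnp, one_mul]
      have h5 : (n : ℝ) ≤ 2 * (2 + L2) * (l + (L0 + L1)) := by nlinarith
      have h6 : 0 ≤ 2 * (2 + L2) * (l + (L0 + L1)) := by positivity
      calc (n : ℝ) ≤ 2 * (2 + L2) * (l + (L0 + L1)) * 1 := by rw [mul_one]; exact h5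
        _ ≤ 2 * (2 + L2) * (l + (L0 + L1)) * l := by gcongr
        _ = _ := by ring
    have h7 : 0 ≤ 8 * √(C * (3 + L2)) * √((l + (L0 + L1)) * l / n) := by positivity
    nlinarith

end Pool.Agent.X44.GR
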