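import Pool.Agent.X44.GR.Q

/-!
# Merging for functionals which depend on the parameter of the family
-/

set_option autoImplicit false
set_option linter.unusedVariables false

namespace Pool.Agent.X44.GR

open Finset Pool.Agent.H976R2 Pool.Agent.H739K
open scoped Classical
open Pool.Agent.H976R2.Lip (PP dv)

/-- **merging** of the law of a functional with small change under insertions -/
theorem merge_fam' (A : ℝ) (hA : 0 ≤ A) (s : ℕ) (hs : 2 ≤ s) : ∃ K : ℝ, 0 ≤ K ∧
    ∀ (L0 L1 : ℝ), 0 ≤ L0 → 0 ≤ L1 → ∀ (ι : Type) (T : Finset ι) (D : ι → Set (ℤ × ℤ))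
      (ψ : ι → List Dir → ℝ) (f : ι → List Dir → ℝ) (n : ℕ), 3 ≤ n →
    Fam A L0 s T D ψ n → (∀ θ w, 0 ≤ f θ w ∧ f θ w ≤ 1) →
    (∀ m : ℕ, n ≤ 2 * m → m ≤ 2 * n → m % 2 = n % 2 → ∀ θ ∈ T, ∀ w ∈ SW m,
      ∑ p ∈ adm w, |f θ (ins w p.1 p.2) - f θ w| ≤ L1) →
    |mom (fw T D (fun θ w => ψ θ w * f θ w)) (n + 2) / mom (fw T D ψ) (n + 2) -
      mom (fw T D (fun θ w => ψ θ w * f θ w)) n / mom (fw T D ψ) n| ≤
      K * √((Real.log n ^ s + (L0 + L1)) * Real.log n ^ s / n) := by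
  have hl2 : 0 < Real.log 2 := Real.log_pos (by norm_num)
  obtain ⟨A', hA'⟩ : ∃ A' : ℝ, A' = A + 1 / Real.log 2 ^ (s - 1) := ⟨_, rfl⟩
  have hA'0 : 0 ≤ A' := by rw [hA']; positivity
  have hAA' : A ≤ A' := by rw [hA']; have : 0 ≤ 1 / Real.log 2 ^ (s - 1) := by positivity
                           linarith
  obtain ⟨C, L2, hC, hL2, hbig⟩ := main_big A' hA'0 s hs
  have hmu := H981.mu_pos
  refine ⟨8 * √(C * (3 + L2)) + √(2 * (2 + L2)), by positivity,
    fun L0 L1 hL0 hL1 ι T D ψ f n hn hok hf hflip => ?_⟩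
  have hn' : (3 : ℝ) ≤ n := by exact_mod_cast hn
  have hnp : (0 : ℝ) < n := by linarith
  have hl1 : 1 ≤ Real.log n := RATE.one_le_log hn
  obtain ⟨l, hl⟩ : ∃ l : ℝ, l = Real.log n ^ s := ⟨_, rfl⟩
  have hls : 1 ≤ l := by rw [hl]; exact one_le_pow₀ hl1
  rw [← hl]
  -- bounds for exponents
  have hexp2 : ∀ m : ℕ, 2 ≤ m → 2 * Real.exp (A * Real.log m ^ s) ≤ Real.exp (A' * Real.log m ^ s) := by
    intro m hm
    have hlm := log_two_le hm
    have h2 : (2 : ℝ) = Real.exp (Real.log 2) := (Real.exp_log (by norm_num)).symm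
    have h3 : Real.log 2 ≤ 1 / Real.log 2 ^ (s - 1) * Real.log m ^ s := by
      rw [div_mul_eq_mul_div, le_div_iff₀ (by positivity), one_mul]
      calc Real.log 2 * Real.log 2 ^ (s - 1) = Real.log 2 ^ s := by
            rw [← pow_succ']; congr 1; omega
        _ ≤ _ := pow_le_pow_left₀ hl2.le hlm s
    calc 2 * Real.exp (A * Real.log m ^ s) = Real.exp (Real.log 2 + A * Real.log m ^ s) := by
          rw [Real.exp_add, ← h2]
      _ ≤ _ := by
          apply Real.exp_le_exp.2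
          rw [hA']; linarith
  -- both weights satisfy the hypotheses
  have hF1 : Fam A' (2 * L0 + L1) s T D ψ n := by
    refine ⟨hok.nonneg, fun m g1 g2 g3 => ?_, fun m g1 g2 g3 θ hθ w hw => ?_, fun m g1 g2 g3 => ?_⟩
    · obtain ⟨q, hq1, hq2⟩ := hok.le m g1 g2 g3
      refine ⟨q, hq1, hq2.trans ?_⟩
      have := hexp2 m (by omega)
      linarith [Real.exp_pos (A * Real.log m ^ s)]
    · refine (hok.lip m g1 g2 g3 θ hθ w hw).trans ?_
      apply mul_le_mul_of_nonneg_right _ (hok.nonneg θ hθ w)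
      linarith
    · refine le_trans ?_ (hok.low m g1 g2 g3)
      apply mul_le_mul_of_nonneg_left _ (by positivity)
      apply Real.exp_le_exp.2
      have : 0 ≤ Real.log (m : ℝ) ^ s := pow_nonneg (Real.log_natCast_nonneg m) s
      nlinarith
  have hsum : ∀ w, fw T D (fun θ w => ψ θ w * (1 + f θ w)) w =
      fw T D ψ w + fw T D (fun θ w => ψ θ w * f θ w) w := by
    intro w
    unfold fw
    rw [← sum_add_distrib]
    refine sum_congr rfl (fun θ _ => ?_)
    split_ifs <;> ring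
  have hmsum : ∀ m, mom (fw T D (fun θ w => ψ θ w * (1 + f θ w))) m =
      mom (fw T D ψ) m + mom (fw T D (fun θ w => ψ θ w * f θ w)) m := by
    intro m
    unfold mom
    rw [← sum_add_distrib]
    exact sum_congr rfl (fun w _ => hsum w)
  have hb0 : ∀ w, 0 ≤ fw T D (fun θ w => ψ θ w * f θ w) w := fun w =>
    fw_nonneg (fun θ hθ w => mul_nonneg (hok.nonneg θ hθ w) (hf θ w).1) w
  have hble : ∀ w, fw T D (fun θ w => ψ θ w * f θ w) w ≤ fw T D ψ w := by
    intro w
    unfold fw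
    refine sum_le_sum (fun θ hθ => ?_)
    split_ifs
    · have := mul_le_mul_of_nonneg_left (hf θ w).2 (hok.nonneg θ hθ w)
      linarith
    · exact le_rfl
  have hmb0 : ∀ m, 0 ≤ mom (fw T D (fun θ w => ψ θ w * f θ w)) m := fun m =>
    sum_nonneg (fun w _ => hb0 w)
  have hmble : ∀ m, mom (fw T D (fun θ w => ψ θ w * f θ w)) m ≤ mom (fw T D ψ) m := fun m =>
    sum_le_sum (fun w _ => hble w)
  have hF2 : Fam A' (2 * L0 + L1) s T D (fun θ w => ψ θ w * (1 + f θ w)) n := by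
    refine ⟨fun θ hθ w => mul_nonneg (hok.nonneg θ hθ w) (by linarith [(hf θ w).1]),
      fun m g1 g2 g3 => ?_, fun m g1 g2 g3 θ hθ w hw => ?_, fun m g1 g2 g3 => ?_⟩
    · obtain ⟨q, hq1, hq2⟩ := hok.le m g1 g2 g3
      refine ⟨fun θ => 2 * q θ, fun θ hθ w hw => ?_, ?_⟩
      · have h1 := hq1 θ hθ w hw
        have h2 := hok.nonneg θ hθ w
        have h3 := hf θ w
        nlinarith [mul_le_mul_of_nonneg_left h3.2 h2]
      · rw [← mul_sum]
        have := hexp2 m (by omega)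
        linarith
    · have h1 := hok.lip m g1 g2 g3 θ hθ w hw
      have h2 := hflip m g1 g2 g3 θ hθ w hw
      have h3 := hok.nonneg θ hθ w
      calc ∑ p ∈ adm w, |ψ θ (ins w p.1 p.2) * (1 + f θ (ins w p.1 p.2)) - ψ θ w * (1 + f θ w)|
          ≤ ∑ p ∈ adm w, (2 * |ψ θ (ins w p.1 p.2) - ψ θ w| +
              ψ θ w * |f θ (ins w p.1 p.2) - f θ w|) := by
            refine sum_le_sum (fun p _ => ?_)
            obtain ⟨a, ha⟩ : ∃ a, a = ψ θ (ins w p.1 p.2) := ⟨_, rfl⟩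
            obtain ⟨b, hb⟩ : ∃ b, b = f θ (ins w p.1 p.2) := ⟨_, rfl⟩
            have hfb := hf θ (ins w p.1 p.2)
            rw [← ha, ← hb] at *
            have e : a * (1 + b) - ψ θ w * (1 + f θ w) =
                (a - ψ θ w) * (1 + b) + ψ θ w * (b - f θ w) := by ring
            rw [e]
            refine (abs_add_le _ _).trans ?_
            rw [abs_mul, abs_mul, abs_of_nonneg h3]
            refine add_le_add ?_ le_rfl
            rw [mul_comm]
            apply mul_le_mul_of_nonneg_right _ (abs_nonneg _)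
            rw [abs_of_nonneg (by linarith [hfb.1])]
            linarith [hfb.2]
        _ = 2 * ∑ p ∈ adm w, |ψ θ (ins w p.1 p.2) - ψ θ w| +
              ψ θ w * ∑ p ∈ adm w, |f θ (ins w p.1 p.2) - f θ w| := by
            rw [sum_add_distrib, ← mul_sum, ← mul_sum]
        _ ≤ 2 * (L0 * ψ θ w) + ψ θ w * L1 := by gcongr
        _ = (2 * L0 + L1) * ψ θ w := by ring
        _ ≤ (2 * L0 + L1) * (ψ θ w * (1 + f θ w)) := by
            apply mul_le_mul_of_nonneg_left _ (by positivity)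
            nlinarith [(hf θ w).1]
    · refine (hF1.low m g1 g2 g3).trans ?_
      rw [hmsum m]
      linarith [hmb0 m]
  have hlown := hok.low n (by omega) (by omega) rfl
  have ha : 0 < mom (fw T D ψ) n := lt_of_lt_of_le (by positivity) hlown
  by_cases hb : 2 * ((2 * L0 + L1) + L2 * l) ≤ n
  · have h1 := hbig (2 * L0 + L1) (by positivity) ι T D ψ n hn (by rw [← hl]; exact hb) hF1
    have h2 := hbig (2 * L0 + L1) (by positivity) ι T D _ n hn (by rw [← hl]; exact hb) hF2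
    rw [← hl] at h1 h2
    rw [hmsum, hmsum] at h2
    obtain ⟨X, hX⟩ : ∃ X : ℝ, X = (l + (L0 + L1)) * l / n := ⟨_, rfl⟩
    have hX0 : 0 ≤ X := by rw [hX]; positivity
    have hCX : C * (1 + (2 * L0 + L1 + L2 * l)) * l ≤ (C * (3 + L2)) * X * n := by
      rw [hX]
      have e : C * (3 + L2) * ((l + (L0 + L1)) * l / n) * n = C * ((3 + L2) * (l + (L0 + L1))) * l := by
        field_simp
      rw [e]
      apply mul_le_mul_of_nonneg_right _ (by linarith)
      apply mul_le_mul_of_nonneg_left _ hC.le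
      nlinarith
    have key : ∀ x : ℝ, x ^ 2 * n ≤ C * (1 + (2 * L0 + L1 + L2 * l)) * l →
        |x| ≤ √(C * (3 + L2)) * √X := by
      intro x hx
      rw [← Real.sqrt_sq_eq_abs, ← Real.sqrt_mul (by positivity)]
      apply Real.sqrt_le_sqrt
      have := hx.trans hCX
      exact le_of_mul_le_mul_right this hnp
    have ha' : 0 < mom (fw T D ψ) (n + 2) := by
      by_cases hwin : n + 2 ≤ 2 * n
      · exact lt_of_lt_of_le (by positivity) (hok.low (n + 2) (by omega) hwin (by omega))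
      · omega
    have h3 := merge_alg (μ2 := H981.mu ^ 2) (by positivity) ha ha' (hmb0 n) (hmble n)
      (hmb0 (n + 2)) (hmble (n + 2)) (key _ h1) (key _ h2)
    rw [← hX]
    refine h3.trans ?_
    have : 0 ≤ √(2 * (2 + L2)) * √X := by positivity
    nlinarith
  · push Not at hb
    have ha' : 0 < mom (fw T D ψ) (n + 2) := by
      by_cases hwin : n + 2 ≤ 2 * n
      · exact lt_of_lt_of_le (by positivity) (hok.low (n + 2) (by omega) hwin (by omega))
      · omega
    have hx : 0 ≤ mom (fw T D (fun θ w => ψ θ w * f θ w)) n / mom (fw T D ψ) n ∧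
        mom (fw T D (fun θ w => ψ θ w * f θ w)) n / mom (fw T D ψ) n ≤ 1 :=
      ⟨div_nonneg (hmb0 n) ha.le, (div_le_one ha).2 (hmble n)⟩
    have hx' : 0 ≤ mom (fw T D (fun θ w => ψ θ w * f θ w)) (n + 2) / mom (fw T D ψ) (n + 2) ∧
        mom (fw T D (fun θ w => ψ θ w * f θ w)) (n + 2) / mom (fw T D ψ) (n + 2) ≤ 1 :=
      ⟨div_nonneg (hmb0 _) ha'.le, (div_le_one ha').2 (hmble _)⟩
    have h3 : |mom (fw T D (fun θ w => ψ θ w * f θ w)) (n + 2) / mom (fw T D ψ) (n + 2) -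
        mom (fw T D (fun θ w => ψ θ w * f θ w)) n / mom (fw T D ψ) n| ≤ 1 := by
      rw [abs_le]; constructor <;> linarith [hx.1, hx.2, hx'.1, hx'.2]
    refine h3.trans ?_
    have h4 : 1 ≤ √(2 * (2 + L2)) * √((l + (L0 + L1)) * l / n) := by
      rw [← Real.sqrt_mul (by positivity), ← Real.sqrt_one]
      apply Real.sqrt_le_sqrt
      rw [mul_div_assoc', le_div_iff₀ hnp, one_mul]
      have h5 : (n : ℝ) ≤ 2 * (2 + L2) * (l + (L0 + L1)) := by nlinarith
      have h6 : 0 ≤ 2 * (2 + L2) * (l + (L0 + L1)) := by positivity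
      calc (n : ℝ) ≤ 2 * (2 + L2) * (l + (L0 + L1)) * 1 := by rw [mul_one]; exact h5
        _ ≤ 2 * (2 + L2) * (l + (L0 + L1)) * l := by gcongr
        _ = _ := by ring
    have h7 : 0 ≤ 8 * √(C * (3 + L2)) * √((l + (L0 + L1)) * l / n) := by positivity
    nlinarith

lemma quot_s (s : ℕ) {K1 K2 : ℝ} (hK1 : 0 ≤ K1) (hK2 : 0 ≤ K2) : ∃ K : ℝ, 0 ≤ K ∧ ∀ n : ℕ, 3 ≤ n →
    ∀ x y : ℝ, 0 ≤ x → |x - 1| ≤ K1 * (Real.log n ^ s / √n) → |y - 1| ≤ K1 * (Real.log n ^ s / √n) →
    Real.exp (-(K2 * Real.log n ^ 2)) ≤ y → |x / y - 1| ≤ K * (Real.log n ^ s / √n) := by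
  obtain ⟨n0, hn0⟩ := exists_big (2 * K1 ^ 2) (by positivity) 0 (2 * s)
  obtain ⟨M, hM⟩ : ∃ M : ℝ, M = (1 + K1 * Real.log n0 ^ s) * Real.exp (K2 * Real.log n0 ^ 2) + 1 := ⟨_, rfl⟩
  have hlog0 : 0 ≤ Real.log (n0 : ℝ) := Real.log_natCast_nonneg n0
  have hM0 : 0 ≤ M := by rw [hM]; positivity
  refine ⟨4 * K1 + M * √n0, by positivity, fun n hn x y hx0 hx hy hlow => ?_⟩
  have hn' : (3 : ℝ) ≤ n := by exact_mod_cast hn
  have hnp : (0 : ℝ) < n := by linarith
  have hl1 : 1 ≤ Real.log n := RATE.one_le_log hn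
  have hsq : 0 < √(n : ℝ) := Real.sqrt_pos.2 hnp
  obtain ⟨ε, hε⟩ : ∃ ε : ℝ, ε = Real.log n ^ s / √n := ⟨_, rfl⟩
  have hε0 : 0 < ε := by rw [hε]; positivity
  rw [← hε] at hx hy ⊢
  have hyp : 0 < y := lt_of_lt_of_le (Real.exp_pos _) hlow
  by_cases hbig : n0 ≤ n
  · have h1 := hn0 n hbig
    have h2 : K1 * ε ≤ 1 / 2 := by
      rw [hε, mul_div_assoc', div_le_iff₀ hsq]
      have h3 : (2 * (K1 * Real.log n ^ s)) ^ 2 ≤ √(n : ℝ) ^ 2 := by
        rw [Real.sq_sqrt hnp.le]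
        have e : (2 * (K1 * Real.log n ^ s)) ^ 2 = 2 * (2 * K1 ^ 2 * Real.log n ^ (2 * s)) := by
          rw [mul_comm 2 s, pow_mul]; ring
        rw [e]
        linarith
      have h4 := abs_le_of_sq_le_sq' h3 hsq.le
      linarith [h4.2]
    have h5 : 1 / 2 ≤ y := by
      have := (abs_le.1 hy).1
      linarith
    have e : x / y - 1 = ((x - 1) - (y - 1)) / y := by field_simp; ring
    rw [e, abs_div, abs_of_pos hyp, div_le_iff₀ hyp]
    have h6 : |(x - 1) - (y - 1)| ≤ 2 * (K1 * ε) := by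
      refine (abs_sub _ _).trans ?_
      linarith
    have h7 : 0 ≤ M * √n0 := by positivity
    calc |(x - 1) - (y - 1)| ≤ 2 * (K1 * ε) := h6
      _ = (4 * K1) * ε * (1 / 2) := by ring
      _ ≤ (4 * K1 + M * √n0) * ε * y := by
          apply mul_le_mul _ h5 (by norm_num) (by positivity)
          apply mul_le_mul_of_nonneg_right _ hε0.le
          linarith
  · push Not at hbig
    have hnn0 : (n : ℝ) ≤ n0 := by exact_mod_cast hbig.le
    have hlog : Real.log n ≤ Real.log n0 := Real.log_le_log hnp hnn0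
    have h1 : ε ≤ Real.log n0 ^ s := by
      rw [hε, div_le_iff₀ hsq]
      have h2 : Real.log n ^ s ≤ Real.log n0 ^ s := pow_le_pow_left₀ (by linarith) hlog s
      have h3 : 1 ≤ √(n : ℝ) := by
        rw [← Real.sqrt_one]; exact Real.sqrt_le_sqrt (by linarith)
      have h4 : 0 ≤ Real.log (n0 : ℝ) ^ s := pow_nonneg (Real.log_natCast_nonneg _) s
      nlinarith
    have h2 : x ≤ 1 + K1 * Real.log n0 ^ s := by
      have := (abs_le.1 hx).2
      have h3 : K1 * ε ≤ K1 * Real.log n0 ^ s := mul_le_mul_of_nonneg_left h1 hK1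
      linarith
    have h3 : 1 / y ≤ Real.exp (K2 * Real.log n0 ^ 2) := by
      rw [div_le_iff₀ hyp]
      calc (1 : ℝ) = Real.exp (K2 * Real.log n0 ^ 2) * Real.exp (-(K2 * Real.log n0 ^ 2)) := by
            rw [← Real.exp_add, add_neg_cancel, Real.exp_zero]
        _ ≤ Real.exp (K2 * Real.log n0 ^ 2) * Real.exp (-(K2 * Real.log n ^ 2)) := by
            gcongr
        _ ≤ _ := by gcongr
    have h4 : |x / y - 1| ≤ M := by
      have h5 : 0 ≤ x / y := by positivity
      have h6 : x / y ≤ (1 + K1 * Real.log n0 ^ s) * Real.exp (K2 * Real.log n0 ^ 2) := by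
        rw [div_eq_mul_one_div]
        exact mul_le_mul h2 h3 (by positivity) (by positivity)
      rw [abs_le, hM]
      constructor <;> linarith [Real.exp_pos (K2 * Real.log (n0 : ℝ) ^ 2)]
    have h5 : 1 ≤ √(n0 : ℝ) * ε := by
      rw [hε, mul_div_assoc', le_div_iff₀ hsq, one_mul]
      have h6 : 1 ≤ Real.log n ^ s := one_le_pow₀ hl1
      calc √(n : ℝ) ≤ √(n0 : ℝ) * 1 := by rw [mul_one]; exact Real.sqrt_le_sqrt hnn0
        _ ≤ _ := by gcongr
    have h6 : 0 ≤ 4 * K1 * ε := by positivity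
    nlinarith

end Pool.Agent.X44.GR
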