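import Pool.Agent.X44.GR.T2

/-!
# Master theorem: weights which are exponentials of functionals with small influence
-/

set_option autoImplicit false
set_option linter.unusedVariables false

namespace Pool.Agent.X44.GR.S

open Finset Pool.Agent.H976R2 Pool.Agent.H739K Pool.Agent.X44.GR
open scoped Classical
open Pool.Agent.H976R2.Lip (PP dv PP_inj PP_ins_le PP_ins_gt)

/-- the influence of `Y` on the walks whose end point satisfies `Q` is at most `L` -/
def Infl (L : ℝ) (n : ℕ) (Q : ℤ × ℤ → Prop) (Y : List Dir → ℝ) : Prop :=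
  ∃ (a : List Dir → ℕ × Dir → ℝ) (b : List Dir → List Dir → ℝ), (∀ w p, 0 ≤ a w p) ∧
    (∀ w w', 0 ≤ b w w') ∧ ∀ m : ℕ, n ≤ 2 * m → m ≤ 2 * n → m % 2 = n % 2 →
      (∀ w ∈ SW m, Q (wX w, wY w) → ∀ p ∈ adm w,
        |Y (ins w p.1 p.2) - Y w| ≤ a w p + b w (ins w p.1 p.2)) ∧
      (∀ w ∈ SW m, Q (wX w, wY w) → ∑ p ∈ adm w, a w p ≤ L) ∧
      (∀ w ∈ SW (m + 2), Q (wX w, wY w) → ∑ i ∈ bumps w, b (del w i) w ≤ L)

/-- one insertion changes `Y` by at most `L` -/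
def Bd (L : ℝ) (n : ℕ) (Q : ℤ × ℤ → Prop) (Y : List Dir → ℝ) : Prop :=
  ∀ m : ℕ, n ≤ 2 * m → m ≤ 2 * n → m % 2 = n % 2 → ∀ w ∈ SW m, Q (wX w, wY w) → ∀ p ∈ adm w,
    |Y (ins w p.1 p.2) - Y w| ≤ L

/-- `Y` is at most of order `(log m)^s` -/
def Sz (A : ℝ) (s n : ℕ) (Q : ℤ × ℤ → Prop) (Y : List Dir → ℝ) : Prop :=
  ∀ m : ℕ, n ≤ 2 * m → m ≤ 2 * n + 2 → m % 2 = n % 2 → ∀ w ∈ SW m, Q (wX w, wY w) →
    |Y w| ≤ A * Real.log m ^ s

variable {L L' : ℝ} {n : ℕ} {Q : ℤ × ℤ → Prop} {Y Y' : List Dir → ℝ}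

lemma Infl.mono (h : Infl L n Q Y) (hL : L ≤ L') : Infl L' n Q Y := by
  obtain ⟨a, b, ha, hb, h⟩ := h
  refine ⟨a, b, ha, hb, fun m g1 g2 g3 => ?_⟩
  obtain ⟨h1, h2, h3⟩ := h m g1 g2 g3
  exact ⟨h1, fun w hw hq => (h2 w hw hq).trans hL, fun w hw hq => (h3 w hw hq).trans hL⟩

lemma Infl.add (h : Infl L n Q Y) (h' : Infl L' n Q Y') : Infl (L + L') n Q (fun w => Y w + Y' w) := by
  obtain ⟨a, b, ha, hb, h⟩ := h
  obtain ⟨a', b', ha', hb', h'⟩ := h'
  refine ⟨fun w p => a w p + a' w p, fun w w' => b w w' + b' w w',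
    fun w p => add_nonneg (ha w p) (ha' w p), fun w w' => add_nonneg (hb w w') (hb' w w'),
    fun m g1 g2 g3 => ?_⟩
  obtain ⟨h1, h2, h3⟩ := h m g1 g2 g3
  obtain ⟨h1', h2', h3'⟩ := h' m g1 g2 g3
  refine ⟨fun w hw hq p hp => ?_, fun w hw hq => ?_, fun w hw hq => ?_⟩
  · have i1 := h1 w hw hq p hp
    have i2 := h1' w hw hq p hp
    have e : Y (ins w p.1 p.2) + Y' (ins w p.1 p.2) - (Y w + Y' w) =
      (Y (ins w p.1 p.2) - Y w) + (Y' (ins w p.1 p.2) - Y' w) := by ring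
    simp only
    rw [e]
    refine (abs_add_le _ _).trans ?_
    linarith
  · rw [sum_add_distrib]
    exact add_le_add (h2 w hw hq) (h2' w hw hq)
  · rw [sum_add_distrib]
    exact add_le_add (h3 w hw hq) (h3' w hw hq)

lemma Infl.smul (h : Infl L n Q Y) (c : ℝ) : Infl (|c| * L) n Q (fun w => c * Y w) := by
  obtain ⟨a, b, ha, hb, h⟩ := h
  refine ⟨fun w p => |c| * a w p, fun w w' => |c| * b w w', fun w p => mul_nonneg (abs_nonneg c) (ha w p),
    fun w w' => mul_nonneg (abs_nonneg c) (hb w w'), fun m g1 g2 g3 => ?_⟩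
  obtain ⟨h1, h2, h3⟩ := h m g1 g2 g3
  refine ⟨fun w hw hq p hp => ?_, fun w hw hq => ?_, fun w hw hq => ?_⟩
  · simp only
    rw [← mul_sub, abs_mul, ← mul_add]
    exact mul_le_mul_of_nonneg_left (h1 w hw hq p hp) (abs_nonneg c)
  · rw [← mul_sum]
    exact mul_le_mul_of_nonneg_left (h2 w hw hq) (abs_nonneg c)
  · rw [← mul_sum]
    exact mul_le_mul_of_nonneg_left (h3 w hw hq) (abs_nonneg c)

lemma Infl.zero : Infl 0 n Q (fun _ => (0 : ℝ)) :=
  ⟨fun _ _ => 0, fun _ _ => 0, fun _ _ => le_rfl, fun _ _ => le_rfl, fun m _ _ _ =>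
    ⟨fun w _ _ p _ => by simp, fun w _ _ => by simp, fun w _ _ => by simp⟩⟩

lemma Infl.sum {k : ℕ} (q : Fin k → ℝ) (Y : Fin k → List Dir → ℝ) (h : ∀ i, Infl L n Q (Y i)) :
    Infl ((∑ i, |q i|) * L) n Q (fun w => ∑ i, q i * Y i w) := by
  induction k with
  | zero => simpa using Infl.zero
  | succ k ih =>
    have h1 := ih (fun i => q i.castSucc) (fun i => Y i.castSucc) (fun i => h i.castSucc)
    have h2 := (h (Fin.last k)).smul (q (Fin.last k))
    have h3 := h1.add h2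
    simp only [Fin.sum_univ_castSucc]
    rw [add_mul]
    exact h3

lemma Bd.sum {k : ℕ} (q : Fin k → ℝ) (Y : Fin k → List Dir → ℝ) (h : ∀ i, Bd L n Q (Y i)) :
    Bd ((∑ i, |q i|) * L) n Q (fun w => ∑ i, q i * Y i w) := by
  intro m g1 g2 g3 w hw hq p hp
  simp only
  rw [← sum_sub_distrib, sum_mul]
  refine (abs_sum_le_sum_abs _ _).trans (sum_le_sum (fun i _ => ?_))
  rw [← mul_sub, abs_mul]
  exact mul_le_mul_of_nonneg_left (h i m g1 g2 g3 w hw hq p hp) (abs_nonneg _)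

lemma Sz.sum {A : ℝ} {s k : ℕ} (q : Fin k → ℝ) (Y : Fin k → List Dir → ℝ) (h : ∀ i, Sz A s n Q (Y i)) :
    Sz ((∑ i, |q i|) * A) s n Q (fun w => ∑ i, q i * Y i w) := by
  intro m g1 g2 g3 w hw hq
  simp only
  rw [sum_mul, sum_mul]
  refine (abs_sum_le_sum_abs _ _).trans (sum_le_sum (fun i _ => ?_))
  rw [abs_mul, mul_assoc]
  exact mul_le_mul_of_nonneg_left (h i m g1 g2 g3 w hw hq) (abs_nonneg _)

lemma exp_sub_le {y y' L : ℝ} (h : |y' - y| ≤ L) {a b : ℝ} (ha : 0 ≤ a) (hb : 0 ≤ b)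
    (hab : |y' - y| ≤ a + b) :
    |Real.exp y' - Real.exp y| ≤ Real.exp L * (Real.exp y * a + Real.exp y' * b) := by
  have key : ∀ t : ℝ, |Real.exp t - 1| ≤ |t| * Real.exp |t| := by
    intro t
    rcases le_total 0 t with ht | ht
    · rw [abs_of_nonneg (by linarith [Real.one_le_exp ht]), abs_of_nonneg ht]
      have h1 := Real.add_one_le_exp (-t)
      have h2 : Real.exp t * Real.exp (-t) = 1 := by rw [← Real.exp_add]; simp
      nlinarith [Real.exp_pos t]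
    · have h1 := Real.add_one_le_exp t
      have h3 : Real.exp t ≤ 1 := Real.exp_le_one_iff.2 ht
      rw [abs_of_nonpos (by linarith), abs_of_nonpos ht]
      have h2 : 1 ≤ Real.exp (-t) := Real.one_le_exp (by linarith)
      nlinarith
  obtain ⟨t, ht⟩ : ∃ t, t = y' - y := ⟨_, rfl⟩
  have hL : Real.exp |t| ≤ Real.exp L := Real.exp_le_exp.2 (by rw [ht]; exact h)
  have e1 : Real.exp y' - Real.exp y = Real.exp y * (Real.exp t - 1) := by
    rw [mul_sub, ← Real.exp_add, ht]; ring_nf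
  have e2 : Real.exp y' - Real.exp y = -(Real.exp y' * (Real.exp (-t) - 1)) := by
    rw [mul_sub, ← Real.exp_add, ht]; ring_nf
  have h1 : |Real.exp y' - Real.exp y| ≤ Real.exp y * (|t| * Real.exp L) := by
    rw [e1, abs_mul, abs_of_pos (Real.exp_pos y)]
    apply mul_le_mul_of_nonneg_left _ (Real.exp_pos y).le
    exact (key t).trans (mul_le_mul_of_nonneg_left hL (abs_nonneg t))
  have h2 : |Real.exp y' - Real.exp y| ≤ Real.exp y' * (|t| * Real.exp L) := by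
    rw [e2, abs_neg, abs_mul, abs_of_pos (Real.exp_pos y')]
    apply mul_le_mul_of_nonneg_left _ (Real.exp_pos y').le
    have := key (-t)
    rw [abs_neg] at this
    exact this.trans (mul_le_mul_of_nonneg_left hL (abs_nonneg t))
  have hexpL := Real.exp_pos L
  rw [ht] at h1 h2
  rcases le_total (Real.exp y) (Real.exp y') with hy | hy
  · refine h1.trans ?_
    calc Real.exp y * (|y' - y| * Real.exp L) ≤ Real.exp y * ((a + b) * Real.exp L) := by gcongr
      _ = Real.exp L * (Real.exp y * a + Real.exp y * b) := by ring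
      _ ≤ _ := by gcongr
  · refine h2.trans ?_
    calc Real.exp y' * (|y' - y| * Real.exp L) ≤ Real.exp y' * ((a + b) * Real.exp L) := by gcongr
      _ = Real.exp L * (Real.exp y' * a + Real.exp y' * b) := by ring
      _ ≤ _ := by gcongr

/-- the weight: a function of the end point times an exponential -/
noncomputable def wgt (ρ : ℤ × ℤ → ℝ) (Y : List Dir → ℝ) (w : List Dir) : ℝ :=
  ρ (wX w, wY w) * Real.exp (Y w)

lemma wgt_nonneg {ρ : ℤ × ℤ → ℝ} (hρ : ∀ x, 0 ≤ ρ x) (Y : List Dir → ℝ) (w : List Dir) :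
    0 ≤ wgt ρ Y w := mul_nonneg (hρ _) (Real.exp_pos _).le

lemma end_ins {w : List Dir} {p : ℕ × Dir} (hp : p ∈ adm w) :
    (wX (ins w p.1 p.2), wY (ins w p.1 p.2)) = (wX w, wY w) := by
  have hp' : (p.1, p.2) ∈ adm w := hp
  have hi := (H976R2.mem_adm.mp hp').1
  rw [wX_ins p.2 hi, wY_ins p.2 hi]

lemma end_del {w : List Dir} {i : ℕ} (h : i ∈ bumps w) : (wX (del w i), wY (del w i)) = (wX w, wY w) := by
  obtain ⟨h1, h2, h3, h4⟩ := T.ins_of_bump h
  conv_rhs => rw [← h4]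
  rw [wX_ins _ h3, wY_ins _ h3]

/-- energy of the weight -/
lemma en_wgt {ρ : ℤ × ℤ → ℝ} (hρ : ∀ x, 0 ≤ ρ x) (hL : 0 ≤ L) (h : Infl L n (fun x => ρ x ≠ 0) Y)
    (hB : Bd L n (fun x => ρ x ≠ 0) Y) (D : Set (ℤ × ℤ)) {m : ℕ} (g1 : n ≤ 2 * m) (g2 : m ≤ 2 * n)
    (g3 : m % 2 = n % 2) :
    en D (wgt ρ Y) m ≤ Real.exp L * L * (ms D (wgt ρ Y) m + ms D (wgt ρ Y) (m + 2)) := by
  obtain ⟨a, b, ha, hb, h⟩ := h
  obtain ⟨h1, h2, h3⟩ := h m g1 g2 g3
  have hexp := Real.exp_pos L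
  apply en_mix (fun w p => Real.exp L * (wgt ρ Y w * a w p))
    (fun w w' => Real.exp L * (wgt ρ Y w' * b w w'))
  · intro w p
    exact mul_nonneg hexp.le (mul_nonneg (wgt_nonneg hρ Y w) (ha w p))
  · intro w hw hin p hp hin'
    have he := end_ins hp
    unfold wgt
    rw [he]
    by_cases hq : ρ (wX w, wY w) = 0
    · rw [hq]; simp
    · rw [← mul_sub, abs_mul, abs_of_nonneg (hρ _)]
      have i1 := exp_sub_le (hB m g1 g2 g3 w hw hq p hp) (ha w p) (hb w (ins w p.1 p.2))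
        (h1 w hw hq p hp)
      calc ρ (wX w, wY w) * |Real.exp (Y (ins w p.1 p.2)) - Real.exp (Y w)|
          ≤ ρ (wX w, wY w) * (Real.exp L * (Real.exp (Y w) * a w p +
            Real.exp (Y (ins w p.1 p.2)) * b w (ins w p.1 p.2))) := by
            exact mul_le_mul_of_nonneg_left i1 (hρ _)
        _ = _ := by ring
  · intro w hw hin
    rw [← mul_sum, ← mul_sum]
    by_cases hq : ρ (wX w, wY w) = 0
    · unfold wgt; rw [hq]; simp
    · have i1 := h2 w hw hq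
      have i2 := wgt_nonneg hρ Y w
      calc Real.exp L * (wgt ρ Y w * ∑ p ∈ adm w, a w p) ≤ Real.exp L * (wgt ρ Y w * L) := by gcongr
        _ = _ := by ring
  · intro w hw hin
    rw [← mul_sum, ← mul_sum]
    by_cases hq : ρ (wX w, wY w) = 0
    · unfold wgt; rw [hq]; simp
    · have i1 := h3 w hw hq
      have i2 := wgt_nonneg hρ Y w
      calc Real.exp L * (wgt ρ Y w * ∑ i ∈ bumps w, b (del w i) w) ≤
            Real.exp L * (wgt ρ Y w * L) := by gcongr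
        _ = _ := by ring

lemma en_mul_le (D : Set (ℤ × ℤ)) {ψ f : List Dir → ℝ} (hψ : ∀ w, 0 ≤ ψ w) (hf : ∀ w, 0 ≤ f w ∧ f w ≤ 1)
    (m : ℕ) : en D (fun w => ψ w * f w) m ≤ en D ψ m + ∑ w ∈ SW m, ∑ p ∈ adm w,
      (if inD D (ins w p.1 p.2) then min (ψ w) (ψ (ins w p.1 p.2)) * |f (ins w p.1 p.2) - f w| else 0) := by
  unfold en
  rw [← sum_add_distrib]
  refine sum_le_sum (fun w _ => ?_)
  rw [← sum_add_distrib]
  refine sum_le_sum (fun p _ => ?_)
  split_ifs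
  · obtain ⟨w', hw'⟩ : ∃ w', w' = ins w p.1 p.2 := ⟨_, rfl⟩
    rw [← hw']
    have h1 := hf w
    have h2 := hf w'
    rcases le_total (ψ w) (ψ w') with h | h
    · rw [min_eq_left h]
      have e : ψ w' * f w' - ψ w * f w = (ψ w' - ψ w) * f w' + ψ w * (f w' - f w) := by ring
      rw [e]
      refine (abs_add_le _ _).trans ?_
      rw [abs_mul, abs_mul, abs_of_nonneg (hψ w), abs_of_nonneg h2.1]
      refine add_le_add ?_ le_rfl
      exact mul_le_of_le_one_right (abs_nonneg _) h2.2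
    · rw [min_eq_right h]
      have e : ψ w' * f w' - ψ w * f w = (ψ w' - ψ w) * f w + ψ w' * (f w' - f w) := by ring
      rw [e]
      refine (abs_add_le _ _).trans ?_
      rw [abs_mul, abs_mul, abs_of_nonneg (hψ w'), abs_of_nonneg h1.1]
      refine add_le_add ?_ le_rfl
      exact mul_le_of_le_one_right (abs_nonneg _) h1.2
  · simp

/-- energy of the weight times a functional with values in `[0, 1]` -/
lemma en_wgt_mul {ρ : ℤ × ℤ → ℝ} (hρ : ∀ x, 0 ≤ ρ x) (hL : 0 ≤ L)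
    (h : Infl L n (fun x => ρ x ≠ 0) Y) (hB : Bd L n (fun x => ρ x ≠ 0) Y) {f : List Dir → ℝ}
    (hf : ∀ w, 0 ≤ f w ∧ f w ≤ 1) {L1 : ℝ} (hL1 : 0 ≤ L1) (hfi : Infl L1 n (fun x => ρ x ≠ 0) f)
    (D : Set (ℤ × ℤ)) {m : ℕ} (g1 : n ≤ 2 * m) (g2 : m ≤ 2 * n) (g3 : m % 2 = n % 2) :
    en D (fun w => wgt ρ Y w * f w) m ≤ (Real.exp L * L + L1) *
      (ms D (wgt ρ Y) m + ms D (wgt ρ Y) (m + 2)) := by
  refine (en_mul_le D (wgt_nonneg hρ Y) hf m).trans ?_
  rw [add_mul]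
  refine add_le_add (en_wgt hρ hL h hB D g1 g2 g3) ?_
  obtain ⟨a, b, ha, hb, h'⟩ := hfi
  obtain ⟨h1, h2, h3⟩ := h' m g1 g2 g3
  -- split as in `en_mix`
  have i1 : ∑ w ∈ SW m, ∑ p ∈ adm w, (if inD D (ins w p.1 p.2) then
      min (wgt ρ Y w) (wgt ρ Y (ins w p.1 p.2)) * |f (ins w p.1 p.2) - f w| else 0) ≤
      ∑ w ∈ SW m, ∑ p ∈ adm w, (if inD D w then wgt ρ Y w * a w p else 0) +
      ∑ w ∈ SW m, ∑ p ∈ adm w, (if inD D (ins w p.1 p.2) then
        wgt ρ Y (ins w p.1 p.2) * b w (ins w p.1 p.2) else 0) := by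
    rw [← sum_add_distrib]
    refine sum_le_sum (fun w hw => ?_)
    rw [← sum_add_distrib]
    refine sum_le_sum (fun p hp => ?_)
    have hp' : (p.1, p.2) ∈ adm w := hp
    have hi := (H976R2.mem_adm.mp hp').1
    by_cases hin : inD D (ins w p.1 p.2)
    · rw [if_pos hin, if_pos hin, if_pos (inD_of_ins hi hin)]
      have he := end_ins hp
      by_cases hq : ρ (wX w, wY w) = 0
      · have e1 : wgt ρ Y w = 0 := by unfold wgt; rw [hq, zero_mul]
        have e2 : wgt ρ Y (ins w p.1 p.2) = 0 := by unfold wgt; rw [he, hq, zero_mul]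
        rw [e1, e2]; simp
      · have j1 := h1 w hw hq p hp
        have j2 := wgt_nonneg hρ Y w
        have j3 := wgt_nonneg hρ Y (ins w p.1 p.2)
        have j4 := ha w p
        have j5 := hb w (ins w p.1 p.2)
        calc min (wgt ρ Y w) (wgt ρ Y (ins w p.1 p.2)) * |f (ins w p.1 p.2) - f w|
            ≤ min (wgt ρ Y w) (wgt ρ Y (ins w p.1 p.2)) * (a w p + b w (ins w p.1 p.2)) := by
              apply mul_le_mul_of_nonneg_left j1 (le_min j2 j3)
          _ = min (wgt ρ Y w) (wgt ρ Y (ins w p.1 p.2)) * a w p +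
              min (wgt ρ Y w) (wgt ρ Y (ins w p.1 p.2)) * b w (ins w p.1 p.2) := by ring
          _ ≤ _ := add_le_add (mul_le_mul_of_nonneg_right (min_le_left _ _) j4)
              (mul_le_mul_of_nonneg_right (min_le_right _ _) j5)
    · rw [if_neg hin, if_neg hin, add_zero]
      split_ifs
      · exact mul_nonneg (wgt_nonneg hρ Y w) (ha w p)
      · exact le_rfl
  refine i1.trans ?_
  rw [mul_add]
  refine add_le_add ?_ ?_
  · unfold ms
    rw [mul_sum]
    refine sum_le_sum (fun w hw => ?_)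
    split_ifs with hin
    · rw [← mul_sum, mul_comm L1]
      by_cases hq : ρ (wX w, wY w) = 0
      · have e1 : wgt ρ Y w = 0 := by unfold wgt; rw [hq, zero_mul]
        rw [e1]; simp
      · exact mul_le_mul_of_nonneg_left (h2 w hw hq) (wgt_nonneg hρ Y w)
    · simp
  · rw [sum_ins m (fun w w' => if inD D w' then wgt ρ Y w' * b w w' else 0)]
    unfold ms
    rw [mul_sum]
    refine sum_le_sum (fun w hw => ?_)
    split_ifs with hin
    · rw [← mul_sum, mul_comm L1]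
      by_cases hq : ρ (wX w, wY w) = 0
      · have e1 : wgt ρ Y w = 0 := by unfold wgt; rw [hq, zero_mul]
        rw [e1]; simp
      · exact mul_le_mul_of_nonneg_left (h3 w hw hq) (wgt_nonneg hρ Y w)
    · simp

end Pool.Agent.X44.GR.S
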