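import Pool.Agent.X44.GR.S

/-!
# Master theorem: ratio of the weighted masses, moments and merging
-/

set_option autoImplicit false
set_option linter.unusedVariables false

namespace Pool.Agent.X44.GR.S

open Finset Pool.Agent.H976R2 Pool.Agent.H739K Pool.Agent.X44.GR
open scoped Classical
open Pool.Agent.H976R2.Lip (PP dv PP_inj PP_ins_le PP_ins_gt)

/-- the sum of the weights `f` over the walks with `m` steps in `D` -/
noncomputable def mm (D : Set (ℤ × ℤ)) (f : List Dir → ℝ) (m : ℕ) : ℝ :=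
  mom (fw ({()} : Finset Unit) (fun _ => D) (fun _ => f)) m

lemma mm_eq (D : Set (ℤ × ℤ)) (f : List Dir → ℝ) (m : ℕ) : mm D f m = ms D f m := by
  unfold mm
  rw [mom_fw, sum_singleton]

/-- the hypotheses on the weight `ρ` of the end point in the domain `D` -/
structure Base (A : ℝ) (s : ℕ) (D : Set (ℤ × ℤ)) (ρ : ℤ × ℤ → ℝ) (n : ℕ) : Prop where
  nonneg : ∀ x, 0 ≤ ρ x
  le : ∀ m : ℕ, n ≤ 2 * m → m ≤ 2 * n + 2 → m % 2 = n % 2 → ∀ w ∈ SW m,
    ρ (wX w, wY w) ≤ Real.exp (A * Real.log m ^ s)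
  low : ∀ m : ℕ, n ≤ 2 * m → m ≤ 2 * n → m % 2 = n % 2 →
    H981.mu ^ m * Real.exp (-(A * Real.log m ^ s)) ≤ mm D (wgt ρ (fun _ => 0)) m

lemma Base.mono {A A' : ℝ} (hAA' : A ≤ A') {s : ℕ} {D : Set (ℤ × ℤ)} {ρ : ℤ × ℤ → ℝ} {n : ℕ}
    (h : Base A s D ρ n) : Base A' s D ρ n := by
  have hmu := H981.mu_pos
  refine ⟨h.nonneg, fun m g1 g2 g3 w hw => (h.le m g1 g2 g3 w hw).trans (Real.exp_le_exp.2 ?_),
    fun m g1 g2 g3 => le_trans ?_ (h.low m g1 g2 g3)⟩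
  · have : 0 ≤ Real.log (m : ℝ) ^ s := pow_nonneg (Real.log_natCast_nonneg m) s
    nlinarith
  · apply mul_le_mul_of_nonneg_left _ (by positivity)
    apply Real.exp_le_exp.2
    have : 0 ≤ Real.log (m : ℝ) ^ s := pow_nonneg (Real.log_natCast_nonneg m) s
    nlinarith

lemma mm_nonneg {D : Set (ℤ × ℤ)} {f : List Dir → ℝ} (hf : ∀ w, 0 ≤ f w) (m : ℕ) : 0 ≤ mm D f m :=
  sum_nonneg (fun w _ => fw_nonneg (fun _ _ => hf) w)

/-- comparison of the masses of two weights -/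
lemma mm_low {A : ℝ} {s n : ℕ} {D : Set (ℤ × ℤ)} {ρ : ℤ × ℤ → ℝ} (hρ : ∀ x, 0 ≤ ρ x)
    {Y : List Dir → ℝ} (hS : Sz A s n (fun x => ρ x ≠ 0) Y) {m : ℕ} (g1 : n ≤ 2 * m)
    (g2 : m ≤ 2 * n + 2) (g3 : m % 2 = n % 2) :
    Real.exp (-(A * Real.log m ^ s)) * mm D (wgt ρ (fun _ => 0)) m ≤ mm D (wgt ρ Y) m := by
  rw [mm_eq, mm_eq]
  unfold ms
  rw [mul_sum]
  refine sum_le_sum (fun w hw => ?_)
  split_ifs
  · unfold wgt
    by_cases hq : ρ (wX w, wY w) = 0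
    · rw [hq]; simp
    · have h1 := (abs_le.1 (hS m g1 g2 g3 w hw hq)).1
      rw [Real.exp_zero, mul_one, mul_comm]
      exact mul_le_mul_of_nonneg_left (Real.exp_le_exp.2 h1) (hρ _)
  · simp

/-- the weights form a family -/
theorem base_fam (A : ℝ) (hA : 0 ≤ A) (s : ℕ) (hs : 2 ≤ s) : ∃ E : ℝ, 0 ≤ E ∧
    ∀ (L : ℝ), 0 ≤ L → ∀ (D : Set (ℤ × ℤ)) (ρ : ℤ × ℤ → ℝ) (Y : List Dir → ℝ) (n : ℕ), 3 ≤ n →
    Base A s D ρ n → Infl L n (fun x => ρ x ≠ 0) Y → Bd L n (fun x => ρ x ≠ 0) Y →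
    Sz A s n (fun x => ρ x ≠ 0) Y →
    FamE (2 * A) (Real.exp L * L) (E * Real.log n ^ s) s ({()} : Finset Unit) (fun _ => D)
      (fun _ => wgt ρ Y) n := by
  obtain ⟨E, hE, hdom⟩ := famE_dom (ι := Unit) (2 * A) (by positivity) hs
  have hmu := H981.mu_pos
  refine ⟨E, hE, fun L hL D ρ Y n hn hB hI hBd hS => ?_⟩
  refine hdom _ _ _ _ n hn (fun _ _ => wgt_nonneg hB.nonneg Y) (fun m g1 g2 g3 =>
    ⟨fun _ => Real.exp (2 * A * Real.log m ^ s), fun θ _ w hw => ?_, ?_⟩) (fun m g1 g2 g3 => ?_)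
    (fun m g1 g2 g3 => ?_)
  · unfold wgt
    by_cases hq : ρ (wX w, wY w) = 0
    · rw [hq, zero_mul]; exact (Real.exp_pos _).le
    · have h1 := (abs_le.1 (hS m g1 g2 g3 w hw hq)).2
      calc ρ (wX w, wY w) * Real.exp (Y w) ≤ Real.exp (A * Real.log m ^ s) *
            Real.exp (A * Real.log m ^ s) := by
            apply mul_le_mul (hB.le m g1 g2 g3 w hw) (Real.exp_le_exp.2 h1) (Real.exp_pos _).le
              (Real.exp_pos _).le
        _ = _ := by rw [← Real.exp_add]; congr 1; ring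
  · rw [sum_singleton]
  · have h1 := hB.low m g1 g2 g3
    have h2 := mm_low (D := D) hB.nonneg hS g1 (by omega) g3
    calc H981.mu ^ m * Real.exp (-(2 * A * Real.log m ^ s))
        = Real.exp (-(A * Real.log m ^ s)) * (H981.mu ^ m * Real.exp (-(A * Real.log m ^ s))) := by
          rw [show -(2 * A * Real.log (m : ℝ) ^ s) = -(A * Real.log (m : ℝ) ^ s) +
            -(A * Real.log (m : ℝ) ^ s) by ring, Real.exp_add]; ring
      _ ≤ Real.exp (-(A * Real.log m ^ s)) * mm D (wgt ρ (fun _ => 0)) m := by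
          exact mul_le_mul_of_nonneg_left h1 (Real.exp_pos _).le
      _ ≤ _ := h2
  · rw [mom_fw, mom_fw, sum_singleton, sum_singleton, sum_singleton]
    exact en_wgt hB.nonneg hL hI hBd D g1 g2 g3

/-- **ratio theorem** -/
theorem ratioS (A L : ℝ) (hA : 0 ≤ A) (hL : 0 ≤ L) (s : ℕ) (hs : 2 ≤ s) : ∃ K : ℝ, 0 ≤ K ∧
    ∀ (D : Set (ℤ × ℤ)) (ρ : ℤ × ℤ → ℝ) (Y : List Dir → ℝ) (n : ℕ), 3 ≤ n →
    Base A s D ρ n → Infl L n (fun x => ρ x ≠ 0) Y → Bd L n (fun x => ρ x ≠ 0) Y →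
    Sz A s n (fun x => ρ x ≠ 0) Y →
    |mm D (wgt ρ Y) (n + 2) / (H981.mu ^ 2 * mm D (wgt ρ Y) n) - 1| ≤
      K * (Real.log n ^ s / √n) := by
  obtain ⟨E, hE, hfam⟩ := base_fam A hA s hs
  obtain ⟨K, hK, h⟩ := mainE_dom (ι := Unit) (2 * A) (Real.exp L * L) (by positivity)
    (by positivity) s hs
  refine ⟨K, hK, fun D ρ Y n hn hB hI hBd hS => ?_⟩
  have hF := hfam L hL D ρ Y n hn hB hI hBd hS
  exact h _ _ _ n hn hF.nonneg hF.le hF.low hF.lip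

/-- **merging** -/
theorem mergeS (A L : ℝ) (hA : 0 ≤ A) (hL : 0 ≤ L) (s : ℕ) (hs : 2 ≤ s) : ∃ K : ℝ, 0 ≤ K ∧
    ∀ (D : Set (ℤ × ℤ)) (ρ : ℤ × ℤ → ℝ) (Y : List Dir → ℝ) (n : ℕ), 3 ≤ n →
    Base A s D ρ n → Infl L n (fun x => ρ x ≠ 0) Y → Bd L n (fun x => ρ x ≠ 0) Y →
    Sz A s n (fun x => ρ x ≠ 0) Y →
    ∀ (L1 : ℝ) (f : List Dir → ℝ), 0 ≤ L1 → (∀ w, 0 ≤ f w ∧ f w ≤ 1) →
    Infl L1 n (fun x => ρ x ≠ 0) f →
    |mm D (fun w => wgt ρ Y w * f w) (n + 2) / mm D (wgt ρ Y) (n + 2) -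
      mm D (fun w => wgt ρ Y w * f w) n / mm D (wgt ρ Y) n| ≤
      K * √((Real.log n ^ s + L1) * Real.log n ^ s / n) := by
  obtain ⟨E, hE, hfam⟩ := base_fam A hA s hs
  obtain ⟨K, hK, h⟩ := mergeE (ι := Unit) (2 * A) (by positivity) s hs
  obtain ⟨a, ha⟩ : ∃ a : ℝ, a = Real.exp L * L := ⟨_, rfl⟩
  have ha0 : 0 ≤ a := by rw [ha]; positivity
  refine ⟨K * √(1 + 2 * a + E + 1), by positivity,
    fun D ρ Y n hn hB hI hBd hS L1 f hL1 hf hfi => ?_⟩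
  have hF := hfam L hL D ρ Y n hn hB hI hBd hS
  rw [← ha] at hF
  have hn' : (3 : ℝ) ≤ n := by exact_mod_cast hn
  have hnp : (0 : ℝ) < n := by linarith
  have hl1 : 1 ≤ Real.log n := RATE.one_le_log hn
  obtain ⟨l, hl⟩ : ∃ l : ℝ, l = Real.log n ^ s := ⟨_, rfl⟩
  have hls : 1 ≤ l := by rw [hl]; exact one_le_pow₀ hl1
  have h1 := h a (a + L1) (E * Real.log n ^ s) ha0 (by positivity) (by positivity) {()} (fun _ => D)
    (fun _ => wgt ρ Y) (fun _ w => wgt ρ Y w * f w) n hn hF (fun θ _ w =>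
      ⟨mul_nonneg (wgt_nonneg hB.nonneg Y w) (hf w).1,
        mul_le_of_le_one_right (wgt_nonneg hB.nonneg Y w) (hf w).2⟩)
    (fun m g1 g2 g3 => by
      rw [mom_fw, mom_fw, sum_singleton, sum_singleton, sum_singleton, ha]
      exact en_wgt_mul hB.nonneg hL hI hBd hf hL1 hfi D g1 g2 g3)
  refine h1.trans ?_
  rw [← hl, mul_assoc]
  apply mul_le_mul_of_nonneg_left _ hK
  rw [← Real.sqrt_mul (by positivity)]
  apply Real.sqrt_le_sqrt
  rw [← mul_div_assoc]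
  apply div_le_div_of_nonneg_right _ hnp.le
  rw [← mul_assoc]
  apply mul_le_mul_of_nonneg_right _ (by linarith)
  nlinarith [mul_nonneg ha0 hL1, mul_nonneg hE hL1]

lemma quot_s' (s : ℕ) {K1 K2 : ℝ} (hK1 : 0 ≤ K1) (hK2 : 0 ≤ K2) : ∃ K : ℝ, 0 ≤ K ∧ ∀ n : ℕ, 3 ≤ n →
    ∀ x y : ℝ, 0 ≤ x → |x - 1| ≤ K1 * (Real.log n ^ s / √n) → |y - 1| ≤ K1 * (Real.log n ^ s / √n) →
    Real.exp (-(K2 * Real.log n ^ s)) ≤ y → |x / y - 1| ≤ K * (Real.log n ^ s / √n) := by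
  obtain ⟨n0, hn0⟩ := exists_big (2 * K1 ^ 2) (by positivity) 0 (2 * s)
  obtain ⟨M, hM⟩ : ∃ M : ℝ, M = (1 + K1 * Real.log n0 ^ s) * Real.exp (K2 * Real.log n0 ^ s) + 1 := ⟨_, rfl⟩
  have hlog0 : 0 ≤ Real.log (n0 : ℝ) := Real.log_natCast_nonneg n0
  have hM0 : 0 ≤ M := by rw [hM]; positivity
  refine ⟨4 * K1 + M * √n0, by positivity, fun n hn x y hx0 hx hy hlow => ?_⟩
  have hn' : (3 : ℝ) ≤ n := by exact_mod_cast hn
  have hnp : (0 : ℝ) < n := by linarith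
  have hl1 : 1 ≤ Real.log n := RATE.one_le_log hn
  have hsq : 0 < √(n : ℝ) := Real.sqrt_pos.2 hnp
  obtain ⟨ε, hε⟩ : ∃ ε : ℝ, ε = Real.log n ^ s / √n := ⟨_, rfl⟩
  have hε0 : 0 < ε := by rw [hε]; positivity
  rw [← hε] at hx hy ⊢
  have hyp : 0 < y := lt_of_lt_of_le (Real.exp_pos _) hlow
  by_cases hbig : n0 ≤ n
  · have h1 := hn0 n hbig
    have h2 : K1 * ε ≤ 1 / 2 := by
      rw [hε, mul_div_assoc', div_le_iff₀ hsq]
      have h3 : (2 * (K1 * Real.log n ^ s)) ^ 2 ≤ √(n : ℝ) ^ 2 := by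
        rw [Real.sq_sqrt hnp.le]
        have e : (2 * (K1 * Real.log n ^ s)) ^ 2 = 2 * (2 * K1 ^ 2 * Real.log n ^ (2 * s)) := by
          rw [mul_comm 2 s, pow_mul]; ring
        rw [e]
        linarith
      have h4 := abs_le_of_sq_le_sq' h3 hsq.le
      linarith [h4.2]
    have h5 : 1 / 2 ≤ y := by
      have := (abs_le.1 hy).1
      linarith
    have e : x / y - 1 = ((x - 1) - (y - 1)) / y := by field_simp; ring
    rw [e, abs_div, abs_of_pos hyp, div_le_iff₀ hyp]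
    have h6 : |(x - 1) - (y - 1)| ≤ 2 * (K1 * ε) := by
      refine (abs_sub _ _).trans ?_
      linarith
    have h7 : 0 ≤ M * √n0 := by positivity
    calc |(x - 1) - (y - 1)| ≤ 2 * (K1 * ε) := h6
      _ = (4 * K1) * ε * (1 / 2) := by ring
      _ ≤ (4 * K1 + M * √n0) * ε * y := by
          apply mul_le_mul _ h5 (by norm_num) (by positivity)
          apply mul_le_mul_of_nonneg_right _ hε0.le
          linarith
  · push Not at hbig
    have hnn0 : (n : ℝ) ≤ n0 := by exact_mod_cast hbig.le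
    have hlog : Real.log n ≤ Real.log n0 := Real.log_le_log hnp hnn0
    have h1 : ε ≤ Real.log n0 ^ s := by
      rw [hε, div_le_iff₀ hsq]
      have h2 : Real.log n ^ s ≤ Real.log n0 ^ s := pow_le_pow_left₀ (by linarith) hlog s
      have h3 : 1 ≤ √(n : ℝ) := by
        rw [← Real.sqrt_one]; exact Real.sqrt_le_sqrt (by linarith)
      have h4 : 0 ≤ Real.log (n0 : ℝ) ^ s := pow_nonneg (Real.log_natCast_nonneg _) s
      nlinarith
    have h2 : x ≤ 1 + K1 * Real.log n0 ^ s := by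
      have := (abs_le.1 hx).2
      have h3 : K1 * ε ≤ K1 * Real.log n0 ^ s := mul_le_mul_of_nonneg_left h1 hK1
      linarith
    have h3 : 1 / y ≤ Real.exp (K2 * Real.log n0 ^ s) := by
      rw [div_le_iff₀ hyp]
      calc (1 : ℝ) = Real.exp (K2 * Real.log n0 ^ s) * Real.exp (-(K2 * Real.log n0 ^ s)) := by
            rw [← Real.exp_add, add_neg_cancel, Real.exp_zero]
        _ ≤ Real.exp (K2 * Real.log n0 ^ s) * Real.exp (-(K2 * Real.log n ^ s)) := by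
            gcongr
        _ ≤ _ := by gcongr
    have h4 : |x / y - 1| ≤ M := by
      have h5 : 0 ≤ x / y := by positivity
      have h6 : x / y ≤ (1 + K1 * Real.log n0 ^ s) * Real.exp (K2 * Real.log n0 ^ s) := by
        rw [div_eq_mul_one_div]
        exact mul_le_mul h2 h3 (by positivity) (by positivity)
      rw [abs_le, hM]
      constructor <;> linarith [Real.exp_pos (K2 * Real.log (n0 : ℝ) ^ s)]
    have h5 : 1 ≤ √(n0 : ℝ) * ε := by
      rw [hε, mul_div_assoc', le_div_iff₀ hsq, one_mul]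
      have h6 : 1 ≤ Real.log n ^ s := one_le_pow₀ hl1
      calc √(n : ℝ) ≤ √(n0 : ℝ) * 1 := by rw [mul_one]; exact Real.sqrt_le_sqrt hnn0
        _ ≤ _ := by gcongr
    have h6 : 0 ≤ 4 * K1 * ε := by positivity
    nlinarith

/-- a-priori bounds of the mass of the weight `ρ` -/
lemma mass_bounds (A : ℝ) (hA : 0 ≤ A) (s : ℕ) (hs : 2 ≤ s) : ∃ K : ℝ, 0 ≤ K ∧
    ∀ (D : Set (ℤ × ℤ)) (ρ : ℤ × ℤ → ℝ) (n : ℕ), 3 ≤ n → Base A s D ρ n →
    0 < mm D (wgt ρ (fun _ => 0)) n ∧ 0 < mm D (wgt ρ (fun _ => 0)) (n + 2) ∧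
    Real.exp (-(K * Real.log n ^ s)) ≤
      mm D (wgt ρ (fun _ => 0)) (n + 2) / (H981.mu ^ 2 * mm D (wgt ρ (fun _ => 0)) n) := by
  obtain ⟨K0, hK0, hup⟩ := card_upper hs
  have hmu := H981.mu_pos
  refine ⟨A * 2 ^ s + A + K0, by positivity, fun D ρ n hn hB => ?_⟩
  have h1 := hB.low n (by omega) (by omega) rfl
  have h2 := hB.low (n + 2) (by omega) (by omega) (by omega)
  have p1 : 0 < mm D (wgt ρ (fun _ => 0)) n := lt_of_lt_of_le (by positivity) h1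
  have p2 : 0 < mm D (wgt ρ (fun _ => 0)) (n + 2) := lt_of_lt_of_le (by positivity) h2
  refine ⟨p1, p2, ?_⟩
  have hl0 : 0 ≤ Real.log (n : ℝ) := Real.log_natCast_nonneg n
  have h3 : mm D (wgt ρ (fun _ => 0)) n ≤ Real.exp (A * Real.log n ^ s) *
      (H981.mu ^ n * Real.exp (K0 * Real.log n ^ s)) := by
    rw [mm_eq]
    unfold ms
    calc ∑ w ∈ SW n, (if inD D w then wgt ρ (fun _ => 0) w else 0)
        ≤ ∑ w ∈ SW n, Real.exp (A * Real.log n ^ s) := by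
          refine sum_le_sum (fun w hw => ?_)
          split_ifs
          · unfold wgt
            rw [Real.exp_zero, mul_one]
            exact hB.le n (by omega) (by omega) rfl w hw
          · exact (Real.exp_pos _).le
      _ = Real.exp (A * Real.log n ^ s) * ((SW n).card : ℝ) := by
          rw [sum_const, nsmul_eq_mul, mul_comm]
      _ ≤ _ := mul_le_mul_of_nonneg_left (hup n (by omega)) (Real.exp_pos _).le
  have h4 : Real.log ((n + 2 : ℕ) : ℝ) ^ s ≤ 2 ^ s * Real.log n ^ s := by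
    rw [← mul_pow]
    exact pow_le_pow_left₀ (Real.log_natCast_nonneg _) (log_add_two (by omega)) s
  rw [le_div_iff₀ (by positivity)]
  calc Real.exp (-((A * 2 ^ s + A + K0) * Real.log n ^ s)) * (H981.mu ^ 2 * mm D (wgt ρ (fun _ => 0)) n)
      ≤ Real.exp (-((A * 2 ^ s + A + K0) * Real.log n ^ s)) * (H981.mu ^ 2 *
        (Real.exp (A * Real.log n ^ s) * (H981.mu ^ n * Real.exp (K0 * Real.log n ^ s)))) := by gcongr
    _ = H981.mu ^ (n + 2) * Real.exp (-(A * (2 ^ s * Real.log n ^ s))) := by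
        rw [show -(A * (2 ^ s * Real.log (n : ℝ) ^ s)) =
          -((A * 2 ^ s + A + K0) * Real.log (n : ℝ) ^ s) + A * Real.log (n : ℝ) ^ s +
          K0 * Real.log (n : ℝ) ^ s by ring, Real.exp_add, Real.exp_add, pow_add]; ring
    _ ≤ H981.mu ^ (n + 2) * Real.exp (-(A * Real.log ((n + 2 : ℕ) : ℝ) ^ s)) := by
        apply mul_le_mul_of_nonneg_left _ (by positivity)
        apply Real.exp_le_exp.2
        have := mul_le_mul_of_nonneg_left h4 hA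
        linarith
    _ ≤ _ := h2

/-- **moments**: the mean of `exp Y` under the weight `ρ` -/
theorem momentS (A L : ℝ) (hA : 0 ≤ A) (hL : 0 ≤ L) (s : ℕ) (hs : 2 ≤ s) : ∃ K : ℝ, 0 ≤ K ∧
    ∀ (D : Set (ℤ × ℤ)) (ρ : ℤ × ℤ → ℝ) (Y : List Dir → ℝ) (n : ℕ), 3 ≤ n →
    Base A s D ρ n → Infl L n (fun x => ρ x ≠ 0) Y → Bd L n (fun x => ρ x ≠ 0) Y →
    Sz A s n (fun x => ρ x ≠ 0) Y →
    |(mm D (wgt ρ Y) (n + 2) / mm D (wgt ρ (fun _ => 0)) (n + 2)) /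
      (mm D (wgt ρ Y) n / mm D (wgt ρ (fun _ => 0)) n) - 1| ≤ K * (Real.log n ^ s / √n) := by
  obtain ⟨K1, hK1, h⟩ := ratioS A L hA hL s hs
  obtain ⟨K2, hK2, hb⟩ := mass_bounds A hA s hs
  obtain ⟨K, hK, hq⟩ := quot_s' s hK1 hK2
  have hmu := H981.mu_pos
  refine ⟨K, hK, fun D ρ Y n hn hB hI hBd hS => ?_⟩
  have h1 := h D ρ Y n hn hB hI hBd hS
  have h2 := h D ρ (fun _ => 0) n hn hB (Infl.zero.mono hL) (fun m _ _ _ w _ _ p _ => by
    rw [sub_self, abs_zero]; exact hL) (fun m _ _ _ w _ _ => by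
    rw [abs_zero]
    have : 0 ≤ Real.log (m : ℝ) ^ s := pow_nonneg (Real.log_natCast_nonneg m) s
    positivity)
  obtain ⟨p1, p2, h3⟩ := hb D ρ n hn hB
  have q1 : 0 < mm D (wgt ρ Y) n := by
    refine lt_of_lt_of_le ?_ (mm_low (D := D) hB.nonneg hS (by omega) (by omega) rfl)
    positivity
  have q2 : 0 < mm D (wgt ρ Y) (n + 2) := by
    refine lt_of_lt_of_le ?_ (mm_low (D := D) hB.nonneg hS (m := n + 2) (by omega) (by omega) (by omega))
    positivity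
  have h4 := hq n hn _ _ (by positivity) h1 h2 h3
  have e : (mm D (wgt ρ Y) (n + 2) / mm D (wgt ρ (fun _ => 0)) (n + 2)) /
      (mm D (wgt ρ Y) n / mm D (wgt ρ (fun _ => 0)) n) =
      (mm D (wgt ρ Y) (n + 2) / (H981.mu ^ 2 * mm D (wgt ρ Y) n)) /
      (mm D (wgt ρ (fun _ => 0)) (n + 2) / (H981.mu ^ 2 * mm D (wgt ρ (fun _ => 0)) n)) := by
    field_simp
  rw [e]
  exact h4

end Pool.Agent.X44.GR.S
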