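import Pool.Agent.X44.GR.S2

/-!
# Maxima over pairs of sites: diameter, widths, radii
-/

set_option autoImplicit false
set_option linter.unusedVariables false

namespace Pool.Agent.X44.GR.S

open Finset Pool.Agent.H976R2 Pool.Agent.H739K Pool.Agent.X44.GR
open scoped Classical
open Pool.Agent.H976R2.Lip (PP dv PP_inj PP_ins_le PP_ins_gt)
open Pool.Agent.X44.GR.T (ins_of_bump PP_del_le PP_del_gt)

/-- the maximum of `h` over the pairs of sites of the walk -/
noncomputable def prs (h : ℤ × ℤ → ℤ × ℤ → ℝ) (w : List Dir) : ℝ :=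
  ⨆ x : Fin (w.length + 1) × Fin (w.length + 1), h (PP w x.1) (PP w x.2)

lemma bdd_prs (h : ℤ × ℤ → ℤ × ℤ → ℝ) (w : List Dir) :
    BddAbove (Set.range (fun x : Fin (w.length + 1) × Fin (w.length + 1) => h (PP w x.1) (PP w x.2))) :=
  (Set.finite_range _).bddAbove

lemma le_prs (h : ℤ × ℤ → ℤ × ℤ → ℝ) (w : List Dir) {k l : ℕ} (hk : k ≤ w.length) (hl : l ≤ w.length) :
    h (PP w k) (PP w l) ≤ prs h w :=
  le_ciSup (bdd_prs h w) ((⟨k, by omega⟩, ⟨l, by omega⟩) : Fin (w.length + 1) × Fin (w.length + 1))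

lemma prs_mem (h : ℤ × ℤ → ℤ × ℤ → ℝ) (w : List Dir) :
    ∃ k ≤ w.length, ∃ l ≤ w.length, prs h w = h (PP w k) (PP w l) := by
  obtain ⟨x, hx⟩ := exists_eq_ciSup_of_finite
    (f := fun x : Fin (w.length + 1) × Fin (w.length + 1) => h (PP w x.1) (PP w x.2))
  exact ⟨x.1, by have := x.1.2; omega, x.2, by have := x.2.2; omega, hx.symm⟩

/-- the index in the walk with the bump -/
lemma exists_index {w : List Dir} {i : ℕ} (h : i ∈ bumps w) {k : ℕ} (hk : k ≤ (del w i).length) :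
    ∃ k' ≤ w.length, PP (del w i) k = PP w k' := by
  obtain ⟨h1, h2, h3, h4⟩ := ins_of_bump h
  by_cases hki : k ≤ i
  · exact ⟨k, by omega, PP_del_le h hki⟩
  · exact ⟨k + 2, by omega, PP_del_gt h (by omega)⟩

/-- the index in the walk without the bump -/
lemma exists_index' {w : List Dir} {i : ℕ} (h : i ∈ bumps w) {k : ℕ} (hk : k ≤ w.length)
    (h1 : k ≠ i + 1) (h2 : k ≠ i + 2) : ∃ k' ≤ (del w i).length, PP w k = PP (del w i) k' := by
  obtain ⟨g1, g2, g3, g4⟩ := ins_of_bump h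
  by_cases hki : k ≤ i
  · exact ⟨k, by omega, (PP_del_le h hki).symm⟩
  · refine ⟨k - 2, by omega, ?_⟩
    rw [PP_del_gt h (by omega), show k - 2 + 2 = k by omega]

lemma prs_del_le (h : ℤ × ℤ → ℤ × ℤ → ℝ) {w : List Dir} {i : ℕ} (hb : i ∈ bumps w) :
    prs h (del w i) ≤ prs h w := by
  apply ciSup_le
  intro x
  obtain ⟨k, hk, e1⟩ := exists_index hb (k := x.1) (by have := x.1.2; omega)
  obtain ⟨l, hl, e2⟩ := exists_index hb (k := x.2) (by have := x.2.2; omega)
  rw [e1, e2]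
  exact le_prs h w hk hl

/-- at most four bumps are pivotal -/
lemma prs_card (h : ℤ × ℤ → ℤ × ℤ → ℝ) (w : List Dir) :
    ((bumps w).filter (fun i => prs h (del w i) ≠ prs h w)).card ≤ 4 := by
  obtain ⟨k, hk, l, hl, hg⟩ := prs_mem h w
  have hsub : (bumps w).filter (fun i => prs h (del w i) ≠ prs h w) ⊆
      {k - 1, k - 2} ∪ {l - 1, l - 2} := by
    intro i hi
    rw [mem_filter] at hi
    obtain ⟨hb, hne⟩ := hi
    rw [mem_union, mem_insert, mem_singleton, mem_insert, mem_singleton]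
    by_contra hc
    push Not at hc
    apply hne
    apply le_antisymm (prs_del_le h hb)
    obtain ⟨g1, g2, g3, g4⟩ := ins_of_bump hb
    obtain ⟨k', hk', e1⟩ := exists_index' hb hk (by omega) (by omega)
    obtain ⟨l', hl', e2⟩ := exists_index' hb hl (by omega) (by omega)
    rw [hg, e1, e2]
    exact le_prs h _ hk' hl'
  refine (card_le_card hsub).trans ((card_union_le _ _).trans ?_)
  have h1 : ({k - 1, k - 2} : Finset ℕ).card ≤ 2 := card_le_two
  have h2 : ({l - 1, l - 2} : Finset ℕ).card ≤ 2 := card_le_two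
  omega

/-- the gauges -/
structure Gauge (h : ℤ × ℤ → ℤ × ℤ → ℝ) : Prop where
  zero : h 0 0 ≤ 1
  lip : ∀ x y x' y' : ℤ × ℤ, |h x y - h x' y'| ≤
    |(x.1 : ℝ) - x'.1| + |(x.2 : ℝ) - x'.2| + |(y.1 : ℝ) - y'.1| + |(y.2 : ℝ) - y'.2|

/-- the size -/
noncomputable def siz (h : ℤ × ℤ → ℤ × ℤ → ℝ) (w : List Dir) : ℝ := max 1 (prs h w)

lemma one_le_siz (h : ℤ × ℤ → ℤ × ℤ → ℝ) (w : List Dir) : 1 ≤ siz h w := le_max_left _ _

lemma PP_l1 (w : List Dir) (k : ℕ) : |(PP w k).1| + |(PP w k).2| ≤ (k : ℤ) := by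
  have h2 : ∀ u : List Dir, |wX u| + |wY u| ≤ (u.length : ℤ) := by
    intro u
    induction u with
    | nil => simp
    | cons a u ih =>
      rw [wX_cons, wY_cons, List.length_cons]
      have h3 : |dx a| + |dy a| = 1 := by cases a <;> simp [dx, dy]
      have h4 := abs_add_le (dx a) (wX u)
      have h5 := abs_add_le (dy a) (wY u)
      push_cast
      linarith
  have h3 := h2 (w.take k)
  have h4 : (w.take k).length ≤ k := by rw [List.length_take]; omega
  unfold PP
  have h5 : ((w.take k).length : ℤ) ≤ k := by exact_mod_cast h4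
  exact h3.trans h5

lemma siz_le {h : ℤ × ℤ → ℤ × ℤ → ℝ} (hh : Gauge h) (w : List Dir) : siz h w ≤ 1 + 2 * w.length := by
  apply max_le
  · have : (0 : ℝ) ≤ w.length := Nat.cast_nonneg _
    linarith
  · obtain ⟨k, hk, l, hl, e⟩ := prs_mem h w
    rw [e]
    have h1 := hh.lip (PP w k) (PP w l) 0 0
    have h2 := hh.zero
    have h3 := (le_abs_self _).trans h1
    simp only [Prod.fst_zero, Prod.snd_zero, Int.cast_zero, sub_zero] at h3
    have h4 : |((PP w k).1 : ℝ)| + |((PP w k).2 : ℝ)| ≤ k := by exact_mod_cast PP_l1 w k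
    have h5 : |((PP w l).1 : ℝ)| + |((PP w l).2 : ℝ)| ≤ l := by exact_mod_cast PP_l1 w l
    have h6 : (k : ℝ) ≤ w.length := by exact_mod_cast hk
    have h7 : (l : ℝ) ≤ w.length := by exact_mod_cast hl
    linarith

lemma dv_l1 (e : Dir) : |((dv e).1 : ℝ)| + |((dv e).2 : ℝ)| = 1 := by
  unfold dv
  cases e <;> simp [dx, dy]

/-- every site of the walk with a bump is close to a site of the walk without it -/
lemma near_ins {w : List Dir} {i : ℕ} {e : Dir} (hi : i < w.length) {k : ℕ} (hk : k ≤ w.length + 2) :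
    ∃ k' ≤ w.length, |((PP (ins w i e) k).1 : ℝ) - (PP w k').1| +
      |((PP (ins w i e) k).2 : ℝ) - (PP w k').2| ≤ 1 := by
  rcases PP_ins_cases (e := e) hi k hk with ⟨h, h'⟩ | h | h | ⟨h, h'⟩
  · exact ⟨k, by omega, by rw [h']; simp⟩
  · refine ⟨i, by omega, ?_⟩
    rw [h, PP_new1 hi]
    simp only [Prod.fst_add, Prod.snd_add, Int.cast_add, add_sub_cancel_left]
    exact (dv_l1 e).le
  · refine ⟨i + 1, by omega, ?_⟩
    have e1 : PP w i + dv e + dv (lt w i) = PP w (i + 1) + dv e := by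
      rw [Lip.PP_succ w i hi]; ring
    rw [h, PP_new2 hi, e1]
    simp only [Prod.fst_add, Prod.snd_add, Int.cast_add, add_sub_cancel_left]
    exact (dv_l1 e).le
  · exact ⟨k - 2, by omega, by rw [h']; simp⟩

lemma prs_ins_le {h : ℤ × ℤ → ℤ × ℤ → ℝ} (hh : Gauge h) {w : List Dir} {i : ℕ} {e : Dir}
    (hi : i < w.length) : prs h (ins w i e) ≤ prs h w + 2 := by
  have hl := Lip.ins_length w i e hi
  obtain ⟨k, hk, l, hl', e1⟩ := prs_mem h (ins w i e)
  obtain ⟨k', hk', n1⟩ := near_ins (e := e) hi (k := k) (by omega)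
  obtain ⟨l', hl'', n2⟩ := near_ins (e := e) hi (k := l) (by omega)
  have h1 := hh.lip (PP (ins w i e) k) (PP (ins w i e) l) (PP w k') (PP w l')
  have h2 := le_prs h w hk' hl''
  have h3 := (le_abs_self _).trans h1
  rw [e1]
  linarith

lemma log_siz_step {h : ℤ × ℤ → ℤ × ℤ → ℝ} (hh : Gauge h) {w : List Dir} {p : ℕ × Dir}
    (hp : p ∈ adm w) :
    |Real.log (siz h (ins w p.1 p.2)) - Real.log (siz h w)| ≤ 2 := by
  have hp' : (p.1, p.2) ∈ adm w := hp
  have hi := (H976R2.mem_adm.mp hp').1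
  have hb : p.1 ∈ bumps (ins w p.1 p.2) := by
    refine H976R2.mem_bumps.mpr ⟨?_, ?_, ?_⟩
    · rw [length_ins p.2 hi]; omega
    · rw [lt_ins_2 hi, lt_ins_0 hi]
    · rw [lt_ins_0 hi, lt_ins_1 hi]; exact (H976R2.mem_adm.mp hp').2.1
  have h1 : siz h w ≤ siz h (ins w p.1 p.2) := by
    have h2 := prs_del_le h hb
    rw [del_ins hi] at h2
    exact max_le_max le_rfl h2
  have h2 : siz h (ins w p.1 p.2) ≤ siz h w + 2 := by
    apply max_le
    · linarith [one_le_siz h w]
    · have := prs_ins_le hh (w := w) (e := p.2) hi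
      have h3 : prs h w ≤ siz h w := le_max_right _ _
      linarith
  have p1 := one_le_siz h w
  rw [abs_of_nonneg (sub_nonneg.2 (Real.log_le_log (by linarith) h1)),
    ← Real.log_div (by linarith) (by linarith)]
  have h4 : siz h (ins w p.1 p.2) / siz h w ≤ 3 := by
    rw [div_le_iff₀ (by linarith)]
    linarith
  have h5 := Real.log_le_log (div_pos (by linarith [one_le_siz h (ins w p.1 p.2)]) (by linarith)) h4
  have h6 := Real.log_le_sub_one_of_pos (show (0 : ℝ) < 3 by norm_num)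
  linarith

/-- the logarithm of a size has small influence -/
theorem infl_siz {h : ℤ × ℤ → ℤ × ℤ → ℝ} (hh : Gauge h) (n : ℕ) (Q : ℤ × ℤ → Prop) :
    Infl 8 n Q (fun w => Real.log (siz h w)) := by
  refine ⟨fun _ _ => 0, fun w w' => |Real.log (siz h w') - Real.log (siz h w)|, fun _ _ => le_rfl,
    fun _ _ => abs_nonneg _, fun m g1 g2 g3 => ⟨fun w hw hq p hp => by simp, fun w hw hq => by simp,
      fun w hw hq => ?_⟩⟩
  have h1 : ∀ i ∈ bumps w, |Real.log (siz h w) - Real.log (siz h (del w i))| ≤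
      if prs h (del w i) ≠ prs h w then (2 : ℝ) else 0 := by
    intro i hi
    split_ifs with hne
    · obtain ⟨g1, g2, g3, g4⟩ := ins_of_bump hi
      have hs : Saw w := (mem_SW.mp hw).2
      have hp : (i, lt w i) ∈ adm (del w i) := by
        refine H976R2.mem_adm.mpr ⟨g3, ?_, by rw [g4]; exact hs⟩
        rw [lt_del g1]
        exact (H976R2.mem_bumps.mp hi).2.2
      have := log_siz_step hh hp
      simp only at this
      rw [g4] at this
      exact this
    · push Not at hne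
      unfold siz
      rw [hne, sub_self, abs_zero]
  refine (sum_le_sum h1).trans ?_
  rw [← sum_filter, sum_const, nsmul_eq_mul]
  have h2 : (((bumps w).filter (fun i => prs h (del w i) ≠ prs h w)).card : ℝ) ≤ 4 := by
    exact_mod_cast prs_card h w
  linarith

theorem bd_siz {h : ℤ × ℤ → ℤ × ℤ → ℝ} (hh : Gauge h) (n : ℕ) (Q : ℤ × ℤ → Prop) :
    Bd 8 n Q (fun w => Real.log (siz h w)) := fun m g1 g2 g3 w hw hq p hp =>
  (log_siz_step hh hp).trans (by norm_num)

/-- the constant in `3 log m ≤ A (log m)^s` -/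
noncomputable def Ac (s : ℕ) : ℝ := 3 / Real.log 2 ^ (s - 1)

lemma Ac_nonneg (s : ℕ) : 0 ≤ Ac s := by
  have hl2 : 0 < Real.log 2 := Real.log_pos (by norm_num)
  unfold Ac
  positivity

lemma three_log_le {s : ℕ} (hs : 2 ≤ s) {m : ℕ} (hm : 2 ≤ m) : 3 * Real.log m ≤ Ac s * Real.log m ^ s := by
  have hl2 : 0 < Real.log 2 := Real.log_pos (by norm_num)
  have hlm := log_two_le hm
  unfold Ac
  rw [div_mul_eq_mul_div, le_div_iff₀ (by positivity)]
  obtain ⟨t, rfl⟩ : ∃ t, s = t + 1 := ⟨s - 1, by omega⟩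
  rw [show t + 1 - 1 = t by omega, pow_succ]
  have h3 : Real.log 2 ^ t ≤ Real.log (m : ℝ) ^ t := pow_le_pow_left₀ hl2.le hlm t
  have h4 : 0 ≤ 3 * Real.log (m : ℝ) := by linarith
  nlinarith

theorem sz_siz {h : ℤ × ℤ → ℤ × ℤ → ℝ} (hh : Gauge h) {s : ℕ} (hs : 2 ≤ s) {n : ℕ} (hn : 3 ≤ n)
    (Q : ℤ × ℤ → Prop) : Sz (Ac s) s n Q (fun w => Real.log (siz h w)) := by
  intro m g1 g2 g3 w hw hq
  have hl := (mem_SW.mp hw).1
  have hm : 2 ≤ m := by omega
  have hm' : (2 : ℝ) ≤ m := by exact_mod_cast hm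
  have p1 := one_le_siz h w
  have h1 := siz_le hh w
  rw [hl] at h1
  rw [abs_of_nonneg (Real.log_nonneg p1)]
  refine le_trans ?_ (three_log_le hs hm)
  have h2 : siz h w ≤ (m : ℝ) ^ 3 := by nlinarith [mul_nonneg (by linarith : (0:ℝ) ≤ m) (sq_nonneg ((m : ℝ) - 2))]
  calc Real.log (siz h w) ≤ Real.log ((m : ℝ) ^ 3) := Real.log_le_log (by linarith) h2
    _ = 3 * Real.log m := by rw [Real.log_pow]; push_cast; ring

/-- functions of the end point and of maxima over pairs -/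
theorem infl_fun {k : ℕ} (h : Fin k → ℤ × ℤ → ℤ × ℤ → ℝ) (f : ℤ × ℤ → (Fin k → ℝ) → ℝ)
    (hf : ∀ x t, 0 ≤ f x t ∧ f x t ≤ 1) (n : ℕ) (Q : ℤ × ℤ → Prop) :
    Infl (4 * k) n Q (fun w => f (wX w, wY w) (fun i => prs (h i) w)) := by
  refine ⟨fun _ _ => 0, fun w w' => ∑ i, T.ch (prs (h i)) w w', fun _ _ => le_rfl,
    fun w w' => sum_nonneg (fun i _ => T.ch_nonneg _ _ _), fun m g1 g2 g3 =>
      ⟨fun w hw hq p hp => ?_, fun w hw hq => ?_, fun w hw hq => ?_⟩⟩
  · rw [zero_add]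
    simp only
    rw [end_ins hp]
    by_cases ht : ∀ i, prs (h i) w = prs (h i) (ins w p.1 p.2)
    · have e : (fun i => prs (h i) (ins w p.1 p.2)) = fun i => prs (h i) w := by
        funext i; rw [ht i]
      rw [e, sub_self, abs_zero]
      exact sum_nonneg (fun i _ => T.ch_nonneg _ _ _)
    · push Not at ht
      obtain ⟨i, hi⟩ := ht
      have h1 := hf (wX w, wY w) (fun i => prs (h i) (ins w p.1 p.2))
      have h2 := hf (wX w, wY w) (fun i => prs (h i) w)
      have h3 : |f (wX w, wY w) (fun i => prs (h i) (ins w p.1 p.2)) -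
          f (wX w, wY w) (fun i => prs (h i) w)| ≤ 1 := by
        rw [abs_le]; constructor <;> linarith [h1.1, h1.2, h2.1, h2.2]
      refine h3.trans ?_
      have h4 : T.ch (prs (h i)) w (ins w p.1 p.2) = 1 := by unfold T.ch; rw [if_neg hi]
      rw [← h4]
      exact single_le_sum (f := fun i => T.ch (prs (h i)) w (ins w p.1 p.2))
        (fun i _ => T.ch_nonneg _ _ _) (mem_univ i)
  · simp only [sum_const_zero]
    positivity
  · rw [sum_comm]
    calc ∑ j : Fin k, ∑ i ∈ bumps w, T.ch (prs (h j)) (del w i) w ≤ ∑ j : Fin k, (4 : ℝ) := by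
          refine sum_le_sum (fun j _ => ?_)
          rw [T.sum_ch]
          exact_mod_cast prs_card (h j) w
      _ = 4 * k := by rw [sum_const, card_univ, Fintype.card_fin, nsmul_eq_mul]; ring

end Pool.Agent.X44.GR.S
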