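import Pool.Agent.X44.GR.S3

/-!
# Sizes of function walks in domains
-/

set_option autoImplicit false
set_option linter.unusedVariables false

namespace Pool.Agent.X44.GR.S

open Finset Pool.Agent.H976R2 Pool.Agent.H739K Pool.Agent.X44.GR
open scoped Classical
open Pool.Agent.H976R2.Lip (PP dv PP_inj PP_ins_le PP_ins_gt)
open Pool.Agent.X44.GR.V (walks mean site path Low)

theorem base_of_low {A : ℝ} (hA : 0 ≤ A) {s : ℕ} {D : Set (ℤ × ℤ)} {n : ℕ}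
    (h : Low A s H981.mu D n) : Base A s D (fun _ => 1) n := by
  refine ⟨fun _ => zero_le_one, fun m g1 g2 g3 w hw => ?_, fun m g1 g2 g3 => ?_⟩
  · apply Real.one_le_exp
    have := Real.log_natCast_nonneg m
    positivity
  · refine (h m g1 g2 g3).trans (le_of_eq ?_)
    rw [V.card_walks]
    unfold mm wgt
    simp

/-- the functional of the word -/
noncomputable def lift (X : (m : ℕ) → (Fin (m + 1) → ℤ × ℤ) → ℝ) (w : List Dir) : ℝ :=
  X w.length (pth w.length w)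

lemma lift_eq {X : (m : ℕ) → (Fin (m + 1) → ℤ × ℤ) → ℝ} {m : ℕ} {w : List Dir} (hw : w ∈ SW m) :
    lift X w = X m (pth m w) := by
  have hl := (mem_SW.mp hw).1
  subst hl
  rfl

/-- sums over the walks in a domain -/
theorem sum_lift (D : Set (ℤ × ℤ)) (m : ℕ) (X : (m : ℕ) → (Fin (m + 1) → ℤ × ℤ) → ℝ)
    (f : List Dir → ℝ) (h : ∀ w ∈ SW m, f w = X m (pth m w)) :
    ∑ᶠ w ∈ walks D m, X m w = mm D f m :=
  V.sum_walks D m (X m) f h

/-- the product of the powers of the sizes -/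
noncomputable def prodX {k : ℕ} (X : Fin k → (m : ℕ) → (Fin (m + 1) → ℤ × ℤ) → ℝ) (q : Fin k → ℝ)
    (m : ℕ) (w : Fin (m + 1) → ℤ × ℤ) : ℝ := ∏ i, X i m w ^ q i

/-- the mean of `g` under the law biased by the product of the powers of the sizes -/
noncomputable def bmean {k : ℕ} (D : Set (ℤ × ℤ)) (X : Fin k → (m : ℕ) → (Fin (m + 1) → ℤ × ℤ) → ℝ)
    (q : Fin k → ℝ) (n : ℕ) (g : (Fin (n + 1) → ℤ × ℤ) → ℝ) : ℝ :=
  mean D n (fun w => prodX X q n w * g w) / mean D n (prodX X q n)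

/-- good sizes -/
structure Good (L A : ℝ) (s n : ℕ) (Q : ℤ × ℤ → Prop) (X : (m : ℕ) → (Fin (m + 1) → ℤ × ℤ) → ℝ) :
    Prop where
  pos : ∀ m : ℕ, n ≤ 2 * m → ∀ w ∈ SW m, 0 < lift X w
  infl : Infl L n Q (fun w => Real.log (lift X w))
  bd : Bd L n Q (fun w => Real.log (lift X w))
  sz : Sz A s n Q (fun w => Real.log (lift X w))

lemma prod_exp {k : ℕ} (X : Fin k → ℝ) (hX : ∀ i, 0 < X i) (q : Fin k → ℝ) :
    ∏ i, X i ^ q i = Real.exp (∑ i, q i * Real.log (X i)) := by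
  rw [Real.exp_sum]
  refine prod_congr rfl (fun i _ => ?_)
  rw [Real.rpow_def_of_pos (hX i), mul_comm]

section

variable {k : ℕ} {X : Fin k → (m : ℕ) → (Fin (m + 1) → ℤ × ℤ) → ℝ} {q : Fin k → ℝ}

lemma sum_prod (D : Set (ℤ × ℤ)) (m : ℕ) (hX : ∀ i, ∀ w ∈ SW m, 0 < lift (X i) w)
    (g : (Fin (m + 1) → ℤ × ℤ) → ℝ) (f : List Dir → ℝ) (h : ∀ w ∈ SW m, f w = g (pth m w)) :
    ∑ᶠ w ∈ walks D m, prodX X q m w * g w =
      mm D (fun w => wgt (fun _ => 1) (fun w => ∑ i, q i * Real.log (lift (X i) w)) w * f w) m := by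
  refine V.sum_walks D m (fun w => prodX X q m w * g w) _ (fun w hw => ?_)
  unfold wgt prodX
  rw [one_mul, ← prod_exp (fun i => lift (X i) w) (fun i => hX i w hw) q, h w hw]
  congr 1
  refine prod_congr rfl (fun i _ => ?_)
  rw [lift_eq hw]

lemma sum_prod' (D : Set (ℤ × ℤ)) (m : ℕ) (hX : ∀ i, ∀ w ∈ SW m, 0 < lift (X i) w) :
    ∑ᶠ w ∈ walks D m, prodX X q m w =
      mm D (wgt (fun _ => 1) (fun w => ∑ i, q i * Real.log (lift (X i) w))) m := by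
  have h := sum_prod (q := q) D m hX (fun _ => 1) (fun _ => 1) (fun _ _ => rfl)
  simp only [mul_one] at h
  exact h

lemma card_mm (D : Set (ℤ × ℤ)) (m : ℕ) :
    ((walks D m).ncard : ℝ) = mm D (wgt (fun _ => 1) (fun _ => 0)) m := by
  rw [V.card_walks]
  unfold mm wgt
  simp

end

/-- sums of the exponents -/
lemma sum_abs_le {k : ℕ} {q : Fin k → ℝ} {P : ℝ} (hq : ∀ i, |q i| ≤ P) : ∑ i, |q i| ≤ k * P := by
  calc ∑ i, |q i| ≤ ∑ i : Fin k, P := sum_le_sum (fun i _ => hq i)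
    _ = k * P := by rw [sum_const, card_univ, Fintype.card_fin, nsmul_eq_mul]

/-- **moments and laws of the sizes in domains** -/
theorem sizes (A L A1 P : ℝ) (hL : 0 ≤ L) (hP : 0 ≤ P) (s : ℕ) (hs : 2 ≤ s) (k : ℕ) :
    ∃ K : ℝ, 0 ≤ K ∧ ∀ (D : Set (ℤ × ℤ)) (n : ℕ), 3 ≤ n → Low A s H981.mu D n →
    ∀ (X : Fin k → (m : ℕ) → (Fin (m + 1) → ℤ × ℤ) → ℝ) (q : Fin k → ℝ),
    (∀ i, Good L A1 s n (fun _ => (1 : ℝ) ≠ 0) (X i)) → (∀ i, |q i| ≤ P) →
    |mean D (n + 2) (prodX X q (n + 2)) / mean D n (prodX X q n) - 1| ≤ K * (Real.log n ^ s / √n) ∧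
    ∀ (L1 : ℝ) (F : (m : ℕ) → (Fin (m + 1) → ℤ × ℤ) → ℝ), 0 ≤ L1 → (∀ m w, 0 ≤ F m w ∧ F m w ≤ 1) →
      Infl L1 n (fun _ => (1 : ℝ) ≠ 0) (lift F) →
      |bmean D X q (n + 2) (F (n + 2)) - bmean D X q n (F n)| ≤
        K * √((Real.log n ^ s + L1) * Real.log n ^ s / n) := by
  obtain ⟨A', hA'⟩ : ∃ A' : ℝ, A' = |A| + k * P * |A1| := ⟨_, rfl⟩
  have hA'0 : 0 ≤ A' := by rw [hA']; positivity
  obtain ⟨L', hL'⟩ : ∃ L' : ℝ, L' = k * P * L := ⟨_, rfl⟩
  have hL'0 : 0 ≤ L' := by rw [hL']; positivity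
  obtain ⟨K1, hK1, h1⟩ := momentS A' L' hA'0 hL'0 s hs
  obtain ⟨K2, hK2, h2⟩ := mergeS A' L' hA'0 hL'0 s hs
  refine ⟨K1 + K2, by positivity, fun D n hn hlow X q hX hq => ?_⟩
  have hlow' : Low |A| s H981.mu D n := hlow.mono (le_abs_self A) H981.mu_pos (le_refl D)
  have hB : Base A' s D (fun _ => 1) n := (base_of_low (abs_nonneg A) hlow').mono (by
    rw [hA']
    have : 0 ≤ k * P * |A1| := by positivity
    linarith)
  have hqs := sum_abs_le hq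
  obtain ⟨Y, hY⟩ : ∃ Y : List Dir → ℝ, Y = fun w => ∑ i, q i * Real.log (lift (X i) w) := ⟨_, rfl⟩
  have hI : Infl L' n (fun x => (fun _ : ℤ × ℤ => (1 : ℝ)) x ≠ 0) Y := by
    rw [hY]
    refine (Infl.sum q _ (fun i => (hX i).infl)).mono ?_
    rw [hL']
    exact mul_le_mul_of_nonneg_right hqs hL
  have hBd : Bd L' n (fun x => (fun _ : ℤ × ℤ => (1 : ℝ)) x ≠ 0) Y := by
    intro m g1 g2 g3 w hw hqq p hp
    rw [hY]
    refine (Bd.sum q _ (fun i => (hX i).bd) m g1 g2 g3 w hw hqq p hp).trans ?_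
    rw [hL']
    exact mul_le_mul_of_nonneg_right hqs hL
  have hS : Sz A' s n (fun x => (fun _ : ℤ × ℤ => (1 : ℝ)) x ≠ 0) Y := by
    intro m g1 g2 g3 w hw hqq
    rw [hY]
    have hl0 : 0 ≤ Real.log (m : ℝ) ^ s := pow_nonneg (Real.log_natCast_nonneg m) s
    have hsz : ∀ i, Sz |A1| s n (fun _ => (1 : ℝ) ≠ 0) (fun w => Real.log (lift (X i) w)) := by
      intro i m g1 g2 g3 w hw hqq
      refine ((hX i).sz m g1 g2 g3 w hw hqq).trans ?_
      exact mul_le_mul_of_nonneg_right (le_abs_self A1) (pow_nonneg (Real.log_natCast_nonneg m) s)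
    refine (Sz.sum q _ hsz m g1 g2 g3 w hw hqq).trans ?_
    apply mul_le_mul_of_nonneg_right _ hl0
    rw [hA']
    have := mul_le_mul_of_nonneg_right hqs (abs_nonneg A1)
    linarith [abs_nonneg A]
  have hpos : ∀ m : ℕ, n ≤ 2 * m → ∀ i, ∀ w ∈ SW m, 0 < lift (X i) w := fun m g i => (hX i).pos m g
  have e1 : ∀ m : ℕ, n ≤ 2 * m → ∑ᶠ w ∈ walks D m, prodX X q m w = mm D (wgt (fun _ => 1) Y) m := by
    intro m g
    rw [hY]
    exact sum_prod' D m (hpos m g)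
  have hl : 0 ≤ Real.log (n : ℝ) ^ s := pow_nonneg (Real.log_natCast_nonneg n) s
  constructor
  · have h3 := h1 D (fun _ => 1) Y n hn hB hI hBd hS
    have e : mean D (n + 2) (prodX X q (n + 2)) / mean D n (prodX X q n) =
        (mm D (wgt (fun _ => 1) Y) (n + 2) / mm D (wgt (fun _ => 1) (fun _ => 0)) (n + 2)) /
        (mm D (wgt (fun _ => 1) Y) n / mm D (wgt (fun _ => 1) (fun _ => 0)) n) := by
      unfold mean
      rw [e1 n (by omega), e1 (n + 2) (by omega), card_mm, card_mm]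
    rw [e]
    refine h3.trans ?_
    apply mul_le_mul_of_nonneg_right _ (by positivity)
    linarith
  · intro L1 F hL1 hF hFi
    have h3 := h2 D (fun _ => 1) Y n hn hB hI hBd hS L1 (lift F) hL1 (fun w => hF _ _) hFi
    have hcard : ∀ m : ℕ, (0 : ℝ) < ((walks D m).ncard : ℝ) → bmean D X q m (F m) =
        (∑ᶠ w ∈ walks D m, prodX X q m w * F m w) / ∑ᶠ w ∈ walks D m, prodX X q m w := by
      intro m hm
      unfold bmean mean
      rw [div_div_div_cancel_right₀ hm.ne']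
    obtain ⟨K3, hK3, hmb⟩ := mass_bounds A' hA'0 s hs
    obtain ⟨p1, p2, _⟩ := hmb D (fun _ => 1) n hn hB
    rw [← card_mm] at p1 p2
    rw [hcard n p1, hcard (n + 2) p2, e1 n (by omega), e1 (n + 2) (by omega),
      sum_prod D n (hpos n (by omega)) (F n) (lift F) (fun w hw => lift_eq hw),
      sum_prod D (n + 2) (hpos (n + 2) (by omega)) (F (n + 2)) (lift F) (fun w hw => lift_eq hw),
      ← hY]
    refine h3.trans ?_
    apply mul_le_mul_of_nonneg_right _ (Real.sqrt_nonneg _)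
    linarith

/-! ### the sizes defined by maxima over pairs -/

/-- the maximum of `h` over the pairs of sites -/
noncomputable def pairmax (h : ℤ × ℤ → ℤ × ℤ → ℝ) {n : ℕ} (w : Fin (n + 1) → ℤ × ℤ) : ℝ :=
  ⨆ x : Fin (n + 1) × Fin (n + 1), h (w x.1) (w x.2)

/-- the size -/
noncomputable def size (h : ℤ × ℤ → ℤ × ℤ → ℝ) {n : ℕ} (w : Fin (n + 1) → ℤ × ℤ) : ℝ :=
  max 1 (pairmax h w)

lemma lift_size (h : ℤ × ℤ → ℤ × ℤ → ℝ) : lift (fun m w => size h w) = siz h := by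
  funext w
  rfl

theorem good_size {h : ℤ × ℤ → ℤ × ℤ → ℝ} (hh : Gauge h) {s : ℕ} (hs : 2 ≤ s) {n : ℕ} (hn : 3 ≤ n)
    (Q : ℤ × ℤ → Prop) : Good 8 (Ac s) s n Q (fun m w => size h w) := by
  refine ⟨fun m _ w _ => ?_, ?_, ?_, ?_⟩
  · rw [lift_size]; linarith [one_le_siz h w]
  · rw [lift_size]; exact infl_siz hh n Q
  · rw [lift_size]; exact bd_siz hh n Q
  · rw [lift_size]; exact sz_siz hh hs hn Q

theorem infl_lift {k : ℕ} (h : Fin k → ℤ × ℤ → ℤ × ℤ → ℝ) (f : ℤ × ℤ → (Fin k → ℝ) → ℝ)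
    (hf : ∀ x t, 0 ≤ f x t ∧ f x t ≤ 1) (n : ℕ) (Q : ℤ × ℤ → Prop) :
    Infl (4 * k) n Q (lift (fun m w => f (w (Fin.last m)) (fun i => pairmax (h i) w))) := by
  obtain ⟨a, b, ha, hb, h1⟩ := infl_fun h f hf n Q
  refine ⟨a, b, ha, hb, fun m g1 g2 g3 => ?_⟩
  obtain ⟨h2, h3, h4⟩ := h1 m g1 g2 g3
  refine ⟨fun w hw hq p hp => ?_, h3, h4⟩
  have key : ∀ {l : ℕ} {u : List Dir}, u ∈ SW l →
      lift (fun m w => f (w (Fin.last m)) (fun i => pairmax (h i) w)) u =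
        f (wX u, wY u) (fun i => prs (h i) u) := by
    intro l u hu
    unfold lift
    have hl := (mem_SW.mp hu).1
    subst hl
    change f (pth u.length u (Fin.last u.length)) (fun i => pairmax (h i) (pth u.length u)) = _
    rw [pth_last hu]
    rfl
  have hp' : (p.1, p.2) ∈ adm w := hp
  obtain ⟨hi, _, hsw⟩ := H976R2.mem_adm.mp hp'
  have hl := (mem_SW.mp hw).1
  have hw' : ins w p.1 p.2 ∈ SW (m + 2) := mem_SW.mpr ⟨by rw [length_ins p.2 hi, hl], hsw⟩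
  rw [key hw, key hw']
  exact h2 w hw hq p hp

end Pool.Agent.X44.GR.S
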