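import Pool.Agent.X44.GR.S4

/-!
# Radius of gyration, monomer-endpoint distance, end-to-end distance
-/

set_option autoImplicit false
set_option linter.unusedVariables false

namespace Pool.Agent.X44.GR.S

open Finset Pool.Agent.H976R2 Pool.Agent.H739K Pool.Agent.X44.GR
open scoped Classical
open Pool.Agent.H976R2.Lip (PP dv PP_inj PP_ins_le PP_ins_gt)
open Pool.Agent.X44.GR.T (ins_of_bump PP_del_le PP_del_gt sites sites_split sites_del)

/-- sum over the sites -/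
noncomputable def ls (g : ℤ × ℤ → ℝ) (w : List Dir) : ℝ := ∑ k ∈ range (w.length + 1), g (PP w k)

lemma ls_list (g : ℤ × ℤ → ℝ) (w : List Dir) : ls g w = ((sites w).map g).sum := by
  unfold ls sites
  rw [List.map_map]
  rfl

lemma bump_ins {w : List Dir} {p : ℕ × Dir} (hp : p ∈ adm w) : p.1 ∈ bumps (ins w p.1 p.2) := by
  have hp' : (p.1, p.2) ∈ adm w := hp
  have hi := (H976R2.mem_adm.mp hp').1
  refine H976R2.mem_bumps.mpr ⟨?_, ?_, ?_⟩
  · rw [length_ins p.2 hi]; omega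
  · rw [lt_ins_2 hi, lt_ins_0 hi]
  · rw [lt_ins_0 hi, lt_ins_1 hi]; exact (H976R2.mem_adm.mp hp').2.1

lemma ls_ins (g : ℤ × ℤ → ℝ) {w : List Dir} {p : ℕ × Dir} (hp : p ∈ adm w) :
    ls g (ins w p.1 p.2) = ls g w + g (PP w p.1 + dv p.2) + g (PP w (p.1 + 1) + dv p.2) := by
  have hb := bump_ins hp
  have hp' : (p.1, p.2) ∈ adm w := hp
  have hi := (H976R2.mem_adm.mp hp').1
  have h1 := sites_split hb
  have h2 := sites_del hb
  rw [del_ins hi] at h2
  have e1 : PP (ins w p.1 p.2) (p.1 + 1) = PP w p.1 + dv p.2 := PP_new1 hi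
  have e2 : PP (ins w p.1 p.2) (p.1 + 2) = PP w (p.1 + 1) + dv p.2 := by
    rw [PP_new2 hi, Lip.PP_succ w p.1 hi]; ring
  rw [ls_list, ls_list, h1, h2, e1, e2]
  simp only [List.map_append, List.sum_append, List.map_cons, List.map_nil, List.sum_cons,
    List.sum_nil]
  ring

/-- the squared distance -/
def sq (x y : ℤ × ℤ) : ℝ := ((x.1 : ℝ) - y.1) ^ 2 + ((x.2 : ℝ) - y.2) ^ 2

lemma sq_nonneg' (x y : ℤ × ℤ) : 0 ≤ sq x y := by unfold sq; positivity

lemma sq_comm (x y : ℤ × ℤ) : sq x y = sq y x := by unfold sq; ring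

lemma sq_self (x : ℤ × ℤ) : sq x x = 0 := by unfold sq; ring

lemma dv_sq (e : Dir) : ((dv e).1 : ℝ) ^ 2 + ((dv e).2 : ℝ) ^ 2 = 1 := by
  unfold dv
  cases e <;> simp [dx, dy]

lemma sq_near (u x : ℤ × ℤ) (e : Dir) : sq (u + dv e) x ≤ 2 * sq u x + 2 := by
  unfold sq
  have h := dv_sq e
  simp only [Prod.fst_add, Prod.snd_add, Int.cast_add]
  nlinarith [sq_nonneg (((u.1 : ℝ) - x.1) - (dv e).1), sq_nonneg (((u.2 : ℝ) - x.2) - (dv e).2)]

lemma one_le_sq {x y : ℤ × ℤ} (h : x ≠ y) : 1 ≤ sq x y := by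
  unfold sq
  have h1 : 1 ≤ (x.1 - y.1) ^ 2 + (x.2 - y.2) ^ 2 := by
    by_contra hc
    push Not at hc
    have h1 : (x.1 - y.1) ^ 2 = 0 := by nlinarith [sq_nonneg (x.1 - y.1), sq_nonneg (x.2 - y.2)]
    have h2 : (x.2 - y.2) ^ 2 = 0 := by nlinarith [sq_nonneg (x.1 - y.1), sq_nonneg (x.2 - y.2)]
    have h3 := pow_eq_zero_iff (two_ne_zero) |>.1 h1
    have h4 := pow_eq_zero_iff (two_ne_zero) |>.1 h2
    exact h (Prod.ext (by linarith) (by linarith))
  exact_mod_cast h1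

lemma sq_le_of_l1 {x y : ℤ × ℤ} {m : ℕ} (hx : |x.1| + |x.2| ≤ (m : ℤ)) (hy : |y.1| + |y.2| ≤ (m : ℤ)) :
    sq x y ≤ 4 * (m : ℝ) ^ 2 := by
  unfold sq
  have hx' : |(x.1 : ℝ)| + |(x.2 : ℝ)| ≤ m := by exact_mod_cast hx
  have hy' : |(y.1 : ℝ)| + |(y.2 : ℝ)| ≤ m := by exact_mod_cast hy
  have h1 := abs_sub (x.1 : ℝ) y.1
  have h2 := abs_sub (x.2 : ℝ) y.2
  have h3 : |(x.1 : ℝ) - y.1| + |(x.2 : ℝ) - y.2| ≤ 2 * m := by linarith
  rw [← sq_abs ((x.1 : ℝ) - y.1), ← sq_abs ((x.2 : ℝ) - y.2)]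
  nlinarith [abs_nonneg ((x.1 : ℝ) - y.1), abs_nonneg ((x.2 : ℝ) - y.2),
    mul_nonneg (abs_nonneg ((x.1 : ℝ) - y.1)) (abs_nonneg ((x.2 : ℝ) - y.2))]

/-- the sum of the squared distances from `x` -/
noncomputable def sx (w : List Dir) (x : ℤ × ℤ) : ℝ := ls (fun y => sq x y) w

/-- the sum of the squared distances of the pairs -/
noncomputable def GG (w : List Dir) : ℝ := ls (sx w) w

lemma ls_nonneg {g : ℤ × ℤ → ℝ} (hg : ∀ x, 0 ≤ g x) (w : List Dir) : 0 ≤ ls g w :=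
  sum_nonneg (fun k _ => hg _)

lemma sx_nonneg (w : List Dir) (x : ℤ × ℤ) : 0 ≤ sx w x := ls_nonneg (fun y => sq_nonneg' x y) w

lemma ls_add (g g' : ℤ × ℤ → ℝ) (w : List Dir) : ls (fun x => g x + g' x) w = ls g w + ls g' w :=
  sum_add_distrib

lemma ls_mono {g g' : ℤ × ℤ → ℝ} (h : ∀ x, g x ≤ g' x) (w : List Dir) : ls g w ≤ ls g' w :=
  sum_le_sum (fun k _ => h _)

lemma ls_const (c : ℝ) (w : List Dir) : ls (fun _ => c) w = (w.length + 1) * c := by
  unfold ls
  rw [sum_const, card_range, nsmul_eq_mul]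
  push_cast
  ring

lemma ls_mul (c : ℝ) (g : ℤ × ℤ → ℝ) (w : List Dir) : ls (fun x => c * g x) w = c * ls g w := by
  unfold ls
  rw [mul_sum]

lemma sx_near (w : List Dir) (u : ℤ × ℤ) (e : Dir) :
    sx w (u + dv e) ≤ 2 * sx w u + 2 * (w.length + 1) := by
  have h := ls_mono (fun y => sq_near u y e) w
  rw [ls_add, ls_mul, ls_const] at h
  unfold sx
  linarith

/-- the sum over the pairs changes as follows -/
lemma GG_ins {w : List Dir} {p : ℕ × Dir} (hp : p ∈ adm w) :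
    GG (ins w p.1 p.2) = GG w + 2 * sx w (PP w p.1 + dv p.2) + 2 * sx w (PP w (p.1 + 1) + dv p.2) +
      2 * sq (PP w p.1 + dv p.2) (PP w (p.1 + 1) + dv p.2) := by
  obtain ⟨v1, hv1⟩ : ∃ v1, v1 = PP w p.1 + dv p.2 := ⟨_, rfl⟩
  obtain ⟨v2, hv2⟩ : ∃ v2, v2 = PP w (p.1 + 1) + dv p.2 := ⟨_, rfl⟩
  have h1 : ∀ x, sx (ins w p.1 p.2) x = sx w x + sq x v1 + sq x v2 := by
    intro x
    unfold sx
    rw [ls_ins _ hp, ← hv1, ← hv2]
  unfold GG
  rw [ls_ins _ hp, ← hv1, ← hv2]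
  have h2 : ls (sx (ins w p.1 p.2)) w = ls (sx w) w + sx w v1 + sx w v2 := by
    have e : sx (ins w p.1 p.2) = fun x => (sx w x + sq v1 x) + sq v2 x := by
      funext x
      rw [h1, sq_comm x v1, sq_comm x v2]
    rw [e, ls_add, ls_add]
    rfl
  rw [h2, h1, h1, sq_self, sq_self, sq_comm v2 v1]
  ring

lemma sum_adm_le {w : List Dir} (φ : ℕ → ℝ) (hφ : ∀ i, 0 ≤ φ i) :
    ∑ p ∈ adm w, φ p.1 ≤ 4 * ∑ i ∈ range w.length, φ i := by
  have h1 : adm w ⊆ (range w.length) ×ˢ (univ : Finset Dir) := filter_subset _ _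
  refine (sum_le_sum_of_subset_of_nonneg h1 (fun p _ _ => hφ _)).trans ?_
  rw [sum_product, mul_sum]
  refine sum_le_sum (fun i _ => ?_)
  have h4 : (univ : Finset Dir).card = 4 := rfl
  simp only
  rw [sum_const, nsmul_eq_mul, h4]
  norm_num

lemma ls_two (g : ℤ × ℤ → ℝ) (hg : ∀ x, 0 ≤ g x) (w : List Dir) :
    ∑ i ∈ range w.length, (g (PP w i) + g (PP w (i + 1))) ≤ 2 * ls g w := by
  rw [sum_add_distrib]
  unfold ls
  have h1 : ∑ i ∈ range w.length, g (PP w i) ≤ ∑ k ∈ range (w.length + 1), g (PP w k) :=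
    sum_le_sum_of_subset_of_nonneg (range_mono (by omega)) (fun k _ _ => hg _)
  have h2 : ∑ i ∈ range w.length, g (PP w (i + 1)) ≤ ∑ k ∈ range (w.length + 1), g (PP w k) := by
    rw [sum_range_succ' (fun k => g (PP w k))]
    linarith [hg (PP w 0)]
  linarith

lemma le_ls {g : ℤ × ℤ → ℝ} (hg : ∀ x, 0 ≤ g x) (w : List Dir) {k : ℕ} (hk : k ≤ w.length) :
    g (PP w k) ≤ ls g w :=
  single_le_sum (f := fun k => g (PP w k)) (fun k _ => hg _) (mem_range.2 (by omega))

/-- lower bound of a sum over the sites -/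
lemma ls_lower {g : ℤ × ℤ → ℝ} (hg : ∀ x, 0 ≤ g x) {w : List Dir} (hw : Saw w) (z : ℤ × ℤ)
    (h : ∀ x, x ≠ z → 1 ≤ g x) : (w.length : ℝ) ≤ ls g w := by
  unfold ls
  have h1 : ((range (w.length + 1)).filter (fun k => PP w k = z)).card ≤ 1 := by
    rw [card_le_one]
    intro a ha b hb
    rw [mem_filter, mem_range] at ha hb
    exact PP_inj hw (by omega) (by omega) (ha.2.trans hb.2.symm)
  have h2 : ((range (w.length + 1)).filter (fun k => ¬ PP w k = z)).card +
      ((range (w.length + 1)).filter (fun k => PP w k = z)).card = w.length + 1 := by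
    rw [add_comm, card_filter_add_card_filter_not, card_range]
  have h3 : (w.length : ℝ) ≤ (((range (w.length + 1)).filter (fun k => ¬ PP w k = z)).card : ℝ) := by
    exact_mod_cast (by omega : w.length ≤ _)
  refine h3.trans ?_
  rw [card_filter]
  push_cast
  refine sum_le_sum (fun k _ => ?_)
  split_ifs with hk
  · exact hg _
  · exact h _ hk

lemma GG_lower {w : List Dir} (hw : Saw w) : ((w.length : ℝ) + 1) * w.length ≤ GG w := by
  unfold GG
  rw [show ls (sx w) w = ∑ k ∈ range (w.length + 1), sx w (PP w k) from rfl]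
  have h1 : ∀ k ∈ range (w.length + 1), (w.length : ℝ) ≤ sx w (PP w k) := by
    intro k _
    exact ls_lower (fun y => sq_nonneg' _ y) hw (PP w k) (fun x hx => one_le_sq (fun h => hx h.symm))
  have h2 := sum_le_sum h1
  rw [sum_const, card_range, nsmul_eq_mul] at h2
  push_cast at h2
  exact h2

lemma sq_v (w : List Dir) {p : ℕ × Dir} (hp : p ∈ adm w) :
    sq (PP w p.1 + dv p.2) (PP w (p.1 + 1) + dv p.2) = 1 := by
  have hp' : (p.1, p.2) ∈ adm w := hp
  have hi := (H976R2.mem_adm.mp hp').1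
  rw [Lip.PP_succ w p.1 hi]
  unfold sq
  have := dv_sq (lt w p.1)
  simp only [Prod.fst_add, Prod.snd_add, Int.cast_add]
  nlinarith

/-- change of the logarithm of a quotient `S / (c N^t)` -/
lemma log_quot {S S' N c : ℝ} {t : ℕ} (hS : 0 < S) (hSS : S ≤ S') (hN : 2 ≤ N) (hc : 0 < c) :
    |Real.log (S' / (c * (N + 2) ^ t)) - Real.log (S / (c * N ^ t))| ≤ (S' - S) / S + 2 * t / N := by
  have hN0 : 0 < N := by linarith
  have hS' : 0 < S' := by linarith
  rw [Real.log_div hS'.ne' (by positivity), Real.log_div hS.ne' (by positivity),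
    Real.log_mul hc.ne' (by positivity), Real.log_mul hc.ne' (by positivity), Real.log_pow,
    Real.log_pow]
  have e : Real.log S' - (Real.log c + t * Real.log (N + 2)) - (Real.log S - (Real.log c + t * Real.log N))
      = (Real.log S' - Real.log S) - t * (Real.log (N + 2) - Real.log N) := by ring
  rw [e]
  have h1 : Real.log S' - Real.log S ≤ (S' - S) / S := by
    rw [← Real.log_div hS'.ne' hS.ne']
    have := Real.log_le_sub_one_of_pos (show 0 < S' / S by positivity)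
    have e2 : S' / S - 1 = (S' - S) / S := by field_simp
    linarith
  have h2 : 0 ≤ Real.log S' - Real.log S := sub_nonneg.2 (Real.log_le_log hS hSS)
  have h3 : Real.log (N + 2) - Real.log N ≤ 2 / N := by
    rw [← Real.log_div (by linarith) hN0.ne']
    have := Real.log_le_sub_one_of_pos (show 0 < (N + 2) / N by positivity)
    have e2 : (N + 2) / N - 1 = 2 / N := by field_simp; ring
    linarith
  have h4 : 0 ≤ Real.log (N + 2) - Real.log N := sub_nonneg.2 (Real.log_le_log hN0 (by linarith))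
  have ht : (0 : ℝ) ≤ t := Nat.cast_nonneg t
  have h5 : t * (Real.log (N + 2) - Real.log N) ≤ 2 * t / N := by
    calc t * (Real.log (N + 2) - Real.log N) ≤ t * (2 / N) := mul_le_mul_of_nonneg_left h3 ht
      _ = _ := by ring
  have h6 : 0 ≤ t * (Real.log (N + 2) - Real.log N) := mul_nonneg ht h4
  rw [abs_le]
  constructor
  · have : 0 ≤ (S' - S) / S := div_nonneg (by linarith) hS.le
    linarith
  · have : 0 ≤ 2 * t / N := by positivity
    linarith

end Pool.Agent.X44.GR.S
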