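import Pool.Agent.X44.GR.S5

/-!
# Radius of gyration, monomer-endpoint distance, end-to-end distance are good sizes
-/

set_option autoImplicit false
set_option linter.unusedVariables false

namespace Pool.Agent.X44.GR.S

open Finset Pool.Agent.H976R2 Pool.Agent.H739K Pool.Agent.X44.GR
open scoped Classical
open Pool.Agent.H976R2.Lip (PP dv PP_inj PP_ins_le PP_ins_gt)
open Pool.Agent.X44.GR.T (ins_of_bump PP_del_le PP_del_gt)

/-- the squared end-to-end distance -/
noncomputable def Re2 {n : ℕ} (w : Fin (n + 1) → ℤ × ℤ) : ℝ :=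
  ((w (Fin.last n)).1 : ℝ) ^ 2 + ((w (Fin.last n)).2 : ℝ) ^ 2

/-- the squared radius of gyration -/
noncomputable def Rg2 {n : ℕ} (w : Fin (n + 1) → ℤ × ℤ) : ℝ :=
  (∑ i, ∑ j, ((((w i).1 : ℝ) - (w j).1) ^ 2 + (((w i).2 : ℝ) - (w j).2) ^ 2)) / (2 * (n + 1) ^ 2)

/-- the squared monomer-endpoint distance -/
noncomputable def Rm2 {n : ℕ} (w : Fin (n + 1) → ℤ × ℤ) : ℝ :=
  (∑ i, (((w i).1 : ℝ) ^ 2 + ((w i).2 : ℝ) ^ 2 + (((w i).1 : ℝ) - (w (Fin.last n)).1) ^ 2 +
    (((w i).2 : ℝ) - (w (Fin.last n)).2) ^ 2)) / (2 * (n + 1))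

/-- the endpoint -/
def ep (w : List Dir) : ℤ × ℤ := (wX w, wY w)

/-- the sum in the monomer-endpoint distance -/
noncomputable def MM (w : List Dir) : ℝ := ls (fun x => sq x 0 + sq x (ep w)) w

lemma lift_Re (w : List Dir) : lift (fun m w => Re2 w) w = sq (ep w) 0 := by
  have e : lift (fun m w => Re2 w) w = Re2 (pth w.length w) := rfl
  rw [e]
  unfold Re2 sq ep
  have h : pth w.length w (Fin.last w.length) = (wX w, wY w) := by
    unfold pth
    simp
  rw [h]
  simp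

lemma lift_Rg (w : List Dir) : lift (fun m w => Rg2 w) w = GG w / (2 * ((w.length : ℝ) + 1) ^ 2) := by
  have e : lift (fun m w => Rg2 w) w = Rg2 (pth w.length w) := rfl
  rw [e]
  unfold Rg2
  congr 1
  have e2 : GG w = ∑ k ∈ range (w.length + 1), ls (fun y => sq (PP w k) y) w := rfl
  rw [e2, ← Fin.sum_univ_eq_sum_range (fun k => ls (fun y => sq (PP w k) y) w) (w.length + 1)]
  refine sum_congr rfl (fun i _ => ?_)
  unfold ls
  rw [← Fin.sum_univ_eq_sum_range (fun l => sq (PP w i) (PP w l)) (w.length + 1)]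
  rfl

lemma lift_Rm (w : List Dir) : lift (fun m w => Rm2 w) w = MM w / (2 * ((w.length : ℝ) + 1) ^ 1) := by
  have e : lift (fun m w => Rm2 w) w = Rm2 (pth w.length w) := rfl
  rw [e, pow_one]
  unfold Rm2
  congr 1
  have e2 : MM w = ∑ k ∈ range (w.length + 1), (sq (PP w k) 0 + sq (PP w k) (ep w)) := rfl
  rw [e2, ← Fin.sum_univ_eq_sum_range (fun k => sq (PP w k) 0 + sq (PP w k) (ep w)) (w.length + 1)]
  refine sum_congr rfl (fun i _ => ?_)
  have h : pth w.length w (Fin.last w.length) = ep w := by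
    unfold pth ep
    simp
  rw [h]
  unfold sq
  have h2 : pth w.length w i = PP w i := rfl
  rw [h2]
  simp only [Prod.fst_zero, Prod.snd_zero, Int.cast_zero, sub_zero]
  ring

lemma log_bound {s : ℕ} (hs : 2 ≤ s) {m : ℕ} (hm : 2 ≤ m) {X : ℝ} (h1 : 1 / 4 ≤ X)
    (h2 : X ≤ 4 * (m : ℝ) ^ 2) : |Real.log X| ≤ 2 * Ac s * Real.log m ^ s := by
  have hm' : (2 : ℝ) ≤ m := by exact_mod_cast hm
  have h3 := three_log_le hs hm
  have hl : 0 ≤ Real.log (m : ℝ) := Real.log_natCast_nonneg m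
  have h4 : Real.log X ≤ 4 * Real.log m := by
    calc Real.log X ≤ Real.log ((m : ℝ) ^ 4) := by
          apply Real.log_le_log (by linarith)
          refine h2.trans ?_
          nlinarith [mul_nonneg (by positivity : (0:ℝ) ≤ (m : ℝ) ^ 2) (by nlinarith : (0:ℝ) ≤ (m : ℝ) ^ 2 - 4)]
      _ = _ := by rw [Real.log_pow]; push_cast; ring
  have h5 : -(2 * Real.log m) ≤ Real.log X := by
    calc -(2 * Real.log (m : ℝ)) = Real.log (((m : ℝ) ^ 2)⁻¹) := by
          rw [Real.log_inv, Real.log_pow]; push_cast; ring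
      _ ≤ _ := by
          apply Real.log_le_log (by positivity)
          refine le_trans ?_ h1
          rw [one_div]
          apply inv_anti₀ (by norm_num)
          nlinarith
  rw [abs_le]
  constructor <;> linarith

lemma PP_l1' (w : List Dir) {k : ℕ} (hk : k ≤ w.length) :
    |(PP w k).1| + |(PP w k).2| ≤ (w.length : ℤ) :=
  (PP_l1 w k).trans (by exact_mod_cast hk)

lemma ep_eq (w : List Dir) : ep w = PP w w.length := by
  unfold ep PP
  rw [List.take_length]

lemma ls_le {g : ℤ × ℤ → ℝ} {w : List Dir} {c : ℝ} (h : ∀ k ≤ w.length, g (PP w k) ≤ c) :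
    ls g w ≤ (w.length + 1) * c := by
  have h1 : ls g w ≤ ∑ k ∈ range (w.length + 1), c :=
    sum_le_sum (fun k hk => h k (by rw [mem_range] at hk; omega))
  rw [sum_const, card_range, nsmul_eq_mul] at h1
  push_cast at h1
  exact h1

lemma GG_upper (w : List Dir) : GG w ≤ ((w.length : ℝ) + 1) ^ 2 * (4 * (w.length : ℝ) ^ 2) := by
  have h1 : ∀ k ≤ w.length, sx w (PP w k) ≤ ((w.length : ℝ) + 1) * (4 * (w.length : ℝ) ^ 2) := by
    intro k hk
    exact ls_le (fun l hl => sq_le_of_l1 (PP_l1' w hk) (PP_l1' w hl))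
  have h2 := ls_le (g := sx w) h1
  unfold GG
  calc ls (sx w) w ≤ _ := h2
    _ = _ := by ring

lemma MM_upper (w : List Dir) : MM w ≤ ((w.length : ℝ) + 1) * (8 * (w.length : ℝ) ^ 2) := by
  unfold MM
  apply ls_le
  intro k hk
  have h1 := sq_le_of_l1 (m := w.length) (PP_l1' w hk) (y := 0) (by simp)
  have h2 := sq_le_of_l1 (m := w.length) (PP_l1' w hk) (y := ep w) (by
    rw [ep_eq]; exact PP_l1' w le_rfl)
  linarith

lemma MM_lower {w : List Dir} (hw : Saw w) : (w.length : ℝ) ≤ MM w :=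
  ls_lower (fun x => add_nonneg (sq_nonneg' _ _) (sq_nonneg' _ _)) hw 0
    (fun x hx => by linarith [one_le_sq hx, sq_nonneg' x (ep w)])

section

variable {s n : ℕ} {Q : ℤ × ℤ → Prop}

/-- the influence of one insertion on `log Rg2` -/
noncomputable def aG (w : List Dir) (p : ℕ × Dir) : ℝ :=
  4 * (sx w (PP w p.1) + sx w (PP w (p.1 + 1))) / GG w + (8 * (w.length + 1) + 2) / GG w +
    4 / (w.length + 1)

lemma len_two {m : ℕ} {w : List Dir} (hn : 3 ≤ n) (g1 : n ≤ 2 * m) (hw : w ∈ SW m) :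
    (2 : ℝ) ≤ w.length := by
  rw [(mem_SW.mp hw).1]
  exact_mod_cast (by omega : 2 ≤ m)

lemma GG_pos {w : List Dir} (hw : Saw w) (hl : (2 : ℝ) ≤ w.length) : 0 < GG w := by
  have := GG_lower hw
  nlinarith

lemma MM_pos {w : List Dir} (hw : Saw w) (hl : (2 : ℝ) ≤ w.length) : 0 < MM w := by
  have := MM_lower hw
  linarith

lemma step_G {m : ℕ} (hn : 3 ≤ n) (g1 : n ≤ 2 * m) {w : List Dir} (hw : w ∈ SW m) {p : ℕ × Dir}
    (hp : p ∈ adm w) :
    |Real.log (lift (fun m w => Rg2 w) (ins w p.1 p.2)) - Real.log (lift (fun m w => Rg2 w) w)| ≤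
      aG w p := by
  have hs := (mem_SW.mp hw).2
  have hl := len_two hn g1 hw
  have hG := GG_pos hs hl
  have hp' : (p.1, p.2) ∈ adm w := hp
  have hi := (H976R2.mem_adm.mp hp').1
  rw [lift_Rg, lift_Rg, length_ins p.2 hi]
  have e := GG_ins hp
  rw [sq_v w hp] at e
  have h1 := sx_near w (PP w p.1) p.2
  have h2 := sx_near w (PP w (p.1 + 1)) p.2
  have h3 := sx_nonneg w (PP w p.1 + dv p.2)
  have h4 := sx_nonneg w (PP w (p.1 + 1) + dv p.2)
  have e2 : ((w.length + 2 : ℕ) : ℝ) + 1 = (w.length + 1) + 2 := by push_cast; ring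
  rw [e2]
  have h5 := log_quot (S := GG w) (S' := GG (ins w p.1 p.2)) (N := (w.length : ℝ) + 1) (c := 2)
    (t := 2) hG (by linarith) (by linarith) (by norm_num)
  refine h5.trans ?_
  unfold aG
  have h6 : GG (ins w p.1 p.2) - GG w ≤ 4 * (sx w (PP w p.1) + sx w (PP w (p.1 + 1))) +
      (8 * (w.length + 1) + 2) := by linarith
  have h7 := div_le_div_of_nonneg_right h6 hG.le
  rw [add_div] at h7
  have e3 : 2 * ((2 : ℕ) : ℝ) / ((w.length : ℝ) + 1) = 4 / (w.length + 1) := by push_cast; ring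
  rw [e3]
  linarith

lemma aG_nonneg (w : List Dir) (p : ℕ × Dir) : 0 ≤ aG w p := by
  unfold aG
  have h1 := sx_nonneg w (PP w p.1)
  have h2 := sx_nonneg w (PP w (p.1 + 1))
  have h3 : 0 ≤ GG w := ls_nonneg (sx_nonneg w) w
  positivity

theorem good_Rg (hs : 2 ≤ s) (hn : 3 ≤ n) : Good 120 (2 * Ac s) s n Q (fun m w => Rg2 w) := by
  refine ⟨fun m g w hw => ?_, ⟨aG, fun _ _ => 0, aG_nonneg, fun _ _ => le_rfl,
    fun m g1 g2 g3 => ⟨fun w hw _ p hp => by rw [add_zero]; exact step_G hn g1 hw hp,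
      fun w hw _ => ?_, fun w hw _ => by simp⟩⟩, fun m g1 g2 g3 w hw _ p hp => ?_,
      fun m g1 g2 g3 w hw _ => ?_⟩
  · rw [lift_Rg]
    have := GG_pos (mem_SW.mp hw).2 (len_two hn g hw)
    positivity
  · have hsw := (mem_SW.mp hw).2
    have hl := len_two hn g1 hw
    have hG := GG_pos hsw hl
    have hGl := GG_lower hsw
    have h1 := sum_adm_le (w := w) (fun i => 4 * (sx w (PP w i) + sx w (PP w (i + 1))) / GG w +
      (8 * (w.length + 1) + 2) / GG w + 4 / (w.length + 1)) (fun i => by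
        have h1 := sx_nonneg w (PP w i)
        have h2 := sx_nonneg w (PP w (i + 1))
        positivity)
    refine h1.trans ?_
    rw [sum_add_distrib, sum_add_distrib, sum_const, sum_const, card_range, nsmul_eq_mul,
      nsmul_eq_mul, ← sum_div, ← mul_sum]
    have h2 := ls_two (sx w) (sx_nonneg w) w
    have h3 : 4 * (∑ i ∈ range w.length, (sx w (PP w i) + sx w (PP w (i + 1)))) / GG w ≤ 8 := by
      rw [div_le_iff₀ hG]
      have : ls (sx w) w = GG w := rfl
      linarith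
    have h4 : (w.length : ℝ) * ((8 * (w.length + 1) + 2) / GG w) ≤ 9 := by
      rw [mul_div_assoc', div_le_iff₀ hG]
      nlinarith
    have h5 : (w.length : ℝ) * (4 / (w.length + 1)) ≤ 4 := by
      rw [mul_div_assoc', div_le_iff₀ (by positivity)]
      nlinarith
    linarith
  · refine (step_G hn g1 hw hp).trans ?_
    have hsw := (mem_SW.mp hw).2
    have hl := len_two hn g1 hw
    have hG := GG_pos hsw hl
    have hGl := GG_lower hsw
    have hp' : (p.1, p.2) ∈ adm w := hp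
    have hi := (H976R2.mem_adm.mp hp').1
    have i1 : sx w (PP w p.1) ≤ GG w := le_ls (sx_nonneg w) w (by omega)
    have i2 : sx w (PP w (p.1 + 1)) ≤ GG w := le_ls (sx_nonneg w) w (by omega)
    unfold aG
    have h3 : 4 * (sx w (PP w p.1) + sx w (PP w (p.1 + 1))) / GG w ≤ 8 := by
      rw [div_le_iff₀ hG]
      linarith
    have h4 : (8 * ((w.length : ℝ) + 1) + 2) / GG w ≤ 9 := by
      rw [div_le_iff₀ hG]
      nlinarith
    have h5 : 4 / ((w.length : ℝ) + 1) ≤ 4 := by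
      rw [div_le_iff₀ (by positivity)]
      nlinarith
    linarith
  · have hsw := (mem_SW.mp hw).2
    have hl2 : (2 : ℝ) ≤ w.length := len_two hn g1 hw
    have hl := (mem_SW.mp hw).1
    beta_reduce
    rw [lift_Rg]
    have hGl := GG_lower hsw
    have hGu := GG_upper w
    have h1 : (0 : ℝ) < 2 * ((w.length : ℝ) + 1) ^ 2 := by positivity
    subst hl
    apply log_bound hs (by omega)
    · rw [le_div_iff₀ h1]
      nlinarith
    · rw [div_le_iff₀ h1]
      nlinarith [mul_nonneg (sq_nonneg ((w.length : ℝ) + 1)) (sq_nonneg (w.length : ℝ))]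

/-- the influence of one insertion on `log Rm2` -/
noncomputable def aM (w : List Dir) (p : ℕ × Dir) : ℝ :=
  2 * ((sq (PP w p.1) 0 + sq (PP w p.1) (ep w)) + (sq (PP w (p.1 + 1)) 0 +
    sq (PP w (p.1 + 1)) (ep w))) / MM w + 8 / MM w + 2 / (w.length + 1)

lemma aM_nonneg (w : List Dir) (p : ℕ × Dir) : 0 ≤ aM w p := by
  unfold aM
  have h1 := sq_nonneg' (PP w p.1) 0
  have h2 := sq_nonneg' (PP w p.1) (ep w)
  have h3 := sq_nonneg' (PP w (p.1 + 1)) 0
  have h4 := sq_nonneg' (PP w (p.1 + 1)) (ep w)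
  have h5 : 0 ≤ MM w := ls_nonneg (fun x => add_nonneg (sq_nonneg' _ _) (sq_nonneg' _ _)) w
  positivity

lemma step_M {m : ℕ} (hn : 3 ≤ n) (g1 : n ≤ 2 * m) {w : List Dir} (hw : w ∈ SW m) {p : ℕ × Dir}
    (hp : p ∈ adm w) :
    |Real.log (lift (fun m w => Rm2 w) (ins w p.1 p.2)) - Real.log (lift (fun m w => Rm2 w) w)| ≤
      aM w p := by
  have hs := (mem_SW.mp hw).2
  have hl := len_two hn g1 hw
  have hM := MM_pos hs hl
  have hp' : (p.1, p.2) ∈ adm w := hp
  have hi := (H976R2.mem_adm.mp hp').1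
  rw [lift_Rm, lift_Rm, length_ins p.2 hi]
  have hee : ep (ins w p.1 p.2) = ep w := end_ins hp
  have e : MM (ins w p.1 p.2) = MM w +
      (sq (PP w p.1 + dv p.2) 0 + sq (PP w p.1 + dv p.2) (ep w)) +
      (sq (PP w (p.1 + 1) + dv p.2) 0 + sq (PP w (p.1 + 1) + dv p.2) (ep w)) := by
    unfold MM
    rw [hee, ls_ins _ hp]
  have h1 := sq_near (PP w p.1) 0 p.2
  have h2 := sq_near (PP w p.1) (ep w) p.2
  have h3 := sq_near (PP w (p.1 + 1)) 0 p.2
  have h4 := sq_near (PP w (p.1 + 1)) (ep w) p.2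
  have k1 := sq_nonneg' (PP w p.1 + dv p.2) 0
  have k2 := sq_nonneg' (PP w p.1 + dv p.2) (ep w)
  have k3 := sq_nonneg' (PP w (p.1 + 1) + dv p.2) 0
  have k4 := sq_nonneg' (PP w (p.1 + 1) + dv p.2) (ep w)
  have e2 : ((w.length + 2 : ℕ) : ℝ) + 1 = (w.length + 1) + 2 := by push_cast; ring
  rw [e2]
  have h5 := log_quot (S := MM w) (S' := MM (ins w p.1 p.2)) (N := (w.length : ℝ) + 1) (c := 2)
    (t := 1) hM (by linarith) (by linarith) (by norm_num)
  refine h5.trans ?_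
  unfold aM
  have h6 : MM (ins w p.1 p.2) - MM w ≤ 2 * ((sq (PP w p.1) 0 + sq (PP w p.1) (ep w)) +
      (sq (PP w (p.1 + 1)) 0 + sq (PP w (p.1 + 1)) (ep w))) + 8 := by linarith
  have h7 := div_le_div_of_nonneg_right h6 hM.le
  rw [add_div] at h7
  have e3 : 2 * ((1 : ℕ) : ℝ) / ((w.length : ℝ) + 1) = 2 / (w.length + 1) := by push_cast; ring
  rw [e3]
  linarith

theorem good_Rm (hs : 2 ≤ s) (hn : 3 ≤ n) : Good 120 (2 * Ac s) s n Q (fun m w => Rm2 w) := by
  refine ⟨fun m g w hw => ?_, ⟨aM, fun _ _ => 0, aM_nonneg, fun _ _ => le_rfl,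
    fun m g1 g2 g3 => ⟨fun w hw _ p hp => by rw [add_zero]; exact step_M hn g1 hw hp,
      fun w hw _ => ?_, fun w hw _ => by simp⟩⟩, fun m g1 g2 g3 w hw _ p hp => ?_,
      fun m g1 g2 g3 w hw _ => ?_⟩
  · rw [lift_Rm]
    have := MM_pos (mem_SW.mp hw).2 (len_two hn g hw)
    positivity
  · have hsw := (mem_SW.mp hw).2
    have hl := len_two hn g1 hw
    have hG := MM_pos hsw hl
    have hGl := MM_lower hsw
    have hg : ∀ x, 0 ≤ sq x 0 + sq x (ep w) := fun x => add_nonneg (sq_nonneg' _ _) (sq_nonneg' _ _)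
    have h1 := sum_adm_le (w := w) (fun i => 2 * ((sq (PP w i) 0 + sq (PP w i) (ep w)) +
      (sq (PP w (i + 1)) 0 + sq (PP w (i + 1)) (ep w))) / MM w + 8 / MM w + 2 / (w.length + 1))
      (fun i => by
        have h1 := hg (PP w i)
        have h2 := hg (PP w (i + 1))
        positivity)
    refine h1.trans ?_
    rw [sum_add_distrib, sum_add_distrib, sum_const, sum_const, card_range, nsmul_eq_mul,
      nsmul_eq_mul, ← sum_div, ← mul_sum]
    have h2 := ls_two (fun x => sq x 0 + sq x (ep w)) hg w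
    have h3 : 2 * (∑ i ∈ range w.length, ((sq (PP w i) 0 + sq (PP w i) (ep w)) +
        (sq (PP w (i + 1)) 0 + sq (PP w (i + 1)) (ep w)))) / MM w ≤ 4 := by
      rw [div_le_iff₀ hG]
      have : ls (fun x => sq x 0 + sq x (ep w)) w = MM w := rfl
      linarith
    have h4 : (w.length : ℝ) * (8 / MM w) ≤ 8 := by
      rw [mul_div_assoc', div_le_iff₀ hG]
      nlinarith
    have h5 : (w.length : ℝ) * (2 / (w.length + 1)) ≤ 2 := by
      rw [mul_div_assoc', div_le_iff₀ (by positivity)]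
      nlinarith
    linarith
  · refine (step_M hn g1 hw hp).trans ?_
    have hsw := (mem_SW.mp hw).2
    have hl := len_two hn g1 hw
    have hG := MM_pos hsw hl
    have hGl := MM_lower hsw
    have hp' : (p.1, p.2) ∈ adm w := hp
    have hi := (H976R2.mem_adm.mp hp').1
    have hg : ∀ x, 0 ≤ sq x 0 + sq x (ep w) := fun x => add_nonneg (sq_nonneg' _ _) (sq_nonneg' _ _)
    have i1 : sq (PP w p.1) 0 + sq (PP w p.1) (ep w) ≤ MM w := le_ls hg w (k := p.1) (by omega)
    have i2 : sq (PP w (p.1 + 1)) 0 + sq (PP w (p.1 + 1)) (ep w) ≤ MM w :=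
      le_ls hg w (k := p.1 + 1) (by omega)
    unfold aM
    have h3 : 2 * ((sq (PP w p.1) 0 + sq (PP w p.1) (ep w)) + (sq (PP w (p.1 + 1)) 0 +
        sq (PP w (p.1 + 1)) (ep w))) / MM w ≤ 4 := by
      rw [div_le_iff₀ hG]
      linarith
    have h4 : 8 / MM w ≤ 8 := by
      rw [div_le_iff₀ hG]
      nlinarith
    have h5 : 2 / ((w.length : ℝ) + 1) ≤ 2 := by
      rw [div_le_iff₀ (by positivity)]
      nlinarith
    linarith
  · have hsw := (mem_SW.mp hw).2
    have hl2 : (2 : ℝ) ≤ w.length := len_two hn g1 hw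
    have hl := (mem_SW.mp hw).1
    beta_reduce
    rw [lift_Rm]
    have hGl := MM_lower hsw
    have hGu := MM_upper w
    have h1 : (0 : ℝ) < 2 * ((w.length : ℝ) + 1) ^ 1 := by positivity
    subst hl
    apply log_bound hs (by omega)
    · rw [le_div_iff₀ h1]
      nlinarith
    · rw [div_le_iff₀ h1]
      nlinarith [mul_nonneg (by positivity : (0:ℝ) ≤ (w.length : ℝ) + 1) (sq_nonneg (w.length : ℝ))]

theorem good_Re (hs : 2 ≤ s) (hn : 3 ≤ n) : Good 120 (2 * Ac s) s n Q (fun m w => Re2 w) := by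
  have hone : ∀ m : ℕ, n ≤ 2 * m → ∀ w ∈ SW m, 1 ≤ sq (ep w) 0 := by
    intro m g w hw
    obtain ⟨hlen, hsaw⟩ := mem_SW.mp hw
    apply one_le_sq
    intro h0
    unfold ep at h0
    rw [Prod.mk_eq_zero] at h0
    refine hsaw [] w [] (by simp) ?_ h0
    intro hnil
    rw [hnil] at hlen
    simp at hlen
    omega
  refine ⟨fun m g w hw => ?_, ⟨fun _ _ => 0, fun _ _ => 0, fun _ _ => le_rfl, fun _ _ => le_rfl,
    fun m g1 g2 g3 => ⟨fun w hw _ p hp => ?_, fun w hw _ => by simp, fun w hw _ => by simp⟩⟩,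
    fun m g1 g2 g3 w hw _ p hp => ?_, fun m g1 g2 g3 w hw _ => ?_⟩
  · rw [lift_Re]
    linarith [hone m g w hw]
  · have hee : ep (ins w p.1 p.2) = ep w := end_ins hp
    beta_reduce
    rw [lift_Re, lift_Re, hee, sub_self, abs_zero, add_zero]
  · have hee : ep (ins w p.1 p.2) = ep w := end_ins hp
    beta_reduce
    rw [lift_Re, lift_Re, hee, sub_self, abs_zero]
    norm_num
  · have hl := (mem_SW.mp hw).1
    beta_reduce
    rw [lift_Re]
    have h1 := hone m g1 w hw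
    have h2 := sq_le_of_l1 (m := w.length) (x := ep w) (y := 0) (by rw [ep_eq]; exact PP_l1' w le_rfl)
      (by simp)
    subst hl
    exact log_bound hs (by omega) (by linarith) h2

end

lemma Good.mono {L L' A A' : ℝ} {s n : ℕ} {Q : ℤ × ℤ → Prop}
    {X : (m : ℕ) → (Fin (m + 1) → ℤ × ℤ) → ℝ} (h : Good L A s n Q X) (hL : L ≤ L') (hA : A ≤ A') :
    Good L' A' s n Q X := by
  refine ⟨h.pos, h.infl.mono hL, fun m g1 g2 g3 w hw hq p hp => (h.bd m g1 g2 g3 w hw hq p hp).trans hL,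
    fun m g1 g2 g3 w hw hq => (h.sz m g1 g2 g3 w hw hq).trans ?_⟩
  exact mul_le_mul_of_nonneg_right hA (pow_nonneg (Real.log_natCast_nonneg m) s)

end Pool.Agent.X44.GR.S
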