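import Pool.Agent.X44.GR.S6

/-!
# Functionals of the end point, of maxima over pairs and of logarithms of good sizes
-/

set_option autoImplicit false
set_option linter.unusedVariables false

namespace Pool.Agent.X44.GR.S

open Finset Pool.Agent.H976R2 Pool.Agent.H739K Pool.Agent.X44.GR
open scoped Classical
open Pool.Agent.H976R2.Lip (PP dv PP_inj PP_ins_le PP_ins_gt)

theorem Infl.comb {L L0 : ℝ} {n : ℕ} {Q : ℤ × ℤ → Prop} {r : ℕ} (Y : Fin r → List Dir → ℝ)
    (hY : ∀ i, Infl L n Q (Y i)) (b0 : List Dir → List Dir → ℝ) (hb0 : ∀ w w', 0 ≤ b0 w w')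
    (hL : 0 ≤ L) (hL0 : 0 ≤ L0)
    (hs : ∀ w, Saw w → ∑ i ∈ bumps w, b0 (del w i) w ≤ L0) (F : List Dir → ℝ)
    (hF : ∀ m : ℕ, ∀ w ∈ SW m, ∀ p ∈ adm w,
      |F (ins w p.1 p.2) - F w| ≤ b0 w (ins w p.1 p.2) + ∑ i, |Y i (ins w p.1 p.2) - Y i w|) :
    Infl (L0 + r * L) n Q F := by
  choose a b ha hb h using hY
  have hrL : 0 ≤ r * L := by positivity
  refine ⟨fun w p => ∑ i, a i w p, fun w w' => b0 w w' + ∑ i, b i w w',
    fun w p => sum_nonneg (fun i _ => ha i w p),
    fun w w' => add_nonneg (hb0 w w') (sum_nonneg (fun i _ => hb i w w')), fun m g1 g2 g3 =>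
    ⟨fun w hw hq p hp => ?_, fun w hw hq => ?_, fun w hw hq => ?_⟩⟩
  · refine (hF m w hw p hp).trans ?_
    have h1 : ∑ i, |Y i (ins w p.1 p.2) - Y i w| ≤ ∑ i, (a i w p + b i w (ins w p.1 p.2)) :=
      sum_le_sum (fun i _ => (h i m g1 g2 g3).1 w hw hq p hp)
    rw [sum_add_distrib] at h1
    simp only
    linarith
  · rw [sum_comm]
    have h1 : ∑ i, ∑ p ∈ adm w, a i w p ≤ ∑ i : Fin r, L :=
      sum_le_sum (fun i _ => (h i m g1 g2 g3).2.1 w hw hq)
    rw [sum_const, card_univ, Fintype.card_fin, nsmul_eq_mul] at h1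
    linarith
  · rw [sum_add_distrib, sum_comm]
    have h1 : ∑ j, ∑ i ∈ bumps w, b j (del w i) w ≤ ∑ j : Fin r, L :=
      sum_le_sum (fun j _ => (h j m g1 g2 g3).2.2 w hw hq)
    rw [sum_const, card_univ, Fintype.card_fin, nsmul_eq_mul] at h1
    have h2 := hs w (mem_SW.mp hw).2
    linarith

/-- functionals of the end point, of `k` maxima over pairs, and Lipschitz in the logarithms of `r`
sizes -/
theorem infl_all {L : ℝ} (hL : 0 ≤ L) {n : ℕ} {Q : ℤ × ℤ → Prop} {k r : ℕ}
    (h : Fin k → ℤ × ℤ → ℤ × ℤ → ℝ) (X : Fin r → (m : ℕ) → (Fin (m + 1) → ℤ × ℤ) → ℝ)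
    (hX : ∀ j, Infl L n Q (fun w => Real.log (lift (X j) w)))
    (f : ℤ × ℤ → (Fin k → ℝ) → (Fin r → ℝ) → ℝ) (hf : ∀ x t u, 0 ≤ f x t u ∧ f x t u ≤ 1)
    (hfl : ∀ x t u u', |f x t u - f x t u'| ≤ ∑ j, |u j - u' j|) :
    Infl (4 * k + r * L) n Q (lift (fun m w => f (w (Fin.last m)) (fun i => pairmax (h i) w)
      (fun j => Real.log (X j m w)))) := by
  apply Infl.comb (fun j w => Real.log (lift (X j) w)) hX (fun w w' => ∑ i, T.ch (prs (h i)) w w')
    (fun w w' => sum_nonneg (fun i _ => T.ch_nonneg _ _ _)) hL (by positivity)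
  · intro w hw
    rw [sum_comm]
    calc ∑ j : Fin k, ∑ i ∈ bumps w, T.ch (prs (h j)) (del w i) w ≤ ∑ j : Fin k, (4 : ℝ) := by
          refine sum_le_sum (fun j _ => ?_)
          rw [T.sum_ch]
          exact_mod_cast prs_card (h j) w
      _ = 4 * k := by rw [sum_const, card_univ, Fintype.card_fin, nsmul_eq_mul]; ring
  · intro m w hw p hp
    have key : ∀ {l : ℕ} {u : List Dir}, u ∈ SW l →
        lift (fun m w => f (w (Fin.last m)) (fun i => pairmax (h i) w)
          (fun j => Real.log (X j m w))) u =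
          f (wX u, wY u) (fun i => prs (h i) u) (fun j => Real.log (lift (X j) u)) := by
      intro l u hu
      unfold lift
      have hl := (mem_SW.mp hu).1
      subst hl
      change f (pth u.length u (Fin.last u.length)) (fun i => pairmax (h i) (pth u.length u)) _ = _
      rw [pth_last hu]
      rfl
    have hp' : (p.1, p.2) ∈ adm w := hp
    obtain ⟨hi, _, hsw⟩ := H976R2.mem_adm.mp hp'
    have hl := (mem_SW.mp hw).1
    have hw' : ins w p.1 p.2 ∈ SW (m + 2) := mem_SW.mpr ⟨by rw [length_ins p.2 hi, hl], hsw⟩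
    rw [key hw, key hw', end_ins hp]
    have hs0 : 0 ≤ ∑ j, |Real.log (lift (X j) (ins w p.1 p.2)) - Real.log (lift (X j) w)| :=
      sum_nonneg (fun j _ => abs_nonneg _)
    by_cases ht : ∀ i, prs (h i) w = prs (h i) (ins w p.1 p.2)
    · have e : (fun i => prs (h i) (ins w p.1 p.2)) = fun i => prs (h i) w := by
        funext i; rw [ht i]
      rw [e]
      have h1 := hfl (wX w, wY w) (fun i => prs (h i) w)
        (fun j => Real.log (lift (X j) (ins w p.1 p.2))) (fun j => Real.log (lift (X j) w))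
      have h2 : 0 ≤ ∑ i, T.ch (prs (h i)) w (ins w p.1 p.2) :=
        sum_nonneg (fun i _ => T.ch_nonneg _ _ _)
      linarith
    · push Not at ht
      obtain ⟨i, hi⟩ := ht
      have h1 := hf (wX w, wY w) (fun i => prs (h i) (ins w p.1 p.2))
        (fun j => Real.log (lift (X j) (ins w p.1 p.2)))
      have h2 := hf (wX w, wY w) (fun i => prs (h i) w) (fun j => Real.log (lift (X j) w))
      have h3 : |f (wX w, wY w) (fun i => prs (h i) (ins w p.1 p.2))
          (fun j => Real.log (lift (X j) (ins w p.1 p.2))) -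
          f (wX w, wY w) (fun i => prs (h i) w) (fun j => Real.log (lift (X j) w))| ≤ 1 := by
        rw [abs_le]; constructor <;> linarith [h1.1, h1.2, h2.1, h2.2]
      refine h3.trans ?_
      have h4 : T.ch (prs (h i)) w (ins w p.1 p.2) = 1 := by unfold T.ch; rw [if_neg hi]
      have h5 := single_le_sum (f := fun i => T.ch (prs (h i)) w (ins w p.1 p.2))
        (fun i _ => T.ch_nonneg _ _ _) (mem_univ i)
      linarith

end Pool.Agent.X44.GR.S
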