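import Pool.Agent.X44.GR.Q
import Pool.Agent.X44.GR.P

/-!
# Function walks in a domain
-/

set_option autoImplicit false
set_option linter.unusedVariables false

namespace Pool.Agent.X44.GR.V

open Finset Pool.Agent.H976R2 Pool.Agent.H739K Pool.Agent.X44.GR
open scoped Classical
open Pool.Agent.H976R2.Lip (PP dv)

/-- the self-avoiding walks from the origin with `n` steps in `D` -/
def walks (D : Set (ℤ × ℤ)) (n : ℕ) : Set (Fin (n + 1) → ℤ × ℤ) :=
  {w | w 0 = 0 ∧ Function.Injective w ∧ (∀ i : Fin n,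
    |(w i.succ).1 - (w i.castSucc).1| + |(w i.succ).2 - (w i.castSucc).2| = 1) ∧ ∀ i, w i ∈ D}

/-- the site of the walk at the time `k` (the last site for `k > n`) -/
def site {n : ℕ} (w : Fin (n + 1) → ℤ × ℤ) (k : ℕ) : ℤ × ℤ := w ⟨min k n, by omega⟩

/-- the mean of `g` under the uniform law on the walks in `D` -/
noncomputable def mean (D : Set (ℤ × ℤ)) (n : ℕ) (g : (Fin (n + 1) → ℤ × ℤ) → ℝ) : ℝ :=
  (∑ᶠ w ∈ walks D n, g w) / ((walks D n).ncard : ℝ)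

/-- the walk in the scale `R` as a path on `[0, 1]` -/
noncomputable def path {n : ℕ} (R : ℝ) (w : Fin (n + 1) → ℤ × ℤ) (t : ℝ) : ℝ × ℝ :=
  (((site w ⌊(n : ℝ) * t⌋₊).1 : ℝ) / R, ((site w ⌊(n : ℝ) * t⌋₊).2 : ℝ) / R)

theorem walks_eq (D : Set (ℤ × ℤ)) (n : ℕ) :
    walks D n = {ω | Pool.Agent.H976R2.IsSAW n ω ∧ ∀ i, ω i ∈ D} := by
  ext w
  constructor
  · rintro ⟨h0, hinj, hs, hD⟩
    exact ⟨⟨h0, hs, hinj⟩, hD⟩
  · rintro ⟨⟨h0, hs, hinj⟩, hD⟩
    exact ⟨h0, hinj, hs, hD⟩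

theorem walks_finite (D : Set (ℤ × ℤ)) (n : ℕ) : (walks D n).Finite := by
  rw [walks_eq]
  exact (Pool.Agent.H976R2.finite_saw n).subset (fun w hw => hw.1)

theorem walks_image (D : Set (ℤ × ℤ)) (n : ℕ) :
    walks D n = pth n '' (((SW n).filter (fun w => inD D w) : Finset (List Dir)) : Set (List Dir)) := by
  rw [walks_eq]
  ext ω
  constructor
  · rintro ⟨h1, h2⟩
    have h3 := wordOf_mem h1
    refine ⟨wordOf n ω, ?_, pth_wordOf h1⟩
    rw [Finset.mem_coe, Finset.mem_filter]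
    refine ⟨h3, (P.inD_iff h3).2 ?_⟩
    rw [pth_wordOf h1]
    exact h2
  · rintro ⟨w, hw, rfl⟩
    rw [Finset.mem_coe, Finset.mem_filter] at hw
    exact ⟨pth_saw hw.1, (P.inD_iff hw.1).1 hw.2⟩

theorem inj_filter (D : Set (ℤ × ℤ)) (n : ℕ) :
    Set.InjOn (pth n) (((SW n).filter (fun w => inD D w) : Finset (List Dir)) : Set (List Dir)) :=
  (pth_injOn n).mono (fun w hw => by
    rw [Finset.mem_coe, Finset.mem_filter] at hw
    exact hw.1)

theorem sum_walks (D : Set (ℤ × ℤ)) (n : ℕ) (g : (Fin (n + 1) → ℤ × ℤ) → ℝ) (f : List Dir → ℝ)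
    (h : ∀ w ∈ SW n, f w = g (pth n w)) :
    ∑ᶠ w ∈ walks D n, g w = mom (fw ({()} : Finset Unit) (fun _ => D) (fun _ => f)) n := by
  rw [walks_image, finsum_mem_image (inj_filter D n), finsum_mem_coe_finset, sum_filter]
  unfold mom fw
  refine sum_congr rfl (fun w hw => ?_)
  rw [sum_singleton]
  simp only [h w hw]

theorem card_walks (D : Set (ℤ × ℤ)) (n : ℕ) :
    ((walks D n).ncard : ℝ) = mom (fw ({()} : Finset Unit) (fun _ => D) (fun _ _ => (1 : ℝ))) n := by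
  rw [walks_image, (inj_filter D n).ncard_image, Set.ncard_coe_finset]
  unfold mom fw
  simp only [sum_singleton]
  rw [← sum_filter, sum_const, nsmul_eq_mul, mul_one]

theorem card_walks' (D : Set (ℤ × ℤ)) (n : ℕ) :
    (walks D n).ncard = ((SW n).filter (fun w => inD D w)).card := by
  rw [walks_image, (inj_filter D n).ncard_image, Set.ncard_coe_finset]

/-- the number of walks is not small at the lengths between `n / 2` and `2 n` -/
def Low (A : ℝ) (s : ℕ) (μ : ℝ) (D : Set (ℤ × ℤ)) (n : ℕ) : Prop :=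
  ∀ m : ℕ, n ≤ 2 * m → m ≤ 2 * n → m % 2 = n % 2 →
    μ ^ m * Real.exp (-(A * Real.log m ^ s)) ≤ ((walks D m).ncard : ℝ)

theorem fam_of_low {A : ℝ} (hA : 0 ≤ A) {s : ℕ} {D : Set (ℤ × ℤ)} {n : ℕ}
    (h : Low A s H981.mu D n) :
    Fam A 0 s ({()} : Finset Unit) (fun _ => D) (fun _ _ => (1 : ℝ)) n := by
  refine ⟨fun _ _ _ => by norm_num, fun m g1 g2 g3 => ⟨fun _ => 1, fun _ _ _ _ => le_rfl, ?_⟩,
    fun m g1 g2 g3 θ hθ w hw => by simp, fun m g1 g2 g3 => ?_⟩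
  · rw [sum_singleton]
    apply Real.one_le_exp
    have := Real.log_natCast_nonneg m
    positivity
  · rw [← card_walks]
    exact h m g1 g2 g3

theorem card_pos_of_low {A : ℝ} {s : ℕ} {D : Set (ℤ × ℤ)} {n : ℕ}
    (h : Low A s H981.mu D n) : 0 < ((walks D n).ncard : ℝ) := by
  have hmu := H981.mu_pos
  exact lt_of_lt_of_le (by positivity) (h n (by omega) (by omega) rfl)

theorem Low.mono {A A' : ℝ} (hAA' : A ≤ A') {s : ℕ} {μ : ℝ} (hμ : 0 < μ) {D D' : Set (ℤ × ℤ)}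
    (hD : D ⊆ D') {n : ℕ} (h : Low A s μ D n) : Low A' s μ D' n := by
  intro m g1 g2 g3
  refine le_trans ?_ ((h m g1 g2 g3).trans ?_)
  · apply mul_le_mul_of_nonneg_left _ (by positivity)
    apply Real.exp_le_exp.2
    have : 0 ≤ Real.log (m : ℝ) ^ s := pow_nonneg (Real.log_natCast_nonneg m) s
    nlinarith
  · have : (walks D m).ncard ≤ (walks D' m).ncard :=
      Set.ncard_le_ncard (fun w hw => ⟨hw.1, hw.2.1, hw.2.2.1, fun i => hD (hw.2.2.2 i)⟩)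
        (walks_finite D' m)
    exact_mod_cast this

/-- ratio theorem for the number of walks in a domain -/
theorem ratio_dom (A : ℝ) (hA : 0 ≤ A) (s : ℕ) (hs : 2 ≤ s) : ∃ K : ℝ, 0 ≤ K ∧
    ∀ (D : Set (ℤ × ℤ)) (n : ℕ), 3 ≤ n → Low A s H981.mu D n →
    |((walks D (n + 2)).ncard : ℝ) / ((walks D n).ncard : ℝ) - H981.mu ^ 2| ≤
      K * (Real.log n ^ s / √n) := by
  obtain ⟨K, hK, h⟩ := main_fam A 0 hA le_rfl s hs
  have hmu := H981.mu_pos
  refine ⟨H981.mu ^ 2 * K, by positivity, fun D n hn hlow => ?_⟩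
  have h1 := h Unit {()} (fun _ => D) (fun _ _ => 1) n hn (fam_of_low hA hlow)
  rw [← card_walks, ← card_walks] at h1
  have hp := card_pos_of_low hlow
  have e : ((walks D (n + 2)).ncard : ℝ) / ((walks D n).ncard : ℝ) - H981.mu ^ 2 =
      H981.mu ^ 2 * (((walks D (n + 2)).ncard : ℝ) / (H981.mu ^ 2 * ((walks D n).ncard : ℝ)) - 1) := by
    field_simp
  rw [e, abs_mul, abs_of_pos (show 0 < H981.mu ^ 2 by positivity), mul_assoc]
  exact mul_le_mul_of_nonneg_left h1 (by positivity)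

/-- merging for functionals of walks in a domain -/
theorem merge_dom (A : ℝ) (hA : 0 ≤ A) (s : ℕ) (hs : 2 ≤ s) : ∃ K : ℝ, 0 ≤ K ∧
    ∀ (L1 : ℝ), 0 ≤ L1 → ∀ (D : Set (ℤ × ℤ)) (n : ℕ), 3 ≤ n → Low A s H981.mu D n →
    ∀ g : (m : ℕ) → (Fin (m + 1) → ℤ × ℤ) → ℝ, (∀ m w, 0 ≤ g m w ∧ g m w ≤ 1) →
    (∀ m : ℕ, n ≤ 2 * m → m ≤ 2 * n → m % 2 = n % 2 → ∀ w ∈ SW m,
      ∑ p ∈ adm w, |g (m + 2) (pth (m + 2) (ins w p.1 p.2)) - g m (pth m w)| ≤ L1) →
    |mean D (n + 2) (g (n + 2)) - mean D n (g n)| ≤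
      K * √((Real.log n ^ s + L1) * Real.log n ^ s / n) := by
  obtain ⟨K, hK, h⟩ := merge_fam A hA s hs
  refine ⟨K, hK, fun L1 hL1 D n hn hlow g hg hlip => ?_⟩
  have h1 := h 0 L1 le_rfl hL1 Unit {()} (fun _ => D) (fun _ _ => 1)
    (fun w => g w.length (pth w.length w)) n hn (fam_of_low hA hlow) (fun w => hg _ _)
    (fun m g1 g2 g3 w hw => by
      refine le_trans (le_of_eq ?_) (hlip m g1 g2 g3 w hw)
      have hl := (mem_SW.mp hw).1
      refine sum_congr rfl (fun p hp => ?_)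
      have hp' : (p.1, p.2) ∈ adm w := hp
      have hi := (H976R2.mem_adm.mp hp').1
      have hl2 := Lip.ins_length w p.1 p.2 hi
      subst hl
      rw [hl2])
  have e : ∀ m, mean D m (g m) =
      mom (fw ({()} : Finset Unit) (fun _ => D) (fun θ w => (1 : ℝ) * g w.length (pth w.length w))) m /
        mom (fw ({()} : Finset Unit) (fun _ => D) (fun _ _ => (1 : ℝ))) m := by
    intro m
    unfold mean
    rw [card_walks]
    congr 1
    have := sum_walks D m (g m) (fun w => (1 : ℝ) * g w.length (pth w.length w)) (fun w hw => by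
      have hl := (mem_SW.mp hw).1
      subst hl
      simp)
    rw [this]
  rw [e, e, zero_add] at *
  exact h1

/-! ### distances -/

lemma dv_le (e : Dir) : |(dv e).1| ≤ 1 ∧ |(dv e).2| ≤ 1 := by
  unfold dv
  cases e <;> simp [dx, dy]

lemma PP_len (w : List Dir) (k : ℕ) (hk : w.length ≤ k) : PP w (k + 1) = PP w k := by
  unfold PP
  rw [List.take_of_length_le (by omega), List.take_of_length_le hk]

lemma PP_dist (w : List Dir) (a b : ℕ) :
    |(PP w (a + b)).1 - (PP w a).1| ≤ b ∧ |(PP w (a + b)).2 - (PP w a).2| ≤ b := by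
  induction b with
  | zero => simp
  | succ b ih =>
    rw [← add_assoc]
    by_cases h : a + b < w.length
    · rw [Lip.PP_succ w _ h]
      obtain ⟨h1, h2⟩ := dv_le (lt w (a + b))
      obtain ⟨i1, i2⟩ := ih
      rw [abs_le] at h1 h2 i1 i2
      rw [abs_le, abs_le]
      simp only [Prod.fst_add, Prod.snd_add]
      push_cast
      constructor <;> constructor <;> omega
    · rw [PP_len w _ (by omega)]
      obtain ⟨i1, i2⟩ := ih
      push_cast
      constructor <;> linarith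

/-- sites at nearby times -/
lemma PP_near (w : List Dir) (a b c : ℕ) (h1 : a ≤ b + c) (h2 : b ≤ a + c) :
    |(PP w a).1 - (PP w b).1| ≤ c ∧ |(PP w a).2 - (PP w b).2| ≤ c := by
  rcases le_total a b with h | h
  · obtain ⟨d, rfl⟩ : ∃ d, b = a + d := ⟨b - a, by omega⟩
    obtain ⟨i1, i2⟩ := PP_dist w a d
    rw [abs_sub_comm, abs_sub_comm (PP w a).2]
    exact ⟨i1.trans (by exact_mod_cast (by omega : d ≤ c)), i2.trans (by exact_mod_cast (by omega : d ≤ c))⟩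
  · obtain ⟨d, rfl⟩ : ∃ d, a = b + d := ⟨a - b, by omega⟩
    obtain ⟨i1, i2⟩ := PP_dist w b d
    exact ⟨i1.trans (by exact_mod_cast (by omega : d ≤ c)), i2.trans (by exact_mod_cast (by omega : d ≤ c))⟩

lemma ins_close {w : List Dir} {i : ℕ} {e : Dir} (hi : i < w.length) {j j' : ℕ} (hj : j ≤ w.length)
    (h1 : j ≤ j') (h2 : j' ≤ j + 2) (h3 : j' ≤ w.length + 2) :
    |(PP (ins w i e) j').1 - (PP w j).1| ≤ 2 ∧ |(PP (ins w i e) j').2 - (PP w j).2| ≤ 2 := by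
  rcases PP_ins_cases (e := e) hi j' h3 with ⟨h, h'⟩ | h | h | ⟨h, h'⟩
  · rw [h']
    exact PP_near w j' j 2 (by omega) (by omega)
  · rw [h, PP_new1 hi]
    obtain ⟨i1, i2⟩ := PP_near w i j 1 (by omega) (by omega)
    obtain ⟨k1, k2⟩ := dv_le e
    rw [abs_le] at i1 i2 k1 k2
    rw [abs_le, abs_le]
    simp only [Prod.fst_add, Prod.snd_add]
    push_cast at *
    constructor <;> constructor <;> omega
  · rw [h, PP_new2 hi]
    have e1 : PP w i + dv e + dv (lt w i) = PP w (i + 1) + dv e := by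
      rw [Lip.PP_succ w i hi]; ring
    rw [e1]
    obtain ⟨i1, i2⟩ := PP_near w (i + 1) j 1 (by omega) (by omega)
    obtain ⟨k1, k2⟩ := dv_le e
    rw [abs_le] at i1 i2 k1 k2
    rw [abs_le, abs_le]
    simp only [Prod.fst_add, Prod.snd_add]
    push_cast at *
    constructor <;> constructor <;> omega
  · rw [h']
    exact PP_near w (j' - 2) j 2 (by omega) (by omega)

lemma site_pth {m : ℕ} (w : List Dir) (k : ℕ) : site (pth m w) k = PP w (min k m) := rfl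

lemma floor_bounds {m : ℕ} {t : ℝ} (h0 : 0 ≤ t) (h1 : t ≤ 1) :
    ⌊(m : ℝ) * t⌋₊ ≤ m ∧ ⌊(m : ℝ) * t⌋₊ ≤ ⌊((m + 2 : ℕ) : ℝ) * t⌋₊ ∧
      ⌊((m + 2 : ℕ) : ℝ) * t⌋₊ ≤ ⌊(m : ℝ) * t⌋₊ + 2 ∧ ⌊((m + 2 : ℕ) : ℝ) * t⌋₊ ≤ m + 2 := by
  have hm : (0 : ℝ) ≤ m := Nat.cast_nonneg m
  have hmt : 0 ≤ (m : ℝ) * t := by positivity
  push_cast
  refine ⟨?_, ?_, ?_, ?_⟩
  · calc ⌊(m : ℝ) * t⌋₊ ≤ ⌊(m : ℝ)⌋₊ := Nat.floor_mono (by nlinarith)
      _ = m := Nat.floor_natCast m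
  · exact Nat.floor_mono (by nlinarith)
  · calc ⌊((m : ℝ) + 2) * t⌋₊ ≤ ⌊(m : ℝ) * t + (2 : ℕ)⌋₊ := Nat.floor_mono (by push_cast; nlinarith)
      _ = _ := Nat.floor_add_natCast hmt 2
  · calc ⌊((m : ℝ) + 2) * t⌋₊ ≤ ⌊((m + 2 : ℕ) : ℝ)⌋₊ := Nat.floor_mono (by push_cast; nlinarith)
      _ = m + 2 := Nat.floor_natCast _

lemma path_close {m : ℕ} {w : List Dir} (hw : w ∈ SW m) {i : ℕ} {e : Dir} (hi : i < w.length)
    {R : ℝ} (hR : 0 < R) {t : ℝ} (h0 : 0 ≤ t) (h1 : t ≤ 1) :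
    ‖path R (pth (m + 2) (ins w i e)) t - path R (pth m w) t‖ ≤ 2 / R := by
  have hl := (mem_SW.mp hw).1
  obtain ⟨f1, f2, f3, f4⟩ := floor_bounds (m := m) h0 h1
  obtain ⟨a, ha⟩ : ∃ a, a = ⌊(m : ℝ) * t⌋₊ := ⟨_, rfl⟩
  obtain ⟨b, hb⟩ : ∃ b, b = ⌊((m + 2 : ℕ) : ℝ) * t⌋₊ := ⟨_, rfl⟩
  rw [← ha] at f1 f2 f3
  rw [← hb] at f2 f3 f4
  unfold path
  rw [← ha, ← hb, site_pth, site_pth, min_eq_left f1, min_eq_left f4]
  obtain ⟨c1, c2⟩ := ins_close (e := e) hi (j := a) (j' := b) (by omega) f2 f3 (by omega)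
  rw [Prod.norm_def]
  simp only [Prod.fst_sub, Prod.snd_sub]
  rw [← sub_div, ← sub_div, norm_div, norm_div, Real.norm_eq_abs, Real.norm_eq_abs,
    Real.norm_eq_abs, abs_of_pos hR]
  apply max_le
  · apply div_le_div_of_nonneg_right _ hR.le
    exact_mod_cast c1
  · apply div_le_div_of_nonneg_right _ hR.le
    exact_mod_cast c2

end Pool.Agent.X44.GR.V
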