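import Pool.Agent.X44.GR.Q2
import Pool.Agent.X44.GR.V
import Pool.Agent.Results.MP_8c6f77_pr.FourWalks

/-!
# Stars: the family of domains left over by the other arms
-/

set_option autoImplicit false
set_option linter.unusedVariables false

namespace Pool.Agent.X44.GR.St

open Finset Pool.Agent.H976R2 Pool.Agent.H739K Pool.Agent.X44.GR
open scoped Classical
open Pool.Agent.H976R2.Lip (PP dv)

/-- self-avoiding walks with `n` steps as functions on `ℕ` (constant from the time `n` on) -/
def F (n : ℕ) : Set (ℕ → ℤ × ℤ) :=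
  {w | w 0 = 0 ∧ (∀ i j, i ≤ n → j ≤ n → w i = w j → i = j) ∧
    (∀ i, i < n → |(w (i + 1)).1 - (w i).1| + |(w (i + 1)).2 - (w i).2| = 1) ∧
    ∀ i, n ≤ i → w i = w n}

/-- the function of a word -/
def fz (n : ℕ) (v : List Dir) : ℕ → ℤ × ℤ := fun i => PP v (min i n)

lemma fz_mem {n : ℕ} {v : List Dir} (hv : v ∈ SW n) : fz n v ∈ F n := by
  have h := pth_saw hv
  have e : ∀ i (hi : i ≤ n), fz n v i = pth n v ⟨i, by omega⟩ := by
    intro i hi
    unfold fz
    rw [min_eq_left hi]
    rfl
  refine ⟨?_, fun i j hi hj hij => ?_, fun i hi => ?_, fun i hi => ?_⟩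
  · rw [e 0 (by omega)]; exact h.1
  · rw [e i hi, e j hj] at hij
    exact congrArg Fin.val (h.2.2 hij)
  · rw [e i hi.le, e (i + 1) hi]
    exact h.2.1 ⟨i, hi⟩
  · unfold fz
    rw [min_eq_right hi, min_self]

lemma fz_inj (n : ℕ) : Set.InjOn (fz n) (SW n : Set (List Dir)) := by
  intro v hv v' hv' h
  apply pth_injOn n hv hv'
  funext i
  have h1 := congrFun h (i : ℕ)
  unfold fz at h1
  rw [min_eq_left (by have := i.2; omega)] at h1
  exact h1

lemma exists_fz {n : ℕ} {w : ℕ → ℤ × ℤ} (hw : w ∈ F n) : ∃ v ∈ SW n, fz n v = w := by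
  obtain ⟨h0, hinj, hs, hc⟩ := hw
  have h : IsSAW n (fun i : Fin (n + 1) => w i) := by
    refine ⟨h0, fun i => ?_, fun i j hij => ?_⟩
    · exact hs i i.2
    · exact Fin.ext (hinj i j (by have := i.2; omega) (by have := j.2; omega) hij)
  refine ⟨wordOf n _, wordOf_mem h, ?_⟩
  have hp := pth_wordOf h
  funext i
  unfold fz
  have h1 := congrFun hp ⟨min i n, by omega⟩
  have h2 : pth n (wordOf n (fun i : Fin (n + 1) => w i)) ⟨min i n, by omega⟩ =
      PP (wordOf n (fun i : Fin (n + 1) => w i)) (min i n) := rfl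
  rw [← h2, h1]
  simp only
  rcases le_total i n with h3 | h3
  · rw [min_eq_left h3]
  · rw [min_eq_right h3]; exact (hc i h3).symm

lemma F_eq (n : ℕ) : F n = fz n '' (SW n : Set (List Dir)) := by
  ext w
  constructor
  · intro h
    obtain ⟨v, hv, rfl⟩ := exists_fz h
    exact ⟨v, hv, rfl⟩
  · rintro ⟨v, hv, rfl⟩
    exact fz_mem hv

lemma F_finite (n : ℕ) : (F n).Finite := by
  rw [F_eq]
  exact (Finset.finite_toSet _).image _

lemma F_ncard (n : ℕ) : (F n).ncard = (SW n).card := by
  rw [F_eq, (fz_inj n).ncard_image, Set.ncard_coe_finset]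

/-- the stars as tuples of functions on `ℕ` -/
def FS (k : ℕ) (n : Fin k → ℕ) : Set (Fin k → ℕ → ℤ × ℤ) :=
  {w | (∀ a, w a ∈ F (n a)) ∧
    ∀ a b, a ≠ b → ∀ i j, i ≤ n a → j ≤ n b → w a i = w b j → i = 0 ∧ j = 0}

/-- the arms different from `a` -/
def TS (k : ℕ) (n : Fin k → ℕ) (a : Fin k) : Set (Fin k → ℕ → ℤ × ℤ) :=
  {θ | θ a = (fun _ => 0) ∧ (∀ b, b ≠ a → θ b ∈ F (n b)) ∧
    ∀ b c, b ≠ a → c ≠ a → b ≠ c → ∀ i j, i ≤ n b → j ≤ n c → θ b i = θ c j → i = 0 ∧ j = 0}

/-- the complement of the other arms -/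
def DS {k : ℕ} (n : Fin k → ℕ) (a : Fin k) (θ : Fin k → ℕ → ℤ × ℤ) : Set (ℤ × ℤ) :=
  {p | ∀ b, b ≠ a → ∀ i, 1 ≤ i → i ≤ n b → θ b i ≠ p}

lemma TS_sub (k : ℕ) (n : Fin k → ℕ) (a : Fin k) :
    TS k n a ⊆ Set.pi Set.univ (fun b => if b = a then {fun _ => 0} else F (n b)) := by
  intro θ hθ b _
  by_cases h : b = a
  · subst h
    simp only [if_true]
    exact hθ.1
  · simp only [if_neg h]
    exact hθ.2.1 b h

lemma TS_finite (k : ℕ) (n : Fin k → ℕ) (a : Fin k) : (TS k n a).Finite := by
  refine Set.Finite.subset (Set.Finite.pi fun b => ?_) (TS_sub k n a)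
  split_ifs
  · exact Set.finite_singleton _
  · exact F_finite _

lemma TS_card (k : ℕ) (n : Fin k → ℕ) (a : Fin k) :
    (TS k n a).ncard ≤ ∏ b ∈ univ.erase a, (SW (n b)).card := by
  have hfin : ∀ b, (if b = a then {fun _ => 0} else F (n b) : Set (ℕ → ℤ × ℤ)).Finite := by
    intro b
    split_ifs
    · exact Set.finite_singleton _
    · exact F_finite _
  refine (Set.ncard_le_ncard (TS_sub k n a) (Set.Finite.pi hfin)).trans ?_
  rw [P.ncard_pi _ hfin, ← Finset.mul_prod_erase univ _ (mem_univ a)]
  simp only [if_true, Set.ncard_singleton, one_mul]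
  refine le_of_eq (Finset.prod_congr rfl fun b hb => ?_)
  rw [if_neg (Finset.ne_of_mem_erase hb), F_ncard]

lemma star_iff {k : ℕ} {n : Fin k → ℕ} {a : Fin k} {m : ℕ} {θ : Fin k → ℕ → ℤ × ℤ}
    (hθ : θ ∈ TS k n a) {v : List Dir} (hv : v ∈ SW m) :
    inD (DS n a θ) v ↔ Function.update θ a (fz m v) ∈ FS k (Function.update n a m) := by
  obtain ⟨hl, _⟩ := mem_SW.mp hv
  have hF := fz_mem hv
  constructor
  · intro hin
    -- arm `a` against another arm
    have key : ∀ c, c ≠ a → ∀ i j, i ≤ m → j ≤ n c → fz m v i = θ c j → i = 0 ∧ j = 0 := by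
      intro c hc i j hi hj hij
      have hj0 : j = 0 := by
        by_contra hj0
        have h1 := hin i (by omega) c hc j (by omega) hj
        apply h1
        rw [← hij]
        unfold fz
        rw [min_eq_left hi]
      refine ⟨?_, hj0⟩
      rw [hj0, (hθ.2.1 c hc).1, ← hF.1] at hij
      exact hF.2.1 i 0 hi (by omega) hij
    refine ⟨fun b => ?_, fun b c hbc i j hi hj hij => ?_⟩
    · by_cases hb : b = a
      · subst hb
        rw [Function.update_self, Function.update_self]
        exact hF
      · rw [Function.update_of_ne hb, Function.update_of_ne hb]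
        exact hθ.2.1 b hb
    · by_cases hb : b = a
      · subst hb
        have hc : c ≠ b := fun h => hbc h.symm
        rw [Function.update_self] at hi
        rw [Function.update_of_ne hc] at hj
        rw [Function.update_self, Function.update_of_ne hc] at hij
        exact key c hc i j hi hj hij
      · rw [Function.update_of_ne hb] at hi
        by_cases hc : c = a
        · subst hc
          rw [Function.update_self] at hj
          rw [Function.update_self, Function.update_of_ne hb] at hij
          have := key b hb j i hj hi hij.symm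
          exact ⟨this.2, this.1⟩
        · rw [Function.update_of_ne hc] at hj
          rw [Function.update_of_ne hb, Function.update_of_ne hc] at hij
          exact hθ.2.2 b c hb hc hbc i j hi hj hij
  · intro hS i hi b hb j hj1 hj2 he
    rw [hl] at hi
    have h1 := hS.2 a b (Ne.symm hb) i j (by rw [Function.update_self]; exact hi)
      (by rw [Function.update_of_ne hb]; exact hj2) (by
        rw [Function.update_self, Function.update_of_ne hb, he]
        unfold fz
        rw [min_eq_left hi])
    omega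

/-- the sum over the stars as a sum over the other arms and the words of the arm `a` -/
theorem sum_FS {k : ℕ} (n : Fin k → ℕ) (a : Fin k) (m : ℕ) (g : (Fin k → ℕ → ℤ × ℤ) → ℝ)
    (f : (Fin k → ℕ → ℤ × ℤ) → List Dir → ℝ)
    (hfg : ∀ θ ∈ TS k n a, ∀ v ∈ SW m, f θ v = g (Function.update θ a (fz m v))) :
    ∑ᶠ W ∈ FS k (Function.update n a m), g W =
      mom (fw (TS_finite k n a).toFinset (DS n a) f) m := by
  set T := (TS_finite k n a).toFinset with hT
  have hmemT : ∀ θ, θ ∈ T ↔ θ ∈ TS k n a := fun θ => by rw [hT, Set.Finite.mem_toFinset]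
  set SG := T.sigma (fun θ => (SW m).filter (fun v => inD (DS n a θ) v)) with hSG
  have himg : FS k (Function.update n a m) =
      (fun p : (Σ _ : (Fin k → ℕ → ℤ × ℤ), List Dir) => Function.update p.1 a (fz m p.2)) ''
        (SG : Set (Σ _ : (Fin k → ℕ → ℤ × ℤ), List Dir)) := by
    ext W
    constructor
    · intro hW
      have hWa := hW.1 a
      rw [Function.update_self] at hWa
      obtain ⟨v, hv, hvW⟩ := exists_fz hWa
      have hθ : Function.update W a (fun _ => 0) ∈ TS k n a := by
        refine ⟨Function.update_self _ _ _, fun b hb => ?_, fun b c hb hc hbc i j hi hj hij => ?_⟩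
        · have := hW.1 b
          rw [Function.update_of_ne hb] at this
          rw [Function.update_of_ne hb]
          exact this
        · rw [Function.update_of_ne hb, Function.update_of_ne hc] at hij
          exact hW.2 b c hbc i j (by rw [Function.update_of_ne hb]; exact hi)
            (by rw [Function.update_of_ne hc]; exact hj) hij
      have e : Function.update (Function.update W a (fun _ => 0)) a (fz m v) = W := by
        rw [Function.update_idem, hvW, Function.update_eq_self]
      refine ⟨⟨Function.update W a (fun _ => 0), v⟩, ?_, e⟩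
      rw [Finset.mem_coe, hSG, Finset.mem_sigma, Finset.mem_filter, hmemT]
      refine ⟨hθ, hv, (star_iff hθ hv).2 ?_⟩
      rw [e]
      exact hW
    · rintro ⟨⟨θ, v⟩, hp, rfl⟩
      rw [Finset.mem_coe, hSG, Finset.mem_sigma, Finset.mem_filter, hmemT] at hp
      exact (star_iff hp.1 hp.2.1).1 hp.2.2
  have hinj : Set.InjOn (fun p : (Σ _ : (Fin k → ℕ → ℤ × ℤ), List Dir) =>
      Function.update p.1 a (fz m p.2)) (SG : Set (Σ _ : (Fin k → ℕ → ℤ × ℤ), List Dir)) := by
    rintro ⟨θ, v⟩ hp ⟨θ', v'⟩ hp' he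
    rw [Finset.mem_coe, hSG, Finset.mem_sigma, Finset.mem_filter, hmemT] at hp hp'
    simp only at he
    have h1 : θ = θ' := by
      funext b
      by_cases hb : b = a
      · subst hb
        exact hp.1.1.trans hp'.1.1.symm
      · have := congrFun he b
        rw [Function.update_of_ne hb, Function.update_of_ne hb] at this
        exact this
    have h2 : v = v' := by
      have := congrFun he a
      rw [Function.update_self, Function.update_self] at this
      exact fz_inj m hp.2.1 hp'.2.1 this
    rw [h1, h2]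
  rw [himg, finsum_mem_image hinj, finsum_mem_coe_finset, hSG, Finset.sum_sigma]
  unfold mom fw
  rw [Finset.sum_comm]
  refine Finset.sum_congr rfl (fun θ hθ => ?_)
  rw [Finset.sum_filter]
  refine Finset.sum_congr rfl (fun v hv => ?_)
  simp only
  rw [hfg θ ((hmemT θ).1 hθ) v hv]

lemma FS_finite (k : ℕ) (n : Fin k → ℕ) : (FS k n).Finite := by
  refine Set.Finite.subset (Set.Finite.pi fun b => F_finite (n b)) ?_
  intro w hw b _
  exact hw.1 b

open Pool.Agent.Results.MP_8c6f77_pr.FourWalks (walks stars stars_finite)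

/-- a tuple of walks as a tuple of functions on `ℕ` -/
def toF {k : ℕ} {n : Fin k → ℕ} (w : (a : Fin k) → Fin (n a + 1) → ℤ × ℤ) : Fin k → ℕ → ℤ × ℤ :=
  fun a i => w a ⟨min i (n a), by omega⟩

lemma toF_inj {k : ℕ} {n : Fin k → ℕ} :
    Function.Injective (toF : ((a : Fin k) → Fin (n a + 1) → ℤ × ℤ) → _) := by
  intro w w' h
  funext a i
  have h1 := congrFun (congrFun h a) (i : ℕ)
  unfold toF at h1
  have e : (⟨min (i : ℕ) (n a), by omega⟩ : Fin (n a + 1)) = i := by
    apply Fin.ext
    simp only
    have := i.2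
    omega
  rw [e] at h1
  exact h1

lemma toF_image (k : ℕ) (n : Fin k → ℕ) : toF '' (stars k n) = FS k n := by
  ext W
  constructor
  · rintro ⟨w, ⟨hw, hd⟩, rfl⟩
    refine ⟨fun a => ?_, fun a b hab i j hi hj hij => ?_⟩
    · obtain ⟨h0, hinj, hs⟩ := hw a
      refine ⟨?_, fun i j hi hj hij => ?_, fun i hi => ?_, fun i hi => ?_⟩
      · unfold toF
        have e : (⟨min 0 (n a), by omega⟩ : Fin (n a + 1)) = 0 := Fin.ext (by simp)
        rw [e]; exact h0
      · have h1 := congrArg Fin.val (hinj hij)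
        simp only at h1
        omega
      · have h1 := hs ⟨i, hi⟩
        unfold toF
        have e1 : (⟨min (i + 1) (n a), by omega⟩ : Fin (n a + 1)) = (⟨i, hi⟩ : Fin (n a)).succ :=
          Fin.ext (by simp only [Fin.succ_mk]; omega)
        have e2 : (⟨min i (n a), by omega⟩ : Fin (n a + 1)) = (⟨i, hi⟩ : Fin (n a)).castSucc :=
          Fin.ext (by simp only [Fin.castSucc_mk]; omega)
        rw [e1, e2]
        exact h1
      · unfold toF
        congr 1
        apply Fin.ext
        simp only
        omega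
    · have h1 := hd a b hab _ _ hij
      have h2 := congrArg Fin.val h1.1
      have h3 := congrArg Fin.val h1.2
      simp only [Fin.val_zero] at h2 h3
      omega
  · rintro ⟨hW, hd⟩
    refine ⟨fun a i => W a i, ⟨fun a => ?_, fun a b hab i j hij => ?_⟩, ?_⟩
    · obtain ⟨h0, hinj, hs, hc⟩ := hW a
      refine ⟨h0, fun i j hij => ?_, fun i => ?_⟩
      · exact Fin.ext (hinj i j (by have := i.2; omega) (by have := j.2; omega) hij)
      · exact hs i i.2
    · have h1 := hd a b hab i j (by have := i.2; omega) (by have := j.2; omega) hij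
      exact ⟨Fin.ext h1.1, Fin.ext h1.2⟩
    · funext a i
      unfold toF
      simp only
      rcases le_total i (n a) with h | h
      · rw [min_eq_left h]
      · rw [min_eq_right h]; exact ((hW a).2.2.2 i h).symm

lemma ncard_stars (k : ℕ) (n : Fin k → ℕ) : (stars k n).ncard = (FS k n).ncard := by
  rw [← toF_image, (toF_inj.injOn).ncard_image]

lemma sum_stars (k : ℕ) (n : Fin k → ℕ) (g : (Fin k → ℕ → ℤ × ℤ) → ℝ) :
    ∑ᶠ w ∈ stars k n, g (toF w) = ∑ᶠ W ∈ FS k n, g W := by
  rw [← toF_image, finsum_mem_image (toF_inj.injOn)]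

lemma ncard_FS {k : ℕ} (n : Fin k → ℕ) (a : Fin k) (m : ℕ) :
    ((FS k (Function.update n a m)).ncard : ℝ) =
      mom (fw (TS_finite k n a).toFinset (DS n a) (fun _ _ => 1)) m := by
  rw [← sum_FS n a m (fun _ => 1) (fun _ _ => 1) (fun _ _ _ _ => rfl)]
  rw [finsum_mem_eq_finite_toFinset_sum _ (FS_finite k _), Finset.sum_const, nsmul_eq_mul, mul_one,
    ← Set.ncard_eq_toFinset_card _ (FS_finite k _)]

end Pool.Agent.X44.GR.St
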