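import Pool.Agent.X44.GR.St
import Pool.Agent.X44.GR.W

/-!
# Stars: ratio theorem and merging when an arm is lengthened
-/

set_option autoImplicit false
set_option linter.unusedVariables false

namespace Pool.Agent.X44.GR.St

open Finset Pool.Agent.H976R2 Pool.Agent.H739K Pool.Agent.X44.GR
open scoped Classical
open Pool.Agent.H976R2.Lip (PP dv)
open Pool.Agent.Results.MP_8c6f77_pr.FourWalks (walks stars stars_finite)

lemma walks_card (n : ℕ) : ((walks n).ncard : ℝ) = ((SW n).card : ℝ) := by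
  have h : walks n = {ω | Pool.Agent.H976R2.IsSAW n ω} := P.walks_eq n
  rw [h, ncard_saw]

/-- the lower bound for stars with the connective constant of the library -/
theorem star_low : ∃ K : ℝ, 0 ≤ K ∧ ∀ k : ℕ, 2 ≤ k → k ≤ 4 → ∀ n : Fin k → ℕ, (∀ a, 2 ≤ n a) →
    H981.mu ^ (∑ a, n a) * Real.exp (-(K * ∑ a, Real.log (n a) ^ 2)) ≤ ((FS k n).ncard : ℝ) := by
  obtain ⟨μ, K, hμ, hlim, h⟩ := Pool.Agent.Results.MP_8c6f77_pr.FourWalks.result
  have hlim2 : Filter.Tendsto (fun n : ℕ => ((walks n).ncard : ℝ) ^ (1 / (n : ℝ)))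
      Filter.atTop (nhds H981.mu) := by
    have h2 := H981.tendsto_root
    have hC : ∀ n, ((walks n).ncard : ℝ) = H981.cr' n := by
      intro n
      rw [walks_card, SWR.card_eq_cr']
    simpa only [hC] using h2
  have e : μ = H981.mu := tendsto_nhds_unique hlim hlim2
  subst e
  refine ⟨|K|, abs_nonneg K, fun k h2 h4 n hn => ?_⟩
  rw [← ncard_stars]
  refine le_trans ?_ (h k h2 h4 n hn).2.1
  apply mul_le_mul_of_nonneg_left _ (by positivity)
  apply Real.exp_le_exp.2
  have : 0 ≤ ∑ a, Real.log (n a : ℝ) ^ 2 := sum_nonneg (fun a _ => sq_nonneg _)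
  nlinarith [le_abs_self K]

lemma mom_const {ι : Type} (T : Finset ι) (D : ι → Set (ℤ × ℤ)) (c0 : ℝ) (f : ι → List Dir → ℝ)
    (m : ℕ) : mom (fw T D (fun θ v => c0 * f θ v)) m = c0 * mom (fw T D f) m := by
  unfold mom fw
  rw [mul_sum]
  refine sum_congr rfl (fun w _ => ?_)
  rw [mul_sum]
  refine sum_congr rfl (fun θ _ => ?_)
  split_ifs
  · rfl
  · rw [mul_zero]

/-- the normalisation -/
noncomputable def cc {k : ℕ} (n : Fin k → ℕ) (a : Fin k) : ℝ := (H981.mu ^ (∑ b ∈ univ.erase a, n b))⁻¹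

lemma cc_pos {k : ℕ} (n : Fin k → ℕ) (a : Fin k) : 0 < cc n a := by
  have := H981.mu_pos
  unfold cc
  positivity

theorem fam_star (κ : ℕ) : ∃ A : ℝ, 0 ≤ A ∧ ∀ k : ℕ, 2 ≤ k → k ≤ 4 → ∀ (n : Fin k → ℕ) (a : Fin k),
    3 ≤ n a → (∀ b, 2 ≤ n b ∧ n b ≤ (n a) ^ κ) →
    Fam A 0 2 (TS_finite k n a).toFinset (DS n a) (fun _ _ => cc n a) (n a) := by
  obtain ⟨K1, hK1, hup⟩ := card_upper (s := 2) le_rfl
  obtain ⟨K2, hK2, hlow⟩ := star_low
  have hmu := H981.mu_pos
  refine ⟨(1 + 12 * (κ : ℝ) ^ 2) * (K1 + K2), by positivity, fun k hk2 hk4 n a hna hn => ?_⟩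
  have hcp := cc_pos n a
  have hcard : (univ.erase a : Finset (Fin k)).card ≤ 3 := by
    rw [card_erase_of_mem (mem_univ a), card_univ, Fintype.card_fin]
    omega
  have hlogs : ∀ m : ℕ, n a ≤ 2 * m →
      ∑ b ∈ univ.erase a, Real.log (n b : ℝ) ^ 2 ≤ 12 * (κ : ℝ) ^ 2 * Real.log m ^ 2 := by
    intro m hm
    have hm2 : 2 ≤ m := by omega
    have hm0 : (0 : ℝ) < m := by exact_mod_cast (by omega : 0 < m)
    have hlm : 0 ≤ Real.log (m : ℝ) := Real.log_natCast_nonneg m
    have h1 : Real.log (n a : ℝ) ≤ 2 * Real.log m := by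
      apply P.log_le_of_le_sq (by omega)
      nlinarith
    have h2 : ∀ b ∈ univ.erase a, Real.log (n b : ℝ) ^ 2 ≤ 4 * (κ : ℝ) ^ 2 * Real.log m ^ 2 := by
      intro b _
      obtain ⟨g1, g2⟩ := hn b
      have hb0 : (0 : ℝ) < n b := by exact_mod_cast (by omega : 0 < n b)
      have h3 : Real.log (n b : ℝ) ≤ κ * Real.log (n a : ℝ) := by
        calc Real.log (n b : ℝ) ≤ Real.log ((n a : ℝ) ^ κ) :=
              Real.log_le_log hb0 (by exact_mod_cast g2)
          _ = κ * Real.log (n a : ℝ) := Real.log_pow _ _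
      have h4 : 0 ≤ Real.log (n b : ℝ) := Real.log_natCast_nonneg _
      have h5 : Real.log (n b : ℝ) ≤ 2 * κ * Real.log m := by
        refine h3.trans ?_
        have := mul_le_mul_of_nonneg_left h1 (Nat.cast_nonneg (α := ℝ) κ)
        linarith
      calc Real.log (n b : ℝ) ^ 2 ≤ (2 * κ * Real.log m) ^ 2 := pow_le_pow_left₀ h4 h5 2
        _ = _ := by ring
    refine (sum_le_sum h2).trans ?_
    rw [sum_const, nsmul_eq_mul]
    have h6 : ((univ.erase a : Finset (Fin k)).card : ℝ) ≤ 3 := by exact_mod_cast hcard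
    have h7 : 0 ≤ 4 * (κ : ℝ) ^ 2 * Real.log m ^ 2 := by positivity
    nlinarith
  refine ⟨fun _ _ _ => hcp.le, fun m g1 g2 g3 => ⟨fun _ => cc n a, fun _ _ _ _ => le_rfl, ?_⟩,
    fun m g1 g2 g3 θ hθ w hw => by simp, fun m g1 g2 g3 => ?_⟩
  · rw [sum_const, nsmul_eq_mul, ← Set.ncard_eq_toFinset_card _ (TS_finite k n a)]
    have h1 : ((TS k n a).ncard : ℝ) ≤ ∏ b ∈ univ.erase a, ((SW (n b)).card : ℝ) := by
      exact_mod_cast TS_card k n a
    have h2 : ∏ b ∈ univ.erase a, ((SW (n b)).card : ℝ) ≤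
        ∏ b ∈ univ.erase a, (H981.mu ^ (n b) * Real.exp (K1 * Real.log (n b) ^ 2)) :=
      prod_le_prod (fun b _ => Nat.cast_nonneg _) (fun b _ => hup (n b) (hn b).1)
    rw [prod_mul_distrib, prod_pow_eq_pow_sum, ← Real.exp_sum, ← mul_sum] at h2
    have hp : 0 < H981.mu ^ (∑ b ∈ univ.erase a, n b) := by positivity
    have h3 : K1 * ∑ b ∈ univ.erase a, Real.log (n b : ℝ) ^ 2 ≤
        (1 + 12 * (κ : ℝ) ^ 2) * (K1 + K2) * Real.log m ^ 2 := by
      have h4 := mul_le_mul_of_nonneg_left (hlogs m g1) hK1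
      have h5 : 0 ≤ (κ : ℝ) ^ 2 * K2 * Real.log m ^ 2 := by positivity
      have h6 : 0 ≤ (K1 + K2) * Real.log (m : ℝ) ^ 2 := by positivity
      nlinarith
    calc ((TS k n a).ncard : ℝ) * cc n a
        ≤ (H981.mu ^ (∑ b ∈ univ.erase a, n b) *
            Real.exp (K1 * ∑ b ∈ univ.erase a, Real.log (n b : ℝ) ^ 2)) * cc n a :=
          mul_le_mul_of_nonneg_right (h1.trans h2) hcp.le
      _ = Real.exp (K1 * ∑ b ∈ univ.erase a, Real.log (n b : ℝ) ^ 2) := by
          unfold cc
          rw [mul_comm, ← mul_assoc, inv_mul_cancel₀ hp.ne', one_mul]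
      _ ≤ _ := Real.exp_le_exp.2 h3
  · have hm2 : 2 ≤ m := by omega
    have h1 := hlow k hk2 hk4 (Function.update n a m) (fun b => by
      by_cases hb : b = a
      · rw [hb, Function.update_self]; exact hm2
      · rw [Function.update_of_ne hb]; exact (hn b).1)
    rw [ncard_FS n a m] at h1
    have e1 : (fun (_ : Fin k → ℕ → ℤ × ℤ) (_ : List Dir) => cc n a) =
        (fun (θ : Fin k → ℕ → ℤ × ℤ) (v : List Dir) => cc n a * (fun _ _ => (1 : ℝ)) θ v) := by
      funext θ v; simp
    rw [e1, mom_const]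
    have e2 : ∑ b, Function.update n a m b = m + ∑ b ∈ univ.erase a, n b := by
      rw [← add_sum_erase univ _ (mem_univ a), Function.update_self]
      congr 1
      exact sum_congr rfl (fun b hb => by rw [Function.update_of_ne (ne_of_mem_erase hb)])
    have e3 : ∑ b, Real.log (Function.update n a m b : ℝ) ^ 2 =
        Real.log m ^ 2 + ∑ b ∈ univ.erase a, Real.log (n b : ℝ) ^ 2 := by
      rw [← add_sum_erase univ _ (mem_univ a), Function.update_self]
      congr 1
      exact sum_congr rfl (fun b hb => by rw [Function.update_of_ne (ne_of_mem_erase hb)])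
    rw [e2, e3] at h1
    have hp : 0 < H981.mu ^ (∑ b ∈ univ.erase a, n b) := by positivity
    have h3 : K2 * (Real.log m ^ 2 + ∑ b ∈ univ.erase a, Real.log (n b : ℝ) ^ 2) ≤
        (1 + 12 * (κ : ℝ) ^ 2) * (K1 + K2) * Real.log m ^ 2 := by
      have h4 := mul_le_mul_of_nonneg_left (hlogs m g1) hK2
      have h5 : 0 ≤ (1 + 12 * (κ : ℝ) ^ 2) * K1 * Real.log m ^ 2 := by positivity
      nlinarith
    calc H981.mu ^ m * Real.exp (-((1 + 12 * (κ : ℝ) ^ 2) * (K1 + K2) * Real.log m ^ 2))
        ≤ H981.mu ^ m * Real.exp (-(K2 * (Real.log m ^ 2 +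
            ∑ b ∈ univ.erase a, Real.log (n b : ℝ) ^ 2))) := by
          apply mul_le_mul_of_nonneg_left _ (by positivity)
          exact Real.exp_le_exp.2 (by linarith)
      _ = cc n a * (H981.mu ^ (m + ∑ b ∈ univ.erase a, n b) * Real.exp (-(K2 * (Real.log m ^ 2 +
            ∑ b ∈ univ.erase a, Real.log (n b : ℝ) ^ 2)))) := by
          unfold cc
          rw [pow_add]
          field_simp
      _ ≤ _ := mul_le_mul_of_nonneg_left h1 hcp.le

/-- what is seen of a star: the arms `b ≠ a` and the first `j` steps of the arm `a` -/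
def vw {k : ℕ} (a : Fin k) (j : ℕ) (W : Fin k → ℕ → ℤ × ℤ) : Fin k → ℕ → ℤ × ℤ :=
  fun b i => if b = a ∧ j < i then 0 else W b i

theorem star_main (κ : ℕ) : ∃ K : ℝ, 0 ≤ K ∧ ∀ k : ℕ, 2 ≤ k → k ≤ 4 →
    ∀ (n : Fin k → ℕ) (a : Fin k), 3 ≤ n a → (∀ b, 2 ≤ n b ∧ n b ≤ (n a) ^ κ) →
    0 < ((FS k n).ncard : ℝ) ∧
    |((FS k (Function.update n a (n a + 2))).ncard : ℝ) / (H981.mu ^ 2 * ((FS k n).ncard : ℝ)) - 1| ≤
      K * (Real.log (n a) ^ 2 / √(n a)) ∧
    ∀ (j : ℕ) (G : (Fin k → ℕ → ℤ × ℤ) → ℝ), (∀ W, 0 ≤ G W ∧ G W ≤ 1) →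
    |(∑ᶠ W ∈ FS k (Function.update n a (n a + 2)), G (vw a j W)) /
        ((FS k (Function.update n a (n a + 2))).ncard : ℝ) -
      (∑ᶠ W ∈ FS k n, G (vw a j W)) / ((FS k n).ncard : ℝ)| ≤
      K * √((Real.log (n a) ^ 2 + j) * Real.log (n a) ^ 2 / n a) := by
  obtain ⟨A, hA, hfam⟩ := fam_star κ
  obtain ⟨K1, hK1, h1⟩ := main_fam A 0 hA le_rfl 2 le_rfl
  obtain ⟨K2, hK2, h2⟩ := merge_fam' A hA 2 le_rfl
  have hmu := H981.mu_pos
  refine ⟨K1 + 2 * K2, by positivity, fun k hk2 hk4 n a hna hn => ?_⟩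
  have hF := hfam k hk2 hk4 n a hna hn
  have hcp := cc_pos n a
  have e1 : (fun (_ : Fin k → ℕ → ℤ × ℤ) (_ : List Dir) => cc n a) =
      (fun (θ : Fin k → ℕ → ℤ × ℤ) (v : List Dir) => cc n a * (fun _ _ => (1 : ℝ)) θ v) := by
    funext θ v; simp
  have hmom : ∀ m, mom (fw (TS_finite k n a).toFinset (DS n a) (fun _ _ => cc n a)) m =
      cc n a * ((FS k (Function.update n a m)).ncard : ℝ) := by
    intro m
    rw [e1, mom_const, ← ncard_FS]
  have hself : Function.update n a (n a) = n := Function.update_eq_self a n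
  have hn3 : (3 : ℝ) ≤ n a := by exact_mod_cast hna
  have hnp : (0 : ℝ) < n a := by linarith
  have hpos : ∀ m, n a ≤ 2 * m → m ≤ 2 * n a → m % 2 = n a % 2 →
      0 < ((FS k (Function.update n a m)).ncard : ℝ) := by
    intro m g1 g2 g3
    have h3 := hF.low m g1 g2 g3
    rw [hmom] at h3
    have h4 : 0 < cc n a * ((FS k (Function.update n a m)).ncard : ℝ) :=
      lt_of_lt_of_le (by positivity) h3
    exact pos_of_mul_pos_right h4 hcp.le
  have hp1 := hpos (n a) (by omega) (by omega) rfl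
  rw [hself] at hp1
  refine ⟨hp1, ?_, fun j G hG => ?_⟩
  · have h3 := h1 _ _ _ _ (n a) hna hF
    rw [hmom, hmom, hself] at h3
    have e : cc n a * ((FS k (Function.update n a (n a + 2))).ncard : ℝ) /
        (H981.mu ^ 2 * (cc n a * ((FS k n).ncard : ℝ))) =
        ((FS k (Function.update n a (n a + 2))).ncard : ℝ) / (H981.mu ^ 2 * ((FS k n).ncard : ℝ)) := by
      field_simp
    rw [e] at h3
    refine h3.trans ?_
    apply mul_le_mul_of_nonneg_right _ (by positivity)
    linarith
  · obtain ⟨f, hf⟩ : ∃ f : (Fin k → ℕ → ℤ × ℤ) → List Dir → ℝ, f = fun θ v =>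
      G (vw a j (Function.update θ a (fz v.length v))) := ⟨_, rfl⟩
    have hf01 : ∀ θ w, 0 ≤ f θ w ∧ f θ w ≤ 1 := by
      intro θ w
      rw [hf]
      exact hG _
    have h3 := h2 0 (4 * j) le_rfl (by positivity) _ _ _ _ f (n a) hna hF hf01
      (fun m g1 g2 g3 θ hθ w hw => by
        obtain ⟨hl, _⟩ := mem_SW.mp hw
        calc ∑ p ∈ adm w, |f θ (ins w p.1 p.2) - f θ w|
            ≤ ∑ p ∈ adm w, (if p.1 < j then (1 : ℝ) else 0) := by
              refine sum_le_sum (fun p hp => ?_)
              have hp' : (p.1, p.2) ∈ adm w := hp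
              have hi := (H976R2.mem_adm.mp hp').1
              by_cases hj : p.1 < j
              · rw [if_pos hj]
                have a1 := hf01 θ (ins w p.1 p.2)
                have a2 := hf01 θ w
                rw [abs_le]
                constructor <;> linarith [a1.1, a1.2, a2.1, a2.2]
              · rw [if_neg hj]
                have e : f θ (ins w p.1 p.2) = f θ w := by
                  rw [hf]
                  simp only
                  congr 1
                  funext b i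
                  unfold vw
                  by_cases hb : b = a
                  · subst hb
                    by_cases hij : j < i
                    · rw [if_pos ⟨rfl, hij⟩, if_pos ⟨rfl, hij⟩]
                    · rw [if_neg (fun h => hij h.2), if_neg (fun h => hij h.2),
                        Function.update_self, Function.update_self]
                      unfold fz
                      rw [Lip.ins_length w p.1 p.2 hi, min_eq_left (by omega), min_eq_left (by omega)]
                      exact Lip.PP_ins_le w p.1 i p.2 hi (by omega)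
                  · rw [if_neg (fun h => hb h.1), if_neg (fun h => hb h.1),
                      Function.update_of_ne hb, Function.update_of_ne hb]
                rw [e, sub_self, abs_zero]
          _ = (((adm w).filter (fun p => p.1 < j)).card : ℝ) := by
              rw [← sum_filter, sum_const, nsmul_eq_mul, mul_one]
          _ ≤ 4 * j := by
              have hsub : (adm w).filter (fun p => p.1 < j) ⊆ range j ×ˢ (univ : Finset Dir) := by
                intro p hp
                rw [mem_filter] at hp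
                rw [mem_product, mem_range]
                exact ⟨hp.2, mem_univ _⟩
              have hc := card_le_card hsub
              rw [card_product, card_range] at hc
              have h4 : (univ : Finset Dir).card = 4 := rfl
              rw [h4] at hc
              have : ((adm w).filter (fun p => p.1 < j)).card ≤ 4 * j := by omega
              exact_mod_cast this)
    have hmf : ∀ m, mom (fw (TS_finite k n a).toFinset (DS n a)
        (fun θ v => cc n a * f θ v)) m =
        cc n a * ∑ᶠ W ∈ FS k (Function.update n a m), G (vw a j W) := by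
      intro m
      rw [mom_const, sum_FS n a m (fun W => G (vw a j W)) f (fun θ _ v hv => by
        rw [hf]
        simp only [(mem_SW.mp hv).1])]
    rw [hmf, hmf, hmom, hmom, hself, zero_add] at h3
    rw [mul_div_mul_left _ _ hcp.ne', mul_div_mul_left _ _ hcp.ne'] at h3
    refine h3.trans ?_
    obtain ⟨l, hl⟩ : ∃ l : ℝ, l = Real.log (n a) ^ 2 := ⟨_, rfl⟩
    have hl0 : 0 ≤ l := by rw [hl]; positivity
    rw [← hl]
    have h4 : √((l + 4 * j) * l / n a) ≤ 2 * √((l + j) * l / n a) := by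
      have e : (2 : ℝ) = √4 := by
        rw [show (4 : ℝ) = 2 ^ 2 by norm_num, Real.sqrt_sq (by norm_num)]
      rw [e, ← Real.sqrt_mul (by norm_num)]
      apply Real.sqrt_le_sqrt
      rw [mul_div_assoc', div_le_div_iff_of_pos_right hnp]
      have hk : (0 : ℝ) ≤ j := Nat.cast_nonneg j
      have : (l + 4 * j) * l ≤ (4 * (l + j)) * l := by
        apply mul_le_mul_of_nonneg_right _ hl0
        linarith
      linarith
    calc K2 * √((l + 4 * j) * l / n a) ≤ K2 * (2 * √((l + j) * l / n a)) := by gcongr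
      _ = 2 * K2 * √((l + j) * l / n a) := by ring
      _ ≤ _ := by
          apply mul_le_mul_of_nonneg_right _ (Real.sqrt_nonneg _)
          linarith

/-- the ratio of the numbers of walks from below -/
theorem count_low : ∃ K : ℝ, 0 ≤ K ∧ ∀ n : ℕ, 3 ≤ n → Real.exp (-(K * Real.log n ^ 2)) ≤
    ((SW (n + 2)).card : ℝ) / (H981.mu ^ 2 * ((SW n).card : ℝ)) := by
  obtain ⟨K3, hK3, h3⟩ := card_upper (s := 2) le_rfl
  have hmu := H981.mu_pos
  refine ⟨K3, hK3, fun n hn => ?_⟩
  have hcp : 0 < ((SW n).card : ℝ) := lt_of_lt_of_le (by positivity) (W.mu_pow_le_card n)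
  rw [le_div_iff₀ (mul_pos (by positivity) hcp)]
  have h5 := h3 n (by omega)
  calc Real.exp (-(K3 * Real.log n ^ 2)) * (H981.mu ^ 2 * ((SW n).card : ℝ))
      ≤ Real.exp (-(K3 * Real.log n ^ 2)) * (H981.mu ^ 2 *
        (H981.mu ^ n * Real.exp (K3 * Real.log n ^ 2))) := by gcongr
    _ = H981.mu ^ (n + 2) * (Real.exp (-(K3 * Real.log n ^ 2)) * Real.exp (K3 * Real.log n ^ 2)) := by
        ring
    _ = H981.mu ^ (n + 2) := by rw [← Real.exp_add, neg_add_cancel, Real.exp_zero, mul_one]
    _ ≤ _ := W.mu_pow_le_card (n + 2)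

end Pool.Agent.X44.GR.St
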