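import Pool.Agent.X44.GR.Cut2
import Pool.Agent.X44.GR.V2

/-!
# Traces: maxima of functions and ordered visits under insertions of bumps
-/

set_option autoImplicit false
set_option linter.unusedVariables false

namespace Pool.Agent.X44.GR.T

open Finset Pool.Agent.H976R2 Pool.Agent.H739K Pool.Agent.X44.GR
open scoped Classical
open Pool.Agent.H976R2.Lip (PP dv PP_inj PP_ins_le PP_ins_gt)

/-- a word with a bump is obtained by insertion -/
lemma ins_of_bump {w : List Dir} {i : ℕ} (h : i ∈ bumps w) :
    i + 2 < w.length ∧ (del w i).length + 2 = w.length ∧ i < (del w i).length ∧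
      ins (del w i) i (lt w i) = w := by
  obtain ⟨h1, h2, h3⟩ := H976R2.mem_bumps.mp h
  have hl := length_del h1
  exact ⟨h1, by omega, by omega, ins_del h1 h2⟩

lemma PP_del_le {w : List Dir} {i : ℕ} (h : i ∈ bumps w) {k : ℕ} (hk : k ≤ i) :
    PP (del w i) k = PP w k := by
  obtain ⟨h1, h2, h3, h4⟩ := ins_of_bump h
  have := PP_ins_le (del w i) i k (lt w i) h3 hk
  rw [h4] at this
  exact this.symm

lemma PP_del_gt {w : List Dir} {i : ℕ} (h : i ∈ bumps w) {k : ℕ} (hk : i < k) :
    PP (del w i) k = PP w (k + 2) := by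
  obtain ⟨h1, h2, h3, h4⟩ := ins_of_bump h
  have := PP_ins_gt (del w i) i k (lt w i) h3 hk
  rw [h4] at this
  exact this.symm

/-- the sites of the walk in their order -/
noncomputable def sites (w : List Dir) : List (ℤ × ℤ) := (List.range (w.length + 1)).map (PP w)

/-- the visited sites of `B` in their order -/
noncomputable def vis (B : Set (ℤ × ℤ)) (w : List Dir) : List (ℤ × ℤ) :=
  (sites w).filter (fun x => decide (x ∈ B))

/-- the maximum of `g` along the walk -/
noncomputable def top (g : ℤ × ℤ → ℝ) (w : List Dir) : ℝ :=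
  ⨆ i : Fin (w.length + 1), g (PP w i)

lemma sites_split {w : List Dir} {i : ℕ} (h : i ∈ bumps w) :
    sites w = (List.range (i + 1)).map (PP w) ++ [PP w (i + 1), PP w (i + 2)] ++
      (List.range (w.length - (i + 2))).map (fun k => PP w (i + 3 + k)) := by
  obtain ⟨h1, h2, h3, h4⟩ := ins_of_bump h
  unfold sites
  have e : w.length + 1 = (i + 1) + (2 + (w.length - (i + 2))) := by omega
  rw [e, @List.range_add (i + 1) (2 + (w.length - (i + 2))), List.map_append,
    @List.range_add 2 (w.length - (i + 2)), List.map_append, List.map_append, List.append_assoc]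
  congr 1
  congr 1
  rw [List.map_map, List.map_map]
  apply List.map_congr_left
  intro k hk
  simp only [Function.comp]
  congr 1
  ring

lemma sites_del {w : List Dir} {i : ℕ} (h : i ∈ bumps w) :
    sites (del w i) = (List.range (i + 1)).map (PP w) ++
      (List.range (w.length - (i + 2))).map (fun k => PP w (i + 3 + k)) := by
  obtain ⟨h1, h2, h3, h4⟩ := ins_of_bump h
  unfold sites
  have e : (del w i).length + 1 = (i + 1) + (w.length - (i + 2)) := by omega
  rw [e, List.range_add, List.map_append]
  congr 1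
  · apply List.map_congr_left
    intro k hk
    rw [List.mem_range] at hk
    exact PP_del_le h (by omega)
  · rw [List.map_map]
    apply List.map_congr_left
    intro k hk
    simp only [Function.comp]
    rw [PP_del_gt h (by omega)]
    congr 1
    ring

lemma vis_del {B : Set (ℤ × ℤ)} {w : List Dir} {i : ℕ} (h : i ∈ bumps w)
    (hB1 : PP w (i + 1) ∉ B) (hB2 : PP w (i + 2) ∉ B) : vis B (del w i) = vis B w := by
  unfold vis
  rw [sites_split h, sites_del h]
  simp [List.filter_append, hB1, hB2]

/-- the number of pivotal bumps for the visits in `B` -/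
lemma vis_card {B : Finset (ℤ × ℤ)} {w : List Dir} (hw : Saw w) :
    ((bumps w).filter (fun i => vis (B : Set (ℤ × ℤ)) (del w i) ≠ vis (B : Set (ℤ × ℤ)) w)).card ≤
      2 * B.card := by
  have hsub : (bumps w).filter (fun i => vis (B : Set (ℤ × ℤ)) (del w i) ≠ vis (B : Set (ℤ × ℤ)) w) ⊆
      (bumps w).filter (fun i => PP w (i + 1) ∈ B) ∪ (bumps w).filter (fun i => PP w (i + 2) ∈ B) := by
    intro i hi
    rw [mem_filter] at hi
    rw [mem_union, mem_filter, mem_filter]
    by_contra hc
    push Not at hc
    exact hi.2 (vis_del hi.1 (by simpa using hc.1 hi.1) (by simpa using hc.2 hi.1))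
  have hone : ∀ c : ℕ, c ≤ 2 → ((bumps w).filter (fun i => PP w (i + c) ∈ B)).card ≤ B.card := by
    intro c hc
    apply card_le_card_of_injOn (fun i => PP w (i + c))
    · intro i hi
      rw [mem_coe, mem_filter] at hi
      exact hi.2
    · intro i hi j hj hij
      rw [mem_coe, mem_filter] at hi hj
      have h1 := (ins_of_bump hi.1).1
      have h2 := (ins_of_bump hj.1).1
      have := PP_inj hw (by omega) (by omega) hij
      omega
  have h1 := card_le_card hsub
  have h2 := card_union_le ((bumps w).filter (fun i => PP w (i + 1) ∈ B))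
    ((bumps w).filter (fun i => PP w (i + 2) ∈ B))
  have h3 := hone 1 (by norm_num)
  have h4 := hone 2 (by norm_num)
  omega

lemma bdd_top (g : ℤ × ℤ → ℝ) (w : List Dir) :
    BddAbove (Set.range (fun i : Fin (w.length + 1) => g (PP w i))) := (Set.finite_range _).bddAbove

lemma le_top (g : ℤ × ℤ → ℝ) (w : List Dir) {k : ℕ} (hk : k ≤ w.length) : g (PP w k) ≤ top g w :=
  le_ciSup (bdd_top g w) (⟨k, by omega⟩ : Fin (w.length + 1))

lemma top_mem (g : ℤ × ℤ → ℝ) (w : List Dir) : ∃ k ≤ w.length, top g w = g (PP w k) := by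
  obtain ⟨i, hi⟩ := exists_eq_ciSup_of_finite (f := fun i : Fin (w.length + 1) => g (PP w i))
  exact ⟨i, by have := i.2; omega, hi.symm⟩

lemma top_del_le (g : ℤ × ℤ → ℝ) {w : List Dir} {i : ℕ} (h : i ∈ bumps w) :
    top g (del w i) ≤ top g w := by
  obtain ⟨h1, h2, h3, h4⟩ := ins_of_bump h
  apply ciSup_le
  intro k
  have hk := k.2
  by_cases hki : (k : ℕ) ≤ i
  · rw [PP_del_le h hki]
    exact le_top g w (by omega)
  · rw [PP_del_gt h (by omega)]
    exact le_top g w (by omega)

/-- the number of pivotal bumps for the maximum of `g` -/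
lemma top_card (g : ℤ × ℤ → ℝ) (w : List Dir) :
    ((bumps w).filter (fun i => top g (del w i) ≠ top g w)).card ≤ 2 := by
  obtain ⟨k, hk, hg⟩ := top_mem g w
  have hsub : (bumps w).filter (fun i => top g (del w i) ≠ top g w) ⊆ {k - 1, k - 2} := by
    intro i hi
    rw [mem_filter] at hi
    obtain ⟨hb, hne⟩ := hi
    obtain ⟨h1, h2, h3, h4⟩ := ins_of_bump hb
    rw [mem_insert, mem_singleton]
    by_contra hc
    push Not at hc
    apply hne
    apply le_antisymm (top_del_le g hb)
    rw [hg]
    by_cases hki : k ≤ i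
    · rw [← PP_del_le hb hki]
      exact le_top g _ (by omega)
    · have : k - 2 + 2 = k := by omega
      rw [← this, ← PP_del_gt hb (by omega)]
      exact le_top g _ (by omega)
  exact (card_le_card hsub).trans card_le_two

/-- the indicator of a change -/
noncomputable def ch {α : Type} (F : List Dir → α) (w w' : List Dir) : ℝ :=
  if F w = F w' then 0 else 1

lemma ch_nonneg {α : Type} (F : List Dir → α) (w w' : List Dir) : 0 ≤ ch F w w' := by
  unfold ch
  split_ifs <;> norm_num

lemma sum_ch {α : Type} (F : List Dir → α) (w : List Dir) :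
    ∑ i ∈ bumps w, ch F (del w i) w = (((bumps w).filter (fun i => F (del w i) ≠ F w)).card : ℝ) := by
  rw [card_filter]
  push_cast
  refine sum_congr rfl (fun i _ => ?_)
  unfold ch
  by_cases h : F (del w i) = F w
  · rw [if_pos h, if_neg (not_not.2 h)]
  · rw [if_neg h, if_pos h]

/-- bound for the sum over the bumps -/
lemma sum_b {k : ℕ} (g : Fin k → ℤ × ℤ → ℝ) (B : Finset (ℤ × ℤ)) {w : List Dir} (hw : Saw w) :
    ∑ i ∈ bumps w, (ch (vis (B : Set (ℤ × ℤ))) (del w i) w + ∑ j, ch (top (g j)) (del w i) w) ≤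
      2 * B.card + 2 * k := by
  rw [sum_add_distrib, sum_ch, sum_comm]
  refine add_le_add (by exact_mod_cast vis_card hw) ?_
  calc ∑ j : Fin k, ∑ i ∈ bumps w, ch (top (g j)) (del w i) w
      ≤ ∑ j : Fin k, (2 : ℝ) := by
        refine sum_le_sum (fun j _ => ?_)
        rw [sum_ch]
        exact_mod_cast top_card (g j) w
    _ = 2 * k := by rw [sum_const, card_univ, Fintype.card_fin, nsmul_eq_mul]; ring

end Pool.Agent.X44.GR.T
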