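import Pool.Agent.X44.GR.T

/-!
# Merging of the joint law of the ends, the trace in a window, maxima and the rescaled path
-/

set_option autoImplicit false
set_option linter.unusedVariables false

namespace Pool.Agent.X44.GR.T

open Finset Pool.Agent.H976R2 Pool.Agent.H739K Pool.Agent.X44.GR
open scoped Classical
open Pool.Agent.H976R2.Lip (PP dv PP_inj PP_ins_le PP_ins_gt)
open Pool.Agent.X44.GR.V (walks mean site path Low bad_card)

/-- the visited sites of `B` in the order of the visits -/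
noncomputable def visits {n : ℕ} (B : Finset (ℤ × ℤ)) (w : Fin (n + 1) → ℤ × ℤ) : List (ℤ × ℤ) :=
  (List.ofFn w).filter (fun x => decide (x ∈ B))

/-- the maximum of `g` along the walk -/
noncomputable def maxi {n : ℕ} (g : ℤ × ℤ → ℝ) (w : Fin (n + 1) → ℤ × ℤ) : ℝ := ⨆ i, g (w i)

lemma visits_pth {m : ℕ} {w : List Dir} (hl : w.length = m) (B : Finset (ℤ × ℤ)) :
    visits B (pth m w) = vis (B : Set (ℤ × ℤ)) w := by
  subst hl
  unfold visits vis sites
  have e : List.ofFn (pth w.length w) = (List.range (w.length + 1)).map (PP w) := by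
    rw [List.ofFn_eq_map, ← List.map_coe_finRange_eq_range, List.map_map]
    rfl
  rw [e]
  congr 1
  funext x
  simp

lemma maxi_pth {m : ℕ} {w : List Dir} (hl : w.length = m) (g : ℤ × ℤ → ℝ) :
    maxi g (pth m w) = top g w := by
  subst hl
  rfl

lemma ends_eq {m k : ℕ} {w : List Dir} (hw : w ∈ SW m) {i : ℕ} {e : Dir} (hi : i < w.length)
    (h : k ≤ i ∧ i + k + 1 ≤ m) :
    (fun l : Fin (k + 1) => site (pth (m + 2) (ins w i e)) l) = (fun l : Fin (k + 1) => site (pth m w) l) ∧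
    (fun l : Fin (k + 1) => site (pth (m + 2) (ins w i e)) (m + 2 - l)) =
      (fun l : Fin (k + 1) => site (pth m w) (m - l)) := by
  have hl := (mem_SW.mp hw).1
  constructor
  · funext l
    have hik := l.2
    rw [V.site_pth, V.site_pth, min_eq_left (by omega), min_eq_left (by omega)]
    exact Lip.PP_ins_le w i l e hi (by omega)
  · funext l
    have hik := l.2
    rw [V.site_pth, V.site_pth, min_eq_left (by omega), min_eq_left (by omega),
      show m + 2 - (l : ℕ) = (m - l) + 2 by omega]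
    exact Lip.PP_ins_gt w i (m - l) e hi (by omega)

/-- the functionals -/
abbrev Fct (j k : ℕ) := (Fin (j + 1) → ℤ × ℤ) → (Fin (j + 1) → ℤ × ℤ) → List (ℤ × ℤ) →
  (Fin k → ℝ) → (ℝ → ℝ × ℝ) → ℝ

/-- values in `[0, 1]`, Lipschitz in the path -/
structure Adm {j k : ℕ} (G : Fct j k) : Prop where
  val : ∀ a b l t x, 0 ≤ G a b l t x ∧ G a b l t x ≤ 1
  lip : ∀ a b l t (x y : ℝ → ℝ × ℝ) (δ : ℝ), (∀ u, 0 ≤ u → u ≤ 1 → ‖x u - y u‖ ≤ δ) →
    |G a b l t x - G a b l t y| ≤ δ

/-- the functional of the walk -/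
noncomputable def ev {j k : ℕ} (G : Fct j k) (B : Finset (ℤ × ℤ)) (g : Fin k → ℤ × ℤ → ℝ) (R : ℝ)
    (n : ℕ) (w : Fin (n + 1) → ℤ × ℤ) : ℝ :=
  G (fun i => site w i) (fun i => site w (n - i)) (visits B w) (fun l => maxi (g l) w) (path R w)

/-- change under an insertion -/
lemma ev_change {j k : ℕ} {G : Fct j k} (hG : Adm G) (B : Finset (ℤ × ℤ)) (g : Fin k → ℤ × ℤ → ℝ)
    {R : ℝ} (hR : 0 < R) {m : ℕ} {w : List Dir} (hw : w ∈ SW m) {i : ℕ} {e : Dir} (hi : i < w.length) :
    |ev G B g R (m + 2) (pth (m + 2) (ins w i e)) - ev G B g R m (pth m w)| ≤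
      ((if ¬ (j ≤ i ∧ i + j + 1 ≤ m) then (1 : ℝ) else 0) + 2 / R) +
      (ch (vis (B : Set (ℤ × ℤ))) w (ins w i e) + ∑ l, ch (top (g l)) w (ins w i e)) := by
  have hl := (mem_SW.mp hw).1
  have hl2 : (ins w i e).length = m + 2 := by rw [Lip.ins_length w i e hi, hl]
  have hR2 : 0 ≤ 2 / R := by positivity
  have hc1 := ch_nonneg (vis (B : Set (ℤ × ℤ))) w (ins w i e)
  have hc2 : 0 ≤ ∑ l, ch (top (g l)) w (ins w i e) := sum_nonneg (fun l _ => ch_nonneg _ _ _)
  have hone : |ev G B g R (m + 2) (pth (m + 2) (ins w i e)) - ev G B g R m (pth m w)| ≤ 1 := by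
    have h1 := hG.val (fun l => site (pth (m + 2) (ins w i e)) l)
      (fun l => site (pth (m + 2) (ins w i e)) (m + 2 - l)) (visits B (pth (m + 2) (ins w i e)))
      (fun l => maxi (g l) (pth (m + 2) (ins w i e))) (path R (pth (m + 2) (ins w i e)))
    have h2 := hG.val (fun l => site (pth m w) l) (fun l => site (pth m w) (m - l))
      (visits B (pth m w)) (fun l => maxi (g l) (pth m w)) (path R (pth m w))
    unfold ev
    rw [abs_le]
    constructor <;> linarith [h1.1, h1.2, h2.1, h2.2]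
  by_cases hbad : j ≤ i ∧ i + j + 1 ≤ m
  · rw [if_neg (not_not.2 hbad)]
    by_cases hv : vis (B : Set (ℤ × ℤ)) w = vis (B : Set (ℤ × ℤ)) (ins w i e)
    · by_cases ht : ∀ l, top (g l) w = top (g l) (ins w i e)
      · obtain ⟨e1, e2⟩ := ends_eq (k := j) (e := e) hw hi hbad
        have e3 : visits B (pth (m + 2) (ins w i e)) = visits B (pth m w) := by
          rw [visits_pth hl2, visits_pth hl, hv]
        have e4 : (fun l => maxi (g l) (pth (m + 2) (ins w i e))) = (fun l => maxi (g l) (pth m w)) := by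
          funext l
          rw [maxi_pth hl2, maxi_pth hl, ht l]
        unfold ev
        rw [e1, e2, e3, e4]
        have := hG.lip (fun l => site (pth m w) l) (fun l => site (pth m w) (m - l))
          (visits B (pth m w)) (fun l => maxi (g l) (pth m w)) (path R (pth (m + 2) (ins w i e)))
          (path R (pth m w)) (2 / R) (fun u h0 h1 => V.path_close hw hi hR h0 h1)
        linarith
      · push Not at ht
        obtain ⟨l, hlt⟩ := ht
        have h1 : (1 : ℝ) ≤ ∑ l, ch (top (g l)) w (ins w i e) := by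
          have h2 : ch (top (g l)) w (ins w i e) = 1 := by unfold ch; rw [if_neg hlt]
          rw [← h2]
          exact single_le_sum (f := fun l => ch (top (g l)) w (ins w i e))
            (fun l _ => ch_nonneg _ _ _) (mem_univ l)
        linarith
    · have h1 : ch (vis (B : Set (ℤ × ℤ))) w (ins w i e) = 1 := by unfold ch; rw [if_neg hv]
      linarith
  · rw [if_pos hbad]
    linarith

/-- the functional of the word -/
noncomputable def evw {j k : ℕ} (G : Fct j k) (B : Finset (ℤ × ℤ)) (g : Fin k → ℤ × ℤ → ℝ) (R : ℝ)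
    (w : List Dir) : ℝ := ev G B g R w.length (pth w.length w)

lemma en_evw {j k : ℕ} {G : Fct j k} (hG : Adm G) (B : Finset (ℤ × ℤ)) (g : Fin k → ℤ × ℤ → ℝ)
    {R : ℝ} (hR : 0 < R) (D : Set (ℤ × ℤ)) {m n : ℕ} (hmn : m ≤ 2 * n) :
    en D (evw G B g R) m ≤ 8 * ((j + B.card + k : ℕ) + n / R) *
      (ms D (fun _ => 1) m + ms D (fun _ => 1) (m + 2)) := by
  have hnR : 0 ≤ (n : ℝ) / R := by positivity
  apply en_mix (fun w p => (if ¬ (j ≤ p.1 ∧ p.1 + j + 1 ≤ m) then (1 : ℝ) else 0) + 2 / R)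
    (fun w w' => ch (vis (B : Set (ℤ × ℤ))) w w' + ∑ l, ch (top (g l)) w w')
  · intro w p
    have : 0 ≤ 2 / R := by positivity
    split_ifs <;> linarith
  · intro w hw hin p hp hin'
    have hp' : (p.1, p.2) ∈ adm w := hp
    have hi := (H976R2.mem_adm.mp hp').1
    have hl := (mem_SW.mp hw).1
    have hl2 : (ins w p.1 p.2).length = m + 2 := by rw [Lip.ins_length w p.1 p.2 hi, hl]
    have h1 := ev_change hG B g hR hw (e := p.2) hi
    unfold evw
    subst hl
    rw [hl2]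
    exact h1
  · intro w hw hin
    have hl := (mem_SW.mp hw).1
    rw [sum_add_distrib, ← sum_filter, sum_const, sum_const, nsmul_eq_mul, nsmul_eq_mul, mul_one, mul_one]
    have h1 : (((adm w).filter (fun p => ¬ (j ≤ p.1 ∧ p.1 + j + 1 ≤ m))).card : ℝ) ≤ 8 * j := by
      exact_mod_cast bad_card m j w hl
    have h2 : ((adm w).card : ℝ) * (2 / R) ≤ 8 * (n / R) := by
      have h3 : ((adm w).card : ℝ) ≤ 2 * m := by
        have := AA_le w
        rw [hl] at this
        exact_mod_cast this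
      have h4 : (m : ℝ) ≤ 2 * n := by exact_mod_cast hmn
      calc ((adm w).card : ℝ) * (2 / R) ≤ (4 * n) * (2 / R) := by gcongr; linarith
        _ = _ := by ring
    push_cast
    have hB : (0 : ℝ) ≤ B.card := Nat.cast_nonneg _
    have hk : (0 : ℝ) ≤ k := Nat.cast_nonneg _
    linarith
  · intro w hw hin
    rw [mul_one]
    refine (sum_b g B (mem_SW.mp hw).2).trans ?_
    push_cast
    have hB : (0 : ℝ) ≤ B.card := Nat.cast_nonneg _
    have hk : (0 : ℝ) ≤ k := Nat.cast_nonneg _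
    have hj : (0 : ℝ) ≤ j := Nat.cast_nonneg _
    linarith

lemma mean_eq {j k : ℕ} (G : Fct j k) (B : Finset (ℤ × ℤ)) (g : Fin k → ℤ × ℤ → ℝ) (R : ℝ)
    (D : Set (ℤ × ℤ)) (m : ℕ) :
    mean D m (ev G B g R m) = mom (fw ({()} : Finset Unit) (fun _ => D) (fun _ => evw G B g R)) m /
      mom (fw ({()} : Finset Unit) (fun _ => D) (fun _ _ => (1 : ℝ))) m := by
  unfold mean
  rw [V.card_walks]
  congr 1
  exact V.sum_walks D m (ev G B g R m) (evw G B g R) (fun w hw => by
    have hl := (mem_SW.mp hw).1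
    subst hl
    rfl)

/-- **merging** of the joint law of the ends, the trace in a window, maxima and the rescaled path:
`E` bounds the exits -/
theorem traces (A : ℝ) (hA : 0 ≤ A) (s : ℕ) (hs : 2 ≤ s) : ∃ K : ℝ, 0 ≤ K ∧
    ∀ (E : ℝ), 0 ≤ E → ∀ (D : Set (ℤ × ℤ)) (n : ℕ), 3 ≤ n →
    FamE A 0 E s ({()} : Finset Unit) (fun _ => D) (fun _ _ => (1 : ℝ)) n →
    ∀ (j k : ℕ) (G : Fct j k) (B : Finset (ℤ × ℤ)) (g : Fin k → ℤ × ℤ → ℝ) (R : ℝ), 0 < R → Adm G →
    |mean D (n + 2) (ev G B g R (n + 2)) - mean D n (ev G B g R n)| ≤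
      K * √(Real.log n ^ s * ((1 + E + (j + B.card + k : ℕ)) / n + 1 / R)) := by
  obtain ⟨K, hK, h⟩ := mergeE (ι := Unit) A hA s hs
  refine ⟨K * √8, by positivity, fun E hE D n hn hF j k G B g R hR hG => ?_⟩
  have hn' : (3 : ℝ) ≤ n := by exact_mod_cast hn
  have hnp : (0 : ℝ) < n := by linarith
  rw [mean_eq, mean_eq]
  have h1 := h 0 (8 * ((j + B.card + k : ℕ) + n / R)) E le_rfl (by positivity) hE {()} (fun _ => D)
    (fun _ _ => 1) (fun _ => evw G B g R) n hn hF (fun θ _ w => hG.val _ _ _ _ _)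
    (fun m g1 g2 g3 => by
      rw [mom_fw, mom_fw, sum_singleton, sum_singleton, sum_singleton]
      exact en_evw hG B g hR D g2)
  refine h1.trans ?_
  rw [mul_assoc]
  apply mul_le_mul_of_nonneg_left _ hK
  have hl : 0 ≤ Real.log (n : ℝ) ^ s := pow_nonneg (Real.log_natCast_nonneg n) s
  rw [← Real.sqrt_mul (by norm_num)]
  apply Real.sqrt_le_sqrt
  obtain ⟨N, hN⟩ : ∃ N : ℝ, N = ((j + B.card + k : ℕ) : ℝ) := ⟨_, rfl⟩
  have hN0 : 0 ≤ N := by rw [hN]; positivity
  rw [← hN]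
  have e : 8 * (Real.log (n : ℝ) ^ s * ((1 + E + N) / n + 1 / R)) =
      (8 * (1 + E + N + n / R)) * Real.log (n : ℝ) ^ s / n := by field_simp
  rw [e]
  apply div_le_div_of_nonneg_right _ hnp.le
  apply mul_le_mul_of_nonneg_right _ hl
  have : 0 ≤ (n : ℝ) / R := by positivity
  linarith

/-- the family with one domain -/
theorem famE_low (A : ℝ) (hA : 0 ≤ A) (s : ℕ) (hs : 2 ≤ s) : ∃ L : ℝ, 0 ≤ L ∧
    ∀ (D : Set (ℤ × ℤ)) (n : ℕ), 3 ≤ n → Low A s H981.mu D n →
    FamE A 0 (L * Real.log n ^ s) s ({()} : Finset Unit) (fun _ => D) (fun _ _ => (1 : ℝ)) n := by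
  obtain ⟨L, hL, h⟩ := famE_dom (ι := Unit) A hA hs
  refine ⟨L, hL, fun D n hn hlow => ?_⟩
  have hF := V.fam_of_low hA hlow
  refine h 0 _ _ _ n hn hF.nonneg hF.le hF.low (fun m g1 g2 g3 => ?_)
  rw [zero_mul, sum_singleton]
  unfold en
  refine le_of_eq (sum_eq_zero (fun w _ => sum_eq_zero (fun p _ => ?_)))
  simp

/-- the same in the plane -/
theorem famE_univ {A : ℝ} {s n : ℕ} (hA : 0 ≤ A) (hlow : Low A s H981.mu Set.univ n) :
    FamE A 0 0 s ({()} : Finset Unit) (fun _ => Set.univ) (fun _ _ => (1 : ℝ)) n := by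
  have hF := V.fam_of_low hA hlow
  refine ⟨hF.nonneg, hF.le, hF.low, fun m g1 g2 g3 => ?_, fun m g1 g2 g3 => ?_⟩
  · rw [zero_mul, sum_singleton]
    unfold en
    refine le_of_eq (sum_eq_zero (fun w _ => sum_eq_zero (fun p _ => ?_)))
    simp
  · rw [xt_univ, zero_mul]

end Pool.Agent.X44.GR.T
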